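import Pool.Agent.Lib.H3MT.AK1

/-! # H3MT, chunk AK2: the two recurrences (fundamental theorem of calculus on `(0,∞)`) -/

open MeasureTheory Set

namespace Pool.Agent.Lib.H3MT

theorem AK2_g_tendsto {lam : ℝ} (hl : 0 < lam) (r : ℝ) :
    Filter.Tendsto (fun b : ℝ => Real.exp (-(b * r)) * W lam b) Filter.atTop (nhds 0) := by
  have h1 : Filter.Tendsto (fun b : ℝ => Real.exp ((r - 1) ^ 2 / (2 * lam)) * Real.exp (-b))
      Filter.atTop (nhds (Real.exp ((r - 1) ^ 2 / (2 * lam)) * 0)) :=
    Real.tendsto_exp_neg_atTop_nhds_zero.const_mul _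
  rw [mul_zero] at h1
  refine tendsto_of_tendsto_of_tendsto_of_le_of_le' tendsto_const_nhds h1 ?_ ?_
  · exact Filter.Eventually.of_forall fun b => mul_nonneg (Real.exp_pos _).le (W_pos _ _).le
  · exact (Filter.eventually_ge_atTop 0).mono fun b hb => AK1_g_bound hl r hb

theorem AK2_f_tendsto {lam t : ℝ} (hl : 0 < lam) (ht : 0 ≤ t) :
    Filter.Tendsto (fun b : ℝ => Real.exp (-(b * t)) * Vk lam b) Filter.atTop (nhds 0) := by
  have h0 : Filter.Tendsto (fun b : ℝ => Real.exp (-lam * b)) Filter.atTop (nhds 0) := by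
    have h2 : Filter.Tendsto (fun b : ℝ => lam * b) Filter.atTop Filter.atTop :=
      Filter.tendsto_id.const_mul_atTop hl
    have h3 := Real.tendsto_exp_neg_atTop_nhds_zero.comp h2
    refine h3.congr fun b => ?_
    simp only [Function.comp]
    congr 1
    ring
  have h1 : Filter.Tendsto (fun b : ℝ => Real.exp lam * Real.exp (-lam * b))
      Filter.atTop (nhds (Real.exp lam * 0)) := h0.const_mul _
  rw [mul_zero] at h1
  refine tendsto_of_tendsto_of_tendsto_of_le_of_le' tendsto_const_nhds h1 ?_ ?_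
  · exact Filter.Eventually.of_forall fun b => mul_nonneg (Real.exp_pos _).le (Vk_pos _ _).le
  · exact (Filter.eventually_ge_atTop 0).mono fun b hb => AK1_f_bound hl ht hb

theorem AK2_g_deriv (lam r b : ℝ) : HasDerivAt (fun b : ℝ => Real.exp (-(b * r)) * W lam b)
    ((-r) * (Real.exp (-(b * r)) * W lam b) - lam * (Real.exp (-(b * (r - 1))) * W lam b) +
      lam * (Real.exp (-(b * r)) * W lam b)) b := by
  have h1 : HasDerivAt (fun b : ℝ => -(b * r)) (-r) b := (hasDerivAt_mul_const r (x := b)).neg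
  have h2 : HasDerivAt (fun b : ℝ => -(lam * (Real.exp b - 1 - b)))
      (-(lam * (Real.exp b - 1))) b := by
    have h3 := (((Real.hasDerivAt_exp b).sub_const 1).sub (hasDerivAt_id b)).const_mul lam
    exact h3.neg
  have h4 := h1.exp.mul h2.exp
  have h5 : Real.exp (-(b * (r - 1))) = Real.exp (-(b * r)) * Real.exp b := by
    rw [← Real.exp_add]
    congr 1
    ring
  refine h4.congr_deriv ?_
  rw [h5]
  unfold W
  ring

theorem AK2_f_deriv (lam t b : ℝ) : HasDerivAt (fun b : ℝ => Real.exp (-(b * t)) * Vk lam b)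
    ((-t) * (Real.exp (-(b * t)) * Vk lam b) - lam * (Real.exp (-(b * t)) * Vk lam b) +
      lam * (Real.exp (-(b * (t + 1))) * Vk lam b)) b := by
  have h1 : HasDerivAt (fun b : ℝ => -(b * t)) (-t) b := (hasDerivAt_mul_const t (x := b)).neg
  have h0 : HasDerivAt (fun x : ℝ => Real.exp (-x)) (-Real.exp (-b)) b := by
    have h2 := (Real.hasDerivAt_exp (-b)).comp b (hasDerivAt_neg b)
    have h3 : Real.exp (-b) * -1 = -Real.exp (-b) := by ring
    rw [h3] at h2
    exact h2
  have h2 : HasDerivAt (fun b : ℝ => -(lam * (Real.exp (-b) - 1 + b)))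
      (-(lam * (-Real.exp (-b) + 1))) b := by
    have h3 := ((h0.sub_const 1).add (hasDerivAt_id b)).const_mul lam
    exact h3.neg
  have h4 := h1.exp.mul h2.exp
  have h5 : Real.exp (-(b * (t + 1))) = Real.exp (-(b * t)) * Real.exp (-b) := by
    rw [← Real.exp_add]
    congr 1
    ring
  refine h4.congr_deriv ?_
  rw [h5]
  unfold Vk
  ring

/-- `d/db (e^{-br} W lam b) = (-r - lam (e^b - 1)) e^{-br} W lam b`; the function is `1` at `0` and tends
to `0` at infinity; integrate over `(0,∞)` (`integral_Ioi_of_hasDerivAt_of_tendsto`), the integrand is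
`-r e^{-br} W - lam e^{-b(r-1)} W + lam e^{-br} W`, all integrable by `g_int`. -/
theorem g_rec {lam : ℝ} (hl : 0 < lam) (r : ℝ) :
    r * g lam r + lam * (g lam (r - 1) - g lam r) = 1 := by
  have i1 := g_int hl r
  have i2 := g_int hl (r - 1)
  have j1 : IntegrableOn (fun b : ℝ => (-r) * (Real.exp (-(b * r)) * W lam b)) (Ioi 0) :=
    i1.const_mul _
  have j2 : IntegrableOn (fun b : ℝ => lam * (Real.exp (-(b * (r - 1))) * W lam b)) (Ioi 0) :=
    i2.const_mul _
  have j3 : IntegrableOn (fun b : ℝ => lam * (Real.exp (-(b * r)) * W lam b)) (Ioi 0) :=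
    i1.const_mul _
  have j12 : IntegrableOn (fun b : ℝ => (-r) * (Real.exp (-(b * r)) * W lam b) -
      lam * (Real.exp (-(b * (r - 1))) * W lam b)) (Ioi 0) := j1.sub j2
  have j : IntegrableOn (fun b : ℝ => (-r) * (Real.exp (-(b * r)) * W lam b) -
      lam * (Real.exp (-(b * (r - 1))) * W lam b) +
      lam * (Real.exp (-(b * r)) * W lam b)) (Ioi 0) := j12.add j3
  have h := integral_Ioi_of_hasDerivAt_of_tendsto (a := (0 : ℝ))
    (AK2_g_deriv lam r 0).continuousAt.continuousWithinAt
    (fun b _ => AK2_g_deriv lam r b) j (AK2_g_tendsto hl r)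
  rw [integral_add j12 j3, integral_sub j1 j2, integral_const_mul, integral_const_mul,
    integral_const_mul] at h
  have h0 : Real.exp (-((0 : ℝ) * r)) * W lam 0 = 1 := by
    unfold W
    simp
  rw [h0] at h
  have h' : (-r) * g lam r - lam * g lam (r - 1) + lam * g lam r = 0 - 1 := h
  linarith

/-- `d/db (e^{-bt} Vk lam b) = (-t - lam (1 - e^{-b})) e^{-bt} Vk lam b`; same argument. -/
theorem f_rec {lam t : ℝ} (hl : 0 < lam) (ht : 0 ≤ t) :
    t * f lam t + lam * (f lam t - f lam (t + 1)) = 1 := by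
  have i1 := f_int hl ht
  have i2 := f_int (t := t + 1) hl (by linarith)
  have j1 : IntegrableOn (fun b : ℝ => (-t) * (Real.exp (-(b * t)) * Vk lam b)) (Ioi 0) :=
    i1.const_mul _
  have j2 : IntegrableOn (fun b : ℝ => lam * (Real.exp (-(b * t)) * Vk lam b)) (Ioi 0) :=
    i1.const_mul _
  have j3 : IntegrableOn (fun b : ℝ => lam * (Real.exp (-(b * (t + 1))) * Vk lam b)) (Ioi 0) :=
    i2.const_mul _
  have j12 : IntegrableOn (fun b : ℝ => (-t) * (Real.exp (-(b * t)) * Vk lam b) -
      lam * (Real.exp (-(b * t)) * Vk lam b)) (Ioi 0) := j1.sub j2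
  have j : IntegrableOn (fun b : ℝ => (-t) * (Real.exp (-(b * t)) * Vk lam b) -
      lam * (Real.exp (-(b * t)) * Vk lam b) +
      lam * (Real.exp (-(b * (t + 1))) * Vk lam b)) (Ioi 0) := j12.add j3
  have h := integral_Ioi_of_hasDerivAt_of_tendsto (a := (0 : ℝ))
    (AK2_f_deriv lam t 0).continuousAt.continuousWithinAt
    (fun b _ => AK2_f_deriv lam t b) j (AK2_f_tendsto hl ht)
  rw [integral_add j12 j3, integral_sub j1 j2, integral_const_mul, integral_const_mul,
    integral_const_mul] at h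
  have h0 : Real.exp (-((0 : ℝ) * t)) * Vk lam 0 = 1 := by
    unfold Vk
    simp
  rw [h0] at h
  have h' : (-t) * f lam t - lam * f lam t + lam * f lam (t + 1) = 0 - 1 := h
  linarith

end Pool.Agent.Lib.H3MT
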