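import Pool.Agent.Lib.H3MT.AE
import Pool.Agent.Lib.H3MT.AK2

/-! # H3MT, chunk AB: the two kernel inequalities -/

open MeasureTheory Set

namespace Pool.Agent.Lib.H3MT

variable {R : Type} [Fintype R] [Nonempty R]

theorem mn_affine_aux (n : ℝ) (A B : R → ℝ) :
    mn (fun r => 1 + n * (A r - B r)) = 1 + n * (mn A - mn B) := by
  rw [mn_add, mn_mul_left, mn_sub, mn_const]

/-- (B+), `lam = n w`. By `g_rec` with `q - x`: `(q-x) g (q-x) = 1 - lam (g (q-x-1) - g (q-x))`, so the claim is
`E[(x-s) g(q-x)] ≤ w E[g(q-x-1) - g(q-x)]`; both sides are integrals over `b` with weight `e^{-bq} W lam b` of the two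
sides of (E1) (`mn_integral`; `g lam (q-x) = ∫ e^{-bq} e^{bx} W`). -/
theorem Bplus {x : R → ℝ} {s w : ℝ} (L : Law x s w) {n : ℝ} (hn : 0 < n) (q : ℝ) :
    mn (fun r => ((q - x r) + n * (x r - s)) * g (n * w) (q - x r)) ≤ 1 := by
  have hw := L.wpos
  set lam := n * w with hlam
  have hl : 0 < lam := by positivity
  -- the key inequality
  have hA : mn (fun r => (x r - s) * g lam (q - x r)) =
      ∫ b in Ioi (0 : ℝ), mn (fun r => (x r - s) * (Real.exp (-(b * (q - x r))) * W lam b)) := by
    rw [← mn_integral (fun r b => (x r - s) * (Real.exp (-(b * (q - x r))) * W lam b))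
      (fun r => (g_int hl (q - x r)).const_mul _)]
    congr 1
    funext r
    unfold g
    rw [integral_const_mul]
  have hBi : ∀ r, Integrable (fun b : ℝ => w * (Real.exp (-(b * (q - x r - 1))) * W lam b -
      Real.exp (-(b * (q - x r))) * W lam b)) (volume.restrict (Ioi (0 : ℝ))) := fun r =>
    (((g_int hl (q - x r - 1)).sub (g_int hl (q - x r))).const_mul w)
  have hB : mn (fun r => w * (g lam (q - x r - 1) - g lam (q - x r))) =
      ∫ b in Ioi (0 : ℝ), mn (fun r => w * (Real.exp (-(b * (q - x r - 1))) * W lam b -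
        Real.exp (-(b * (q - x r))) * W lam b)) := by
    rw [← mn_integral _ hBi]
    congr 1
    funext r
    unfold g
    rw [integral_const_mul, integral_sub (g_int hl _) (g_int hl _)]
  have hmn_int : ∀ F : R → ℝ → ℝ, (∀ r, Integrable (F r) (volume.restrict (Ioi (0 : ℝ)))) →
      Integrable (fun b => mn (fun r => F r b)) (volume.restrict (Ioi (0 : ℝ))) := by
    intro F hF
    unfold mn
    exact (integrable_finset_sum _ (fun r _ => hF r)).div_const _
  have hkey : mn (fun r => (x r - s) * g lam (q - x r)) ≤
      mn (fun r => w * (g lam (q - x r - 1) - g lam (q - x r))) := by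
    rw [hA, hB]
    refine setIntegral_mono_on (hmn_int _ (fun r => (g_int hl (q - x r)).const_mul _))
      (hmn_int _ hBi) measurableSet_Ioi ?_
    intro b hb
    have hb0 : 0 ≤ b := (mem_Ioi.1 hb).le
    have h1 := E1 L hb0
    have hW := W_pos lam b
    have h2 : mn (fun r => (x r - s) * (Real.exp (-(b * (q - x r))) * W lam b)) =
        (Real.exp (-(b * q)) * W lam b) * mn (fun r => (x r - s) * Real.exp (b * x r)) := by
      rw [← mn_mul_left]
      congr 1
      funext r
      rw [show -(b * (q - x r)) = -(b * q) + b * x r by ring]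
      simp only [Real.exp_add]
      ring
    have h3 : mn (fun r => w * (Real.exp (-(b * (q - x r - 1))) * W lam b -
        Real.exp (-(b * (q - x r))) * W lam b)) =
        (Real.exp (-(b * q)) * W lam b) *
          (w * (Real.exp b - 1) * mn (fun r => Real.exp (b * x r))) := by
      rw [← mn_mul_left, ← mn_mul_left]
      congr 1
      funext r
      rw [show -(b * (q - x r - 1)) = -(b * q) + b * x r + b by ring,
        show -(b * (q - x r)) = -(b * q) + b * x r by ring]
      simp only [Real.exp_add]
      ring
    rw [h2, h3]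
    exact mul_le_mul_of_nonneg_left h1 (by positivity)
  have hrec : ∀ r, ((q - x r) + n * (x r - s)) * g lam (q - x r) =
      1 + n * ((x r - s) * g lam (q - x r) - w * (g lam (q - x r - 1) - g lam (q - x r))) := by
    intro r
    have := g_rec hl (q - x r)
    have h4 : (q - x r) * g lam (q - x r) = 1 - n * w * (g lam (q - x r - 1) - g lam (q - x r)) := by
      rw [← hlam]; linarith
    rw [add_mul, h4]
    ring
  calc mn (fun r => ((q - x r) + n * (x r - s)) * g lam (q - x r))
      = mn (fun r => 1 + n * ((x r - s) * g lam (q - x r) -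
          w * (g lam (q - x r - 1) - g lam (q - x r)))) := by
        congr 1; funext r; exact hrec r
    _ = 1 + n * (mn (fun r => (x r - s) * g lam (q - x r)) -
          mn (fun r => w * (g lam (q - x r - 1) - g lam (q - x r)))) := by
        exact mn_affine_aux _ _ _
    _ ≤ 1 := by
        have := mul_le_mul_of_nonneg_left (sub_nonpos.2 hkey) hn.le
        linarith

/-- (B-), `lam = n w`. By `f_rec` with `t + x`: `(t+x) f(t+x) = 1 - lam (f(t+x) - f(t+x+1))`, so the claim is
`E[(s-x) f(t+x)] ≥ w E[f(t+x) - f(t+x+1)]`; integral over `b` with weight `e^{-bt} Vk lam b` of (E2). -/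
theorem Bminus {x : R → ℝ} {s w : ℝ} (L : Law x s w) {n : ℝ} (hn : 0 < n) {t : ℝ} (ht : 0 ≤ t) :
    1 ≤ mn (fun r => ((t + x r) + n * (s - x r)) * f (n * w) (t + x r)) := by
  have hw := L.wpos
  set lam := n * w with hlam
  have hl : 0 < lam := by positivity
  have htx : ∀ r, 0 ≤ t + x r := fun r => add_nonneg ht (L.nonneg r)
  have htx1 : ∀ r, 0 ≤ t + x r + 1 := fun r => by have := htx r; linarith
  have hA : mn (fun r => (s - x r) * f lam (t + x r)) =
      ∫ b in Ioi (0 : ℝ), mn (fun r => (s - x r) * (Real.exp (-(b * (t + x r))) * Vk lam b)) := by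
    rw [← mn_integral (fun r b => (s - x r) * (Real.exp (-(b * (t + x r))) * Vk lam b))
      (fun r => (f_int hl (htx r)).const_mul _)]
    congr 1
    funext r
    unfold f
    rw [integral_const_mul]
  have hBi : ∀ r, Integrable (fun b : ℝ => w * (Real.exp (-(b * (t + x r))) * Vk lam b -
      Real.exp (-(b * (t + x r + 1))) * Vk lam b)) (volume.restrict (Ioi (0 : ℝ))) := fun r =>
    (((f_int hl (htx r)).sub (f_int hl (htx1 r))).const_mul w)
  have hB : mn (fun r => w * (f lam (t + x r) - f lam (t + x r + 1))) =
      ∫ b in Ioi (0 : ℝ), mn (fun r => w * (Real.exp (-(b * (t + x r))) * Vk lam b -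
        Real.exp (-(b * (t + x r + 1))) * Vk lam b)) := by
    rw [← mn_integral _ hBi]
    congr 1
    funext r
    unfold f
    rw [integral_const_mul, integral_sub (f_int hl (htx r)) (f_int hl (htx1 r))]
  have hmn_int : ∀ F : R → ℝ → ℝ, (∀ r, Integrable (F r) (volume.restrict (Ioi (0 : ℝ)))) →
      Integrable (fun b => mn (fun r => F r b)) (volume.restrict (Ioi (0 : ℝ))) := by
    intro F hF
    unfold mn
    exact (integrable_finset_sum _ (fun r _ => hF r)).div_const _
  have hkey : mn (fun r => w * (f lam (t + x r) - f lam (t + x r + 1))) ≤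
      mn (fun r => (s - x r) * f lam (t + x r)) := by
    rw [hA, hB]
    refine setIntegral_mono_on (hmn_int _ hBi)
      (hmn_int _ (fun r => (f_int hl (htx r)).const_mul _)) measurableSet_Ioi ?_
    intro b hb
    have hb0 : 0 ≤ b := (mem_Ioi.1 hb).le
    have h1 := E2 L hb0
    have hW := Vk_pos lam b
    have h2 : mn (fun r => (s - x r) * (Real.exp (-(b * (t + x r))) * Vk lam b)) =
        (Real.exp (-(b * t)) * Vk lam b) * mn (fun r => (s - x r) * Real.exp (-(b * x r))) := by
      rw [← mn_mul_left]
      congr 1
      funext r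
      rw [show -(b * (t + x r)) = -(b * t) + -(b * x r) by ring]
      simp only [Real.exp_add]
      ring
    have h3 : mn (fun r => w * (Real.exp (-(b * (t + x r))) * Vk lam b -
        Real.exp (-(b * (t + x r + 1))) * Vk lam b)) =
        (Real.exp (-(b * t)) * Vk lam b) *
          (w * (1 - Real.exp (-b)) * mn (fun r => Real.exp (-(b * x r)))) := by
      rw [← mn_mul_left, ← mn_mul_left]
      congr 1
      funext r
      rw [show -(b * (t + x r + 1)) = -(b * t) + -(b * x r) + -b by ring,
        show -(b * (t + x r)) = -(b * t) + -(b * x r) by ring]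
      simp only [Real.exp_add]
      ring
    rw [h2, h3]
    exact mul_le_mul_of_nonneg_left h1 (by positivity)
  have hrec : ∀ r, ((t + x r) + n * (s - x r)) * f lam (t + x r) =
      1 + n * ((s - x r) * f lam (t + x r) - w * (f lam (t + x r) - f lam (t + x r + 1))) := by
    intro r
    have := f_rec hl (htx r)
    have h4 : (t + x r) * f lam (t + x r) = 1 - n * w * (f lam (t + x r) - f lam (t + x r + 1)) := by
      rw [← hlam]; linarith
    rw [add_mul, h4]
    ring
  calc (1 : ℝ) ≤ 1 + n * (mn (fun r => (s - x r) * f lam (t + x r)) -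
          mn (fun r => w * (f lam (t + x r) - f lam (t + x r + 1)))) := by
        have := mul_nonneg hn.le (sub_nonneg.2 hkey)
        linarith
    _ = mn (fun r => 1 + n * ((s - x r) * f lam (t + x r) -
          w * (f lam (t + x r) - f lam (t + x r + 1)))) := by
        exact (mn_affine_aux _ _ _).symm
    _ = mn (fun r => ((t + x r) + n * (s - x r)) * f lam (t + x r)) := by
        congr 1; funext r; exact (hrec r).symm

end Pool.Agent.Lib.H3MT
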