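import Pool.Agent.Lib.H3MT.AK1

/-! # H3MT, chunk AK11: two elementary bounds for differences of `f` -/

open MeasureTheory Set

namespace Pool.Agent.Lib.H3MT

/-- `u = 0` is trivial. For `u > 0`: `f u - f (u+v) = ∫ (e^{-bu} - e^{-b(u+v)}) Vk lam b db ≤
∫ (e^{-bu} - e^{-b(u+v)}) db = 1/u - 1/(u+v) = v/(u(u+v))` (`Vk ≤ 1`). -/
theorem f_K11 {lam u v : ℝ} (hl : 0 < lam) (hu : 0 ≤ u) (hv : 0 ≤ v) (huv : 0 < u + v) :
    u * (f lam u - f lam (u + v)) ≤ v / (u + v) := by
  rcases hu.lt_or_eq with hu0 | hu0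
  · have i1 := f_int hl hu
    have i2 := f_int (t := u + v) hl (by linarith)
    have e1 : IntegrableOn (fun b : ℝ => Real.exp (-u * b)) (Ioi 0) :=
      integrableOn_exp_mul_Ioi (by linarith) 0
    have e2 : IntegrableOn (fun b : ℝ => Real.exp (-(u + v) * b)) (Ioi 0) :=
      integrableOn_exp_mul_Ioi (by linarith) 0
    have i12 : IntegrableOn (fun b : ℝ => Real.exp (-(b * u)) * Vk lam b -
      Real.exp (-(b * (u + v))) * Vk lam b) (Ioi 0) := i1.sub i2
    have e12 : IntegrableOn (fun b : ℝ => Real.exp (-u * b) - Real.exp (-(u + v) * b)) (Ioi 0) :=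
      e1.sub e2
    have hle := setIntegral_mono_on i12 e12 measurableSet_Ioi (fun b hb => by
      have hb' : (0 : ℝ) ≤ b := le_of_lt hb
      have h1 : -(b * u) = -u * b := by ring
      have h2 : -(b * (u + v)) = -(u + v) * b := by ring
      rw [h1, h2, ← sub_mul]
      have h3 : Real.exp (-(u + v) * b) ≤ Real.exp (-u * b) := by
        rw [Real.exp_le_exp]
        have := mul_nonneg hv hb'
        linarith
      have h4 := Vk_le_one (lam := lam) (b := b) hl
      calc (Real.exp (-u * b) - Real.exp (-(u + v) * b)) * Vk lam b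
          ≤ (Real.exp (-u * b) - Real.exp (-(u + v) * b)) * 1 :=
            mul_le_mul_of_nonneg_left h4 (by linarith)
        _ = _ := mul_one _)
    rw [integral_sub i1 i2, integral_sub e1 e2, integral_exp_mul_Ioi (by linarith) 0,
      integral_exp_mul_Ioi (by linarith) 0] at hle
    have hle' : f lam u - f lam (u + v) ≤
        -Real.exp (-u * 0) / -u - -Real.exp (-(u + v) * 0) / -(u + v) := hle
    have h5 : -Real.exp (-u * 0) / -u - -Real.exp (-(u + v) * 0) / -(u + v) =
        v / (u * (u + v)) := by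
      rw [mul_zero, mul_zero, Real.exp_zero]
      field_simp
      ring
    rw [h5] at hle'
    calc u * (f lam u - f lam (u + v)) ≤ u * (v / (u * (u + v))) :=
          mul_le_mul_of_nonneg_left hle' hu
      _ = v / (u + v) := by
          field_simp
  · rw [← hu0, zero_mul, zero_add]
    exact div_nonneg hv hv

/-- pointwise: `e^{-bc} - e^{-b(c+d)} ≥ d (e^{-b(c+d)} - e^{-b(c+d+1)})`, i.e. `e^{bd} - 1 ≥ d (1 - e^{-b})`,
because `e^{bd} - 1 ≥ bd` and `1 - e^{-b} ≤ b`. -/
theorem f_K12 {lam c d : ℝ} (hl : 0 < lam) (hc : 0 ≤ c) (hd : 0 ≤ d) :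
    d * (f lam (c + d) - f lam (c + d + 1)) ≤ f lam c - f lam (c + d) := by
  have i1 := f_int hl hc
  have i2 := f_int (t := c + d) hl (by linarith)
  have i3 := f_int (t := c + d + 1) hl (by linarith)
  have i12 : IntegrableOn (fun b : ℝ => Real.exp (-(b * c)) * Vk lam b -
      Real.exp (-(b * (c + d))) * Vk lam b) (Ioi 0) := i1.sub i2
  have i23 : IntegrableOn (fun b : ℝ => Real.exp (-(b * (c + d))) * Vk lam b -
      Real.exp (-(b * (c + d + 1))) * Vk lam b) (Ioi 0) := i2.sub i3
  have j23 : IntegrableOn (fun b : ℝ => d * (Real.exp (-(b * (c + d))) * Vk lam b -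
      Real.exp (-(b * (c + d + 1))) * Vk lam b)) (Ioi 0) := i23.const_mul _
  have hle := setIntegral_mono_on j23 i12 measurableSet_Ioi (fun b hb => by
    have hb' : (0 : ℝ) ≤ b := le_of_lt hb
    rw [← sub_mul, ← sub_mul, ← mul_assoc]
    apply mul_le_mul_of_nonneg_right _ (Vk_pos _ _).le
    have h1 : Real.exp (-(b * c)) = Real.exp (-(b * (c + d))) * Real.exp (b * d) := by
      rw [← Real.exp_add]
      congr 1
      ring
    have h2 : Real.exp (-(b * (c + d + 1))) = Real.exp (-(b * (c + d))) * Real.exp (-b) := by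
      rw [← Real.exp_add]
      congr 1
      ring
    rw [h1, h2]
    have h3 := Real.add_one_le_exp (b * d)
    have h4 := Real.add_one_le_exp (-b)
    have h5 := Real.exp_pos (-(b * (c + d)))
    have h6 : d * (1 - Real.exp (-b)) ≤ d * b := mul_le_mul_of_nonneg_left (by linarith) hd
    have h7 : d * (1 - Real.exp (-b)) ≤ Real.exp (b * d) - 1 := by linarith
    have h8 := mul_le_mul_of_nonneg_left h7 h5.le
    linarith)
  rw [integral_const_mul, integral_sub i2 i3, integral_sub i1 i2] at hle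
  exact hle

end Pool.Agent.Lib.H3MT
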