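import Pool.Agent.Lib.H3MT.ABetaB
import Pool.Agent.Lib.H3MT.AK11

/-! # H3MT, chunk ABetaC: (beta'), case C -/

open scoped Classical

namespace Pool.Agent.Lib.H3MT

variable {R : Type} [Fintype R] [Nonempty R]

/-- Pointwise bound in case C. `al ∈ (h, s)`, `lam = n h al`, `n ≥ 1`, `0 ≤ y < h`, `z = s - y > 0`. Then
`tot ≤ 1 + (z + h)(z - al)/(al (al + h))`.
Write `u = a - h + y`, `v = h - y`, `u + v = a`, `D = f u - f a ≥ 0`, `tot = (u + n z) D`.
* `z ≥ al`: `tot ≤ (u v + n z v)/(lam + u v) ≤ max 1 (n z v / lam) ≤ z/al` (`v ≤ h`), and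
  `z/al = 1 + (z - al)/al ≤ 1 + (z-al)(z+h)/(al(al+h))`.
* `z < al`: `h al - z v = h (al - z) + z (s - z) ≥ (h + z)(al - z)` (`v = h - s + z`, `s ≥ al`, `z > 0`).
  - if `u v ≤ n al^2`: `1 - tot ≥ n (h al - z v)/(lam + u v) ≥ (h+z)(al-z)/(al (al+h))`.
  - otherwise `u ≥ v` (if `u < v` then `u v < v^2 ≤ h^2 < al^2 ≤ n al^2`); `Wt = 1 - u D ≥ 1 - v/a ≥ 1/2` (`f_K11`);
    `lam D ≤ v Wt` (`f_K10`), so `n z D ≤ (z v/(h al)) Wt`, `1 - tot ≥ Wt (1 - z v/(h al)) ≥
    (1/2)(h+z)(al-z)/(h al) ≥ (h+z)(al-z)/(al(al+h))` as `al + h ≥ 2h`. -/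
theorem tot_le_C {n s a h y al : ℝ} (hn : 1 ≤ n) (ha : 1 ≤ a) (hh : 0 < h) (hh1 : h ≤ 1)
    (hal : h < al) (hals : al < s) (hy : 0 ≤ y) (hyh : y < h) :
    tot (n * (h * al)) n s a h y ≤ 1 + (s - y + h) * (s - y - al) / (al * (al + h)) := by
  have hal0 : 0 < al := hh.trans hal
  have hn0 : 0 < n := by linarith
  have hl : 0 < n * (h * al) := by positivity
  have htl := tot_le (lam := n * (h * al)) (n := n) (s := s) hl hy hyh hh1 ha
  have hu0 : 0 ≤ a - h + y := by linarith
  have hv0 : 0 < h - y := by linarith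
  have huv : (a - h + y) + (h - y) = a := by ring
  have hK10 := f_K10 hl hu0 hv0 (by linarith) (by linarith)
  have hK11 := f_K11 hl hu0 hv0.le (by linarith)
  rw [huv] at hK10 hK11
  set T := tot (n * (h * al)) n s a h y with hT
  have hTdef : T = ((a - h + y) + n * (s - y)) * (f (n * (h * al)) (a - h + y) -
    f (n * (h * al)) a) := rfl
  set D := f (n * (h * al)) (a - h + y) - f (n * (h * al)) a with hD
  obtain ⟨u, hu⟩ : ∃ u, u = a - h + y := ⟨_, rfl⟩
  obtain ⟨v, hv⟩ : ∃ v, v = h - y := ⟨_, rfl⟩
  obtain ⟨z, hz⟩ : ∃ z, z = s - y := ⟨_, rfl⟩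
  rw [← hu] at hu0 hTdef htl hK10 hK11
  rw [← hv] at hv0 htl hK10 hK11
  rw [← hz] at htl hTdef ⊢
  have hz0 : 0 < z := by rw [hz]; linarith
  have huva : u + v = a := by rw [hu, hv]; ring
  have hvh : v ≤ h := by rw [hv]; linarith
  have hzs : z ≤ s := by rw [hz]; linarith
  have hmax : max 0 ((u + n * z) * v) = (u + n * z) * v := max_eq_right (by positivity)
  rw [hmax] at htl
  have hP : 0 < n * (h * al) + u * v := by positivity
  have hQ : 0 < al * (al + h) := by positivity
  by_cases hzal : al ≤ z
  · -- case 1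
    have h1 : T ≤ z / al := by
      have h2 : T * (n * (h * al) + u * v) ≤ z / al * (n * (h * al) + u * v) := by
        refine htl.trans ?_
        have h3 : 1 ≤ z / al := by rw [le_div_iff₀ hal0, one_mul]; exact hzal
        have h4 : z / al * (n * (h * al) + u * v) = n * h * z + z / al * (u * v) := by
          field_simp
        rw [h4]
        have h5 : u * v ≤ z / al * (u * v) := le_mul_of_one_le_left (by positivity) h3
        have h6 : n * z * v ≤ n * z * h := mul_le_mul_of_nonneg_left hvh (by positivity)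
        nlinarith
      exact le_of_mul_le_mul_right h2 hP
    refine h1.trans ?_
    rw [div_le_iff₀ hal0, add_mul, one_mul]
    have h7 : (z + h) * (z - al) / (al * (al + h)) * al = (z - al) * ((z + h) / (al + h)) := by
      field_simp
    rw [h7]
    have h8 : 1 ≤ (z + h) / (al + h) := by
      rw [le_div_iff₀ (by positivity)]
      linarith
    have h9 : z - al ≤ (z - al) * ((z + h) / (al + h)) :=
      le_mul_of_one_le_right (by linarith) h8
    linarith
  · push Not at hzal
    have hkey : (h + z) * (al - z) ≤ h * al - z * v := by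
      have h1 : h * al - z * v = h * (al - z) + z * (s - z) := by
        rw [hv, hz]
        ring
      rw [h1]
      nlinarith
    have hpos : 0 < (h + z) * (al - z) := mul_pos (by linarith) (by linarith)
    suffices hs : (h + z) * (al - z) / (al * (al + h)) ≤ 1 - T by
      have e : (z + h) * (z - al) / (al * (al + h)) = -((h + z) * (al - z) / (al * (al + h))) := by
        rw [← neg_div]
        congr 1
        ring
      rw [e]
      linarith
    by_cases huv2 : u * v ≤ n * al ^ 2
    · have h1 : n * ((h + z) * (al - z)) ≤ (1 - T) * (n * (h * al) + u * v) := by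
        have h2 : n * ((h + z) * (al - z)) ≤ n * (h * al - z * v) :=
          mul_le_mul_of_nonneg_left hkey hn0.le
        nlinarith
      have h3 : (h + z) * (al - z) / (al * (al + h)) * (n * (h * al) + u * v) ≤
          (1 - T) * (n * (h * al) + u * v) := by
        refine le_trans ?_ h1
        have h4 : n * (h * al) + u * v ≤ n * (al * (al + h)) := by nlinarith
        calc (h + z) * (al - z) / (al * (al + h)) * (n * (h * al) + u * v) ≤
            (h + z) * (al - z) / (al * (al + h)) * (n * (al * (al + h))) :=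
              mul_le_mul_of_nonneg_left h4 (by positivity)
          _ = n * ((h + z) * (al - z)) := by field_simp
      exact le_of_mul_le_mul_right h3 hP
    · push Not at huv2
      have huv3 : v ≤ u := by
        by_contra hcon
        push Not at hcon
        have h1 : u * v ≤ v * v := mul_le_mul_of_nonneg_right hcon.le hv0.le
        have h2 : v * v ≤ h * h := mul_le_mul hvh hvh hv0.le hh.le
        have h3 : h * h ≤ al * al := mul_le_mul hal.le hal.le hh.le hal0.le
        have h4 : al ^ 2 ≤ n * al ^ 2 := le_mul_of_one_le_left (by positivity) hn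
        nlinarith
      -- Wt = 1 - u D
      have hW : 1 / 2 ≤ 1 - u * D := by
        have h1 : v / a ≤ 1 / 2 := by
          rw [div_le_iff₀ (by linarith)]
          linarith
        linarith
      have hlD : n * (h * al) * D ≤ v * (1 - u * D) := by nlinarith
      have hnzD : n * z * D ≤ z * v / (h * al) * (1 - u * D) := by
        have h1 : n * z * D = z / (h * al) * (n * (h * al) * D) := by field_simp
        rw [h1]
        calc z / (h * al) * (n * (h * al) * D) ≤ z / (h * al) * (v * (1 - u * D)) :=
              mul_le_mul_of_nonneg_left hlD (by positivity)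
          _ = _ := by ring
      have h1 : (1 - u * D) * ((h * al - z * v) / (h * al)) ≤ 1 - T := by
        have h2 : (1 - u * D) * ((h * al - z * v) / (h * al)) =
            (1 - u * D) - z * v / (h * al) * (1 - u * D) := by
          field_simp
        rw [h2, hTdef]
        nlinarith
      refine le_trans ?_ h1
      have h3 : (h + z) * (al - z) / (h * al) ≤ (h * al - z * v) / (h * al) :=
        div_le_div_of_nonneg_right hkey (by positivity)
      have h4 : 0 ≤ (h + z) * (al - z) / (h * al) := by positivity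
      calc (h + z) * (al - z) / (al * (al + h)) ≤ 1 / 2 * ((h + z) * (al - z) / (h * al)) := by
            have e : 1 / 2 * ((h + z) * (al - z) / (h * al)) =
                (h + z) * (al - z) / (al * (2 * h)) := by field_simp
            rw [e]
            apply div_le_div_of_nonneg_left hpos.le (by positivity)
            apply mul_le_mul_of_nonneg_left _ hal0.le
            linarith
        _ ≤ (1 - u * D) * ((h * al - z * v) / (h * al)) :=
            mul_le_mul hW h3 h4 (by linarith)

/-- Case C: `h^2 < w < s h`. `al = w / h`. For every `r`, with `z = s - x r`: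
`(if x r < h then tot else 0) ≤ (if x r < s + h then 1 else 0) + (z + h)(z - al)/(al (al + h))`:
* `x r ≥ s + h` (then `x r ≥ h`), i.e. `z ≤ -h`: the right side is `≥ 0`;
* `h ≤ x r < s + h`: `(z + h)(al - z) ≤ (al + h)^2/4 ≤ al (al + h)`;
* `x r < h`: `tot_le_C`.
Take means: `E[(z+h)(z-al)] = w - h al = 0`. With `beta_ge` the mean is `≥ 1 - pr (x < s + h) = pr (s + h ≤ x)`. -/
theorem betaC {x : R → ℝ} {s w : ℝ} (L : Law x s w) {n a h : ℝ} (hn : 1 ≤ n) (ha : 1 ≤ a)
    (hh : 0 < h) (hh1 : h ≤ 1) (hC1 : h ^ 2 < w) (hC2 : w < s * h) :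
    pr (fun r => s + h ≤ x r) ≤
      mn (fun r => ((a - h + x r) + n * (s - x r)) * f (n * w) (a + max (x r - h) 0)) := by
  have hn0 : 0 < n := by linarith
  refine le_trans ?_ (beta_ge L hn0 ha hh hh1)
  obtain ⟨al, hal⟩ : ∃ al, al = w / h := ⟨_, rfl⟩
  have hw : w = h * al := by rw [hal]; field_simp
  have hal1 : h < al := by
    rw [hal, lt_div_iff₀ hh]
    nlinarith
  have hal2 : al < s := by
    rw [hal, div_lt_iff₀ hh]
    exact hC2
  have hal0 : 0 < al := hh.trans hal1
  have hs0 : 0 < s := hal0.trans hal2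
  have hQ : 0 < al * (al + h) := by positivity
  -- the pointwise bound
  have hpt : ∀ r, (if x r < h then tot (n * w) n s a h (x r) else 0) ≤
      (1 - (if s + h ≤ x r then (1 : ℝ) else 0)) +
        (1 / (al * (al + h))) * ((x r - s) ^ 2 + (al - h) * (x r - s) - h * al) := by
    intro r
    have e : (1 / (al * (al + h))) * ((x r - s) ^ 2 + (al - h) * (x r - s) - h * al) =
        (s - x r + h) * (s - x r - al) / (al * (al + h)) := by
      rw [one_div, inv_mul_eq_div]
      congr 1
      ring
    rw [e]
    by_cases h1 : x r < h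
    · rw [if_pos h1, if_neg (by linarith), sub_zero, hw]
      exact tot_le_C hn ha hh hh1 hal1 hal2 (L.nonneg r) h1
    · rw [if_neg h1]
      by_cases h2 : s + h ≤ x r
      · rw [if_pos h2, sub_self, zero_add]
        apply div_nonneg _ hQ.le
        apply mul_nonneg_of_nonpos_of_nonpos <;> linarith
      · rw [if_neg h2, sub_zero]
        push Not at h2
        have h3 : -(1 : ℝ) ≤ (s - x r + h) * (s - x r - al) / (al * (al + h)) := by
          rw [le_div_iff₀ hQ]
          nlinarith [sq_nonneg (2 * (s - x r) + h - al)]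
        linarith
  have hmean := mn_le_mn hpt
  have hE : mn (fun r => (x r - s) ^ 2 + (al - h) * (x r - s) - h * al) = 0 := by
    have h1 : mn (fun r => (x r - s) ^ 2 + (al - h) * (x r - s) - h * al) =
        mn (fun r => (x r - s) ^ 2 + (al - h) * (x r - s)) - mn (fun _ : R => h * al) :=
      mn_sub (fun r => (x r - s) ^ 2 + (al - h) * (x r - s)) (fun _ => h * al)
    have h2 : mn (fun r => (x r - s) ^ 2 + (al - h) * (x r - s)) =
        mn (fun r => (x r - s) ^ 2) + mn (fun r => (al - h) * (x r - s)) :=
      mn_add (fun r => (x r - s) ^ 2) (fun r => (al - h) * (x r - s))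
    have h3 : mn (fun r => (al - h) * (x r - s)) = (al - h) * mn (fun r => x r - s) :=
      mn_mul_left (al - h) (fun r => x r - s)
    have h4 : mn (fun r => x r - s) = mn x - mn (fun _ : R => s) := mn_sub x (fun _ => s)
    rw [h1, h2, h3, h4, L.var, L.mean, mn_const, mn_const, hw]
    ring
  have h5 : mn (fun r => (1 - (if s + h ≤ x r then (1 : ℝ) else 0)) +
      (1 / (al * (al + h))) * ((x r - s) ^ 2 + (al - h) * (x r - s) - h * al)) =
      1 - pr (fun r => s + h ≤ x r) := by
    have h6 := mn_add (fun r => (1 - (if s + h ≤ x r then (1 : ℝ) else 0)))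
      (fun r => (1 / (al * (al + h))) * ((x r - s) ^ 2 + (al - h) * (x r - s) - h * al))
    have h7 := mn_mul_left (R := R) (1 / (al * (al + h)))
      (fun r => (x r - s) ^ 2 + (al - h) * (x r - s) - h * al)
    have h8 : mn (fun r => (1 - (if s + h ≤ x r then (1 : ℝ) else 0))) =
        mn (fun _ : R => (1 : ℝ)) - mn (fun r => if s + h ≤ x r then (1 : ℝ) else 0) :=
      mn_sub (fun _ => (1 : ℝ)) (fun r => if s + h ≤ x r then (1 : ℝ) else 0)
    rw [h6, h7, hE, mul_zero, add_zero, h8, mn_const]
    rfl
  rw [h5] at hmean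
  linarith

end Pool.Agent.Lib.H3MT
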