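import Pool.Agent.Lib.H3MT.ABetaA
import Pool.Agent.Lib.H3MT.ABetaC

/-! # H3MT: (beta') assembled from the three cases -/

namespace Pool.Agent.Lib.H3MT

variable {R : Type} [Fintype R] [Nonempty R]

theorem beta {x : R → ℝ} {s w : ℝ} (L : Law x s w) {n a h : ℝ} (hn : 1 ≤ n) (ha : 1 ≤ a)
    (hh : 0 < h) (hh1 : h ≤ 1) :
    pr (fun r => s + h ≤ x r) ≤
      mn (fun r => ((a - h + x r) + n * (s - x r)) * f (n * w) (a + max (x r - h) 0)) := by
  have hn0 : 0 < n := by linarith
  by_cases hB : s * h ≤ w
  · exact betaB L hn0 ha hh hh1 hB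
  · push Not at hB
    by_cases hA : w ≤ h * min s h
    · exact betaA L hn0 ha hh hh1 hA
    · push Not at hA
      refine betaC L hn ha hh hh1 ?_ hB
      have hsh : h ≤ s := by
        by_contra hcon
        push Not at hcon
        rw [min_eq_left hcon.le] at hA
        nlinarith
      rw [min_eq_right hsh] at hA
      nlinarith

end Pool.Agent.Lib.H3MT
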