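import Pool.Agent.Lib.H3MT.AE
import Pool.Agent.Lib.H3MT.AK2
import Pool.Agent.Lib.H3MT.AK11

/-! # H3MT, chunk ABetaA: (beta'), case A -/

namespace Pool.Agent.Lib.H3MT

variable {R : Type} [Fintype R] [Nonempty R]

/-- Case A: `w ≤ h * min s h`. Put `t = a - h ≥ 0`, `fh r = f lam (a + max (x r - h) 0)`, `lam = n w`.
* `(t + x r) * fh r ≥ 0` for all `r`.
* For `r` with `s + h ≤ x r`: `a + max (x r - h) 0 = t + x r`, `(t+x) f(t+x) = 1 - lam Dl`,
  `Dl = f(t+x) - f(t+x+1)` (`f_rec`).
* `n E[(s - x) fh] = n E[(x - s)(F0 - fh)]` with the constant `F0 = f lam (a + max (s - h) 0)`; all terms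
  `(x - s)(F0 - fh) ≥ 0` by monotonicity of `f`; for `s + h ≤ x r`, with `c = a + max (s-h) 0` and
  `d = t + x r - c = min (x r - h) (x r - s) ≥ min s h` (`≥ 0`), `f_K12` gives `F0 - fh ≥ d Dl`, so
  `(x r - s)(F0 - fh r) ≥ h * min s h * Dl ≥ w Dl`.
Sum up: the mean is `≥ E[(1 - lam Dl) 1_{s+h ≤ x}] + n w E[Dl 1_{s+h ≤ x}] = pr (s + h ≤ x)`. -/
theorem betaA {x : R → ℝ} {s w : ℝ} (L : Law x s w) {n a h : ℝ} (hn : 0 < n) (ha : 1 ≤ a)
    (hh : 0 < h) (hh1 : h ≤ 1) (hA : w ≤ h * min s h) :
    pr (fun r => s + h ≤ x r) ≤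
      mn (fun r => ((a - h + x r) + n * (s - x r)) * f (n * w) (a + max (x r - h) 0)) := by
  classical
  have hs0 : 0 ≤ s := by
    rw [← L.mean]
    exact mn_nonneg L.nonneg
  have hl : 0 < n * w := mul_pos hn L.wpos
  obtain ⟨F0, hF0⟩ : ∃ F0, F0 = f (n * w) (a + max (s - h) 0) := ⟨_, rfl⟩
  -- the pointwise bound
  have hpt : ∀ r, (if s + h ≤ x r then (1 : ℝ) else 0) + n * F0 * (s - x r) ≤
      ((a - h + x r) + n * (s - x r)) * f (n * w) (a + max (x r - h) 0) := by
    intro r
    have hx := L.nonneg r
    have hmx : 0 ≤ max (x r - h) 0 := le_max_right _ _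
    have hms : 0 ≤ max (s - h) 0 := le_max_right _ _
    have hfpos := f_pos hl (t := a + max (x r - h) 0) (by linarith)
    -- the monotone part
    have hmono : 0 ≤ (x r - s) * (F0 - f (n * w) (a + max (x r - h) 0)) := by
      rcases le_total s (x r) with h1 | h1
      · apply mul_nonneg (by linarith)
        rw [hF0, sub_nonneg]
        apply f_anti hl (by linarith)
        have : max (s - h) 0 ≤ max (x r - h) 0 := max_le_max (by linarith) le_rfl
        linarith
      · apply mul_nonneg_of_nonpos_of_nonpos (by linarith)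
        rw [hF0, sub_nonpos]
        apply f_anti hl (by linarith)
        have : max (x r - h) 0 ≤ max (s - h) 0 := max_le_max (by linarith) le_rfl
        linarith
    by_cases h1 : s + h ≤ x r
    · rw [if_pos h1]
      have h2 : max (x r - h) 0 = x r - h := max_eq_left (by linarith)
      rw [h2]
      have e1 : a + (x r - h) = a - h + x r := by ring
      rw [e1]
      have hrec := f_rec hl (t := a - h + x r) (by linarith)
      set Dl := f (n * w) (a - h + x r) - f (n * w) (a - h + x r + 1) with hDl
      have hDl0 : 0 ≤ Dl := by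
        rw [hDl, sub_nonneg]
        exact f_anti hl (by linarith) (by linarith)
      -- K12
      have hd0 : min s h ≤ (a - h + x r) - (a + max (s - h) 0) := by
        rcases le_total h s with h3 | h3
        · rw [max_eq_left (by linarith), min_eq_right h3]
          linarith
        · rw [max_eq_right (by linarith), min_eq_left h3]
          linarith
      have hmin : 0 ≤ min s h := le_min hs0 hh.le
      have hK := f_K12 hl (c := a + max (s - h) 0) (d := (a - h + x r) - (a + max (s - h) 0))
        (by linarith) (by linarith)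
      have e2 : a + max (s - h) 0 + ((a - h + x r) - (a + max (s - h) 0)) = a - h + x r := by ring
      rw [e2, ← hDl, ← hF0] at hK
      have h4 : min s h * Dl ≤ F0 - f (n * w) (a - h + x r) :=
        (mul_le_mul_of_nonneg_right hd0 hDl0).trans hK
      have h5 : h * (min s h * Dl) ≤ (x r - s) * (F0 - f (n * w) (a - h + x r)) := by
        apply mul_le_mul (by linarith) h4 (by positivity) (by linarith)
      have h6 : w * Dl ≤ (x r - s) * (F0 - f (n * w) (a - h + x r)) := by
        refine le_trans ?_ h5
        rw [← mul_assoc]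
        exact mul_le_mul_of_nonneg_right hA hDl0
      have h7 := mul_le_mul_of_nonneg_left h6 hn.le
      nlinarith
    · rw [if_neg h1]
      have h2 : 0 ≤ (a - h + x r) * f (n * w) (a + max (x r - h) 0) :=
        mul_nonneg (by linarith) hfpos.le
      have h7 := mul_le_mul_of_nonneg_left hmono hn.le
      nlinarith
  have hmean := mn_le_mn hpt
  have h1 := mn_add (fun r => (if s + h ≤ x r then (1 : ℝ) else 0)) (fun r => n * F0 * (s - x r))
  have h2 := mn_mul_left (n * F0) (fun r => s - x r)
  have h3 := mn_sub (fun _ : R => s) x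
  rw [mn_const, L.mean, sub_self] at h3
  rw [h3, mul_zero] at h2
  rw [h1, h2, add_zero] at hmean
  unfold pr
  convert hmean

end Pool.Agent.Lib.H3MT
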