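import Pool.Agent.Lib.H3MT.AK2

/-! # H3MT, chunk AK10 -/

open MeasureTheory Set

namespace Pool.Agent.Lib.H3MT

/-- `(y^θ - y)/(1-θ) ≤ (1-y) y^θ + θ (1-y)^2` for `0 ≤ θ < 1`, `0 < y ≤ 1`, in the form needed below:
with `θ = 1 - v` and multiplied by `y^{v-1} = y^{-θ}`. Proof: `y^θ ≤ θ y + 1 - θ` (weighted AM-GM,
`Real.geom_mean_le_arith_mean2_weighted` or Bernoulli), the coefficient `1/(1-θ) - (1-y)` of `y^θ` is
`≥ 0`, and with `z = 1 - y` the difference of the two sides after the replacement is exactly `0`. -/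
theorem K10_aux {v y : ℝ} (hv : 0 < v) (hv1 : v ≤ 1) (hy : 0 < y) (hy1 : y ≤ 1) :
    (1 - y ^ v) / v ≤ (1 - y) + (1 - v) * (1 - y) ^ 2 * y ^ (v - 1) := by
  obtain ⟨P, hP⟩ : ∃ P : ℝ, P = y ^ (1 - v) := ⟨_, rfl⟩
  have hP0 : 0 < P := by
    rw [hP]
    exact Real.rpow_pos_of_pos hy _
  have hPle : P ≤ 1 - (1 - v) * (1 - y) := by
    have h := Real.geom_mean_le_arith_mean2_weighted (w₁ := 1 - v) (w₂ := v) (p₁ := y) (p₂ := 1)
      (by linarith) hv.le hy.le (by norm_num) (by ring)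
    rw [Real.one_rpow, mul_one, ← hP] at h
    linarith
  have h1 : y ^ v = y / P := by
    rw [eq_div_iff hP0.ne', hP, ← Real.rpow_add hy]
    have : v + (1 - v) = 1 := by ring
    rw [this, Real.rpow_one]
  have h2 : y ^ (v - 1) = 1 / P := by
    rw [eq_div_iff hP0.ne', hP, ← Real.rpow_add hy]
    have : v - 1 + (1 - v) = 0 := by ring
    rw [this, Real.rpow_zero]
  rw [h1, h2]
  have h3 : 1 ≤ 1 / v := by
    rw [le_div_iff₀ hv]
    linarith
  have h4 : P * (1 / v - (1 - y)) ≤ (1 - (1 - v) * (1 - y)) * (1 / v - (1 - y)) :=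
    mul_le_mul_of_nonneg_right hPle (by linarith)
  have h5 : (1 - (1 - v) * (1 - y)) * (1 / v - (1 - y)) = y / v + (1 - v) * (1 - y) ^ 2 := by
    field_simp
    ring
  rw [h5] at h4
  have h6 : (1 - y / P) / v * P = (P - y) / v := by
    field_simp
  have h7 : ((1 - y) + (1 - v) * (1 - y) ^ 2 * (1 / P)) * P =
      (1 - y) * P + (1 - v) * (1 - y) ^ 2 := by
    field_simp
  refine le_of_mul_le_mul_right ?_ hP0
  rw [h6, h7]
  have h8 : (P - y) / v = P * (1 / v) - y / v := by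
    field_simp
  rw [h8]
  nlinarith

theorem AK10_point {lam u v b : ℝ} (hv : 0 < v) (hv1 : v ≤ 1) (hb : 0 < b) :
    (1 / v) * (Real.exp (-(b * u)) * Vk lam b - Real.exp (-(b * (u + v))) * Vk lam b) ≤
      (Real.exp (-(b * u)) * Vk lam b - Real.exp (-(b * (u + 1))) * Vk lam b) +
        (1 - v) * (Real.exp (-(b * (u + v - 1))) * Vk lam b -
          2 * (Real.exp (-(b * (u + v))) * Vk lam b) +
          Real.exp (-(b * (u + v + 1))) * Vk lam b) := by
  obtain ⟨y, hy⟩ : ∃ y : ℝ, y = Real.exp (-b) := ⟨_, rfl⟩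
  have hy0 : 0 < y := by
    rw [hy]
    exact Real.exp_pos _
  have hy1 : y ≤ 1 := by
    rw [hy, Real.exp_le_one_iff]
    linarith
  have h := K10_aux hv hv1 hy0 hy1
  obtain ⟨E, hE⟩ : ∃ E : ℝ, E = Real.exp (-(b * u)) * Vk lam b := ⟨_, rfl⟩
  have hE0 : 0 < E := by
    rw [hE]
    exact mul_pos (Real.exp_pos _) (Vk_pos _ _)
  have hyv : y ^ v = Real.exp (-(b * v)) := by
    rw [hy, ← Real.exp_mul]
    congr 1
    ring
  have hyv1 : y ^ (v - 1) = Real.exp (-(b * (v - 1))) := by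
    rw [hy, ← Real.exp_mul]
    congr 1
    ring
  have hyv2 : y * y ^ (v - 1) = y ^ v := by
    have h0 : y ^ v = y ^ ((1 : ℝ) + (v - 1)) := by
      congr 1
      ring
    rw [h0, Real.rpow_add hy0, Real.rpow_one]
  have e1 : Real.exp (-(b * (u + v))) * Vk lam b = E * y ^ v := by
    rw [hyv, hE]
    have : -(b * (u + v)) = -(b * u) + -(b * v) := by ring
    rw [this, Real.exp_add]
    ring
  have e2 : Real.exp (-(b * (u + 1))) * Vk lam b = E * y := by
    rw [hy, hE]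
    have : -(b * (u + 1)) = -(b * u) + -b := by ring
    rw [this, Real.exp_add]
    ring
  have e3 : Real.exp (-(b * (u + v - 1))) * Vk lam b = E * y ^ (v - 1) := by
    rw [hyv1, hE]
    have : -(b * (u + v - 1)) = -(b * u) + -(b * (v - 1)) := by ring
    rw [this, Real.exp_add]
    ring
  have e4 : Real.exp (-(b * (u + v + 1))) * Vk lam b = E * (y * y ^ v) := by
    rw [hyv, hE, hy]
    have : -(b * (u + v + 1)) = -(b * u) + (-b + -(b * v)) := by ring
    rw [this, Real.exp_add, Real.exp_add]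
    ring
  rw [e1, e2, e3, e4, ← hE]
  have h9 := mul_le_mul_of_nonneg_left h hE0.le
  have l1 : (1 / v) * (E - E * y ^ v) = E * ((1 - y ^ v) / v) := by
    field_simp
  have r1 : (E - E * y) + (1 - v) * (E * y ^ (v - 1) - 2 * (E * y ^ v) + E * (y * y ^ v)) =
      E * ((1 - y) + (1 - v) * (1 - y) ^ 2 * y ^ (v - 1)) := by
    rw [← hyv2]
    ring
  rw [l1, r1]
  exact h9

/-- Write `y = e^{-b}`, `dm = e^{-bu} Vk lam b db`. By `f_rec`, `lam (f u - f (u+1)) = 1 - u f u`; since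
`∫ y^v dm = f lam (u+v)` the claim divided by `v` reads
`∫ [lam (1 - y^v)/v - lam (1-y) - u y^v] dm ≤ 0`. Add the exact identity (integral of a derivative)
`0 = ∫ d/db [ - w(y) e^{-bu} Vk lam b ] db = ∫ [(lam + u - lam y) w(y) + y w'(y)] dm` for
`w(y) = -(1-v)(1-y) y^{v-1}` (it vanishes at `b = 0`, and at infinity because
`u + v - 1 ≥ 0` and `lam > 0`). The integrand becomes
`lam [(1-y^v)/v - (1-y) - (1-v)(1-y)^2 y^{v-1}] + ((1-v) - u) [v y^v + (1-v) y^{v-1}]`,
the first bracket is `≤ 0` by `K10_aux`, the second term because `u ≥ 1 - v`.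
(All integrals converge: they are combinations of `f lam` at the arguments `u`, `u+1`, `u+v`,
`u+v-1`, `u+v+1 ≥ 0`.) -/
theorem f_K10 {lam u v : ℝ} (hl : 0 < lam) (hu : 0 ≤ u) (hv : 0 < v) (hv1 : v ≤ 1)
    (huv : 1 ≤ u + v) : (lam + u * v) * (f lam u - f lam (u + v)) ≤ v := by
  have i1 := f_int hl hu
  have i2 := f_int (t := u + 1) hl (by linarith)
  have i3 := f_int (t := u + v) hl (by linarith)
  have i4 := f_int (t := u + v - 1) hl (by linarith)
  have i5 := f_int (t := u + v + 1) hl (by linarith)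
  have r1 := f_rec hl hu
  have r2 := f_rec (t := u + v - 1) hl (by linarith)
  have r3 := f_rec (t := u + v) hl (by linarith)
  have hx : u + v - 1 + 1 = u + v := by ring
  rw [hx] at r2
  have iL : IntegrableOn (fun b : ℝ => (1 / v) * (Real.exp (-(b * u)) * Vk lam b -
      Real.exp (-(b * (u + v))) * Vk lam b)) (Ioi 0) := (i1.sub i3).const_mul _
  have i12 : IntegrableOn (fun b : ℝ => Real.exp (-(b * u)) * Vk lam b -
      Real.exp (-(b * (u + 1))) * Vk lam b) (Ioi 0) := i1.sub i2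
  have i32 : IntegrableOn (fun b : ℝ => 2 * (Real.exp (-(b * (u + v))) * Vk lam b)) (Ioi 0) :=
    i3.const_mul 2
  have i43 : IntegrableOn (fun b : ℝ => Real.exp (-(b * (u + v - 1))) * Vk lam b -
      2 * (Real.exp (-(b * (u + v))) * Vk lam b)) (Ioi 0) := i4.sub i32
  have i435 : IntegrableOn (fun b : ℝ => Real.exp (-(b * (u + v - 1))) * Vk lam b -
      2 * (Real.exp (-(b * (u + v))) * Vk lam b) +
      Real.exp (-(b * (u + v + 1))) * Vk lam b) (Ioi 0) := i43.add i5
  have i6 : IntegrableOn (fun b : ℝ => (1 - v) * (Real.exp (-(b * (u + v - 1))) * Vk lam b -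
      2 * (Real.exp (-(b * (u + v))) * Vk lam b) +
      Real.exp (-(b * (u + v + 1))) * Vk lam b)) (Ioi 0) := i435.const_mul _
  have iR : IntegrableOn (fun b : ℝ => (Real.exp (-(b * u)) * Vk lam b -
      Real.exp (-(b * (u + 1))) * Vk lam b) + (1 - v) * (Real.exp (-(b * (u + v - 1))) * Vk lam b -
          2 * (Real.exp (-(b * (u + v))) * Vk lam b) +
          Real.exp (-(b * (u + v + 1))) * Vk lam b)) (Ioi 0) :=
    i12.add i6
  have hle := setIntegral_mono_on iL iR measurableSet_Ioi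
    (fun b hb => AK10_point (lam := lam) (u := u) hv hv1 hb)
  have hL : ∫ b in Ioi (0 : ℝ), (1 / v) * (Real.exp (-(b * u)) * Vk lam b -
      Real.exp (-(b * (u + v))) * Vk lam b) = (1 / v) * (f lam u - f lam (u + v)) := by
    rw [integral_const_mul, integral_sub i1 i3]
    rfl
  have hR : ∫ b in Ioi (0 : ℝ), ((Real.exp (-(b * u)) * Vk lam b -
      Real.exp (-(b * (u + 1))) * Vk lam b) + (1 - v) * (Real.exp (-(b * (u + v - 1))) * Vk lam b -
          2 * (Real.exp (-(b * (u + v))) * Vk lam b) +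
          Real.exp (-(b * (u + v + 1))) * Vk lam b)) =
      (f lam u - f lam (u + 1)) +
        (1 - v) * (f lam (u + v - 1) - 2 * f lam (u + v) + f lam (u + v + 1)) := by
    rw [integral_add i12 i6, integral_sub i1 i2, integral_const_mul,
      integral_add i43 i5, integral_sub i4 i32, integral_const_mul]
    rfl
  rw [hL, hR] at hle
  have fa : 0 < f lam (u + v - 1) := f_pos hl (by linarith)
  have fb : 0 < f lam (u + v) := f_pos hl (by linarith)
  obtain ⟨A, hA⟩ : ∃ A : ℝ, A = f lam (u + v - 1) := ⟨_, rfl⟩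
  obtain ⟨B, hB⟩ : ∃ B : ℝ, B = f lam (u + v) := ⟨_, rfl⟩
  obtain ⟨C', hC'⟩ : ∃ C' : ℝ, C' = f lam (u + v + 1) := ⟨_, rfl⟩
  obtain ⟨f0, hf0⟩ : ∃ f0 : ℝ, f0 = f lam u := ⟨_, rfl⟩
  obtain ⟨f1, hf1⟩ : ∃ f1 : ℝ, f1 = f lam (u + 1) := ⟨_, rfl⟩
  rw [← hA] at hle r2 fa
  rw [← hB] at hle r2 r3 fb
  rw [← hC'] at hle r3
  rw [← hf0] at hle r1
  rw [← hf1] at hle r1
  rw [← hB, ← hf0]
  -- multiply by `lam`
  have h1 := mul_le_mul_of_nonneg_left hle hl.le
  have h2 : lam * (A - 2 * B + C') = -((u + v - 1) * A) + (u + v) * B := by linarith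
  have h3 : lam * ((1 / v) * (f0 - B)) ≤ (1 - u * f0) +
      (1 - v) * (-((u + v - 1) * A) + (u + v) * B) := by
    rw [← h2]
    have h4 : lam * (f0 - f1) = 1 - u * f0 := by linarith
    rw [← h4]
    refine h1.trans (le_of_eq ?_)
    ring
  have h5 : (1 - v) * (-((u + v - 1) * A) + (u + v) * B) - u * B =
      -((1 - v) * ((u + v - 1) * A)) - v * ((u + v - 1) * B) := by ring
  have h6 : 0 ≤ (1 - v) * ((u + v - 1) * A) :=
    mul_nonneg (by linarith) (mul_nonneg (by linarith) fa.le)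
  have h7 : 0 ≤ v * ((u + v - 1) * B) := mul_nonneg hv.le (mul_nonneg (by linarith) fb.le)
  have h8 : lam * ((1 / v) * (f0 - B)) ≤ 1 - u * (f0 - B) := by linarith
  have h9 := mul_le_mul_of_nonneg_left h8 hv.le
  have h10 : v * (lam * ((1 / v) * (f0 - B))) = lam * (f0 - B) := by
    field_simp
  rw [h10] at h9
  linarith

end Pool.Agent.Lib.H3MT
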