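import Pool.Agent.Lib.H3MT.AB
import Pool.Agent.Lib.H3MT.AK10

/-! # H3MT, chunk ABetaB: (beta'), reduction for cases B, C, and case B -/

open scoped Classical

namespace Pool.Agent.Lib.H3MT

variable {R : Type} [Fintype R] [Nonempty R]

/-- `tot lam n s a h y = (a - h + y + n (s - y)) (f(a - h + y) - f a)` -/
noncomputable def tot (lam n s a h y : ℝ) : ℝ :=
  ((a - h + y) + n * (s - y)) * (f lam (a - h + y) - f lam a)

/-- From (B-) with `t = a - h`: for `x r ≥ h` the argument `a + max (x r - h) 0` is `a - h + x r`; for `x r < h` it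
is `a`. -/
theorem beta_ge {x : R → ℝ} {s w : ℝ} (L : Law x s w) {n a h : ℝ} (hn : 0 < n) (ha : 1 ≤ a)
    (hh : 0 < h) (hh1 : h ≤ 1) :
    1 - mn (fun r => if x r < h then tot (n * w) n s a h (x r) else 0) ≤
      mn (fun r => ((a - h + x r) + n * (s - x r)) * f (n * w) (a + max (x r - h) 0)) := by
  have h1 := Bminus L hn (t := a - h) (by linarith)
  have h2 := mn_sub (fun r => ((a - h + x r) + n * (s - x r)) * f (n * w) (a - h + x r))
    (fun r => if x r < h then tot (n * w) n s a h (x r) else 0)
  have h3 : (fun r => ((a - h + x r) + n * (s - x r)) * f (n * w) (a - h + x r) -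
      (if x r < h then tot (n * w) n s a h (x r) else 0)) =
      (fun r => ((a - h + x r) + n * (s - x r)) * f (n * w) (a + max (x r - h) 0)) := by
    funext r
    by_cases h4 : x r < h
    · rw [if_pos h4, max_eq_right (by linarith), add_zero, tot]
      ring
    · push Not at h4
      rw [if_neg (not_lt.2 h4), sub_zero, max_eq_left (by linarith)]
      have e : a + (x r - h) = a - h + x r := by ring
      rw [e]
  rw [h3] at h2
  rw [h2]
  linarith

/-- For `0 ≤ y < h`, with `u = a - h + y ≥ 0`, `v = h - y ∈ (0,1]`, `u + v = a ≥ 1`, `z = s - y`: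
`tot (λ + u v) ≤ max 0 ((u + n z) v)`; precisely `tot ≤ (u + n z) v / (λ + u v)` if `u + n z ≥ 0` (`f_K10`), and
`tot ≤ 0` otherwise (`f` is nonincreasing). -/
theorem tot_le {lam n s a h y : ℝ} (hl : 0 < lam) (hy : 0 ≤ y) (hyh : y < h) (hh1 : h ≤ 1)
    (ha : 1 ≤ a) :
    tot lam n s a h y * (lam + (a - h + y) * (h - y)) ≤
      max 0 (((a - h + y) + n * (s - y)) * (h - y)) := by
  have hu0 : 0 ≤ a - h + y := by linarith
  have hv0 : 0 < h - y := by linarith
  have huv : (a - h + y) + (h - y) = a := by ring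
  have hK10 := f_K10 hl hu0 hv0 (by linarith) (by linarith)
  rw [huv] at hK10
  have hD : 0 ≤ f lam (a - h + y) - f lam a := sub_nonneg.2 (f_anti hl hu0 (by linarith))
  unfold tot
  set c := (a - h + y) + n * (s - y) with hc
  set D := f lam (a - h + y) - f lam a with hDdef
  set P := lam + (a - h + y) * (h - y) with hP
  have hP0 : 0 < P := by positivity
  by_cases h1 : 0 ≤ c
  · refine le_trans ?_ (le_max_right _ _)
    calc c * D * P = c * (P * D) := by ring
      _ ≤ c * (h - y) := mul_le_mul_of_nonneg_left hK10 h1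
  · push Not at h1
    refine le_trans ?_ (le_max_left _ _)
    have h2 : c * D ≤ 0 := mul_nonpos_of_nonpos_of_nonneg h1.le hD
    exact mul_nonpos_of_nonpos_of_nonneg h2 hP0.le

/-- Case B: `s h ≤ w`. For `x r < h`: `z v ≤ s h ≤ w` (`z = s - x r ≤ s`, `0 < v ≤ h`), so `n z v ≤ lam` and
`tot ≤ 1` by `tot_le`. Hence the mean is `≥ 1 - pr (x < h) ≥ pr (s + h ≤ x)`. -/
theorem betaB {x : R → ℝ} {s w : ℝ} (L : Law x s w) {n a h : ℝ} (hn : 0 < n) (ha : 1 ≤ a)
    (hh : 0 < h) (hh1 : h ≤ 1) (hB : s * h ≤ w) :
    pr (fun r => s + h ≤ x r) ≤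
      mn (fun r => ((a - h + x r) + n * (s - x r)) * f (n * w) (a + max (x r - h) 0)) := by
  refine le_trans ?_ (beta_ge L hn ha hh hh1)
  have hs0 : 0 ≤ s := by
    rw [← L.mean]
    exact mn_nonneg L.nonneg
  have hl : 0 < n * w := mul_pos hn L.wpos
  have hpt : ∀ r, (if x r < h then tot (n * w) n s a h (x r) else 0) ≤
      1 - (if s + h ≤ x r then (1 : ℝ) else 0) := by
    intro r
    by_cases h1 : x r < h
    · rw [if_pos h1, if_neg (by linarith), sub_zero]
      have h2 := tot_le (n := n) (s := s) hl (L.nonneg r) h1 hh1 ha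
      have hxr := L.nonneg r
      have hu0 : 0 ≤ a - h + x r := by linarith
      have hv0 : 0 < h - x r := by linarith
      have hP : 0 < n * w + (a - h + x r) * (h - x r) := by positivity
      have h3 : max 0 (((a - h + x r) + n * (s - x r)) * (h - x r)) ≤
          1 * (n * w + (a - h + x r) * (h - x r)) := by
        apply max_le
        · rw [one_mul]
          exact hP.le
        · have h4 : (s - x r) * (h - x r) ≤ w := by
            have h5 : (s - x r) * (h - x r) ≤ s * (h - x r) :=
              mul_le_mul_of_nonneg_right (by linarith) hv0.le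
            have h6 : s * (h - x r) ≤ s * h := mul_le_mul_of_nonneg_left (by linarith) hs0
            linarith
          have h7 := mul_le_mul_of_nonneg_left h4 hn.le
          linarith
      exact le_of_mul_le_mul_right (h2.trans h3) hP
    · rw [if_neg h1]
      by_cases h2 : s + h ≤ x r
      · rw [if_pos h2, sub_self]
      · rw [if_neg h2, sub_zero]
        exact zero_le_one
  have hmean := mn_le_mn hpt
  have h8 : mn (fun r => (1 - (if s + h ≤ x r then (1 : ℝ) else 0))) =
      mn (fun _ : R => (1 : ℝ)) - mn (fun r => if s + h ≤ x r then (1 : ℝ) else 0) :=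
    mn_sub (fun _ => (1 : ℝ)) (fun r => if s + h ≤ x r then (1 : ℝ) else 0)
  rw [h8, mn_const] at hmean
  have h9 : pr (fun r => s + h ≤ x r) = mn (fun r => if s + h ≤ x r then (1 : ℝ) else 0) := rfl
  rw [h9]
  linarith

end Pool.Agent.Lib.H3MT
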