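import Pool.Agent.Lib.H3MT.ACDefs

/-! # H3MT, chunk AC1: facts on the certificate functions -/

namespace Pool.Agent.Lib.H3MT

/-- `0 < g lam (-δ)`, so the denominator is positive; `g_anti`. -/
theorem Kbar_anti {lam δ y r r' : ℝ} (hl : 0 < lam) (hδ : 0 ≤ δ) (hy : 0 < y) (h : r ≤ r') :
    Kbar lam δ y r' ≤ Kbar lam δ y r := by
  unfold Kbar
  have h1 := g_pos hl (-δ)
  have h2 := g_anti hl h
  have h3 : 0 < 1 + δ * g lam (-δ) := by positivity
  apply div_le_div_of_nonneg_right _ h3.le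
  have := mul_le_mul_of_nonneg_left h2 hy.le
  linarith

/-- `K1 r ≤ (y+δ) f (1+δ) ≤ (y+δ) g (-δ)/(1+δ g(-δ)) = Kbar (-δ) ≤ Kbar r` for `r ≤ -δ` (`R5`, `f_anti`). -/
theorem K1_le_Kbar {lam δ y r : ℝ} (hl : 0 < lam) (hδ : 0 ≤ δ) (hy : 0 < y) (h : r ≤ -δ) :
    K1 lam δ y r ≤ Kbar lam δ y r := by
  refine le_trans ?_ (Kbar_anti hl hδ hy h)
  unfold K1 Kbar
  have h1 := g_pos hl (-δ)
  have h3 : 0 < 1 + δ * g lam (-δ) := by positivity
  have h4 : f lam (max (-r) (1 + δ)) ≤ f lam (1 + δ) :=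
    f_anti hl (by linarith) (le_max_right _ _)
  have h5 := R5 hl hδ
  rw [le_div_iff₀ h3]
  have h6 : 0 ≤ y + δ := by linarith
  calc (y + δ) * f lam (max (-r) (1 + δ)) * (1 + δ * g lam (-δ))
      ≤ (y + δ) * f lam (1 + δ) * (1 + δ * g lam (-δ)) := by
        apply mul_le_mul_of_nonneg_right _ h3.le
        exact mul_le_mul_of_nonneg_left h4 h6
    _ = (y + δ) * (f lam (1 + δ) * (1 + δ * g lam (-δ))) := by ring
    _ ≤ (y + δ) * g lam (-δ) := mul_le_mul_of_nonneg_left h5 h6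
    _ = y * g lam (-δ) + δ * g lam (-δ) := by ring

/-- `r ≤ 0`: `f (max (-r) (1+δ)) ≤ f 1 ≤ g 0 ≤ g r` (`f_le_g` with `d = 0`). -/
theorem K1_le_g {lam δ y r : ℝ} (hl : 0 < lam) (hδ : 0 ≤ δ) (hy : 0 < y) (h : r ≤ 0) :
    K1 lam δ y r ≤ (y + δ) * g lam r := by
  unfold K1
  have h6 : 0 ≤ y + δ := by linarith
  apply mul_le_mul_of_nonneg_left _ h6
  have h1 : f lam (max (-r) (1 + δ)) ≤ f lam 1 :=
    f_anti hl (by norm_num) (le_trans (by linarith) (le_max_right (-r) (1 + δ)))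
  have h2 : f lam 1 ≤ g lam 0 := by
    have := f_le_g hl (le_refl (0 : ℝ))
    rwa [add_zero] at this
  exact h1.trans (h2.trans (g_anti hl h))

/-- `r ≤ y`: after multiplication by the denominator the claim is
`δ g(-δ) ≤ δ g r + δ (y+δ) g r g(-δ)`; since `g y ≤ g r` it suffices that
`g (-δ) - g y ≤ (y+δ) g(-δ) g y`, which is `g_K6` with `r = -δ`, `h = y + δ`. -/
theorem Kbar_le_g {lam δ y r : ℝ} (hl : 0 < lam) (hδ : 0 ≤ δ) (hy : 0 < y) (h : r ≤ y) :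
    Kbar lam δ y r ≤ (y + δ) * g lam r := by
  unfold Kbar
  have h1 := g_pos hl (-δ)
  have h3 : 0 < 1 + δ * g lam (-δ) := by positivity
  rw [div_le_iff₀ h3]
  have h6 := g_K6 (lam := lam) (r := -δ) (h := y + δ) hl (by linarith)
  rw [show -δ + (y + δ) = y by ring] at h6
  have h7 := g_anti hl h
  have h8 : 0 ≤ y + δ := by linarith
  have h9 : 0 ≤ 1 + (y + δ) * g lam (-δ) := by positivity
  have h10 : g lam (-δ) ≤ g lam r * (1 + (y + δ) * g lam (-δ)) := by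
    calc g lam (-δ) ≤ g lam y * (1 + (y + δ) * g lam (-δ)) := by linarith
      _ ≤ g lam r * (1 + (y + δ) * g lam (-δ)) := mul_le_mul_of_nonneg_right h7 h9
  have h11 := mul_le_mul_of_nonneg_left h10 hδ
  linarith

/-- `m * x - ((m+1) s - q)` with `x = q - r` is `≥ 0` iff `(m+1) q ≥ m r + (m+1) s`; if `r ≤ rho c` and `c ≤ q`
this holds. -/
theorem coef_nonneg {m : ℕ} (hm : 1 ≤ m) {s c q x : ℝ} (h : q - x ≤ rho m s c) (hc : c ≤ q) :
    0 ≤ (m : ℝ) * x - (((m : ℝ) + 1) * s - q) := by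
  unfold rho at h
  have hm0 : (0 : ℝ) < m := by exact_mod_cast hm
  rw [le_div_iff₀ hm0] at h
  have h2 : ((m : ℝ) + 1) * c ≤ ((m : ℝ) + 1) * q := mul_le_mul_of_nonneg_left hc (by positivity)
  linarith

theorem coef_nonpos {m : ℕ} (hm : 1 ≤ m) {s c q x : ℝ} (h : rho m s c < q - x) (hc : q ≤ c) :
    (m : ℝ) * x - (((m : ℝ) + 1) * s - q) ≤ 0 := by
  unfold rho at h
  have hm0 : (0 : ℝ) < m := by exact_mod_cast hm
  rw [div_lt_iff₀ hm0] at h
  have h2 : ((m : ℝ) + 1) * q ≤ ((m : ℝ) + 1) * c := mul_le_mul_of_nonneg_left hc (by positivity)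
  linarith

end Pool.Agent.Lib.H3MT
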