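import Pool.Agent.Lib.H3MT.AC1

/-! # H3MT, chunk AC2: the certificate below `-δ` -/

namespace Pool.Agent.Lib.H3MT

variable {R : Type} [Fintype R] [Nonempty R]

/-- `q ≤ -δ`: for every `r` the term with `Khat` is at most the term with `K1`: if `q - x r ≤ rho (-δ)` they are equal;
otherwise the coefficient is `≤ 0` (`coef_nonpos` with `c = -δ`) and `Khat ≥ K1` (`q - x r ≤ q ≤ -δ ≤ 0`:
`K1_le_Kbar`, `K1_le_g`). -/
theorem BK_le_BK1 {x : R → ℝ} {s w : ℝ} (L : Law x s w) {m : ℕ} (hm : 1 ≤ m) {δ y q : ℝ}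
    (hδ : 0 ≤ δ) (hy : 0 < y) (hq : q ≤ -δ) :
    BK m x s (Khat m s (((m : ℝ) + 1) * w) δ y) q ≤ BK m x s (K1 (((m : ℝ) + 1) * w) δ y) q := by
  obtain ⟨lam, hlam⟩ : ∃ lam : ℝ, lam = ((m : ℝ) + 1) * w := ⟨_, rfl⟩
  have hm0 : (0 : ℝ) < m := by exact_mod_cast hm
  have hl : 0 < lam := by
    rw [hlam]
    have := L.wpos
    positivity
  unfold BK
  rw [← hlam]
  refine mn_le_mn (fun r => ?_)
  have hx := L.nonneg r
  unfold Khat
  by_cases h1 : q - x r ≤ rho m s (-δ)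
  · rw [if_pos h1]
  · rw [if_neg h1]
    push Not at h1
    have hc := coef_nonpos hm h1 hq
    refine mul_le_mul_of_nonpos_left ?_ hc
    by_cases h2 : q - x r ≤ rho m s y
    · rw [if_pos h2]
      exact K1_le_Kbar hl hδ hy (by linarith)
    · rw [if_neg h2]
      exact K1_le_g hl hδ hy (by linarith)

theorem AC2_K1 {x : R → ℝ} {s w : ℝ} {m : ℕ} {δ y q : ℝ} :
    BK m x s (K1 (((m : ℝ) + 1) * w) δ y) q = -((y + δ) * mn (fun r =>
      ((-q + x r) + ((m : ℝ) + 1) * (s - x r)) * f (((m : ℝ) + 1) * w) (max (x r - q) (1 + δ)))) := by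
  unfold BK K1
  rw [← mn_mul_left, ← neg_one_mul, ← mn_mul_left]
  congr 1
  funext r
  have e : -(q - x r) = x r - q := by ring
  rw [e]
  ring

theorem AC2_pr_le {P : R → Prop} : pr P ≤ 1 := by
  classical
  unfold pr
  refine (mn_le_mn (ψ := fun _ => (1 : ℝ)) (fun r => ?_)).trans (le_of_eq (mn_const 1))
  split_ifs <;> norm_num

/-- `BK K1 q = -(y+δ) E[((-q + x) + (m+1)(s - x)) f (max (x - q) (1+δ))]`.
If `q ≤ -(1+δ)`: `max (x - q) (1+δ) = -q + x`, `Bminus` with `t = -q`, and `pr ≤ 1`.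
If `-(1+δ) < q ≤ -δ`: `beta` with `a = 1+δ`, `h = 1+δ+q ∈ (0,1]`. In both cases `¬ (-δ < q)`, `¬ (y < q)`. -/
theorem cert_low {x : R → ℝ} {s w : ℝ} (L : Law x s w) {m : ℕ} (hm : 1 ≤ m) {δ y q : ℝ}
    (hδ : 0 ≤ δ) (hy : 0 < y) (hq : q ≤ -δ) :
    BK m x s (Khat m s (((m : ℝ) + 1) * w) δ y) q ≤ Fq x s δ y q := by
  refine (BK_le_BK1 L hm hδ hy hq).trans ?_
  have hm0 : (0 : ℝ) < m := by exact_mod_cast hm
  have hn : (0 : ℝ) < (m : ℝ) + 1 := by linarith
  have hF : Fq x s δ y q = -((y + δ) * pr (fun r => 1 + δ + s + q ≤ x r)) := by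
    unfold Fq
    rw [if_neg (by linarith), if_neg (by linarith)]
    ring
  rw [hF, AC2_K1]
  refine neg_le_neg (mul_le_mul_of_nonneg_left ?_ (by linarith))
  by_cases h : q ≤ -(1 + δ)
  · have h1 := Bminus L hn (t := -q) (by linarith)
    refine (AC2_pr_le).trans (h1.trans (le_of_eq ?_))
    congr 1
    funext r
    have hx := L.nonneg r
    have e : max (x r - q) (1 + δ) = -q + x r := by
      rw [max_eq_left (by linarith)]
      ring
    rw [e]
  · push Not at h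
    have h1 := beta L (n := (m : ℝ) + 1) (a := 1 + δ) (h := 1 + δ + q) (by linarith) (by linarith)
      (by linarith) (by linarith)
    refine (le_of_eq ?_).trans (h1.trans (le_of_eq ?_))
    · congr 1
      funext r
      have e : s + (1 + δ + q) = 1 + δ + s + q := by ring
      rw [e]
    · congr 1
      funext r
      have e1 : 1 + δ - (1 + δ + q) + x r = -q + x r := by ring
      have e2 : 1 + δ + max (x r - (1 + δ + q)) 0 = max (x r - q) (1 + δ) := by
        rw [← max_add_add_left]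
        congr 1 <;> ring
      rw [e1, e2]

end Pool.Agent.Lib.H3MT
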