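import Pool.Agent.Lib.H3MT.AC1

/-! # H3MT, chunk AC3: the certificate above `-δ` -/

namespace Pool.Agent.Lib.H3MT

variable {R : Type} [Fintype R] [Nonempty R]

/-- the kernel functional of (B+) at `q` -/
noncomputable def bg (m : ℕ) (x : R → ℝ) (s w q : ℝ) : ℝ :=
  mn (fun r => ((q - x r) + ((m : ℝ) + 1) * (x r - s)) * g (((m : ℝ) + 1) * w) (q - x r))

theorem bg_le_one {x : R → ℝ} {s w : ℝ} (L : Law x s w) (m : ℕ) (q : ℝ) : bg m x s w q ≤ 1 :=
  Bplus L (by positivity) q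

theorem AC3_s {x : R → ℝ} {s w : ℝ} (L : Law x s w) : 0 ≤ s := by
  rw [← L.mean]
  exact mn_nonneg L.nonneg

theorem AC3_rho_le {m : ℕ} (hm : 1 ≤ m) {s c : ℝ} (h : c ≤ ((m : ℝ) + 1) * s) :
    rho m s c ≤ c := by
  have hm0 : (0 : ℝ) < m := by exact_mod_cast hm
  unfold rho
  rw [div_le_iff₀ hm0]
  nlinarith

theorem AC3_mean {x : R → ℝ} {s w : ℝ} (L : Law x s w) {m : ℕ} {q : ℝ} :
    mn (fun r => (q - x r) + ((m : ℝ) + 1) * (x r - s)) = q - s := by
  rw [mn_add, mn_sub, mn_const, mn_mul_left, mn_sub, mn_const]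
  have h := L.mean
  have h2 : mn (fun r => x r) = s := h
  rw [h2]
  ring

/-- `-δ < q ≤ y`. Termwise `coef * Khat ≤ coef * Kbar`: for `q - x r ≤ rho (-δ)` the coefficient is `≥ 0`
(`coef_nonneg`, `c = -δ`) and `Khat = K1 ≤ Kbar` (`rho (-δ) ≤ -δ`); for `rho y < q - x r` the coefficient is
`≤ 0` (`coef_nonpos`, `c = y`) and `Khat ≥ Kbar` (`Kbar_le_g`, `q - x r ≤ q ≤ y`) (if `q - x r ≤ rho (-δ)` and
`rho y < q - x r` both... they exclude each other as `-δ < y`). Then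
`BK Kbar q = (y * bg q + δ g(-δ) * (q - s))/(1 + δ g(-δ))`, since the coefficient is
`(q - x) + (m+1)(x - s)` and has mean `q - s`. -/
theorem cert_mid {x : R → ℝ} {s w : ℝ} (L : Law x s w) {m : ℕ} (hm : 1 ≤ m) {δ y q : ℝ}
    (hδ : 0 ≤ δ) (hy : 0 < y) (hq1 : -δ < q) (hq2 : q ≤ y) :
    BK m x s (Khat m s (((m : ℝ) + 1) * w) δ y) q ≤
      (y * bg m x s w q + δ * g (((m : ℝ) + 1) * w) (-δ) * (q - s)) /
        (1 + δ * g (((m : ℝ) + 1) * w) (-δ)) := by
  obtain ⟨lam, hlam⟩ : ∃ lam : ℝ, lam = ((m : ℝ) + 1) * w := ⟨_, rfl⟩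
  have hm0 : (0 : ℝ) < m := by exact_mod_cast hm
  have hl : 0 < lam := by
    rw [hlam]
    have := L.wpos
    positivity
  have hs : 0 ≤ s := AC3_s L
  have hG : 0 < g lam (-δ) := g_pos hl _
  have hden : 0 < 1 + δ * g lam (-δ) := by positivity
  have hterm : ∀ r, ((m : ℝ) * x r - (((m : ℝ) + 1) * s - q)) * Khat m s lam δ y (q - x r) ≤
      ((m : ℝ) * x r - (((m : ℝ) + 1) * s - q)) * Kbar lam δ y (q - x r) := by
    intro r
    have hx := L.nonneg r
    unfold Khat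
    by_cases h1 : q - x r ≤ rho m s (-δ)
    · rw [if_pos h1]
      have hc := coef_nonneg hm h1 hq1.le
      refine mul_le_mul_of_nonneg_left ?_ hc
      refine K1_le_Kbar hl hδ hy (h1.trans ?_)
      exact AC3_rho_le hm (by nlinarith)
    · rw [if_neg h1]
      by_cases h2 : q - x r ≤ rho m s y
      · rw [if_pos h2]
      · rw [if_neg h2]
        push Not at h2
        have hc := coef_nonpos hm h2 hq2
        refine mul_le_mul_of_nonpos_left ?_ hc
        exact Kbar_le_g hl hδ hy (by linarith)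
  unfold BK
  rw [← hlam]
  refine (mn_le_mn hterm).trans (le_of_eq ?_)
  have e1 : ∀ r, ((m : ℝ) * x r - (((m : ℝ) + 1) * s - q)) * Kbar lam δ y (q - x r) =
      ((y / (1 + δ * g lam (-δ))) * (((q - x r) + ((m : ℝ) + 1) * (x r - s)) * g lam (q - x r))) +
      ((δ * g lam (-δ)) / (1 + δ * g lam (-δ))) * ((q - x r) + ((m : ℝ) + 1) * (x r - s)) := by
    intro r
    unfold Kbar
    field_simp
    ring
  rw [funext e1, mn_add, mn_mul_left, mn_mul_left, AC3_mean L, bg, ← hlam]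
  field_simp

/-- `y < q ≤ (m+1) s`. Termwise `coef * Khat ≤ coef * (y+δ) g`: for `q - x r ≤ rho y` the coefficient is `≥ 0` and
`Khat ≤ (y+δ) g` (`K1_le_g` as `rho (-δ) ≤ 0`; `Kbar_le_g` as `rho y ≤ y` because `y ≤ (m+1) s`). -/
theorem cert_high {x : R → ℝ} {s w : ℝ} (L : Law x s w) {m : ℕ} (hm : 1 ≤ m) {δ y q : ℝ}
    (hδ : 0 ≤ δ) (hy : 0 < y) (hq1 : y < q) (hq2 : q ≤ ((m : ℝ) + 1) * s) :
    BK m x s (Khat m s (((m : ℝ) + 1) * w) δ y) q ≤ (y + δ) * bg m x s w q := by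
  obtain ⟨lam, hlam⟩ : ∃ lam : ℝ, lam = ((m : ℝ) + 1) * w := ⟨_, rfl⟩
  have hm0 : (0 : ℝ) < m := by exact_mod_cast hm
  have hl : 0 < lam := by
    rw [hlam]
    have := L.wpos
    positivity
  have hs : 0 ≤ s := AC3_s L
  have hterm : ∀ r, ((m : ℝ) * x r - (((m : ℝ) + 1) * s - q)) * Khat m s lam δ y (q - x r) ≤
      (y + δ) * (((q - x r) + ((m : ℝ) + 1) * (x r - s)) * g lam (q - x r)) := by
    intro r
    have hx := L.nonneg r
    have e : (y + δ) * (((q - x r) + ((m : ℝ) + 1) * (x r - s)) * g lam (q - x r)) =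
        ((m : ℝ) * x r - (((m : ℝ) + 1) * s - q)) * ((y + δ) * g lam (q - x r)) := by ring
    rw [e]
    unfold Khat
    by_cases h1 : q - x r ≤ rho m s (-δ)
    · rw [if_pos h1]
      have hc := coef_nonneg hm h1 (by linarith)
      refine mul_le_mul_of_nonneg_left ?_ hc
      refine K1_le_g hl hδ hy ?_
      have := AC3_rho_le (s := s) (c := -δ) hm (by nlinarith)
      linarith
    · rw [if_neg h1]
      by_cases h2 : q - x r ≤ rho m s y
      · rw [if_pos h2]
        have hc := coef_nonneg hm h2 hq1.le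
        refine mul_le_mul_of_nonneg_left ?_ hc
        refine Kbar_le_g hl hδ hy (h2.trans ?_)
        exact AC3_rho_le hm (by linarith)
      · rw [if_neg h2]
  unfold BK
  rw [← hlam]
  refine (mn_le_mn hterm).trans (le_of_eq ?_)
  rw [mn_mul_left, bg, ← hlam]

/-- For `-δ < q`: `1 + δ + s + q > 1 + s ≥ x r`, so the probability in `Fq` is `0`. -/
theorem Fq_of_lt {x : R → ℝ} {s w : ℝ} (L : Law x s w) {δ y q : ℝ} (hq : -δ < q) :
    Fq x s δ y q = y + (if y < q then δ else 0) := by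
  classical
  have h1 : pr (fun r => 1 + δ + s + q ≤ x r) = 0 := by
    unfold pr
    have h2 : (fun r => if 1 + δ + s + q ≤ x r then (1 : ℝ) else 0) = fun _ => 0 := by
      funext r
      rw [if_neg]
      have := L.le r
      intro h
      linarith
    have h3 := mn_const (R := R) 0
    rw [← h2] at h3
    refine Eq.trans ?_ h3
    congr 1
  unfold Fq
  rw [if_pos hq, h1]
  ring

end Pool.Agent.Lib.H3MT
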