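import Pool.Agent.Lib.H3MT.AC2
import Pool.Agent.Lib.H3MT.AC3

/-! # H3MT, chunk AC4: the certificate and the two-point inequality -/

namespace Pool.Agent.Lib.H3MT

variable {R : Type} [Fintype R] [Nonempty R]

/-- from `cert_low`, `cert_mid`, `cert_high`, `Fq_of_lt`, `bg_le_one`, `q - s ≤ y` (`s ≥ 0`). -/
theorem cert {x : R → ℝ} {s w : ℝ} (L : Law x s w) {m : ℕ} (hm : 1 ≤ m) {δ y q : ℝ}
    (hδ : 0 ≤ δ) (hy : 0 < y) (hq : q ≤ ((m : ℝ) + 1) * s) :
    BK m x s (Khat m s (((m : ℝ) + 1) * w) δ y) q ≤ Fq x s δ y q := by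
  have hs : 0 ≤ s := by rw [← L.mean]; exact mn_nonneg L.nonneg
  have hl : 0 < ((m : ℝ) + 1) * w := by have := L.wpos; positivity
  by_cases h1 : q ≤ -δ
  · exact cert_low L hm hδ hy h1
  push Not at h1
  rw [Fq_of_lt L h1]
  have hb := bg_le_one L m q
  by_cases h2 : q ≤ y
  · rw [if_neg (not_lt.2 h2), add_zero]
    refine (cert_mid L hm hδ hy h1 h2).trans ?_
    have h3 := g_pos hl (-δ)
    have h4 : 0 < 1 + δ * g (((m : ℝ) + 1) * w) (-δ) := by positivity
    rw [div_le_iff₀ h4]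
    have h5 : y * bg m x s w q ≤ y * 1 := mul_le_mul_of_nonneg_left hb hy.le
    have h6 : δ * g (((m : ℝ) + 1) * w) (-δ) * (q - s) ≤ δ * g (((m : ℝ) + 1) * w) (-δ) * y :=
      mul_le_mul_of_nonneg_left (by linarith) (by positivity)
    linarith
  · push Not at h2
    rw [if_pos h2]
    refine (cert_high L hm hδ hy h2 hq).trans ?_
    have h5 : (y + δ) * bg m x s w q ≤ (y + δ) * 1 := mul_le_mul_of_nonneg_left hb (by linarith)
    linarith

/-- (TP). `stein` with `φ S = Khat ((m+1) s - S)` says that the mean over `v` of `BK Khat (Q v)` is `0`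
(`∑ x (v i) = (m+1) s - Q v`, `(m+1) s - (∑ + x r) = Q v - x r`); `Q v ≤ (m+1) s`; apply `cert` and expand the mean of
`Fq (Q v)`. -/
theorem TP {x : R → ℝ} {s w : ℝ} (L : Law x s w) {m : ℕ} (hm : 1 ≤ m) {δ y : ℝ}
    (hδ : 0 ≤ δ) (hy : 0 < y) :
    (y + δ) * mn (fun v : Fin m → R => pr (fun r => 1 + δ + s + Qv m x s v ≤ x r)) ≤
      y * pr (fun v : Fin m → R => -δ < Qv m x s v) + δ * pr (fun v : Fin m → R => y < Qv m x s v) := by
  classical
  have h0 := stein m x (fun S => Khat m s (((m : ℝ) + 1) * w) δ y (((m : ℝ) + 1) * s - S))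
  have h1 : mn (fun v : Fin m → R =>
      BK m x s (Khat m s (((m : ℝ) + 1) * w) δ y) (Qv m x s v)) = 0 := by
    rw [← h0]
    congr 1
    funext v
    unfold BK
    congr 1
    funext r
    unfold Qv
    congr 1
    · ring
    · congr 1; ring
  have h2 : mn (fun v : Fin m → R =>
      BK m x s (Khat m s (((m : ℝ) + 1) * w) δ y) (Qv m x s v)) ≤
      mn (fun v : Fin m → R => Fq x s δ y (Qv m x s v)) := by
    apply mn_le_mn
    intro v
    refine cert L hm hδ hy ?_
    unfold Qv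
    have : 0 ≤ ∑ i, x (v i) := Finset.sum_nonneg fun i _ => L.nonneg _
    linarith
  rw [h1] at h2
  have h3 : mn (fun v : Fin m → R => Fq x s δ y (Qv m x s v)) =
      y * pr (fun v : Fin m → R => -δ < Qv m x s v) + δ * pr (fun v : Fin m → R => y < Qv m x s v)
      - (y + δ) * mn (fun v : Fin m → R => pr (fun r => 1 + δ + s + Qv m x s v ≤ x r)) := by
    unfold Fq
    rw [mn_sub, mn_add, mn_mul_left]
    congr 1
    congr 1
    · unfold pr
      rw [← mn_mul_left]
      congr 1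
      funext v
      split_ifs <;> simp
    · unfold pr
      rw [← mn_mul_left]
      congr 1
      funext v
      split_ifs <;> simp
  rw [h3] at h2
  linarith

end Pool.Agent.Lib.H3MT
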