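import Pool.Agent.Lib.H3MT.AK1

/-! # H3MT, chunk AK6 -/

open MeasureTheory Set

namespace Pool.Agent.Lib.H3MT

/-- the tail at `b` -/
theorem AK6_tail {lam r b : ℝ} (hl : 0 < lam) (hb : 0 ≤ b) :
    g lam r - ∫ c in (0 : ℝ)..b, Real.exp (-(c * r)) * W lam c ≤
      Real.exp (-(b * r)) * W lam b * g lam r := by
  have hk : Continuous (fun c : ℝ => Real.exp (-(c * r)) * W lam c) := by
    have := W_continuous lam
    fun_prop
  have hi : ∀ x y : ℝ, IntervalIntegrable (fun c : ℝ => Real.exp (-(c * r)) * W lam c)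
      volume x y := fun x y => hk.intervalIntegrable x y
  have hw0 : 0 ≤ Real.exp (-(b * r)) * W lam b := mul_nonneg (Real.exp_pos _).le (W_pos _ _).le
  have t1 : Filter.Tendsto (fun X : ℝ => (∫ c in (0 : ℝ)..X, Real.exp (-(c * r)) * W lam c) -
      ∫ c in (0 : ℝ)..b, Real.exp (-(c * r)) * W lam c) Filter.atTop
      (nhds (g lam r - ∫ c in (0 : ℝ)..b, Real.exp (-(c * r)) * W lam c)) :=
    (intervalIntegral_tendsto_integral_Ioi 0 (g_int hl r) Filter.tendsto_id).sub_const _
  refine le_of_tendsto t1 ((Filter.eventually_ge_atTop b).mono fun X hX => ?_)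
  rw [intervalIntegral.integral_interval_sub_left (hi 0 X) (hi 0 b)]
  have h1 : ∫ c in b..X, Real.exp (-(c * r)) * W lam c =
      ∫ c in (0 : ℝ)..(X - b), Real.exp (-((b + c) * r)) * W lam (b + c) := by
    rw [intervalIntegral.integral_comp_add_left (fun c => Real.exp (-(c * r)) * W lam c) b]
    congr 1
    · ring
    · ring
  rw [h1]
  have hk2 : Continuous (fun c : ℝ => Real.exp (-((b + c) * r)) * W lam (b + c)) :=
    hk.comp (continuous_const.add continuous_id)
  have hXb : 0 ≤ X - b := by linarith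
  have h2 : ∫ c in (0 : ℝ)..(X - b), Real.exp (-((b + c) * r)) * W lam (b + c) ≤
      ∫ c in (0 : ℝ)..(X - b),
        (Real.exp (-(b * r)) * W lam b) * (Real.exp (-(c * r)) * W lam c) := by
    apply intervalIntegral.integral_mono_on hXb (hk2.intervalIntegrable _ _)
      ((hk.const_mul _).intervalIntegrable _ _)
    intro c hc
    have h3 := W_add_le hl hb hc.1
    have h4 : Real.exp (-((b + c) * r)) = Real.exp (-(b * r)) * Real.exp (-(c * r)) := by
      rw [← Real.exp_add]
      congr 1
      ring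
    rw [h4]
    have h5 : 0 ≤ Real.exp (-(b * r)) * Real.exp (-(c * r)) :=
      mul_nonneg (Real.exp_pos _).le (Real.exp_pos _).le
    calc Real.exp (-(b * r)) * Real.exp (-(c * r)) * W lam (b + c)
        ≤ Real.exp (-(b * r)) * Real.exp (-(c * r)) * (W lam b * W lam c) :=
          mul_le_mul_of_nonneg_left h3 h5
      _ = _ := by ring
  refine h2.trans ?_
  rw [intervalIntegral.integral_const_mul]
  apply mul_le_mul_of_nonneg_left _ hw0
  rw [intervalIntegral.integral_of_le hXb]
  unfold g
  apply setIntegral_mono_set (g_int hl r)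
  · exact Filter.Eventually.of_forall fun c => mul_nonneg (Real.exp_pos _).le (W_pos _ _).le
  · exact Filter.Eventually.of_forall fun c (hc : c ∈ Ioc (0 : ℝ) (X - b)) => hc.1

theorem AK6_tail_nonneg {lam r b : ℝ} (hl : 0 < lam) (hb : 0 ≤ b) :
    0 ≤ g lam r - ∫ c in (0 : ℝ)..b, Real.exp (-(c * r)) * W lam c := by
  have h : ∫ c in (0 : ℝ)..b, Real.exp (-(c * r)) * W lam c ≤ g lam r := by
    rw [intervalIntegral.integral_of_le hb]
    unfold g
    apply setIntegral_mono_set (g_int hl r)
    · exact Filter.Eventually.of_forall fun c => mul_nonneg (Real.exp_pos _).le (W_pos _ _).le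
    · exact Filter.Eventually.of_forall fun c (hc : c ∈ Ioc (0 : ℝ) b) => hc.1
  linarith

/-- Let `w b = e^{-br} W lam b`, so `w (b+c) ≤ w b * w c` for `b, c ≥ 0` (`W_add_le`), and
`Tail b = ∫ c in Ioi b, w c = ∫ c in Ioi 0, w (b + c) ≤ w b * g lam r`.
`d/db [Tail b * (1 - e^{-hb})] = - w b (1 - e^{-hb}) + h e^{-hb} Tail b`, and `Tail b (1 - e^{-hb})` is
`0` at `b = 0` and tends to `0` at infinity; so
`g lam r - g lam (r+h) = ∫ w b (1 - e^{-hb}) = h ∫ e^{-hb} Tail b ≤ h * g lam r * ∫ e^{-hb} w b`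
`= h * g lam r * g lam (r+h)`.
(Alternatively: `∬ w(b) w(c) e^{-hc} ≥ ∬ w(b+c) e^{-hc}` and Tonelli.) -/
theorem g_K6 {lam r h : ℝ} (hl : 0 < lam) (hh : 0 ≤ h) :
    g lam r - g lam (r + h) ≤ h * g lam r * g lam (r + h) := by
  have hk : Continuous (fun c : ℝ => Real.exp (-(c * r)) * W lam c) := by
    have := W_continuous lam
    fun_prop
  obtain ⟨T, hT⟩ : ∃ T : ℝ → ℝ, T = fun b => g lam r -
    ∫ c in (0 : ℝ)..b, Real.exp (-(c * r)) * W lam c := ⟨_, rfl⟩
  have hTd : ∀ b, HasDerivAt T (-(Real.exp (-(b * r)) * W lam b)) b := by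
    intro b
    rw [hT]
    exact ((hk.integral_hasStrictDerivAt 0 b).hasDerivAt).const_sub (g lam r)
  have hTc : Continuous T := continuous_iff_continuousAt.mpr fun b => (hTd b).continuousAt
  have hTle : ∀ b, 0 ≤ b → T b ≤ Real.exp (-(b * r)) * W lam b * g lam r := by
    intro b hb
    rw [hT]
    exact AK6_tail hl hb
  have hT0 : ∀ b, 0 ≤ b → 0 ≤ T b := by
    intro b hb
    rw [hT]
    exact AK6_tail_nonneg hl hb
  have hTt : Filter.Tendsto T Filter.atTop (nhds 0) := by
    have t1 : Filter.Tendsto T Filter.atTop (nhds (g lam r - g lam r)) := by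
      rw [hT]
      exact (intervalIntegral_tendsto_integral_Ioi 0 (g_int hl r) Filter.tendsto_id).const_sub _
    rwa [sub_self] at t1
  have hEd : ∀ b : ℝ, HasDerivAt (fun b : ℝ => 1 - Real.exp (-(b * h)))
      (h * Real.exp (-(b * h))) b := by
    intro b
    have h1 : HasDerivAt (fun b : ℝ => -(b * h)) (-h) b := (hasDerivAt_mul_const h (x := b)).neg
    have h2 := h1.exp.const_sub 1
    refine h2.congr_deriv ?_
    ring
  have hGd : ∀ b : ℝ, HasDerivAt (fun b : ℝ => T b * (1 - Real.exp (-(b * h))))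
      (-(Real.exp (-(b * r)) * W lam b) * (1 - Real.exp (-(b * h))) +
        T b * (h * Real.exp (-(b * h)))) b := fun b => (hTd b).mul (hEd b)
  have hGt : Filter.Tendsto (fun b : ℝ => T b * (1 - Real.exp (-(b * h)))) Filter.atTop
      (nhds 0) := by
    refine tendsto_of_tendsto_of_tendsto_of_le_of_le' tendsto_const_nhds hTt ?_ ?_
    · refine (Filter.eventually_ge_atTop 0).mono fun b hb => ?_
      have h1 : Real.exp (-(b * h)) ≤ 1 := by
        rw [Real.exp_le_one_iff]
        have := mul_nonneg hb hh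
        linarith
      exact mul_nonneg (hT0 b hb) (by linarith)
    · refine (Filter.eventually_ge_atTop 0).mono fun b hb => ?_
      have h1 := Real.exp_pos (-(b * h))
      calc T b * (1 - Real.exp (-(b * h))) ≤ T b * 1 :=
            mul_le_mul_of_nonneg_left (by linarith) (hT0 b hb)
        _ = T b := mul_one _
  -- integrability
  have i1 := g_int hl r
  have i2 := g_int hl (r + h)
  have hmul : ∀ b : ℝ, Real.exp (-(b * (r + h))) = Real.exp (-(b * r)) * Real.exp (-(b * h)) := by
    intro b
    rw [← Real.exp_add]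
    congr 1
    ring
  have j1 : IntegrableOn (fun b : ℝ => -(Real.exp (-(b * r)) * W lam b) *
      (1 - Real.exp (-(b * h)))) (Ioi 0) := by
    have h1 : (fun b : ℝ => -(Real.exp (-(b * r)) * W lam b) * (1 - Real.exp (-(b * h)))) =
        fun b : ℝ => Real.exp (-(b * (r + h))) * W lam b - Real.exp (-(b * r)) * W lam b := by
      funext b
      rw [hmul]
      ring
    rw [h1]
    exact i2.sub i1
  have j2 : IntegrableOn (fun b : ℝ => T b * (h * Real.exp (-(b * h)))) (Ioi 0) := by
    have h1 : IntegrableOn (fun b : ℝ => (h * g lam r) *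
        (Real.exp (-(b * (r + h))) * W lam b)) (Ioi 0) := i2.const_mul _
    refine Integrable.mono' h1 ?_ ?_
    · have : Continuous (fun b : ℝ => T b * (h * Real.exp (-(b * h)))) := by fun_prop
      exact this.aestronglyMeasurable
    · refine (ae_restrict_iff' measurableSet_Ioi).mpr (Filter.Eventually.of_forall fun b hb => ?_)
      have hb' : (0 : ℝ) ≤ b := le_of_lt hb
      have h2 : 0 ≤ h * Real.exp (-(b * h)) := mul_nonneg hh (Real.exp_pos _).le
      rw [Real.norm_of_nonneg (mul_nonneg (hT0 b hb') h2)]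
      calc T b * (h * Real.exp (-(b * h)))
          ≤ (Real.exp (-(b * r)) * W lam b * g lam r) * (h * Real.exp (-(b * h))) :=
            mul_le_mul_of_nonneg_right (hTle b hb') h2
        _ = (h * g lam r) * (Real.exp (-(b * (r + h))) * W lam b) := by
            rw [hmul]
            ring
  have hfin := integral_Ioi_of_hasDerivAt_of_tendsto (a := (0 : ℝ))
    (hGd 0).continuousAt.continuousWithinAt (fun b _ => hGd b) (j1.add j2) hGt
  have hG0 : T 0 * (1 - Real.exp (-((0 : ℝ) * h))) = 0 := by
    simp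
  rw [integral_add j1 j2, hG0, sub_zero] at hfin
  have e1 : ∫ b in Ioi (0 : ℝ), -(Real.exp (-(b * r)) * W lam b) * (1 - Real.exp (-(b * h))) =
      g lam (r + h) - g lam r := by
    have h1 : (fun b : ℝ => -(Real.exp (-(b * r)) * W lam b) * (1 - Real.exp (-(b * h)))) =
        fun b : ℝ => Real.exp (-(b * (r + h))) * W lam b - Real.exp (-(b * r)) * W lam b := by
      funext b
      rw [hmul]
      ring
    rw [h1, integral_sub i2 i1]
    rfl
  have e2 : ∫ b in Ioi (0 : ℝ), T b * (h * Real.exp (-(b * h))) ≤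
      (h * g lam r) * g lam (r + h) := by
    have h1 : ∫ b in Ioi (0 : ℝ), (h * g lam r) * (Real.exp (-(b * (r + h))) * W lam b) =
        (h * g lam r) * g lam (r + h) := by
      rw [integral_const_mul]
      rfl
    rw [← h1]
    refine setIntegral_mono_on j2 (i2.const_mul _) measurableSet_Ioi fun b hb => ?_
    have hb' : (0 : ℝ) ≤ b := le_of_lt hb
    have h2 : 0 ≤ h * Real.exp (-(b * h)) := mul_nonneg hh (Real.exp_pos _).le
    calc T b * (h * Real.exp (-(b * h)))
        ≤ (Real.exp (-(b * r)) * W lam b * g lam r) * (h * Real.exp (-(b * h))) :=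
          mul_le_mul_of_nonneg_right (hTle b hb') h2
      _ = (h * g lam r) * (Real.exp (-(b * (r + h))) * W lam b) := by
          rw [hmul]
          ring
  rw [e1] at hfin
  linarith

end Pool.Agent.Lib.H3MT
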