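import Pool.Agent.Lib.H3MT.AK1

/-! # H3MT, chunk AK8 -/

open MeasureTheory Set

namespace Pool.Agent.Lib.H3MT

theorem AK8_nonneg {F F' : ℝ → ℝ} (h0 : F 0 = 0) (hd : ∀ x, HasDerivAt F (F' x) x)
    (hn : ∀ x, 0 ≤ x → 0 ≤ F' x) {x : ℝ} (hx : 0 ≤ x) : 0 ≤ F x := by
  have hm : MonotoneOn F (Ici 0) := by
    apply monotoneOn_of_deriv_nonneg (convex_Ici 0)
    · exact fun y _ => (hd y).continuousAt.continuousWithinAt
    · exact fun y _ => (hd y).differentiableAt.differentiableWithinAt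
    · intro y hy
      rw [interior_Ici] at hy
      rw [(hd y).deriv]
      exact hn y (le_of_lt hy)
  have := hm (mem_Ici.mpr (le_refl 0)) (mem_Ici.mpr hx) hx
  rwa [h0] at this

/-- `e^c - 1 ≤ - log (1 - c)` for `0 ≤ c < 1`; equivalently, with `c = 1 - e^{-b}`, `b ≥ 0`:
`exp (1 - e^{-b}) ≤ 1 + b`. (Both sides are `1` at `b = 0`, derivatives `e^{-b} exp (1 - e^{-b}) ≤ 1`,
because `1 - e^{-b} ≤ b`.) -/
theorem exp_one_sub_exp_neg_le {b : ℝ} (hb : 0 ≤ b) :
    Real.exp (1 - Real.exp (-b)) ≤ 1 + b := by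
  have h := AK8_nonneg (F := fun x => 1 + x - Real.exp (1 - Real.exp (-x)))
    (F' := fun x => 1 - Real.exp (1 - Real.exp (-x)) * Real.exp (-x)) (by simp) (by
      intro x
      have h1 : HasDerivAt (fun x : ℝ => Real.exp (-x)) (-Real.exp (-x)) x := by
        have h2 := (Real.hasDerivAt_exp (-x)).comp x (hasDerivAt_neg x)
        have h3 : Real.exp (-x) * -1 = -Real.exp (-x) := by ring
        rw [h3] at h2
        exact h2
      have h2 : HasDerivAt (fun x : ℝ => 1 - Real.exp (-x)) (Real.exp (-x)) x := by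
        have h3 := (hasDerivAt_const x (1 : ℝ)).sub h1
        have h4 : (0 : ℝ) - -Real.exp (-x) = Real.exp (-x) := by ring
        rw [h4] at h3
        exact h3
      have h5 := h2.exp
      have h6 := ((hasDerivAt_id x).const_add 1).sub h5
      exact h6) (by
      intro x hx
      have h1 : Real.exp (1 - Real.exp (-x)) * Real.exp (-x) ≤ 1 := by
        rw [← Real.exp_add, Real.exp_le_one_iff]
        have := Real.add_one_le_exp (-x)
        linarith
      linarith) hb
  linarith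

theorem AK8_point {lam d b : ℝ} (hl : 0 < lam) (hd : 0 ≤ d) (hb : 0 ≤ b) :
    Real.exp (-(b * (1 + d))) * Vk lam b ≤
      Real.exp (-((1 - Real.exp (-b)) * d)) * W lam (1 - Real.exp (-b)) * Real.exp (-b) := by
  have h1 : -(b * (1 + d)) = -(b * d) + -b := by ring
  rw [h1, Real.exp_add]
  have h2 : Real.exp (-(b * d)) ≤ Real.exp (-((1 - Real.exp (-b)) * d)) := by
    rw [Real.exp_le_exp]
    have h3 : (1 - Real.exp (-b)) * d ≤ b * d := by
      apply mul_le_mul_of_nonneg_right _ hd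
      have := Real.add_one_le_exp (-b)
      linarith
    linarith
  have h4 : Vk lam b ≤ W lam (1 - Real.exp (-b)) := by
    unfold Vk W
    rw [Real.exp_le_exp]
    have h5 := exp_one_sub_exp_neg_le hb
    have h6 : lam * (Real.exp (1 - Real.exp (-b)) - 1 - (1 - Real.exp (-b))) ≤
        lam * (Real.exp (-b) - 1 + b) := by
      apply mul_le_mul_of_nonneg_left _ hl.le
      linarith
    linarith
  calc Real.exp (-(b * d)) * Real.exp (-b) * Vk lam b
      = (Real.exp (-(b * d)) * Vk lam b) * Real.exp (-b) := by ring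
    _ ≤ (Real.exp (-((1 - Real.exp (-b)) * d)) * W lam (1 - Real.exp (-b))) * Real.exp (-b) := by
        apply mul_le_mul_of_nonneg_right _ (Real.exp_pos _).le
        exact mul_le_mul h2 h4 (Vk_pos _ _).le (Real.exp_pos _).le

/-- `f lam (1+d) = ∫_0^∞ e^{-b(1+d)} Vk lam b db`. Put `c = 1 - e^{-b} ∈ [0,1)`, `c ≤ b`. Then
`e^{-db} ≤ e^{-dc}` and `Vk lam b ≤ W lam c` since `e^c - 1 - c ≤ b - c = e^{-b} - 1 + b`
(`exp_one_sub_exp_neg_le`). So `e^{-b(1+d)} Vk lam b ≤ e^{-b} e^{-dc} W lam c = A'(b)` where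
`A b = ∫ c in 0..(1 - e^{-b}), e^{-dc} W lam c ≤ g lam d`. Integrate from `0` to `X`, let `X → ∞`. -/
theorem f_le_g {lam d : ℝ} (hl : 0 < lam) (hd : 0 ≤ d) : f lam (1 + d) ≤ g lam d := by
  have hk : Continuous (fun c : ℝ => Real.exp (-(c * d)) * W lam c) := by
    have := W_continuous lam
    fun_prop
  have hK : ∀ X : ℝ, HasDerivAt (fun X => ∫ c in (0 : ℝ)..X, Real.exp (-(c * d)) * W lam c)
      (Real.exp (-(X * d)) * W lam X) X := fun X =>
    (hk.integral_hasStrictDerivAt 0 X).hasDerivAt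
  have hφ : ∀ b : ℝ, HasDerivAt (fun b : ℝ => 1 - Real.exp (-b)) (Real.exp (-b)) b := by
    intro x
    have h1 : HasDerivAt (fun x : ℝ => Real.exp (-x)) (-Real.exp (-x)) x := by
      have h2 := (Real.hasDerivAt_exp (-x)).comp x (hasDerivAt_neg x)
      have h3 : Real.exp (-x) * -1 = -Real.exp (-x) := by ring
      rw [h3] at h2
      exact h2
    have h3 := (hasDerivAt_const x (1 : ℝ)).sub h1
    have h4 : (0 : ℝ) - -Real.exp (-x) = Real.exp (-x) := by ring
    rw [h4] at h3
    exact h3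
  set A : ℝ → ℝ := fun b => ∫ c in (0 : ℝ)..(1 - Real.exp (-b)), Real.exp (-(c * d)) * W lam c
    with hA
  have hAd : ∀ b : ℝ, HasDerivAt A
      (Real.exp (-((1 - Real.exp (-b)) * d)) * W lam (1 - Real.exp (-b)) * Real.exp (-b)) b := by
    intro b
    exact (hK (1 - Real.exp (-b))).comp b (hφ b)
  have hA0 : A 0 = 0 := by
    rw [hA]
    simp
  have hAt : Filter.Tendsto A Filter.atTop
      (nhds (∫ c in (0 : ℝ)..1, Real.exp (-(c * d)) * W lam c)) := by
    have h1 : Filter.Tendsto (fun b : ℝ => 1 - Real.exp (-b)) Filter.atTop (nhds (1 - 0)) :=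
      tendsto_const_nhds.sub (Real.tendsto_exp_neg_atTop_nhds_zero)
    rw [sub_zero] at h1
    exact ((hK 1).continuousAt.tendsto).comp h1
  have hnn : ∀ b ∈ Ioi (0 : ℝ), 0 ≤
      Real.exp (-((1 - Real.exp (-b)) * d)) * W lam (1 - Real.exp (-b)) * Real.exp (-b) :=
    fun b _ => mul_nonneg (mul_nonneg (Real.exp_pos _).le (W_pos _ _).le) (Real.exp_pos _).le
  have hint := integrableOn_Ioi_deriv_of_nonneg (a := (0 : ℝ))
    ((hAd 0).continuousAt.continuousWithinAt) (fun b _ => hAd b) hnn hAt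
  have hval := integral_Ioi_of_hasDerivAt_of_nonneg (a := (0 : ℝ))
    ((hAd 0).continuousAt.continuousWithinAt) (fun b _ => hAd b) hnn hAt
  rw [hA0, sub_zero] at hval
  have h1 : f lam (1 + d) ≤ ∫ b in Ioi (0 : ℝ),
      Real.exp (-((1 - Real.exp (-b)) * d)) * W lam (1 - Real.exp (-b)) * Real.exp (-b) := by
    unfold f
    exact setIntegral_mono_on (f_int hl (by linarith)) hint measurableSet_Ioi
      (fun b hb => AK8_point hl hd (le_of_lt hb))
  refine h1.trans ?_
  rw [hval, intervalIntegral.integral_of_le (by norm_num)]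
  unfold g
  apply setIntegral_mono_set (g_int hl d)
  · exact Filter.Eventually.of_forall fun c => mul_nonneg (Real.exp_pos _).le (W_pos _ _).le
  · exact Filter.Eventually.of_forall fun c (hc : c ∈ Ioc (0 : ℝ) 1) => hc.1

end Pool.Agent.Lib.H3MT
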