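import Pool.Agent.Lib.H3MT.AK7
import Pool.Agent.Lib.H3MT.AK8

/-! # H3MT, (R5), assembled from AK7, AK8 -/

namespace Pool.Agent.Lib.H3MT

theorem R5 {lam d : ℝ} (hl : 0 < lam) (hd : 0 ≤ d) :
    f lam (1 + d) * (1 + d * g lam (-d)) ≤ g lam (-d) := by
  have h1 := f_le_g hl hd
  have h2 := g_K7 hl hd
  have h3 := g_pos hl (-d)
  have h4 : 0 ≤ 1 + d * g lam (-d) := by positivity
  calc f lam (1 + d) * (1 + d * g lam (-d)) ≤ g lam d * (1 + d * g lam (-d)) :=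
        mul_le_mul_of_nonneg_right h1 h4
    _ ≤ g lam (-d) := by nlinarith

end Pool.Agent.Lib.H3MT
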