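import Pool.Agent.Lib.H3MT.AE

/-! # H3MT, chunk ASt: the Stein identity (exchangeability), and the two-point reduction -/

open Finset

namespace Pool.Agent.Lib.H3MT

variable {R : Type} [Fintype R]

/-- swapping the extra variable with the `i`-th one -/
def ASt_swap (m : ℕ) (i : Fin m) : ((Fin m → R) × R) ≃ ((Fin m → R) × R) where
  toFun p := (Function.update p.1 i p.2, p.1 i)
  invFun p := (Function.update p.1 i p.2, p.1 i)
  left_inv p := by simp
  right_inv p := by simp

theorem ASt_sum_update (m : ℕ) (x : R → ℝ) (i : Fin m) (v : Fin m → R) (r : R) :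
    ∑ j, x (Function.update v i r j) + x (v i) = ∑ j, x (v j) + x r := by
  have h1 : ∀ j, x (Function.update v i r j) = Function.update (fun j => x (v j)) i (x r) j := by
    intro j
    by_cases h : j = i
    · subst h; simp
    · simp [Function.update_of_ne h]
  simp_rw [h1]
  rw [Finset.sum_update_of_mem (Finset.mem_univ i)]
  have h2 : ∑ j, x (v j) = x (v i) + ∑ j ∈ Finset.univ \ {i}, x (v j) := by
    rw [← Finset.sum_sdiff (Finset.subset_univ {i})]
    simp [add_comm]
  rw [h2]; ring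

theorem ASt_one (m : ℕ) (x : R → ℝ) (φ : ℝ → ℝ) (i : Fin m) :
    ∑ v : Fin m → R, ∑ r, x r * φ (∑ j, x (v j) + x r) =
      ∑ v : Fin m → R, ∑ r, x (v i) * φ (∑ j, x (v j) + x r) := by
  rw [← Fintype.sum_prod_type' (f := fun (v : Fin m → R) r => x r * φ (∑ j, x (v j) + x r)),
    ← Fintype.sum_prod_type' (f := fun (v : Fin m → R) r => x (v i) * φ (∑ j, x (v j) + x r)),
    ← Equiv.sum_comp (ASt_swap (R := R) m i)]
  refine Finset.sum_congr rfl fun p _ => ?_
  have h := ASt_sum_update m x i p.1 p.2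
  show x (p.1 i) * φ (∑ j, x (Function.update p.1 i p.2 j) + x (p.1 i)) = _
  rw [h]

/-- For each `i : Fin m`: `∑ v, ∑ r, x r * φ (∑ x (v j) + x r) = ∑ v, ∑ r, x (v i) * φ (∑ x (v j) + x r)` by the
bijection `(v, r) ↦ (Function.update v i r, v i)` of `(Fin m → R) × R`. Sum over `i`. -/
theorem stein_sum (m : ℕ) (x : R → ℝ) (φ : ℝ → ℝ) :
    ∑ v : Fin m → R, ∑ r, ((m : ℝ) * x r - ∑ i, x (v i)) * φ (∑ i, x (v i) + x r) = 0 := by
  have h : ∑ i : Fin m, (∑ v : Fin m → R, ∑ r, x r * φ (∑ j, x (v j) + x r)) =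
      ∑ i : Fin m, (∑ v : Fin m → R, ∑ r, x (v i) * φ (∑ j, x (v j) + x r)) :=
    Finset.sum_congr rfl fun i _ => ASt_one m x φ i
  rw [Finset.sum_comm (s := (Finset.univ : Finset (Fin m)))
    (t := (Finset.univ : Finset (Fin m → R)))] at h
  rw [Finset.sum_comm (s := (Finset.univ : Finset (Fin m)))
    (t := (Finset.univ : Finset (Fin m → R)))] at h
  rw [← sub_eq_zero, ← Finset.sum_sub_distrib] at h
  rw [← h]
  refine Finset.sum_congr rfl fun v _ => ?_
  rw [Finset.sum_comm (s := (Finset.univ : Finset (Fin m))) (t := (Finset.univ : Finset R)),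
    Finset.sum_comm (s := (Finset.univ : Finset (Fin m))) (t := (Finset.univ : Finset R)),
    ← Finset.sum_sub_distrib]
  refine Finset.sum_congr rfl fun r _ => ?_
  rw [← Finset.sum_sub_distrib]
  simp_rw [← sub_mul]
  rw [← Finset.sum_mul, Finset.sum_sub_distrib, Finset.sum_const, Finset.card_univ,
    Fintype.card_fin, nsmul_eq_mul]

/-- the same with means -/
theorem stein (m : ℕ) (x : R → ℝ) (φ : ℝ → ℝ) :
    mn (fun v : Fin m → R => mn (fun r =>
      ((m : ℝ) * x r - ∑ i, x (v i)) * φ (∑ i, x (v i) + x r))) = 0 := by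
  unfold mn
  rw [← Finset.sum_div, stein_sum]
  simp

/-- Two-point reduction. If `δ = 0` then `C = 0` everywhere and `v ≤ H 0` (`d = 0`, `y = 1`). If `δ > 0` let
`μ = sup_{y > 0} (v - H y)/y`, which is `≤ (H (-d) - v)/d` for all `0 < d ≤ δ`. Then `H c ≥ v - μ c` for all
`c ≥ -δ` (`c > 0`: definition; `c = 0`: `d = 0`; `c = -d`), and the mean of `C` is `0`. -/
theorem two_point {S : Type} [Fintype S] [Nonempty S] {C : S → ℝ} {δ v : ℝ} {H : ℝ → ℝ}
    (hδ : 0 ≤ δ) (hC : mn C = 0) (hCδ : ∀ j, -δ ≤ C j)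
    (hTP : ∀ d y : ℝ, 0 ≤ d → d ≤ δ → 0 < y → (y + d) * v ≤ y * H (-d) + d * H y) :
    v ≤ mn (fun j => H (C j)) := by
  have h0 : v ≤ H 0 := by
    have := hTP 0 1 le_rfl hδ one_pos
    simpa using this
  -- a slope μ with H c ≥ v - μ c on [-δ, ∞)
  obtain ⟨μ, hμ⟩ : ∃ μ : ℝ, ∀ j, v - μ * C j ≤ H (C j) := by
    rcases hδ.eq_or_lt with hδ0 | hδ0
    · -- all C j = 0
      have hnn : ∀ j, 0 ≤ C j := fun j => by have := hCδ j; rw [← hδ0] at this; simpa using this
      have hsum : ∑ j, C j = 0 := by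
        unfold mn at hC
        have hc : (Fintype.card S : ℝ) ≠ 0 := by exact_mod_cast Fintype.card_ne_zero
        exact (div_eq_zero_iff.mp hC).resolve_right hc
      have hz : ∀ j, C j = 0 := fun j =>
        (Finset.sum_eq_zero_iff_of_nonneg (fun j _ => hnn j)).mp hsum j (Finset.mem_univ j)
      exact ⟨0, fun j => by rw [hz j]; simpa using h0⟩
    · set A : Set ℝ := (fun y => (v - H y) / y) '' Set.Ioi (0 : ℝ) with hA
      have hbd : ∀ d, 0 < d → d ≤ δ → ∀ a ∈ A, a ≤ (H (-d) - v) / d := by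
        rintro d hd hdδ a ⟨y, hy, rfl⟩
        have hy' : (0 : ℝ) < y := hy
        have := hTP d y hd.le hdδ hy'
        show (v - H y) / y ≤ (H (-d) - v) / d
        rw [div_le_div_iff₀ hy' hd]
        nlinarith
      have hbdd : BddAbove A := ⟨_, fun a ha => hbd δ hδ0 le_rfl a ha⟩
      have hne : A.Nonempty := ⟨_, ⟨1, by simp, rfl⟩⟩
      refine ⟨sSup A, fun j => ?_⟩
      rcases lt_trichotomy (C j) 0 with hc | hc | hc
      · have hd : 0 < -C j := by linarith
        have hdδ : -C j ≤ δ := by linarith [hCδ j]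
        have h1 : sSup A ≤ (H (-(-C j)) - v) / (-C j) := csSup_le hne (hbd _ hd hdδ)
        rw [neg_neg, le_div_iff₀ hd] at h1
        linarith
      · rw [hc]; simpa using h0
      · have h1 : (v - H (C j)) / C j ≤ sSup A := le_csSup hbdd ⟨C j, hc, rfl⟩
        rw [div_le_iff₀ hc] at h1
        linarith
  have h1 : mn (fun j => v - μ * C j) ≤ mn (fun j => H (C j)) := mn_le_mn hμ
  rw [mn_sub, mn_const, mn_mul_left, hC] at h1
  linarith

end Pool.Agent.Lib.H3MT
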