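import Pool.Agent.Lib.H3MT.ABeta
import Pool.Agent.Lib.H3MT.AK6
import Pool.Agent.Lib.H3MT.AK9
import Pool.Agent.Lib.H3MT.ASt

/-! # H3MT: the certificate. Here `n = m + 1`, `lam = (m+1) w`. -/

namespace Pool.Agent.Lib.H3MT

noncomputable section

def Kbar (lam δ y r : ℝ) : ℝ := (y * g lam r + δ * g lam (-δ)) / (1 + δ * g lam (-δ))

def K1 (lam δ y r : ℝ) : ℝ := (y + δ) * f lam (max (-r) (1 + δ))

/-- the switching points -/
def rho (m : ℕ) (s c : ℝ) : ℝ := ((m : ℝ) + 1) * (c - s) / m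

def Khat (m : ℕ) (s lam δ y r : ℝ) : ℝ :=
  if r ≤ rho m s (-δ) then K1 lam δ y r
  else if r ≤ rho m s y then Kbar lam δ y r
  else (y + δ) * g lam r

/-- `(B K)(q)` for `K = Khat` -/
def BK {R : Type} [Fintype R] (m : ℕ) (x : R → ℝ) (s : ℝ) (K : ℝ → ℝ) (q : ℝ) : ℝ :=
  mn (fun r => ((m : ℝ) * x r - (((m : ℝ) + 1) * s - q)) * K (q - x r))

/-- the target function -/
def Fq {R : Type} [Fintype R] (x : R → ℝ) (s δ y q : ℝ) : ℝ :=
  (if -δ < q then y else 0) + (if y < q then δ else 0)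
    - (y + δ) * pr (fun r => 1 + δ + s + q ≤ x r)

/-- `Q v = (m+1) s - ∑ x (v i)` -/
def Qv {R : Type} (m : ℕ) (x : R → ℝ) (s : ℝ) (v : Fin m → R) : ℝ :=
  ((m : ℝ) + 1) * s - ∑ i, x (v i)

end

end Pool.Agent.Lib.H3MT
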