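import Pool.Agent.Lib.H3MT.AKerDefs

/-! # H3MT, chunk AE: basic facts on means; the exponential lemma -/

open Finset

namespace Pool.Agent.Lib.H3MT

variable {R : Type} [Fintype R]

theorem mn_add (φ ψ : R → ℝ) : mn (fun r => φ r + ψ r) = mn φ + mn ψ := by
  unfold mn; rw [Finset.sum_add_distrib, add_div]

theorem mn_sub (φ ψ : R → ℝ) : mn (fun r => φ r - ψ r) = mn φ - mn ψ := by
  unfold mn; rw [Finset.sum_sub_distrib, sub_div]

theorem mn_mul_left (c : ℝ) (φ : R → ℝ) : mn (fun r => c * φ r) = c * mn φ := by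
  unfold mn; rw [← Finset.mul_sum, mul_div_assoc]

theorem mn_mul_right (c : ℝ) (φ : R → ℝ) : mn (fun r => φ r * c) = mn φ * c := by
  unfold mn; rw [← Finset.sum_mul]; ring

theorem mn_const [Nonempty R] (c : ℝ) : mn (fun _ : R => c) = c := by
  unfold mn
  rw [Finset.sum_const, Finset.card_univ, nsmul_eq_mul]
  have : (Fintype.card R : ℝ) ≠ 0 := by exact_mod_cast Fintype.card_ne_zero
  field_simp

theorem mn_le_mn {φ ψ : R → ℝ} (h : ∀ r, φ r ≤ ψ r) : mn φ ≤ mn ψ := by
  unfold mn; gcongr with r hr; exact h r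

theorem mn_nonneg {φ : R → ℝ} (h : ∀ r, 0 ≤ φ r) : 0 ≤ mn φ := by
  unfold mn; exact div_nonneg (Finset.sum_nonneg fun r _ => h r) (by positivity)

/-- mean of an integral (finite sum of integrals) -/
theorem mn_integral {μ : MeasureTheory.Measure ℝ} (F : R → ℝ → ℝ)
    (h : ∀ r, MeasureTheory.Integrable (F r) μ) :
    mn (fun r => ∫ b, F r b ∂μ) = ∫ b, mn (fun r => F r b) ∂μ := by
  unfold mn; rw [← MeasureTheory.integral_finset_sum _ (fun r _ => h r)]
  simp_rw [div_eq_mul_inv]
  rw [MeasureTheory.integral_mul_const]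

variable [Nonempty R]

theorem AE_mn_z {x : R → ℝ} {s w : ℝ} (L : Law x s w) : mn (fun r => x r - s) = 0 := by
  rw [mn_sub, mn_const, show mn (fun r => x r) = s from L.mean, sub_self]

/-- convexity of the exponential between `0` and `b` -/
theorem AE_exp_conv {b z : ℝ} (hz : 0 ≤ z) (hz1 : z ≤ 1) :
    Real.exp (b * z) - 1 ≤ z * (Real.exp b - 1) := by
  have h := convexOn_exp.2 (Set.mem_univ b) (Set.mem_univ (0:ℝ)) hz (sub_nonneg.2 hz1)
    (by ring)
  simp only [smul_eq_mul, mul_zero, add_zero, Real.exp_zero, mul_one] at h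
  rw [mul_comm b z]
  linarith

theorem AE_point {b z : ℝ} (hb : 0 ≤ b) (hz1 : z ≤ 1) :
    z * (Real.exp (b * z) - 1) ≤ z ^ 2 * (Real.exp b - 1) := by
  rcases le_total 0 z with hz | hz
  · have h := AE_exp_conv (b := b) hz hz1
    nlinarith
  · have h1 : b * z + 1 ≤ Real.exp (b * z) := Real.add_one_le_exp _
    have h2 : b + 1 ≤ Real.exp b := Real.add_one_le_exp _
    have h3 : z * (Real.exp (b * z) - 1) ≤ z * (b * z) := by nlinarith
    have h4 : z * (b * z) ≤ z ^ 2 * (Real.exp b - 1) := by nlinarith [sq_nonneg z]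
    linarith

/-- (E1) `z = x r - s ≤ 1`, mean zero. `z (e^{bz} - 1) ≤ z^2 (e^b - 1)`: for `0 < z ≤ 1` by convexity
(`e^{bz} - 1 ≤ z (e^b - 1)`), for `z ≤ 0` because `1 - e^{-b|z|} ≤ b|z|` and `b ≤ e^b - 1`. Hence
`E[z e^{bz}] = E[z (e^{bz} - 1)] ≤ (e^b - 1) w ≤ (e^b - 1) w E[e^{bz}]`, as `E[e^{bz}] ≥ E[1 + bz] = 1`.
Multiply by `e^{bs}`. -/
theorem E1 {x : R → ℝ} {s w : ℝ} (L : Law x s w) {b : ℝ} (hb : 0 ≤ b) :
    mn (fun r => (x r - s) * Real.exp (b * x r)) ≤
      w * (Real.exp b - 1) * mn (fun r => Real.exp (b * x r)) := by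
  have hz0 := AE_mn_z L
  have hle : ∀ r, x r - s ≤ 1 := fun r => by have := L.le r; linarith
  have hw : 0 ≤ w * (Real.exp b - 1) :=
    mul_nonneg L.wpos.le (by have := Real.add_one_le_exp b; linarith)
  have e0 : ∀ r, Real.exp (b * x r) = Real.exp (b * s) * Real.exp (b * (x r - s)) := fun r => by
    rw [← Real.exp_add]; ring_nf
  have h1 : mn (fun r => (x r - s) * Real.exp (b * (x r - s))) ≤ w * (Real.exp b - 1) := by
    have a1 : mn (fun r => (x r - s) * Real.exp (b * (x r - s))) =
        mn (fun r => (x r - s) * (Real.exp (b * (x r - s)) - 1)) := by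
      have : mn (fun r => (x r - s) * (Real.exp (b * (x r - s)) - 1)) =
          mn (fun r => (x r - s) * Real.exp (b * (x r - s)) - (x r - s)) := by
        congr 1; funext r; ring
      rw [this, mn_sub, hz0, sub_zero]
    rw [a1]
    calc mn (fun r => (x r - s) * (Real.exp (b * (x r - s)) - 1))
        ≤ mn (fun r => (x r - s) ^ 2 * (Real.exp b - 1)) := mn_le_mn fun r => AE_point hb (hle r)
      _ = w * (Real.exp b - 1) := by rw [mn_mul_right, L.var]
  have h2 : 1 ≤ mn (fun r => Real.exp (b * (x r - s))) := by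
    calc (1 : ℝ) = mn (fun r => 1 + b * (x r - s)) := by
          rw [mn_add, mn_const, mn_mul_left, hz0, mul_zero, add_zero]
      _ ≤ _ := mn_le_mn fun r => by have := Real.add_one_le_exp (b * (x r - s)); linarith
  have h3 : mn (fun r => (x r - s) * Real.exp (b * x r)) =
      Real.exp (b * s) * mn (fun r => (x r - s) * Real.exp (b * (x r - s))) := by
    rw [← mn_mul_left]; congr 1; funext r; rw [e0]; ring
  have h4 : mn (fun r => Real.exp (b * x r)) =
      Real.exp (b * s) * mn (fun r => Real.exp (b * (x r - s))) := by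
    rw [← mn_mul_left]; congr 1; funext r; rw [e0]
  rw [h3, h4]
  have h5 : mn (fun r => (x r - s) * Real.exp (b * (x r - s))) ≤
      w * (Real.exp b - 1) * mn (fun r => Real.exp (b * (x r - s))) := by
    nlinarith
  calc Real.exp (b * s) * mn (fun r => (x r - s) * Real.exp (b * (x r - s)))
      ≤ Real.exp (b * s) * (w * (Real.exp b - 1) * mn (fun r => Real.exp (b * (x r - s)))) :=
        mul_le_mul_of_nonneg_left h5 (Real.exp_pos _).le
    _ = _ := by ring

theorem AE_deriv {F : R → ℝ → ℝ} {F' : R → ℝ} {b : ℝ} (h : ∀ r, HasDerivAt (F r) (F' r) b) :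
    HasDerivAt (fun b => mn (fun r => F r b)) (mn F') b := by
  unfold mn
  exact (HasDerivAt.fun_sum (fun r _ => h r)).div_const _


/-- (E2) `η = 1 - (x r - s) ≥ 0`, `E η = 1`, `E η^2 = 1 + w =: m`, `κ b = m - (m-1) e^{-b}`,
`q b = E[(η - κ b) e^{bη}]`, `q 0 = 0`, and
`q' b = E[η (η - m) e^{bη}] + (m - κ b) E[(η - 1) e^{bη}] ≥ 0`, because
`η (η - m) (e^{bη} - e^{bm}) ≥ 0`, `E[η(η - m)] = 0`, `(η - 1)(e^{bη} - e^b) ≥ 0`, `E[η - 1] = 0`.
So `q b ≥ 0` for `b ≥ 0`, which is the claim multiplied by `e^{b(1+s)}` (`κ b = 1 + w (1 - e^{-b})`). -/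
theorem E2 {x : R → ℝ} {s w : ℝ} (L : Law x s w) {b : ℝ} (hb : 0 ≤ b) :
    w * (1 - Real.exp (-b)) * mn (fun r => Real.exp (-(b * x r))) ≤
      mn (fun r => (s - x r) * Real.exp (-(b * x r))) := by
  have hz0 := AE_mn_z L
  have hcard : (0:ℝ) < Fintype.card R := by exact_mod_cast Fintype.card_pos
  set η : R → ℝ := fun r => 1 - (x r - s) with hη
  have hη0 : ∀ r, 0 ≤ η r := fun r => by have := L.le r; simp only [hη]; linarith
  have hη1 : mn (fun r => η r - 1) = 0 := by
    have : mn (fun r => η r - 1) = mn (fun r => (-1) * (x r - s)) := by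
      congr 1; funext r; simp only [hη]; ring
    rw [this, mn_mul_left, hz0, mul_zero]
  have hη2 : mn (fun r => η r * (η r - (1 + w))) = 0 := by
    have : mn (fun r => η r * (η r - (1 + w))) =
        mn (fun r => (x r - s) ^ 2 + ((w - 1) * (x r - s) + (-w))) := by
      congr 1; funext r; simp only [hη]; ring
    rw [this, mn_add, mn_add, mn_mul_left, hz0, mn_const, L.var]; ring
  set q : ℝ → ℝ := fun b => mn (fun r =>
    (η r - (1 + w * (1 - Real.exp (-b)))) * Real.exp (b * η r)) with hq
  have hq0 : q 0 = 0 := by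
    simp only [hq, neg_zero, Real.exp_zero, sub_self, mul_zero, add_zero, zero_mul, mul_one]
    exact hη1
  have hder : ∀ c : ℝ, HasDerivAt q (mn (fun r =>
      (-(w * Real.exp (-c))) * Real.exp (c * η r) +
      (η r - (1 + w * (1 - Real.exp (-c)))) * (Real.exp (c * η r) * η r))) c := by
    intro c
    refine AE_deriv fun r => ?_
    have d1 : HasDerivAt (fun b : ℝ => Real.exp (-b)) (-Real.exp (-c)) c := by
      simpa using (hasDerivAt_neg c).exp
    have d2 : HasDerivAt (fun b : ℝ => η r - (1 + w * (1 - Real.exp (-b))))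
        (-(w * Real.exp (-c))) c := by
      have := (((d1.const_sub 1).const_mul w).const_add 1).const_sub (η r)
      simpa using this
    have d3 : HasDerivAt (fun b : ℝ => Real.exp (b * η r)) (Real.exp (c * η r) * η r) c := by
      have := ((hasDerivAt_id c).mul_const (η r)).exp
      simpa using this
    exact d2.mul d3
  have hnn : ∀ c : ℝ, 0 ≤ c → 0 ≤ mn (fun r =>
      (-(w * Real.exp (-c))) * Real.exp (c * η r) +
      (η r - (1 + w * (1 - Real.exp (-c)))) * (Real.exp (c * η r) * η r)) := by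
    intro c hc
    have e : mn (fun r =>
      (-(w * Real.exp (-c))) * Real.exp (c * η r) +
      (η r - (1 + w * (1 - Real.exp (-c)))) * (Real.exp (c * η r) * η r)) =
      mn (fun r => η r * (η r - (1 + w)) * Real.exp (c * η r)) +
        w * Real.exp (-c) * mn (fun r => (η r - 1) * Real.exp (c * η r)) := by
      rw [← mn_mul_left, ← mn_add]; congr 1; funext r; ring
    rw [e]
    have a1 : 0 ≤ mn (fun r => η r * (η r - (1 + w)) * Real.exp (c * η r)) := by
      calc (0:ℝ) = mn (fun r => η r * (η r - (1 + w))) * Real.exp (c * (1 + w)) := by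
            rw [hη2, zero_mul]
        _ = mn (fun r => η r * (η r - (1 + w)) * Real.exp (c * (1 + w))) := by
            rw [mn_mul_right]
        _ ≤ _ := mn_le_mn fun r => by
            have hr := hη0 r
            rcases le_total (1 + w) (η r) with h | h
            · have : Real.exp (c * (1 + w)) ≤ Real.exp (c * η r) :=
                Real.exp_le_exp.2 (mul_le_mul_of_nonneg_left h hc)
              exact mul_le_mul_of_nonneg_left this (mul_nonneg hr (sub_nonneg.2 h))
            · have : Real.exp (c * η r) ≤ Real.exp (c * (1 + w)) :=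
                Real.exp_le_exp.2 (mul_le_mul_of_nonneg_left h hc)
              have h0 : η r * (η r - (1 + w)) ≤ 0 :=
                mul_nonpos_of_nonneg_of_nonpos hr (sub_nonpos.2 h)
              exact mul_le_mul_of_nonpos_left this h0
    have a2 : 0 ≤ mn (fun r => (η r - 1) * Real.exp (c * η r)) := by
      calc (0:ℝ) = mn (fun r => η r - 1) * Real.exp (c * 1) := by rw [hη1, zero_mul]
        _ = mn (fun r => (η r - 1) * Real.exp (c * 1)) := by rw [mn_mul_right]
        _ ≤ _ := mn_le_mn fun r => by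
            rcases le_total 1 (η r) with h | h
            · have : Real.exp (c * 1) ≤ Real.exp (c * η r) :=
                Real.exp_le_exp.2 (mul_le_mul_of_nonneg_left h hc)
              exact mul_le_mul_of_nonneg_left this (sub_nonneg.2 h)
            · have : Real.exp (c * η r) ≤ Real.exp (c * 1) :=
                Real.exp_le_exp.2 (mul_le_mul_of_nonneg_left h hc)
              exact mul_le_mul_of_nonpos_left this (sub_nonpos.2 h)
    have : 0 ≤ w * Real.exp (-c) := mul_nonneg L.wpos.le (Real.exp_pos _).le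
    nlinarith [mul_nonneg this a2]
  have hmono : MonotoneOn q (Set.Ici 0) := by
    refine monotoneOn_of_deriv_nonneg (convex_Ici 0)
      (fun c _ => (hder c).continuousAt.continuousWithinAt)
      (fun c _ => (hder c).differentiableAt.differentiableWithinAt) fun c hc => ?_
    rw [interior_Ici] at hc
    rw [(hder c).deriv]
    exact hnn c (le_of_lt hc)
  have hqb : 0 ≤ q b := by
    have := hmono (Set.mem_Ici.2 le_rfl) (Set.mem_Ici.2 hb) hb
    rwa [hq0] at this
  have e0 : ∀ r, Real.exp (b * η r) = Real.exp (b * (1 + s)) * Real.exp (-(b * x r)) := fun r => by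
    rw [← Real.exp_add]; congr 1; simp only [hη]; ring
  have h6 : q b = Real.exp (b * (1 + s)) *
      (mn (fun r => (s - x r) * Real.exp (-(b * x r))) -
        w * (1 - Real.exp (-b)) * mn (fun r => Real.exp (-(b * x r)))) := by
    rw [← mn_mul_left, ← mn_sub, ← mn_mul_left]
    simp only [hq]
    congr 1; funext r; rw [e0]; simp only [hη]; ring
  rw [h6] at hqb
  have := nonneg_of_mul_nonneg_right hqb (Real.exp_pos _)
  linarith

end Pool.Agent.Lib.H3MT
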