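import Pool.Agent.Lib.H3MT.AKerDefs

/-! # H3MT, chunk AK1: elementary facts on `W`, `Vk`, `g`, `f` (integrability, positivity,
monotonicity) -/

open MeasureTheory Set

namespace Pool.Agent.Lib.H3MT

theorem W_pos (lam b : ℝ) : 0 < W lam b := Real.exp_pos _

theorem Vk_pos (lam b : ℝ) : 0 < Vk lam b := Real.exp_pos _

/-- `e^b - 1 - b ≥ 0` (`Real.add_one_le_exp`). -/
theorem W_le_one {lam b : ℝ} (hl : 0 < lam) : W lam b ≤ 1 := by
  unfold W
  rw [Real.exp_le_one_iff]
  have h := Real.add_one_le_exp b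
  have h2 : 0 ≤ lam * (Real.exp b - 1 - b) := mul_nonneg hl.le (by linarith)
  linarith

/-- `e^{-b} - 1 + b ≥ 0`. -/
theorem Vk_le_one {lam b : ℝ} (hl : 0 < lam) : Vk lam b ≤ 1 := by
  unfold Vk
  rw [Real.exp_le_one_iff]
  have h := Real.add_one_le_exp (-b)
  have h2 : 0 ≤ lam * (Real.exp (-b) - 1 + b) := mul_nonneg hl.le (by linarith)
  linarith

/-- `e^{b+c} - 1 - (b+c) ≥ (e^b - 1 - b) + (e^c - 1 - c)`, i.e. `(e^b - 1)(e^c - 1) ≥ 0`. -/
theorem W_add_le {lam b c : ℝ} (hl : 0 < lam) (hb : 0 ≤ b) (hc : 0 ≤ c) :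
    W lam (b + c) ≤ W lam b * W lam c := by
  unfold W
  rw [← Real.exp_add, Real.exp_le_exp, Real.exp_add]
  have h1 : 1 ≤ Real.exp b := Real.one_le_exp hb
  have h2 : 1 ≤ Real.exp c := Real.one_le_exp hc
  have h3 : 0 ≤ (Real.exp b - 1) * (Real.exp c - 1) := mul_nonneg (by linarith) (by linarith)
  have h4 := mul_nonneg hl.le h3
  linarith

theorem W_continuous (lam : ℝ) : Continuous (W lam) := by
  unfold W; fun_prop

theorem Vk_continuous (lam : ℝ) : Continuous (Vk lam) := by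
  unfold Vk; fun_prop

theorem AK1_g_bound {lam : ℝ} (hl : 0 < lam) (r : ℝ) {b : ℝ} (hb : 0 ≤ b) :
    Real.exp (-(b * r)) * W lam b ≤ Real.exp ((r - 1) ^ 2 / (2 * lam)) * Real.exp (-b) := by
  unfold W
  rw [← Real.exp_add, ← Real.exp_add, Real.exp_le_exp]
  have h1 := Real.quadratic_le_exp_of_nonneg hb
  have h2 : lam * (b ^ 2 / 2) ≤ lam * (Real.exp b - 1 - b) :=
    mul_le_mul_of_nonneg_left (by linarith) hl.le
  have h3 : (r - 1) ^ 2 / (2 * lam) + lam * (b ^ 2 / 2) + b * (r - 1) =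
      (lam * b + (r - 1)) ^ 2 / (2 * lam) := by
    field_simp
    ring
  have h4 : 0 ≤ (lam * b + (r - 1)) ^ 2 / (2 * lam) := by positivity
  linarith

theorem AK1_f_bound {lam t : ℝ} (hl : 0 < lam) (ht : 0 ≤ t) {b : ℝ} (hb : 0 ≤ b) :
    Real.exp (-(b * t)) * Vk lam b ≤ Real.exp lam * Real.exp (-lam * b) := by
  unfold Vk
  rw [← Real.exp_add, ← Real.exp_add, Real.exp_le_exp]
  have h1 : 0 ≤ lam * Real.exp (-b) := mul_nonneg hl.le (Real.exp_pos _).le
  have h2 : 0 ≤ b * t := mul_nonneg hb ht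
  linarith

/-- For `b ≥ 0` : `e^b ≥ 1 + b + b^2/2`, so `e^{-br} W lam b ≤ exp(-b r - lam b^2 / 2)`, which is
`≤ K e^{-b}` with `K = exp ((r-1)^2 / (2 lam))`. -/
theorem g_int {lam : ℝ} (hl : 0 < lam) (r : ℝ) :
    IntegrableOn (fun b : ℝ => Real.exp (-(b * r)) * W lam b) (Ioi 0) := by
  have hc : Continuous (fun b : ℝ => Real.exp (-(b * r)) * W lam b) := by
    have := W_continuous lam
    fun_prop
  have h1 : IntegrableOn (fun b : ℝ => Real.exp ((r - 1) ^ 2 / (2 * lam)) * Real.exp (-1 * b))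
      (Ioi 0) := (integrableOn_exp_mul_Ioi (a := -1) (by norm_num) 0).const_mul _
  refine Integrable.mono' h1 hc.aestronglyMeasurable ?_
  refine (ae_restrict_iff' measurableSet_Ioi).mpr (Filter.Eventually.of_forall fun b hb => ?_)
  have hb' : (0 : ℝ) ≤ b := le_of_lt hb
  rw [Real.norm_of_nonneg (mul_nonneg (Real.exp_pos _).le (W_pos _ _).le)]
  have h2 := AK1_g_bound hl r hb'
  have h3 : (-1 : ℝ) * b = -b := by ring
  rw [h3]
  exact h2

/-- For `b ≥ 0`, `t ≥ 0`: `e^{-bt} Vk lam b ≤ e^{lam} e^{-lam b}` (`1 - e^{-b} ≤ 1`). -/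
theorem f_int {lam t : ℝ} (hl : 0 < lam) (ht : 0 ≤ t) :
    IntegrableOn (fun b : ℝ => Real.exp (-(b * t)) * Vk lam b) (Ioi 0) := by
  have hc : Continuous (fun b : ℝ => Real.exp (-(b * t)) * Vk lam b) := by
    have := Vk_continuous lam
    fun_prop
  have h1 : IntegrableOn (fun b : ℝ => Real.exp lam * Real.exp (-lam * b))
      (Ioi 0) := (integrableOn_exp_mul_Ioi (a := -lam) (by linarith) 0).const_mul _
  refine Integrable.mono' h1 hc.aestronglyMeasurable ?_
  refine (ae_restrict_iff' measurableSet_Ioi).mpr (Filter.Eventually.of_forall fun b hb => ?_)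
  have hb' : (0 : ℝ) ≤ b := le_of_lt hb
  rw [Real.norm_of_nonneg (mul_nonneg (Real.exp_pos _).le (Vk_pos _ _).le)]
  exact AK1_f_bound hl ht hb'

/-- the integral of a positive integrable function over `(0,∞)` is positive. -/
theorem g_pos {lam : ℝ} (hl : 0 < lam) (r : ℝ) : 0 < g lam r := by
  unfold g
  have hp : ∀ b : ℝ, 0 < Real.exp (-(b * r)) * W lam b := fun b =>
    mul_pos (Real.exp_pos _) (W_pos _ _)
  rw [setIntegral_pos_iff_support_of_nonneg_ae
    (Filter.Eventually.of_forall fun b => (hp b).le) (g_int hl r)]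
  have hs : Function.support (fun b : ℝ => Real.exp (-(b * r)) * W lam b) = univ := by
    ext b
    simp only [Function.mem_support, mem_univ, iff_true]
    exact (hp b).ne'
  rw [hs, univ_inter, Real.volume_Ioi]
  exact ENNReal.coe_lt_top

theorem f_pos {lam t : ℝ} (hl : 0 < lam) (ht : 0 ≤ t) : 0 < f lam t := by
  unfold f
  have hp : ∀ b : ℝ, 0 < Real.exp (-(b * t)) * Vk lam b := fun b =>
    mul_pos (Real.exp_pos _) (Vk_pos _ _)
  rw [setIntegral_pos_iff_support_of_nonneg_ae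
    (Filter.Eventually.of_forall fun b => (hp b).le) (f_int hl ht)]
  have hs : Function.support (fun b : ℝ => Real.exp (-(b * t)) * Vk lam b) = univ := by
    ext b
    simp only [Function.mem_support, mem_univ, iff_true]
    exact (hp b).ne'
  rw [hs, univ_inter, Real.volume_Ioi]
  exact ENNReal.coe_lt_top

/-- pointwise comparison of the integrands. -/
theorem g_anti {lam r r' : ℝ} (hl : 0 < lam) (h : r ≤ r') : g lam r' ≤ g lam r := by
  unfold g
  refine setIntegral_mono_on (g_int hl r') (g_int hl r) measurableSet_Ioi fun b hb => ?_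
  have hb' : (0 : ℝ) ≤ b := le_of_lt hb
  apply mul_le_mul_of_nonneg_right _ (W_pos _ _).le
  rw [Real.exp_le_exp]
  have := mul_le_mul_of_nonneg_left h hb'
  linarith

theorem f_anti {lam t t' : ℝ} (hl : 0 < lam) (ht : 0 ≤ t) (h : t ≤ t') :
    f lam t' ≤ f lam t := by
  unfold f
  refine setIntegral_mono_on (f_int hl (ht.trans h)) (f_int hl ht) measurableSet_Ioi
    fun b hb => ?_
  have hb' : (0 : ℝ) ≤ b := le_of_lt hb
  apply mul_le_mul_of_nonneg_right _ (Vk_pos _ _).le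
  rw [Real.exp_le_exp]
  have := mul_le_mul_of_nonneg_left h hb'
  linarith

/-- `W` is nonincreasing in `lam` (`e^b - 1 - b ≥ 0`). -/
theorem g_anti_lam {lam lam' : ℝ} (r : ℝ) (hl : 0 < lam) (h : lam ≤ lam') :
    g lam' r ≤ g lam r := by
  unfold g
  refine setIntegral_mono_on (g_int (hl.trans_le h) r) (g_int hl r) measurableSet_Ioi
    fun b _ => ?_
  apply mul_le_mul_of_nonneg_left _ (Real.exp_pos _).le
  unfold W
  rw [Real.exp_le_exp]
  have h1 := Real.add_one_le_exp b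
  have h2 : lam * (Real.exp b - 1 - b) ≤ lam' * (Real.exp b - 1 - b) :=
    mul_le_mul_of_nonneg_right h (by linarith)
  linarith

end Pool.Agent.Lib.H3MT
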