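import Pool.Agent.Lib.H3MT.AK1

/-! # H3MT, chunk AK7 -/

open MeasureTheory Set

namespace Pool.Agent.Lib.H3MT

theorem AK7_nonneg {F F' : ℝ → ℝ} (h0 : F 0 = 0) (hd : ∀ x, HasDerivAt F (F' x) x)
    (hn : ∀ x, 0 ≤ x → 0 ≤ F' x) {x : ℝ} (hx : 0 ≤ x) : 0 ≤ F x := by
  have hm : MonotoneOn F (Ici 0) := by
    apply monotoneOn_of_deriv_nonneg (convex_Ici 0)
    · exact fun y _ => (hd y).continuousAt.continuousWithinAt
    · exact fun y _ => (hd y).differentiableAt.differentiableWithinAt
    · intro y hy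
      rw [interior_Ici] at hy
      rw [(hd y).deriv]
      exact hn y (le_of_lt hy)
  have := hm (mem_Ici.mpr (le_refl 0)) (mem_Ici.mpr hx) hx
  rwa [h0] at this

/-- the truncated kernel is at most the integral of the exponential -/
theorem AK7_bound {lam c : ℝ} (hl : 0 < lam) {X : ℝ} (hX : 0 ≤ X) :
    0 ≤ (Real.exp (-(X * c)) - 1) - (-c) * ∫ v in (0 : ℝ)..X, Real.exp (-(v * c)) * W lam v ∨
      0 < c := by
  by_cases hc : 0 < c
  · exact Or.inr hc
  · left
    have hk : Continuous (fun v : ℝ => Real.exp (-(v * c)) * W lam v) := by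
      have := W_continuous lam
      fun_prop
    refine AK7_nonneg (F := fun X => (Real.exp (-(X * c)) - 1) -
      (-c) * ∫ v in (0 : ℝ)..X, Real.exp (-(v * c)) * W lam v)
      (F' := fun X => Real.exp (-(X * c)) * (-c) - (-c) * (Real.exp (-(X * c)) * W lam X)) (by simp)
      ?_ ?_ hX
    · intro x
      have h1 : HasDerivAt (fun X : ℝ => -(X * c)) (-c) x := by
        have := (hasDerivAt_mul_const c (x := x)).neg
        exact this
      have h2 := (h1.exp).sub_const 1
      have h3 := ((hk.integral_hasStrictDerivAt 0 x).hasDerivAt).const_mul (-c)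
      exact h2.sub h3
    · intro x _
      have h4 := W_le_one (lam := lam) (b := x) hl
      have h5 : 0 ≤ -c := by linarith
      have h6 := Real.exp_pos (-(x * c))
      have h7 : Real.exp (-(x * c)) * (-c) - (-c) * (Real.exp (-(x * c)) * W lam x) =
          (-c) * (Real.exp (-(x * c)) * (1 - W lam x)) := by ring
      rw [h7]
      exact mul_nonneg h5 (mul_nonneg h6.le (by linarith))

theorem AK7_bound_pos {lam c : ℝ} (hl : 0 < lam) (hc : 0 ≤ c) {X : ℝ} (hX : 0 ≤ X) :
    0 ≤ (1 - Real.exp (-(X * c))) - c * ∫ v in (0 : ℝ)..X, Real.exp (-(v * c)) * W lam v := by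
  have hk : Continuous (fun v : ℝ => Real.exp (-(v * c)) * W lam v) := by
    have := W_continuous lam
    fun_prop
  refine AK7_nonneg (F := fun X => (1 - Real.exp (-(X * c))) -
    c * ∫ v in (0 : ℝ)..X, Real.exp (-(v * c)) * W lam v)
    (F' := fun X => -(Real.exp (-(X * c)) * (-c)) - c * (Real.exp (-(X * c)) * W lam X)) (by simp)
    ?_ ?_ hX
  · intro x
    have h1 : HasDerivAt (fun X : ℝ => -(X * c)) (-c) x := by
      have := (hasDerivAt_mul_const c (x := x)).neg
      exact this
    have h2 := (h1.exp).const_sub 1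
    have h3 := ((hk.integral_hasStrictDerivAt 0 x).hasDerivAt).const_mul c
    exact h2.sub h3
  · intro x _
    have h4 := W_le_one (lam := lam) (b := x) hl
    have h6 := Real.exp_pos (-(x * c))
    have h7 : -(Real.exp (-(x * c)) * (-c)) - c * (Real.exp (-(x * c)) * W lam x) =
        c * (Real.exp (-(x * c)) * (1 - W lam x)) := by ring
    rw [h7]
    exact mul_nonneg hc (mul_nonneg h6.le (by linarith))

/-- Only `0 ≤ W ≤ 1` and integrability are used. For `d > 0` put
`U X = ∫ v in 0..X, e^{dv} W v`, `D X = ∫ v in 0..X, e^{-dv} W v`. As `0 ≤ W ≤ 1`: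
`U X ≤ (e^{dX} - 1)/d`, `D X ≤ (1 - e^{-dX})/d` for `X ≥ 0`. The function
`Φ X = ∫ t in 0..X, (e^{dt} - e^{-dt}) W t - d * U X * D X` has `Φ 0 = 0` and derivative
`W X [e^{dX} - e^{-dX} - d e^{dX} D X - d e^{-dX} U X] ≥ W X [e^{dX} - e^{-dX} - e^{dX}(1 - e^{-dX})
- e^{-dX}(e^{dX} - 1)] = 0`, so `Φ X ≥ 0`; let `X → ∞`: `U → g lam (-d)`, `D → g lam d`. -/
theorem g_K7 {lam d : ℝ} (hl : 0 < lam) (hd : 0 ≤ d) :
    d * g lam d * g lam (-d) ≤ g lam (-d) - g lam d := by
  have hk1 : Continuous (fun v : ℝ => Real.exp (-(v * (-d))) * W lam v) := by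
    have := W_continuous lam
    fun_prop
  have hk2 : Continuous (fun v : ℝ => Real.exp (-(v * d)) * W lam v) := by
    have := W_continuous lam
    fun_prop
  set U : ℝ → ℝ := fun X => ∫ v in (0 : ℝ)..X, Real.exp (-(v * (-d))) * W lam v with hU
  set D : ℝ → ℝ := fun X => ∫ v in (0 : ℝ)..X, Real.exp (-(v * d)) * W lam v with hD
  have hUd : ∀ X, HasDerivAt U (Real.exp (-(X * (-d))) * W lam X) X := fun X =>
    (hk1.integral_hasStrictDerivAt 0 X).hasDerivAt
  have hDd : ∀ X, HasDerivAt D (Real.exp (-(X * d)) * W lam X) X := fun X =>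
    (hk2.integral_hasStrictDerivAt 0 X).hasDerivAt
  have hUb : ∀ X, 0 ≤ X → d * U X ≤ Real.exp (X * d) - 1 := by
    intro X hX
    rcases AK7_bound (c := -d) hl hX with h | h
    · rw [neg_neg] at h
      have e : -(X * (-d)) = X * d := by ring
      rw [e] at h
      have h' : 0 ≤ (Real.exp (X * d) - 1) - d * U X := h
      linarith
    · linarith
  have hDb : ∀ X, 0 ≤ X → d * D X ≤ 1 - Real.exp (-(X * d)) := by
    intro X hX
    have h := AK7_bound_pos hl hd hX
    have h' : 0 ≤ (1 - Real.exp (-(X * d))) - d * D X := h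
    linarith
  have hΦ : ∀ X, 0 ≤ X → 0 ≤ U X - D X - d * (U X * D X) := by
    intro X hX
    refine AK7_nonneg (F := fun X => U X - D X - d * (U X * D X))
      (F' := fun X => Real.exp (-(X * (-d))) * W lam X - Real.exp (-(X * d)) * W lam X -
        d * (Real.exp (-(X * (-d))) * W lam X * D X + U X * (Real.exp (-(X * d)) * W lam X)))
      ?_ ?_ ?_ hX
    · simp [hU, hD]
    · intro x
      exact ((hUd x).sub (hDd x)).sub (((hUd x).mul (hDd x)).const_mul d)
    · intro x hx
      have e : -(x * (-d)) = x * d := by ring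
      rw [e]
      have h1 := hUb x hx
      have h2 := hDb x hx
      have h3 := W_pos lam x
      have h4 : 0 < Real.exp (x * d) := Real.exp_pos _
      have h5 : 0 < Real.exp (-(x * d)) := Real.exp_pos _
      have h6 : Real.exp (x * d) * Real.exp (-(x * d)) = 1 := by
        rw [← Real.exp_add]
        simp
      have h7 := mul_le_mul_of_nonneg_left h1 h5.le
      have h8 := mul_le_mul_of_nonneg_left h2 h4.le
      have h9 : Real.exp (x * d) * W lam x - Real.exp (-(x * d)) * W lam x -
          d * (Real.exp (x * d) * W lam x * D x + U x * (Real.exp (-(x * d)) * W lam x)) =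
          W lam x * (Real.exp (x * d) - Real.exp (-(x * d)) - Real.exp (x * d) * (d * D x) -
            Real.exp (-(x * d)) * (d * U x)) := by ring
      rw [h9]
      apply mul_nonneg h3.le
      have h10 : Real.exp (x * d) * (1 - Real.exp (-(x * d))) = Real.exp (x * d) - 1 := by
        rw [mul_sub, h6, mul_one]
      have h11 : Real.exp (-(x * d)) * (Real.exp (x * d) - 1) = 1 - Real.exp (-(x * d)) := by
        rw [mul_sub, mul_comm, h6, mul_one]
      rw [h10] at h8
      rw [h11] at h7
      linarith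
  have tU : Filter.Tendsto U Filter.atTop (nhds (g lam (-d))) :=
    intervalIntegral_tendsto_integral_Ioi 0 (g_int hl (-d)) Filter.tendsto_id
  have tD : Filter.Tendsto D Filter.atTop (nhds (g lam d)) :=
    intervalIntegral_tendsto_integral_Ioi 0 (g_int hl d) Filter.tendsto_id
  have tΦ : Filter.Tendsto (fun X => U X - D X - d * (U X * D X)) Filter.atTop
      (nhds (g lam (-d) - g lam d - d * (g lam (-d) * g lam d))) :=
    (tU.sub tD).sub ((tU.mul tD).const_mul d)
  have h := ge_of_tendsto tΦ ((Filter.eventually_ge_atTop 0).mono hΦ)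
  linarith

end Pool.Agent.Lib.H3MT
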