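import Mathlib

/-!
# H3MT, part A: the two kernels (incomplete gamma functions)

`W lam b = exp (-lam (e^b - 1 - b))`, `Vk lam b = exp (-lam (e^{-b} - 1 + b))`,
`g lam r = ∫_0^∞ e^{-br} W lam b db`, `f lam t = ∫_0^∞ e^{-bt} Vk lam b db`.
-/

open MeasureTheory Set

namespace Pool.Agent.Lib.H3MT

noncomputable section

def W (lam b : ℝ) : ℝ := Real.exp (-(lam * (Real.exp b - 1 - b)))

def Vk (lam b : ℝ) : ℝ := Real.exp (-(lam * (Real.exp (-b) - 1 + b)))

def g (lam r : ℝ) : ℝ := ∫ b in Ioi (0 : ℝ), Real.exp (-(b * r)) * W lam b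

def f (lam t : ℝ) : ℝ := ∫ b in Ioi (0 : ℝ), Real.exp (-(b * t)) * Vk lam b

/-- mean over a finite type -/
def mn {R : Type} [Fintype R] (φ : R → ℝ) : ℝ := (∑ r, φ r) / Fintype.card R

open scoped Classical in
/-- probability (uniform measure on a finite type) -/
def pr {R : Type} [Fintype R] (P : R → Prop) : ℝ := mn (fun r => if P r then (1 : ℝ) else 0)

/-- a finite law: values `x r ≥ 0`, mean `s`, variance `w > 0`, `x r ≤ s + 1` -/
structure Law {R : Type} [Fintype R] [Nonempty R] (x : R → ℝ) (s w : ℝ) : Prop where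
  nonneg : ∀ r, 0 ≤ x r
  mean : mn x = s
  var : mn (fun r => (x r - s) ^ 2) = w
  wpos : 0 < w
  le : ∀ r, x r ≤ s + 1

end

end Pool.Agent.Lib.H3MT
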