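import Pool.Agent.Lib.H3MT.AC4

/-! # H3MT, chunk AL1: (L) in the normalised form -/

namespace Pool.Agent.Lib.H3MT

variable {R : Type} [Fintype R] [Nonempty R] {S : Type} [Fintype S] [Nonempty S]

/-- `vT m x T = P(S_m + x ≥ T)`, `m + 1` independent smalls -/
noncomputable def vT (m : ℕ) (x : R → ℝ) (T : ℝ) : ℝ :=
  mn (fun v : Fin m → R => pr (fun r => T ≤ ∑ i, x (v i) + x r))

/-- `uT m x B T = P(S_m + B < T)` -/
noncomputable def uT (m : ℕ) (x : R → ℝ) (B : S → ℝ) (T : ℝ) : ℝ :=
  mn (fun j : S => pr (fun v : Fin m → R => ∑ i, x (v i) + B j < T))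

/-- `two_point` with `δ = mn B - (s+1)`, `C j = B j - mn B`, `H c = pr (fun v => c < Qv m x s v)`,
`v = vT m x ((m+1) s + mn B)`. The two-point hypothesis for `0 ≤ d ≤ δ`, `y > 0` is `TP` with `d`, because
`vT m x ((m+1) s + mn B) = mn_v pr (1 + δ + s + Q v ≤ x r) ≤ mn_v pr (1 + d + s + Q v ≤ x r)`
(`(m+1) s + mn B - ∑ x = mn B + Q v = 1 + δ + s + Q v`). `C j < Q v ↔ ∑ x (v i) + B j < (m+1) s + mn B`. -/
theorem L_norm {x : R → ℝ} {s w : ℝ} (L : Law x s w) {m : ℕ} (hm : 1 ≤ m) {B : S → ℝ}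
    (hB : ∀ j, s + 1 ≤ B j) :
    vT m x (((m : ℝ) + 1) * s + mn B) ≤ uT m x B (((m : ℝ) + 1) * s + mn B) := by
  classical
  have hδ : 0 ≤ mn B - (s + 1) := by
    have h := mn_le_mn (φ := fun _ : S => s + 1) (ψ := B) hB
    rw [mn_const] at h
    linarith
  have hC : mn (fun j => B j - mn B) = 0 := by
    rw [mn_sub, mn_const]; ring
  have key := two_point (C := fun j => B j - mn B) (δ := mn B - (s + 1))
    (v := vT m x (((m : ℝ) + 1) * s + mn B))
    (H := fun c => pr (fun v : Fin m → R => c < Qv m x s v)) hδ hC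
    (fun j => by have := hB j; linarith) ?_
  · refine key.trans (le_of_eq ?_)
    unfold uT
    congr 1
    funext j
    congr 1
    funext v
    unfold Qv
    apply propext
    constructor <;> intro h <;> linarith
  · intro d y hd hdδ hy
    have h1 := TP L hm hd hy
    have h2 : vT m x (((m : ℝ) + 1) * s + mn B) ≤
        mn (fun v : Fin m → R => pr (fun r => 1 + d + s + Qv m x s v ≤ x r)) := by
      unfold vT
      refine mn_le_mn fun v => ?_
      unfold pr
      refine mn_le_mn fun r => ?_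
      by_cases h : ((m : ℝ) + 1) * s + mn B ≤ ∑ i, x (v i) + x r
      · have h' : 1 + d + s + Qv m x s v ≤ x r := by
          unfold Qv; linarith
        rw [if_pos h, if_pos h']
      · rw [if_neg h]
        split_ifs <;> norm_num
    have h3 : (y + d) * vT m x (((m : ℝ) + 1) * s + mn B) ≤
        (y + d) * mn (fun v : Fin m → R => pr (fun r => 1 + d + s + Qv m x s v ≤ x r)) :=
      mul_le_mul_of_nonneg_left h2 (by linarith)
    exact h3.trans h1

end Pool.Agent.Lib.H3MT
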