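import Pool.Agent.Lib.H3MT.AL1

/-! # H3MT, chunk AL2: (L) in general -/

namespace Pool.Agent.Lib.H3MT

variable {R : Type} [Fintype R] [Nonempty R] {S : Type} [Fintype S] [Nonempty S]

omit [Nonempty R] in
theorem AL2_pr_mono {P Q : R → Prop} (h : ∀ r, P r → Q r) : pr P ≤ pr Q := by
  classical
  unfold pr
  refine mn_le_mn fun r => ?_
  by_cases hP : P r
  · rw [if_pos hP, if_pos (h r hP)]
  · rw [if_neg hP]; split_ifs <;> norm_num

omit [Nonempty R] in
theorem AL2_pr_false {P : R → Prop} (h : ∀ r, ¬ P r) : pr P = 0 := by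
  classical
  unfold pr mn
  simp [h]

omit [Nonempty R] in
theorem AL2_pr_nonneg (P : R → Prop) : 0 ≤ pr P := by
  classical
  unfold pr
  exact mn_nonneg fun r => by split_ifs <;> norm_num

omit [Nonempty R] in
theorem vT_anti (m : ℕ) (x : R → ℝ) {T T' : ℝ} (h : T ≤ T') : vT m x T' ≤ vT m x T :=
  mn_le_mn fun _ => AL2_pr_mono fun _ hr => h.trans hr

omit [Nonempty R] [Nonempty S] in
theorem uT_mono (m : ℕ) (x : R → ℝ) (B : S → ℝ) {T T' : ℝ} (h : T ≤ T') :
    uT m x B T ≤ uT m x B T' :=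
  mn_le_mn fun _ => AL2_pr_mono fun _ hr => lt_of_lt_of_le hr h

omit [Nonempty R] in
/-- scaling by `c > 0` -/
theorem vT_scale (m : ℕ) (x : R → ℝ) (T : ℝ) {c : ℝ} (hc : 0 < c) :
    vT m (fun r => x r / c) (T / c) = vT m x T := by
  unfold vT
  congr 1
  funext v
  congr 1
  funext r
  apply propext
  rw [← Finset.sum_div, ← add_div, div_le_div_iff_of_pos_right hc]

omit [Nonempty R] [Nonempty S] in
theorem uT_scale (m : ℕ) (x : R → ℝ) (B : S → ℝ) (T : ℝ) {c : ℝ} (hc : 0 < c) :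
    uT m (fun r => x r / c) (fun j => B j / c) (T / c) = uT m x B T := by
  unfold uT
  congr 1
  funext j
  congr 1
  funext v
  apply propext
  rw [← Finset.sum_div, ← add_div, div_lt_div_iff_of_pos_right hc]

omit [Nonempty R] in
theorem AL2_vT_zero (m : ℕ) (x : R → ℝ) (T : ℝ) (h : ∀ (v : Fin m → R) r, ∑ i, x (v i) + x r < T) :
    vT m x T = 0 := by
  unfold vT
  have : ∀ v : Fin m → R, pr (fun r => T ≤ ∑ i, x (v i) + x r) = 0 := fun v =>
    AL2_pr_false fun r => not_le.mpr (h v r)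
  simp_rw [this]
  unfold mn; simp

omit [Nonempty R] [Nonempty S] in
theorem AL2_uT_nonneg (m : ℕ) (x : R → ℝ) (B : S → ℝ) (T : ℝ) : 0 ≤ uT m x B T :=
  mn_nonneg fun _ => AL2_pr_nonneg _

/-- If the variance is `0` then `x r = mn x` for all `r`. -/
theorem const_of_var {x : R → ℝ} (hv : mn (fun r => (x r - mn x) ^ 2) = 0) (r : R) : x r = mn x := by
  have hc : (Fintype.card R : ℝ) ≠ 0 := by exact_mod_cast Fintype.card_ne_zero
  have h1 : ∑ r, (x r - mn x) ^ 2 = 0 := (div_eq_zero_iff.mp hv).resolve_right hc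
  have h2 := (Finset.sum_eq_zero_iff_of_nonneg (fun r _ => sq_nonneg (x r - mn x))).mp h1 r
    (Finset.mem_univ r)
  have h3 : x r - mn x = 0 := by simpa using h2
  linarith

/-- If the variance of `x` is not `0` then `u = τ - mn x > 0` and `x / u` is a `Law` with mean `mn x / u`. -/
theorem law_of_scale {x : R → ℝ} {τ : ℝ} (hx : ∀ r, 0 ≤ x r) (hτ : ∀ r, x r ≤ τ)
    (hv : mn (fun r => (x r - mn x) ^ 2) ≠ 0) :
    0 < τ - mn x ∧ Law (fun r => x r / (τ - mn x)) (mn x / (τ - mn x))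
      (mn (fun r => (x r - mn x) ^ 2) / (τ - mn x) ^ 2) := by
  have hpos : 0 < τ - mn x := by
    by_contra hcon
    push Not at hcon
    apply hv
    have hle : ∀ r, x r ≤ mn x := fun r => (hτ r).trans (by linarith)
    have h0 : ∑ r, (mn x - x r) = 0 := by
      have h : mn (fun r => mn x - x r) = 0 := by rw [mn_sub, mn_const]; ring
      have hc : (Fintype.card R : ℝ) ≠ 0 := by exact_mod_cast Fintype.card_ne_zero
      exact (div_eq_zero_iff.mp h).resolve_right hc
    have h1 : ∀ r, mn x - x r = 0 := fun r =>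
      (Finset.sum_eq_zero_iff_of_nonneg (fun r _ => by have := hle r; linarith)).mp h0 r
        (Finset.mem_univ r)
    have h2 : ∀ r, (x r - mn x) ^ 2 = 0 := fun r => by
      have := h1 r
      have : x r - mn x = 0 := by linarith
      rw [this]; ring
    simp_rw [h2]
    unfold mn; simp
  refine ⟨hpos, ?_, ?_, ?_, ?_, ?_⟩
  · intro r; exact div_nonneg (hx r) hpos.le
  · simp_rw [div_eq_mul_inv]
    rw [mn_mul_right]
  · have : ∀ r, (x r / (τ - mn x) - mn x / (τ - mn x)) ^ 2 =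
        (x r - mn x) ^ 2 * ((τ - mn x) ^ 2)⁻¹ := fun r => by
      rw [← sub_div, div_pow, div_eq_mul_inv]
    simp_rw [this]
    rw [mn_mul_right, ← div_eq_mul_inv]
  · have h0 : 0 ≤ mn (fun r => (x r - mn x) ^ 2) := mn_nonneg fun r => sq_nonneg _
    have h1 : 0 < mn (fun r => (x r - mn x) ^ 2) := lt_of_le_of_ne h0 (Ne.symm hv)
    positivity
  · intro r
    rw [div_add_one hpos.ne', div_le_div_iff_of_pos_right hpos]
    have := hτ r
    linarith

/-- Let `T₀ = (m+1) mn x + mn B ≤ T`. By monotonicity it is enough to treat `T₀` if `T₀ > 0`; if `T₀ = 0` then `x = 0`,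
`vT m x T = 0` since `T > 0`. Let `T₀ > 0`. If the variance is `0`: `∑ x + x r = (m+1) mn x < T₀` (as `mn B > 0`: otherwise
`B = 0`, `τ ≤ 0`, `x = 0`, `T₀ = 0`), so `vT = 0 ≤ uT`. Otherwise scale by `u = τ - mn x`
(`law_of_scale`; `B j / u ≥ τ / u = mn x / u + 1`) and use `L_norm`. -/
theorem L_gen {x : R → ℝ} {B : S → ℝ} {τ T : ℝ} {m : ℕ} (hm : 1 ≤ m) (hx : ∀ r, 0 ≤ x r)
    (hτ : ∀ r, x r ≤ τ) (hB : ∀ j, τ ≤ B j) (hT : 0 < T)
    (hT' : ((m : ℝ) + 1) * mn x + mn B ≤ T) : vT m x T ≤ uT m x B T := by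
  have hmx : 0 ≤ mn x := mn_nonneg hx
  have hτ0 : 0 ≤ τ := by
    obtain ⟨r⟩ := ‹Nonempty R›
    exact (hx r).trans (hτ r)
  have hmB : τ ≤ mn B := by
    have := mn_le_mn (φ := fun _ : S => τ) (ψ := B) hB
    rwa [mn_const] at this
  by_cases hv : mn (fun r => (x r - mn x) ^ 2) = 0
  · -- constant
    have hc := const_of_var hv
    have hsum : ∀ (v : Fin m → R) r, ∑ i, x (v i) + x r = ((m : ℝ) + 1) * mn x := by
      intro v r
      have h1 : ∀ i, x (v i) = mn x := fun i => hc (v i)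
      simp_rw [h1]
      rw [hc r, Finset.sum_const, Finset.card_univ, Fintype.card_fin, nsmul_eq_mul]; ring
    rw [AL2_vT_zero m x T]
    · exact AL2_uT_nonneg m x B T
    · intro v r
      rw [hsum]
      rcases hτ0.eq_or_lt with h0 | h0
      · have hx0 : mn x = 0 := by
          have h1 : mn x ≤ 0 := by
            obtain ⟨r⟩ := ‹Nonempty R›
            rw [← hc r, h0]; exact hτ r
          exact le_antisymm h1 hmx
        rw [hx0]; simpa using hT
      · linarith
  · obtain ⟨hpos, L⟩ := law_of_scale hx hτ hv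
    set u := τ - mn x with hu
    have hB' : ∀ j, mn x / u + 1 ≤ B j / u := fun j => by
      rw [div_add_one hpos.ne', div_le_div_iff_of_pos_right hpos]
      have := hB j
      linarith
    have h1 := L_norm L hm (B := fun j => B j / u) hB'
    have h2 : ((m : ℝ) + 1) * (mn x / u) + mn (fun j => B j / u) =
        (((m : ℝ) + 1) * mn x + mn B) / u := by
      have : mn (fun j => B j / u) = mn B / u := by
        simp_rw [div_eq_mul_inv]
        rw [mn_mul_right]
      rw [this]; ring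
    rw [h2, vT_scale m x _ hpos, uT_scale m x B _ hpos] at h1
    exact (vT_anti m x hT').trans (h1.trans (uT_mono m x B hT'))

end Pool.Agent.Lib.H3MT
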