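import Pool.Agent.Lib.H3MT.AL2

/-! # H3MT, chunk AL3: counting tuples -/

open scoped Classical

namespace Pool.Agent.Lib.H3MT

variable {V : Type} [Fintype V]

/-- number of `(m+1)`-tuples of `V` with `X`-sum `< T` -/
noncomputable def cnt (m : ℕ) (X : V → ℝ) (T : ℝ) : ℕ :=
  (Finset.univ.filter (fun v : Fin (m + 1) → V => ∑ i, X (v i) < T)).card

theorem AL3_mn {A : Type} [Fintype A] (φ : A → ℝ) : (Fintype.card A : ℝ) * mn φ = ∑ a, φ a := by
  unfold mn
  by_cases h : Fintype.card A = 0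
  · have : IsEmpty A := Fintype.card_eq_zero_iff.1 h
    rw [Finset.univ_eq_empty, Finset.sum_empty, zero_div, mul_zero]
  · have h' : (Fintype.card A : ℝ) ≠ 0 := by exact_mod_cast h
    field_simp

theorem AL3_N1 (m : ℕ) {R : Type} [Fintype R] (x : R → ℝ) (T : ℝ) :
    ((Fintype.card R : ℝ)) ^ (m + 1) * (1 - vT m x T) =
      ((Finset.univ.filter (fun q : (Fin m → R) × R => ∑ i, x (q.1 i) + x q.2 < T)).card : ℝ) := by
  have h1 : ((Fintype.card R : ℝ)) ^ m * vT m x T =
      ∑ v : Fin m → R, pr (fun r => T ≤ ∑ i, x (v i) + x r) := by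
    have h := AL3_mn (A := Fin m → R) (fun v => pr (fun r => T ≤ ∑ i, x (v i) + x r))
    rw [← h, Fintype.card_fun, Fintype.card_fin]
    push_cast
    rfl
  have h2 : ∀ v : Fin m → R, (Fintype.card R : ℝ) * pr (fun r => T ≤ ∑ i, x (v i) + x r) =
      ∑ r, if T ≤ ∑ i, x (v i) + x r then (1 : ℝ) else 0 := by
    intro v
    unfold pr
    rw [AL3_mn]
  have h3 : ((Fintype.card R : ℝ)) ^ (m + 1) * vT m x T =
      ∑ v : Fin m → R, ∑ r, if T ≤ ∑ i, x (v i) + x r then (1 : ℝ) else 0 := by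
    rw [pow_succ, mul_comm (_ ^ m), mul_assoc, h1, Finset.mul_sum]
    exact Finset.sum_congr rfl fun v _ => h2 v
  have h4 : ((Fintype.card R : ℝ)) ^ (m + 1) = ∑ v : Fin m → R, ∑ _r : R, (1 : ℝ) := by
    simp only [Finset.sum_const, Finset.card_univ, Fintype.card_fun, Fintype.card_fin, nsmul_eq_mul,
      mul_one]
    push_cast
    ring
  rw [mul_sub, mul_one, h3, h4, ← Finset.sum_sub_distrib, Finset.card_filter,
    Nat.cast_sum, Fintype.sum_prod_type]
  refine Finset.sum_congr rfl fun v _ => ?_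
  rw [← Finset.sum_sub_distrib]
  refine Finset.sum_congr rfl fun r _ => ?_
  by_cases h : T ≤ ∑ i, x (v i) + x r
  · simp [h]
  · simp [h]

theorem AL3_N2 (m : ℕ) {R S : Type} [Fintype R] [Fintype S] (x : R → ℝ) (B : S → ℝ) (T : ℝ) :
    ((Fintype.card R : ℝ)) ^ m * Fintype.card S * uT m x B T =
      ((Finset.univ.filter (fun q : (Fin m → R) × S => ∑ i, x (q.1 i) + B q.2 < T)).card : ℝ) := by
  have h1 : (Fintype.card S : ℝ) * uT m x B T =
      ∑ j : S, pr (fun v : Fin m → R => ∑ i, x (v i) + B j < T) := by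
    unfold uT
    rw [AL3_mn]
  have h2 : ∀ j : S, ((Fintype.card R : ℝ)) ^ m *
      pr (fun v : Fin m → R => ∑ i, x (v i) + B j < T) =
      ∑ v : Fin m → R, if ∑ i, x (v i) + B j < T then (1 : ℝ) else 0 := by
    intro j
    unfold pr
    have h := AL3_mn (A := Fin m → R) (fun v => if ∑ i, x (v i) + B j < T then (1 : ℝ) else 0)
    rw [← h, Fintype.card_fun, Fintype.card_fin]
    push_cast
    rfl
  rw [mul_assoc, h1, Finset.mul_sum, Finset.card_filter, Nat.cast_sum, Fintype.sum_prod_type_right]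
  refine Finset.sum_congr rfl fun j _ => ?_
  rw [h2]
  refine Finset.sum_congr rfl fun v _ => ?_
  by_cases h : ∑ i, x (v i) + B j < T
  · simp [h]
  · simp [h]

/-- insertion of an entry -/
def AL3_ins {m : ℕ} (S : Finset V) (p : Fin (m + 1)) (v : Fin m → {v // v ∉ S}) (y : V) :
    Fin (m + 1) → V :=
  Fin.insertNth (α := fun _ => V) p y (fun i => (v i : V))

omit [Fintype V] in
theorem AL3_ins_same {m : ℕ} (S : Finset V) (p : Fin (m + 1)) (v : Fin m → {v // v ∉ S}) (y : V) :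
    AL3_ins S p v y p = y := Fin.insertNth_apply_same _ _ _

omit [Fintype V] in
theorem AL3_ins_above {m : ℕ} (S : Finset V) (p : Fin (m + 1)) (v : Fin m → {v // v ∉ S}) (y : V)
    (i : Fin m) : AL3_ins S p v y (p.succAbove i) = v i := Fin.insertNth_apply_succAbove _ _ _ _

omit [Fintype V] in
theorem AL3_ins_sum {m : ℕ} (S : Finset V) (p : Fin (m + 1)) (v : Fin m → {v // v ∉ S}) (y : V)
    (X : V → ℝ) : ∑ i, X (AL3_ins S p v y i) = ∑ i, X (v i) + X y := by
  rw [Fin.sum_univ_succAbove _ p, AL3_ins_same, add_comm]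
  congr 1
  exact Finset.sum_congr rfl fun i _ => by rw [AL3_ins_above]

omit [Fintype V] in
theorem AL3_ins_inj {m : ℕ} {S : Finset V} {p : Fin (m + 1)} {v v' : Fin m → {v // v ∉ S}}
    {y y' : V} (h : AL3_ins S p v y = AL3_ins S p v' y') : v = v' ∧ y = y' := by
  constructor
  · funext i
    have h1 := congrFun h (p.succAbove i)
    rw [AL3_ins_above, AL3_ins_above] at h1
    exact Subtype.ext h1
  · have h1 := congrFun h p
    rwa [AL3_ins_same, AL3_ins_same] at h1

omit [Fintype V] in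
/-- the entries other than the inserted one are outside `S` -/
theorem AL3_ins_mem {m : ℕ} {S : Finset V} {p : Fin (m + 1)} {v : Fin m → {v // v ∉ S}}
    {y : V} {q : Fin (m + 1)} (h : AL3_ins S p v y q ∈ S) : q = p := by
  by_contra hne
  obtain ⟨i, hi⟩ := Fin.exists_succAbove_eq hne
  rw [← hi, AL3_ins_above] at h
  exact (v i).2 h

/-- Split off the tuples with all entries outside `S` and those with exactly one entry in `S` (position `p : Fin (m+1)`,
`Fin.insertNth`): the maps `(v, r) ↦ Fin.snoc v r` (or `insertNth (last) r v`) on `(Fin m → {v // v ∉ S}) × {v // v ∉ S}` and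
`(p, v, j) ↦ insertNth p j v` on `Fin (m+1) × (Fin m → {v // v ∉ S}) × {v // v ∈ S}` are injective with disjoint
images, all in the set counted by `cnt`. So
`cnt ≥ #{(v,r) : ∑ + X r < T} + (m+1) #{(v,j) : ∑ + X j < T}`
`= |R|^(m+1) (1 - vT m X_R T) + (m+1) |R|^m |S| uT m X_R X_S T`. -/
theorem cnt_ge (m : ℕ) (X : V → ℝ) (T : ℝ) (S : Finset V) :
    ((Fintype.card {v // v ∉ S} : ℝ)) ^ (m + 1) * (1 - vT m (fun r : {v // v ∉ S} => X r) T)
      + ((m : ℝ) + 1) * (Fintype.card {v // v ∉ S} : ℝ) ^ m * S.card *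
        uT m (fun r : {v // v ∉ S} => X r) (fun j : {v // v ∈ S} => X j) T ≤ (cnt m X T : ℝ) := by
  set R' := {v // v ∉ S} with hR'
  set S' := {v // v ∈ S} with hS'
  have hSc : Fintype.card S' = S.card := Fintype.card_coe S
  set F1 : Finset ((Fin m → R') × R') :=
    Finset.univ.filter (fun q => ∑ i, X (q.1 i) + X q.2 < T) with hF1
  set F2 : Finset ((Fin m → R') × S') :=
    Finset.univ.filter (fun q => ∑ i, X (q.1 i) + X q.2 < T) with hF2
  have hN1 := AL3_N1 m (fun r : R' => X r) T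
  have hN2 := AL3_N2 m (fun r : R' => X r) (fun j : S' => X j) T
  rw [hSc] at hN2
  -- the injections
  set A1 : Finset (Fin (m + 1) → V) := F1.image (fun q => AL3_ins S (Fin.last m) q.1 q.2) with hA1
  set A2 : Finset (Fin (m + 1) → V) := ((Finset.univ : Finset (Fin (m + 1))) ×ˢ F2).image
    (fun q => AL3_ins S q.1 q.2.1 q.2.2) with hA2
  have hc1 : A1.card = F1.card := by
    rw [hA1]
    apply Finset.card_image_of_injective
    rintro ⟨v, r⟩ ⟨v', r'⟩ h
    obtain ⟨h1, h2⟩ := AL3_ins_inj h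
    exact Prod.ext h1 (Subtype.ext h2)
  have hc2 : A2.card = (m + 1) * F2.card := by
    rw [hA2, Finset.card_image_of_injective, Finset.card_product, Finset.card_univ,
      Fintype.card_fin]
    rintro ⟨p, v, j⟩ ⟨p', v', j'⟩ h
    have h0 : AL3_ins S p v j = AL3_ins S p' v' j' := h
    have hp : p = p' := by
      apply AL3_ins_mem (S := S) (v := v') (y := j')
      rw [← h0, AL3_ins_same]
      exact j.2
    subst hp
    obtain ⟨h1, h2⟩ := AL3_ins_inj h0
    rw [h1, Subtype.ext h2]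
  have hdis : Disjoint A1 A2 := by
    rw [Finset.disjoint_left]
    intro u hu1 hu2
    obtain ⟨⟨v, r⟩, -, rfl⟩ := Finset.mem_image.1 hu1
    obtain ⟨⟨p, v', j⟩, -, h⟩ := Finset.mem_image.1 hu2
    have h0 : AL3_ins S p v' j = AL3_ins S (Fin.last m) v r := h
    have h1 : AL3_ins S (Fin.last m) v r p ∈ S := by
      rw [← h0, AL3_ins_same]
      exact j.2
    have h2 := AL3_ins_mem h1
    rw [h2, AL3_ins_same] at h1
    exact r.2 h1
  have hsub : A1 ∪ A2 ⊆ Finset.univ.filter (fun v : Fin (m + 1) → V => ∑ i, X (v i) < T) := by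
    intro u hu
    rw [Finset.mem_filter]
    refine ⟨Finset.mem_univ _, ?_⟩
    rcases Finset.mem_union.1 hu with h | h
    · obtain ⟨⟨v, r⟩, hq, rfl⟩ := Finset.mem_image.1 h
      rw [AL3_ins_sum]
      exact (Finset.mem_filter.1 hq).2
    · obtain ⟨⟨p, v, j⟩, hq, rfl⟩ := Finset.mem_image.1 h
      rw [AL3_ins_sum]
      exact (Finset.mem_filter.1 (Finset.mem_product.1 hq).2).2
  have hle : F1.card + (m + 1) * F2.card ≤ cnt m X T := by
    rw [← hc1, ← hc2, ← Finset.card_union_of_disjoint hdis]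
    exact Finset.card_le_card hsub
  have hle' : (F1.card : ℝ) + ((m : ℝ) + 1) * F2.card ≤ (cnt m X T : ℝ) := by exact_mod_cast hle
  refine le_trans (le_of_eq ?_) hle'
  rw [hN1, ← hN2]
  ring

theorem AL3_card_compl (S : Finset V) : Fintype.card {v // v ∉ S} = Fintype.card V - S.card := by
  rw [Fintype.card_of_subtype Sᶜ (fun x => Finset.mem_compl), Finset.card_compl]

/-- The iid Feige inequality at `T = n + 1`, `n = m + 1`, finite form. `|V| = (m+2) M`, `|S| = M ≥ 1`, `S` = largest values: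
`|R| = (m+1) M`. With `T = m + 2`: `(m+1) mn X_R + mn X_S = (∑_R X + ∑_S X)/M ≤ m + 2`; take `τ` = any number between
the values outside and inside `S` (`τ = max over R`, `R` is nonempty). `L_gen`: `vT ≤ uT`; then `cnt_ge` gives
`cnt ≥ ((m+1)M)^(m+1) (1 - vT) + (m+1) ((m+1)M)^m M uT = ((m+1)M)^(m+1) (1 - vT + uT) ≥ ((m+1)M)^(m+1)`. -/
theorem feige {m M : ℕ} (hm : 1 ≤ m) (hM : 1 ≤ M) {X : V → ℝ} (hX : ∀ v, 0 ≤ X v)
    (hV : Fintype.card V = (m + 2) * M) (hsum : ∑ v, X v ≤ Fintype.card V)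
    {S : Finset V} (hS : S.card = M) (htop : ∀ v ∈ S, ∀ u ∉ S, X u ≤ X v) :
    (((m : ℝ) + 1) * M) ^ (m + 1) ≤ (cnt m X ((m : ℝ) + 2) : ℝ) := by
  have hMr : (0 : ℝ) < M := by exact_mod_cast hM
  have hRc : Fintype.card {v // v ∉ S} = (m + 1) * M := by
    rw [AL3_card_compl, hV, hS]
    have : (m + 2) * M = (m + 1) * M + M := by ring
    omega
  have hRcr : (Fintype.card {v // v ∉ S} : ℝ) = ((m : ℝ) + 1) * M := by
    rw [hRc]
    push_cast
    ring
  have hSc : Fintype.card {v // v ∈ S} = M := by rw [Fintype.card_coe, hS]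
  have hRne : Nonempty {v // v ∉ S} := by
    rw [← Fintype.card_pos_iff, hRc]
    positivity
  have hSne : Nonempty {v // v ∈ S} := by
    rw [← Fintype.card_pos_iff, hSc]
    omega
  obtain ⟨r0, hr0⟩ := Finite.exists_max (fun r : {v // v ∉ S} => X r)
  have hmR := AL3_mn (fun r : {v // v ∉ S} => X r)
  have hmS := AL3_mn (fun j : {v // v ∈ S} => X j)
  rw [hRcr] at hmR
  rw [hSc] at hmS
  have hsplit : ∑ j : {v // v ∈ S}, X j + ∑ r : {v // v ∉ S}, X r = ∑ v, X v := by
    rw [← Fintype.sum_subtype_add_sum_subtype (fun v => v ∈ S) X]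
    congr 1
    exact Finset.sum_congr (by ext; simp) fun _ _ => rfl
  have hT' : ((m : ℝ) + 1) * mn (fun r : {v // v ∉ S} => X r) + mn (fun j : {v // v ∈ S} => X j) ≤
      (m : ℝ) + 2 := by
    rw [hV] at hsum
    push_cast at hsum
    have h1 : M * (((m : ℝ) + 1) * mn (fun r : {v // v ∉ S} => X r) +
        mn (fun j : {v // v ∈ S} => X j)) ≤ M * ((m : ℝ) + 2) := by
      have e : M * (((m : ℝ) + 1) * mn (fun r : {v // v ∉ S} => X r) +
        mn (fun j : {v // v ∈ S} => X j)) = ∑ v, X v := by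
        rw [← hsplit, ← hmR, ← hmS]
        ring
      rw [e]
      linarith
    exact le_of_mul_le_mul_left h1 hMr
  have hL := L_gen (m := m) (τ := X r0) (T := (m : ℝ) + 2) hm
    (fun r : {v // v ∉ S} => hX r) hr0 (fun j : {v // v ∈ S} => htop j j.2 r0 r0.2)
    (by positivity) hT'
  have hc := cnt_ge m X ((m : ℝ) + 2) S
  rw [hRcr, hS] at hc
  refine le_trans ?_ hc
  have hP : 0 ≤ (((m : ℝ) + 1) * M) ^ (m + 1) := by positivity
  have e : ((m : ℝ) + 1) * (((m : ℝ) + 1) * M) ^ m * M *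
      uT m (fun r : {v // v ∉ S} => X r) (fun j : {v // v ∈ S} => X j) ((m : ℝ) + 2) =
      (((m : ℝ) + 1) * M) ^ (m + 1) *
      uT m (fun r : {v // v ∉ S} => X r) (fun j : {v // v ∈ S} => X j) ((m : ℝ) + 2) := by
    ring
  rw [e]
  nlinarith [mul_le_mul_of_nonneg_left hL hP]

end Pool.Agent.Lib.H3MT
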