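import Pool.Agent.Lib.H3MT.AC4

/-! # H3MT, chunk AS1: quantitative form of (B+) -/

open MeasureTheory Set

namespace Pool.Agent.Lib.H3MT

/-- variance bound: `E (x-s)^2 = E x^2 - s^2 ≤ (s+1) s - s^2 = s` -/
theorem Law.w_le {R : Type} [Fintype R] [Nonempty R] {x : R → ℝ} {s w : ℝ} (L : Law x s w) :
    w ≤ s := by
  have h1 : mn (fun r => (x r - s) ^ 2) ≤ mn (fun r => (1 - s) * x r + s ^ 2) := by
    apply mn_le_mn
    intro r
    have h0 := L.nonneg r
    have h2 := L.le r
    nlinarith [mul_nonneg h0 (sub_nonneg.2 h2)]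
  rw [L.var, mn_add, mn_mul_left, L.mean, mn_const] at h1
  nlinarith

/-- `e^t - 1 - t ≥ c t^2` for `-n ≤ t ≤ 1` with some `c > 0` depending on `n` only (for `t ≥ -1`: `c = 1/3`, since
`e^t ≥ 1 + t + t^2/2 + t^3/6`; for `t ≤ -1`: `e^t - 1 - t ≥ e^{-1} ≥ (1/(3 n^2)) t^2`, the function `e^t - 1 - t` being
nonincreasing for `t ≤ 0`). -/
theorem exp_quad (n : ℝ) : ∃ c : ℝ, 0 < c ∧ ∀ t : ℝ, -n ≤ t → t ≤ 1 →
    c * t ^ 2 ≤ Real.exp t - 1 - t := by
  have hn : 0 < |n| + 1 := by positivity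
  refine ⟨1 / (4 * (|n| + 1)), by positivity, ?_⟩
  intro t ht _
  have hc : 1 / (4 * (|n| + 1)) ≤ 1 / 4 := by
    apply one_div_le_one_div_of_le (by norm_num)
    have := abs_nonneg n
    linarith
  by_cases h : -2 ≤ t
  · have h1 : 1 + t / 2 ≤ Real.exp (t / 2) := by
      have := Real.add_one_le_exp (t / 2); linarith
    have h2 : (1 + t / 2) ^ 2 ≤ Real.exp (t / 2) ^ 2 := by
      apply pow_le_pow_left₀ _ h1
      linarith
    have h3 : Real.exp (t / 2) ^ 2 = Real.exp t := by
      rw [← Real.exp_nat_mul]; congr 1; push_cast; ring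
    rw [h3] at h2
    have h4 : 1 / (4 * (|n| + 1)) * t ^ 2 ≤ 1 / 4 * t ^ 2 :=
      mul_le_mul_of_nonneg_right hc (sq_nonneg t)
    nlinarith
  · push Not at h
    have h1 : 0 < Real.exp t := Real.exp_pos t
    have h2 : -t ≤ |n| + 1 := by
      have := le_abs_self n
      linarith
    have h3 : 1 / (4 * (|n| + 1)) * t ^ 2 ≤ -t / 4 := by
      rw [div_mul_eq_mul_div, one_mul, div_le_div_iff₀ (by positivity) (by norm_num)]
      nlinarith
    linarith

/-- `z (e^{bz} - 1) ≤ z^2 (e^b - 1)` for `z ≤ 1`, `b ≥ 0`. -/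
theorem AS1_zexp {z b : ℝ} (hb : 0 ≤ b) (hz : z ≤ 1) :
    z * (Real.exp (b * z) - 1) ≤ z ^ 2 * (Real.exp b - 1) := by
  rcases le_or_gt 0 z with h | h
  · have h1 := convexOn_exp.2 (Set.mem_univ b) (Set.mem_univ 0) h (sub_nonneg.2 hz)
      (add_sub_cancel _ _)
    simp only [smul_eq_mul, mul_zero, add_zero, Real.exp_zero, mul_one] at h1
    have h2 : Real.exp (b * z) - 1 ≤ z * (Real.exp b - 1) := by
      rw [mul_comm b z]; linarith
    calc z * (Real.exp (b * z) - 1) ≤ z * (z * (Real.exp b - 1)) :=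
          mul_le_mul_of_nonneg_left h2 h
      _ = z ^ 2 * (Real.exp b - 1) := by ring
  · have h1 := Real.add_one_le_exp (b * z)
    have h2 := Real.add_one_le_exp b
    have h3 : z * (Real.exp (b * z) - 1) ≤ z * (b * z) := by
      apply mul_le_mul_of_nonpos_left _ h.le
      linarith
    have h4 : z ^ 2 * b ≤ z ^ 2 * (Real.exp b - 1) :=
      mul_le_mul_of_nonneg_left (by linarith) (sq_nonneg z)
    calc z * (Real.exp (b * z) - 1) ≤ z * (b * z) := h3
      _ = z ^ 2 * b := by ring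
      _ ≤ _ := h4

theorem AS1_meanz {R : Type} [Fintype R] [Nonempty R] {x : R → ℝ} {s w : ℝ} (L : Law x s w) :
    mn (fun r => x r - s) = 0 := by
  rw [mn_sub (fun r => x r) (fun _ => s), mn_const]
  have := L.mean
  change mn x - s = 0
  linarith

theorem AS1_zmean {R : Type} [Fintype R] [Nonempty R] {x : R → ℝ} {s w : ℝ} (L : Law x s w)
    {b : ℝ} (hb : 0 ≤ b) :
    mn (fun r => (x r - s) * Real.exp (b * (x r - s))) ≤ w * (Real.exp b - 1) := by
  have h1 : mn (fun r => (x r - s) * Real.exp (b * (x r - s))) ≤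
      mn (fun r => (x r - s) ^ 2 * (Real.exp b - 1) + (x r - s)) := by
    apply mn_le_mn
    intro r
    have h := AS1_zexp (z := x r - s) hb (by linarith [L.le r])
    linarith
  rw [mn_add, mn_mul_right, L.var, AS1_meanz L, add_zero] at h1
  exact h1

theorem AS1_one_le {R : Type} [Fintype R] [Nonempty R] {x : R → ℝ} {s w : ℝ} (L : Law x s w)
    (b : ℝ) : 1 ≤ mn (fun r => Real.exp (b * (x r - s))) := by
  have h1 : mn (fun r => 1 + b * (x r - s)) ≤ mn (fun r => Real.exp (b * (x r - s))) := by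
    apply mn_le_mn
    intro r
    have := Real.add_one_le_exp (b * (x r - s))
    linarith
  rw [mn_add, mn_const, mn_mul_left, AS1_meanz L, mul_zero, add_zero] at h1
  exact h1

theorem AS1_quad {R : Type} [Fintype R] [Nonempty R] {x : R → ℝ} {s w c b : ℝ} {m : ℕ}
    (L : Law x s w) (hs : s ≤ m)
    (hc : ∀ t : ℝ, -(m : ℝ) ≤ t → t ≤ 1 → c * t ^ 2 ≤ Real.exp t - 1 - t)
    (hb : 0 ≤ b) (hb1 : b ≤ 1) :
    1 + c * b ^ 2 * w ≤ mn (fun r => Real.exp (b * (x r - s))) := by
  have h1 : mn (fun r => 1 + (b * (x r - s) + c * b ^ 2 * (x r - s) ^ 2)) ≤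
      mn (fun r => Real.exp (b * (x r - s))) := by
    apply mn_le_mn
    intro r
    have h0 := L.nonneg r
    have h2 := L.le r
    have hm : (0 : ℝ) ≤ m := Nat.cast_nonneg m
    have h3 : -(m : ℝ) ≤ b * (x r - s) := by nlinarith
    have h4 : b * (x r - s) ≤ 1 := by nlinarith
    have := hc _ h3 h4
    nlinarith
  rw [mn_add, mn_const, mn_add, mn_mul_left, mn_mul_left, AS1_meanz L, L.var, mul_zero,
    zero_add] at h1
  exact h1

/-- the pointwise identity -/
theorem AS1_point {R : Type} [Fintype R] [Nonempty R] (x : R → ℝ) (s w q b lam : ℝ) :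
    mn (fun r => (w * (Real.exp (-(b * (q - x r - 1))) - Real.exp (-(b * (q - x r))))
      - (x r - s) * Real.exp (-(b * (q - x r)))) * W lam b) =
    W lam b * Real.exp (-(b * (q - s))) *
      (w * (Real.exp b - 1) * mn (fun r => Real.exp (b * (x r - s)))
        - mn (fun r => (x r - s) * Real.exp (b * (x r - s)))) := by
  rw [← mn_mul_left (w * (Real.exp b - 1)), ← mn_sub, ← mn_mul_left]
  congr 1
  funext r
  have h1 : Real.exp (-(b * (q - x r))) = Real.exp (-(b * (q - s))) * Real.exp (b * (x r - s)) := by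
    rw [← Real.exp_add]; congr 1; ring
  have h2 : Real.exp (-(b * (q - x r - 1))) =
      Real.exp (-(b * (q - s))) * Real.exp (b * (x r - s)) * Real.exp b := by
    rw [← Real.exp_add, ← Real.exp_add]; congr 1; ring
  rw [h1, h2]
  ring

/-- `1 - bg` as an integral -/
theorem AS1_bg {R : Type} [Fintype R] [Nonempty R] {x : R → ℝ} {s w : ℝ} (L : Law x s w)
    (m : ℕ) (q : ℝ) :
    IntegrableOn (fun b : ℝ => W (((m : ℝ) + 1) * w) b * Real.exp (-(b * (q - s))) *
      (w * (Real.exp b - 1) * mn (fun r => Real.exp (b * (x r - s)))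
        - mn (fun r => (x r - s) * Real.exp (b * (x r - s))))) (Ioi 0) ∧
    bg m x s w q = 1 - ((m : ℝ) + 1) * ∫ b in Ioi (0 : ℝ),
      W (((m : ℝ) + 1) * w) b * Real.exp (-(b * (q - s))) *
      (w * (Real.exp b - 1) * mn (fun r => Real.exp (b * (x r - s)))
        - mn (fun r => (x r - s) * Real.exp (b * (x r - s)))) := by
  have hw := L.wpos
  have hm : (0 : ℝ) < (m : ℝ) + 1 := by positivity
  have hl : 0 < ((m : ℝ) + 1) * w := by positivity
  set lam := ((m : ℝ) + 1) * w with hlam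
  have hF : ∀ r : R, IntegrableOn (fun b : ℝ =>
      (w * (Real.exp (-(b * (q - x r - 1))) - Real.exp (-(b * (q - x r))))
      - (x r - s) * Real.exp (-(b * (q - x r)))) * W lam b) (Ioi 0) := by
    intro r
    have h1 := (g_int hl (q - x r - 1)).const_mul w
    have h2 := (g_int hl (q - x r)).const_mul w
    have h3 := (g_int hl (q - x r)).const_mul (x r - s)
    refine ((h1.sub h2).sub h3).congr ?_
    refine Filter.Eventually.of_forall (fun b => ?_)
    simp only [Pi.sub_apply]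
    ring
  have hI : ∀ r : R, (∫ b in Ioi (0 : ℝ),
      (w * (Real.exp (-(b * (q - x r - 1))) - Real.exp (-(b * (q - x r))))
      - (x r - s) * Real.exp (-(b * (q - x r)))) * W lam b) =
      w * (g lam (q - x r - 1) - g lam (q - x r)) - (x r - s) * g lam (q - x r) := by
    intro r
    have h1 := (g_int hl (q - x r - 1)).const_mul w
    have h2 := (g_int hl (q - x r)).const_mul w
    have h3 := (g_int hl (q - x r)).const_mul (x r - s)
    have e : (fun b : ℝ =>
      (w * (Real.exp (-(b * (q - x r - 1))) - Real.exp (-(b * (q - x r))))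
      - (x r - s) * Real.exp (-(b * (q - x r)))) * W lam b) =
      (fun b : ℝ => (w * (Real.exp (-(b * (q - x r - 1))) * W lam b) -
        w * (Real.exp (-(b * (q - x r))) * W lam b)) -
        (x r - s) * (Real.exp (-(b * (q - x r))) * W lam b)) := by
      funext b; ring
    have h12 : Integrable (fun b : ℝ => w * (Real.exp (-(b * (q - x r - 1))) * W lam b) -
        w * (Real.exp (-(b * (q - x r))) * W lam b)) (volume.restrict (Ioi 0)) := h1.sub h2
    rw [e, integral_sub h12 h3, integral_sub h1 h2, integral_const_mul,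
      integral_const_mul, integral_const_mul]
    unfold g
    ring
  have hsum := mn_integral (R := R) (μ := volume.restrict (Ioi (0 : ℝ))) _ hF
  have hpt : (fun b : ℝ => mn (fun r => (w * (Real.exp (-(b * (q - x r - 1))) -
      Real.exp (-(b * (q - x r)))) - (x r - s) * Real.exp (-(b * (q - x r)))) * W lam b)) =
      fun b : ℝ => W lam b * Real.exp (-(b * (q - s))) *
      (w * (Real.exp b - 1) * mn (fun r => Real.exp (b * (x r - s)))
        - mn (fun r => (x r - s) * Real.exp (b * (x r - s)))) := by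
    funext b
    exact AS1_point x s w q b lam
  constructor
  · rw [← hpt]
    unfold mn
    exact (integrable_finsetSum _ (fun r _ => hF r)).div_const _
  · rw [← hpt, ← hsum]
    have e : bg m x s w q = mn (fun r => 1 - ((m : ℝ) + 1) * ∫ b in Ioi (0 : ℝ),
      (w * (Real.exp (-(b * (q - x r - 1))) - Real.exp (-(b * (q - x r))))
      - (x r - s) * Real.exp (-(b * (q - x r)))) * W lam b) := by
      unfold bg
      congr 1
      funext r
      rw [hI r]
      have h2 := g_rec hl (q - x r)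
      rw [← hlam]
      have h3 : (q - x r) * g lam (q - x r) =
          1 - lam * (g lam (q - x r - 1) - g lam (q - x r)) := by linarith
      rw [add_mul, h3, hlam]
      ring
    rw [e, mn_sub (fun _ => (1 : ℝ)), mn_const, mn_mul_left]

/-- With `lam = (m+1) w`, `z = x - s ∈ [-m, 1]` (`s ≤ m`), as in the proof of `Bplus`:
`1 - E[((q-x) + (m+1)(x-s)) g(q-x)] = (m+1) ∫ W e^{-b(q-s)} { w (e^b - 1) E e^{bz} - E[z e^{bz}] } db`, and by the proof of `E1`
`E[z e^{bz}] ≤ w (e^b - 1)`, so `{..} ≥ w (e^b - 1)(E e^{bz} - 1) ≥ w (e^b-1) c b^2 w ≥ c w^2 b^3` for `0 ≤ b ≤ 1`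
(`exp_quad`, `E z = 0`; and `{..} ≥ 0` for all `b ≥ 0`). With `w ≥ c1/(m+1)`, `lam ≤ (m+1) m`, `e^{-b(q-s)} ≥ e^{-ρ}` for
`0 ≤ b ≤ 1`, `W ≥ e^{-lam}` for `0 ≤ b ≤ 1` (`e^b - 1 - b ≤ 1`): the integral over `(0,1)` is at least
`(m+1) e^{-ρ - (m+1) m} c (c1/(m+1))^2 / 4`. -/
theorem Bplus_slack (m : ℕ) {c1 ρ : ℝ} (hc1 : 0 < c1) (hρ : 0 ≤ ρ) : ∃ c4 : ℝ, 0 < c4 ∧
    ∀ (R : Type) [Fintype R] [Nonempty R] (x : R → ℝ) (s w q : ℝ), Law x s w → s ≤ m →
      c1 ≤ ((m : ℝ) + 1) * w → |q - s| ≤ ρ → bg m x s w q ≤ 1 - c4 := by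
  obtain ⟨c, hc0, hc⟩ := exp_quad (m : ℝ)
  have hm : (0 : ℝ) < (m : ℝ) + 1 := by positivity
  have hm0 : (0 : ℝ) ≤ (m : ℝ) := Nat.cast_nonneg m
  set K : ℝ := Real.exp (-(((m : ℝ) + 1) * m)) * Real.exp (-ρ) *
    (c * (c1 / ((m : ℝ) + 1)) ^ 2 / 8) with hK
  have hKpos : 0 < K := by positivity
  refine ⟨((m : ℝ) + 1) * (K * (1 / 2)), by positivity, ?_⟩
  intro R _ _ x s w q L hs hw1 hq
  obtain ⟨hint, hbg⟩ := AS1_bg L m q
  rw [hbg]
  have hw := L.wpos
  have hws := L.w_le
  set lam := ((m : ℝ) + 1) * w with hlam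
  set G : ℝ → ℝ := fun b => W lam b * Real.exp (-(b * (q - s))) *
      (w * (Real.exp b - 1) * mn (fun r => Real.exp (b * (x r - s)))
        - mn (fun r => (x r - s) * Real.exp (b * (x r - s)))) with hG
  have hbr : ∀ b : ℝ, 0 ≤ b → w * (Real.exp b - 1) * (mn (fun r => Real.exp (b * (x r - s))) - 1) ≤
      (w * (Real.exp b - 1) * mn (fun r => Real.exp (b * (x r - s)))
        - mn (fun r => (x r - s) * Real.exp (b * (x r - s)))) := by
    intro b hb
    have := AS1_zmean L hb
    linarith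
  have hGnn : ∀ b ∈ Ioi (0 : ℝ), 0 ≤ G b := by
    intro b hb
    have hb' : (0 : ℝ) ≤ b := le_of_lt hb
    apply mul_nonneg (mul_nonneg (W_pos _ _).le (Real.exp_pos _).le)
    refine le_trans ?_ (hbr b hb')
    have h1 := AS1_one_le L b
    have h2 := Real.add_one_le_exp b
    have h3 : 0 ≤ Real.exp b - 1 := by linarith
    have h4 : 0 ≤ mn (fun r => Real.exp (b * (x r - s))) - 1 := by linarith
    positivity
  have hGK : ∀ b ∈ Ioc (1 / 2 : ℝ) 1, K ≤ G b := by
    intro b hb
    have hb0 : (1 / 2 : ℝ) ≤ b := hb.1.le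
    have hb1 : b ≤ 1 := hb.2
    have hb' : (0 : ℝ) ≤ b := by linarith
    have h1 : Real.exp (-(((m : ℝ) + 1) * m)) ≤ W lam b := by
      unfold W
      apply Real.exp_le_exp.2
      have h2 : Real.exp b - 1 - b ≤ 1 := by
        have h3 := Real.abs_exp_sub_one_sub_id_le (x := b) (by rw [abs_of_nonneg hb']; exact hb1)
        have h4 := (abs_le.1 h3).2
        nlinarith
      have h3 : 0 ≤ Real.exp b - 1 - b := by
        have := Real.add_one_le_exp b; linarith
      have h4 : lam ≤ ((m : ℝ) + 1) * m := by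
        rw [hlam]
        apply mul_le_mul_of_nonneg_left _ hm.le
        linarith
      have h5 : 0 ≤ lam := by positivity
      nlinarith [mul_nonneg h5 (sub_nonneg.2 h2)]
    have h2 : Real.exp (-ρ) ≤ Real.exp (-(b * (q - s))) := by
      apply Real.exp_le_exp.2
      have h3 : b * (q - s) ≤ b * |q - s| := mul_le_mul_of_nonneg_left (le_abs_self _) hb'
      have h4 : b * |q - s| ≤ 1 * ρ := mul_le_mul hb1 hq (abs_nonneg _) (by norm_num)
      linarith
    have h3 : c * (c1 / ((m : ℝ) + 1)) ^ 2 / 8 ≤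
        (w * (Real.exp b - 1) * mn (fun r => Real.exp (b * (x r - s)))
        - mn (fun r => (x r - s) * Real.exp (b * (x r - s)))) := by
      refine le_trans ?_ (hbr b hb')
      have h4 := AS1_quad L hs hc hb' hb1
      have h5 : c * b ^ 2 * w ≤ mn (fun r => Real.exp (b * (x r - s))) - 1 := by linarith
      have h6 : (1 / 2 : ℝ) ≤ Real.exp b - 1 := by
        have := Real.add_one_le_exp b; linarith
      have h7 : c1 / ((m : ℝ) + 1) ≤ w := by
        rw [div_le_iff₀ hm]; linarith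
      have h8 : 0 ≤ c1 / ((m : ℝ) + 1) := by positivity
      have h9 : (c1 / ((m : ℝ) + 1)) ^ 2 ≤ w ^ 2 := pow_le_pow_left₀ h8 h7 2
      have h10 : (1 / 4 : ℝ) ≤ b ^ 2 := by nlinarith
      calc c * (c1 / ((m : ℝ) + 1)) ^ 2 / 8 ≤ c * w ^ 2 / 8 := by gcongr
        _ = w * (1 / 2) * (c * (1 / 4) * w) := by ring
        _ ≤ w * (Real.exp b - 1) * (c * b ^ 2 * w) := by gcongr
        _ ≤ _ := by
            apply mul_le_mul_of_nonneg_left h5
            have : 0 ≤ Real.exp b - 1 := by linarith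
            positivity
    have h4 : 0 ≤ c * (c1 / ((m : ℝ) + 1)) ^ 2 / 8 := by positivity
    calc K ≤ (W lam b * Real.exp (-(b * (q - s)))) * (c * (c1 / ((m : ℝ) + 1)) ^ 2 / 8) := by
          rw [hK]
          apply mul_le_mul_of_nonneg_right _ h4
          exact mul_le_mul h1 h2 (Real.exp_pos _).le (W_pos _ _).le
      _ ≤ G b := by
          apply mul_le_mul_of_nonneg_left h3
          exact mul_nonneg (W_pos _ _).le (Real.exp_pos _).le
  have hsub : Ioc (1 / 2 : ℝ) 1 ⊆ Ioi (0 : ℝ) := by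
    intro b hb
    have := hb.1
    simp only [mem_Ioi]
    linarith
  have hI1 : ∫ b in Ioc (1 / 2 : ℝ) 1, G b ≤ ∫ b in Ioi (0 : ℝ), G b := by
    apply setIntegral_mono_set hint
    · filter_upwards [ae_restrict_mem measurableSet_Ioi] with b hb
      exact hGnn b hb
    · exact hsub.eventuallyLE
  have hI2 : K * (1 / 2) ≤ ∫ b in Ioc (1 / 2 : ℝ) 1, G b := by
    have h1 : ∫ b in Ioc (1 / 2 : ℝ) 1, K = K * (1 / 2) := by
      rw [setIntegral_const]
      simp only [Real.volume_real_Ioc, smul_eq_mul]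
      norm_num
      ring
    rw [← h1]
    apply setIntegral_mono_on
    · exact integrableOn_const (by simp)
    · exact hint.mono_set hsub
    · exact measurableSet_Ioc
    · exact hGK
  have hI3 := le_trans hI2 hI1
  have := mul_le_mul_of_nonneg_left hI3 hm.le
  linarith

end Pool.Agent.Lib.H3MT
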