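import Pool.Agent.Lib.H3MT.AS1

/-! # H3MT, chunk AS2: the event, and the two-point inequality with slack -/

namespace Pool.Agent.Lib.H3MT

variable {R : Type} [Fintype R] [Nonempty R]

theorem AS2_mn_prod {m : ℕ} (f : Fin m → R → ℝ) :
    mn (fun v : Fin m → R => ∏ j, f j (v j)) = ∏ j, mn (f j) := by
  unfold mn
  rw [Finset.prod_div_distrib, Finset.prod_const, Finset.card_univ, Fintype.card_fin,
    Fintype.card_fun, Fintype.card_fin, Nat.cast_pow]
  congr 1
  rw [Finset.prod_univ_sum, Fintype.piFinset_univ]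

theorem AS2_mn_one {m : ℕ} (i : Fin m) (φ : R → ℝ) :
    mn (fun v : Fin m → R => φ (v i)) = mn φ := by
  have h := AS2_mn_prod (fun j : Fin m => if j = i then φ else fun _ => (1 : ℝ))
  have h1 : (fun v : Fin m → R => ∏ j, (if j = i then φ else fun _ => (1 : ℝ)) (v j)) =
      fun v => φ (v i) := by
    funext v
    rw [Finset.prod_eq_single i]
    · simp
    · intro j _ hj; simp [hj]
    · intro h; exact absurd (Finset.mem_univ i) h
  have h2 : (∏ j, mn (if j = i then φ else fun _ => (1 : ℝ))) = mn φ := by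
    rw [Finset.prod_eq_single i]
    · simp
    · intro j _ hj; simp [hj, mn_const]
    · intro h; exact absurd (Finset.mem_univ i) h
  rw [h1, h2] at h
  exact h

theorem AS2_mn_two {m : ℕ} {i k : Fin m} (hik : i ≠ k) (φ ψ : R → ℝ) :
    mn (fun v : Fin m → R => φ (v i) * ψ (v k)) = mn φ * mn ψ := by
  have h := AS2_mn_prod (fun j : Fin m => if j = i then φ else if j = k then ψ
    else fun _ => (1 : ℝ))
  have h1 : (fun v : Fin m → R => ∏ j, (if j = i then φ else if j = k then ψ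
      else fun _ => (1 : ℝ)) (v j)) = fun v => φ (v i) * ψ (v k) := by
    funext v
    rw [Finset.prod_eq_mul i k hik]
    · simp [hik.symm]
    · intro j _ hj; simp [hj.1, hj.2]
    · intro h; exact absurd (Finset.mem_univ i) h
    · intro h; exact absurd (Finset.mem_univ k) h
  have h2 : (∏ j, mn (if j = i then φ else if j = k then ψ else fun _ => (1 : ℝ))) =
      mn φ * mn ψ := by
    rw [Finset.prod_eq_mul i k hik]
    · simp [hik.symm]
    · intro j _ hj; simp [hj.1, hj.2, mn_const]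
    · intro h; exact absurd (Finset.mem_univ i) h
    · intro h; exact absurd (Finset.mem_univ k) h
  rw [h1, h2] at h
  exact h

theorem AS2_mn_sum {T ι : Type} [Fintype T] (s : Finset ι) (F : ι → T → ℝ) :
    mn (fun v => ∑ i ∈ s, F i v) = ∑ i ∈ s, mn (F i) := by
  unfold mn
  rw [Finset.sum_comm, Finset.sum_div]

theorem AS2_pr_le {T : Type} [Fintype T] (P : T → Prop) (φ : T → ℝ) (h0 : ∀ t, 0 ≤ φ t)
    (h1 : ∀ t, P t → 1 ≤ φ t) : pr P ≤ mn φ := by
  unfold pr
  apply mn_le_mn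
  intro t
  split_ifs with h
  · exact h1 t h
  · exact h0 t

theorem AS2_cover {T : Type} [Fintype T] [Nonempty T] (A B E : T → Prop)
    (h : ∀ t, A t ∨ B t ∨ E t) : 1 ≤ pr A + (pr B + pr E) := by
  classical
  have h1 : mn (fun _ : T => (1 : ℝ)) ≤ pr A + (pr B + pr E) := by
    unfold pr
    rw [← mn_add, ← mn_add]
    apply mn_le_mn
    intro t
    have := h t
    by_cases ha : A t <;> by_cases hb : B t <;> by_cases he : E t <;> simp [ha, hb, he] at this ⊢ <;>
      norm_num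
  rwa [mn_const] at h1

/-- Markov for `∑ x (v i)` (mean `m s`): if `0 < s`, `P(∑ x ≥ c) ≤ m s / c` for `c > 0`; `mn` of `∑ i, x (v i)` over
`v : Fin m → R` is `m * mn x`. -/
theorem markov_sum {m : ℕ} {x : R → ℝ} (hx : ∀ r, 0 ≤ x r) {c : ℝ} (hc : 0 < c) :
    pr (fun v : Fin m → R => c ≤ ∑ i, x (v i)) ≤ m * mn x / c := by
  have h : mn (fun v : Fin m → R => (∑ i, x (v i)) / c) = m * mn x / c := by
    have h1 : (fun v : Fin m → R => (∑ i, x (v i)) / c) =
        fun v : Fin m → R => (1 / c) * ∑ i, x (v i) := by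
      funext v; ring
    rw [h1, mn_mul_left, AS2_mn_sum]
    simp_rw [AS2_mn_one]
    rw [Finset.sum_const, Finset.card_univ, Fintype.card_fin, nsmul_eq_mul]
    ring
  rw [← h]
  apply AS2_pr_le
  · intro v
    exact div_nonneg (Finset.sum_nonneg fun i _ => hx _) hc.le
  · intro v hv
    rw [one_le_div hc]
    exact hv

/-- Chebyshev: `Q v - s = ∑ (s - x (v i))` has mean `0` and variance `m w` (independence: expand the square, the cross
terms vanish). -/
theorem cheb_Q {x : R → ℝ} {s w : ℝ} (L : Law x s w) {m : ℕ} {ρ : ℝ} (hρ : 0 < ρ) :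
    pr (fun v : Fin m → R => ρ < |Qv m x s v - s|) ≤ m * w / ρ ^ 2 := by
  have hQ : ∀ v : Fin m → R, Qv m x s v - s = ∑ i, (s - x (v i)) := by
    intro v
    unfold Qv
    rw [Finset.sum_sub_distrib, Finset.sum_const, Finset.card_univ, Fintype.card_fin,
      nsmul_eq_mul]
    ring
  have hz : mn (fun r => s - x r) = 0 := by
    rw [mn_sub (fun _ => s) (fun r => x r), mn_const]
    have := L.mean
    change s - mn x = 0
    linarith
  have hvar : mn (fun v : Fin m → R => (Qv m x s v - s) ^ 2) = m * w := by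
    have h1 : (fun v : Fin m → R => (Qv m x s v - s) ^ 2) =
        fun v : Fin m → R => ∑ i, ∑ k, (s - x (v i)) * (s - x (v k)) := by
      funext v
      rw [hQ v, sq, Finset.sum_mul_sum]
    rw [h1, AS2_mn_sum]
    have h2 : ∀ i : Fin m, mn (fun v : Fin m → R => ∑ k, (s - x (v i)) * (s - x (v k))) = w := by
      intro i
      rw [AS2_mn_sum, Finset.sum_eq_single i]
      · have h3 := AS2_mn_one i (fun r : R => (s - x r) * (s - x r))
        rw [h3, ← L.var]
        congr 1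
        funext r
        ring
      · intro k _ hk
        have h3 := AS2_mn_two (i := i) (k := k) (Ne.symm hk) (fun r : R => s - x r)
          (fun r : R => s - x r)
        rw [h3, hz, zero_mul]
      · intro h; exact absurd (Finset.mem_univ i) h
    rw [Finset.sum_congr rfl (fun i _ => h2 i), Finset.sum_const, Finset.card_univ,
      Fintype.card_fin, nsmul_eq_mul]
  have h : mn (fun v : Fin m → R => (Qv m x s v - s) ^ 2 / ρ ^ 2) = m * w / ρ ^ 2 := by
    have h1 : (fun v : Fin m → R => (Qv m x s v - s) ^ 2 / ρ ^ 2) =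
        fun v : Fin m → R => (1 / ρ ^ 2) * (Qv m x s v - s) ^ 2 := by
      funext v; ring
    rw [h1, mn_mul_left, hvar]
    ring
  rw [← h]
  apply AS2_pr_le
  · intro v; positivity
  · intro v hv
    rw [one_le_div (by positivity), ← sq_abs (Qv m x s v - s)]
    exact pow_le_pow_left₀ hρ.le hv.le 2

/-- `P(Q > 0) ≥ 1 - m s/((m+1) s) = 1/(m+1)` (`s > 0` because `w > 0`) and, with `ρ = 2 (m+1)^2`, `w ≤ s ≤ m`:
`P(|Q - s| > ρ) ≤ m^2/(4 (m+1)^4) ≤ 1/(2(m+1))`. -/
theorem event_prob {x : R → ℝ} {s w : ℝ} (L : Law x s w) {m : ℕ} (hm : 1 ≤ m) (hs : s ≤ m) :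
    1 / (2 * ((m : ℝ) + 1)) ≤
      pr (fun v : Fin m → R => 0 < Qv m x s v ∧ |Qv m x s v - s| ≤ 2 * ((m : ℝ) + 1) ^ 2) := by
  classical
  have hw := L.wpos
  have hws := L.w_le
  have hs0 : 0 < s := by linarith
  have hm0 : (1 : ℝ) ≤ m := by exact_mod_cast hm
  have h1 := markov_sum (m := m) L.nonneg (c := ((m : ℝ) + 1) * s) (by positivity)
  have h2 := cheb_Q L (m := m) (ρ := 2 * ((m : ℝ) + 1) ^ 2) (by positivity)
  rw [L.mean] at h1
  have h3 : (m : ℝ) * s / (((m : ℝ) + 1) * s) = 1 - 1 / ((m : ℝ) + 1) := by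
    field_simp
    ring
  have h4 : (m : ℝ) * w / (2 * ((m : ℝ) + 1) ^ 2) ^ 2 ≤ 1 / (2 * ((m : ℝ) + 1)) := by
    rw [div_le_div_iff₀ (by positivity) (by positivity)]
    have h5 : w ≤ (m : ℝ) + 1 := by linarith
    have h6 : (m : ℝ) ≤ (m : ℝ) + 1 := by linarith
    have h7 : (m : ℝ) * w ≤ ((m : ℝ) + 1) * ((m : ℝ) + 1) := by
      apply mul_le_mul h6 h5 hw.le (by positivity)
    have h8 : (m : ℝ) * w * (2 * ((m : ℝ) + 1)) ≤
        ((m : ℝ) + 1) * ((m : ℝ) + 1) * (2 * ((m : ℝ) + 1)) :=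
      mul_le_mul_of_nonneg_right h7 (by positivity)
    have h9 : ((m : ℝ) + 1) * ((m : ℝ) + 1) * (2 * ((m : ℝ) + 1)) ≤
        1 * (2 * ((m : ℝ) + 1) ^ 2) ^ 2 := by
      have h10 : 1 ≤ (m : ℝ) + 1 := by linarith
      have h11 : ((m : ℝ) + 1) ^ 3 ≤ ((m : ℝ) + 1) ^ 4 :=
        pow_le_pow_right₀ h10 (by norm_num)
      have h12 : 0 < ((m : ℝ) + 1) ^ 4 := by positivity
      nlinarith
    linarith
  have h5 : 1 - pr (fun v : Fin m → R => ((m : ℝ) + 1) * s ≤ ∑ i, x (v i)) -
      pr (fun v : Fin m → R => 2 * ((m : ℝ) + 1) ^ 2 < |Qv m x s v - s|) ≤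
      pr (fun v : Fin m → R => 0 < Qv m x s v ∧
        |Qv m x s v - s| ≤ 2 * ((m : ℝ) + 1) ^ 2) := by
    have h6 := AS2_cover (fun v : Fin m → R => ((m : ℝ) + 1) * s ≤ ∑ i, x (v i))
      (fun v : Fin m → R => 2 * ((m : ℝ) + 1) ^ 2 < |Qv m x s v - s|)
      (fun v : Fin m → R => 0 < Qv m x s v ∧ |Qv m x s v - s| ≤ 2 * ((m : ℝ) + 1) ^ 2) (by
        intro v
        by_cases ha : ((m : ℝ) + 1) * s ≤ ∑ i, x (v i)
        · exact Or.inl ha
        · by_cases hb : 2 * ((m : ℝ) + 1) ^ 2 < |Qv m x s v - s|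
          · exact Or.inr (Or.inl hb)
          · refine Or.inr (Or.inr ⟨?_, not_lt.1 hb⟩)
            unfold Qv
            push Not at ha
            linarith)
    linarith
  have h6 : 1 / ((m : ℝ) + 1) = 1 / (2 * ((m : ℝ) + 1)) + 1 / (2 * ((m : ℝ) + 1)) := by
    field_simp
    ring
  linarith

/-- the mean of `BK K (Q v)` vanishes (Stein) -/
theorem AS2_stein (m : ℕ) (x : R → ℝ) (s : ℝ) (K : ℝ → ℝ) :
    mn (fun v : Fin m → R => BK m x s K (Qv m x s v)) = 0 := by
  have h := stein m x (fun S => K (((m : ℝ) + 1) * s - S))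
  rw [← h]
  congr 1
  funext v
  unfold BK Qv
  congr 1
  funext r
  congr 1
  · ring
  · congr 1; ring

theorem AS2_Fq (m : ℕ) (x : R → ℝ) (s d y : ℝ) :
    mn (fun v : Fin m → R => Fq x s d y (Qv m x s v)) =
      y * pr (fun v : Fin m → R => -d < Qv m x s v) + d * pr (fun v : Fin m → R => y < Qv m x s v)
      - (y + d) * mn (fun v : Fin m → R => pr (fun r => 1 + d + s + Qv m x s v ≤ x r)) := by
  classical
  unfold Fq
  rw [mn_sub, mn_add, mn_mul_left]
  congr 2
  · unfold pr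
    rw [← mn_mul_left]
    congr 1
    funext v
    by_cases h : -d < Qv m x s v <;> simp [h]
  · unfold pr
    rw [← mn_mul_left]
    congr 1
    funext v
    by_cases h : y < Qv m x s v <;> simp [h]

/-- (TP) with slack. `c4` from `Bplus_slack` with `ρ = 2 (m+1)^2`. For `q` in the event `E = {0 < q, |q - s| ≤ ρ}`:
if `q ≤ y` then by `cert_mid`, `Fq_of_lt` (`Fq = y`)
`Fq q - BK q ≥ (c4 y + d g(-d) s)/(1 + d g(-d))` (`q - s ≤ y - s`), if `q > y` then by `cert_high` `≥ (y + d) c4`.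
As `g (-d) ≥ g lam 0 ≥ g ((m+1)^2) 0 =: gmin > 0` (`g_anti_lam`, `lam ≤ (m+1) m ≤ (m+1)^2`),
`d g(-d) ≤ Δ * g c1 (-Δ) =: G` (`g_anti`, `g_anti_lam`, `d ≤ Δ`), `s ≥ κ`:
both are `≥ c5 (y + d)` with `c5 = min c4 (κ gmin) / (1 + G)`. Everywhere `BK ≤ Fq` (`cert`). So, as in `TP`,
`(y+d) v_d + c5 (y+d) P(E) ≤ y P(Q > -d) + d P(Q > y)`, `c6 = c5/(2(m+1))`. -/
theorem TP_slack (m : ℕ) (hm : 1 ≤ m) {c1 κ Δ : ℝ} (hc1 : 0 < c1) (hκ : 0 < κ) (hΔ : 0 ≤ Δ) :
    ∃ c6 : ℝ, 0 < c6 ∧ ∀ (R : Type) [Fintype R] [Nonempty R] (x : R → ℝ) (s w d y : ℝ),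
      Law x s w → s ≤ m → κ ≤ s → c1 ≤ ((m : ℝ) + 1) * w → 0 ≤ d → d ≤ Δ → 0 < y →
      (y + d) * (mn (fun v : Fin m → R => pr (fun r => 1 + d + s + Qv m x s v ≤ x r)) + c6) ≤
        y * pr (fun v : Fin m → R => -d < Qv m x s v) + d * pr (fun v : Fin m → R => y < Qv m x s v) := by
  classical
  have hm1 : (0 : ℝ) < (m : ℝ) + 1 := by positivity
  obtain ⟨c4, hc4, hB⟩ := Bplus_slack m (c1 := c1) (ρ := 2 * ((m : ℝ) + 1) ^ 2) hc1
    (by positivity)
  set gmin := g (((m : ℝ) + 1) ^ 2) 0 with hgmin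
  have hgminpos : 0 < gmin := g_pos (by positivity) 0
  set G := Δ * g c1 (-Δ) with hG
  have hG0 : 0 ≤ G := mul_nonneg hΔ (g_pos hc1 _).le
  set c5 := min c4 (κ * gmin) / (1 + G) with hc5
  have hminpos : 0 < min c4 (κ * gmin) := lt_min hc4 (by positivity)
  have hc5pos : 0 < c5 := by positivity
  refine ⟨c5 * (1 / (2 * ((m : ℝ) + 1))), by positivity, ?_⟩
  intro R _ _ x s w d y L hs hκs hw1 hd hdΔ hy
  have hw := L.wpos
  have hws := L.w_le
  have hl : 0 < ((m : ℝ) + 1) * w := by positivity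
  have hE := event_prob L hm hs
  set lam := ((m : ℝ) + 1) * w with hlam
  have hlam2 : lam ≤ ((m : ℝ) + 1) ^ 2 := by
    rw [hlam, sq]
    apply mul_le_mul_of_nonneg_left _ hm1.le
    linarith
  have hgd : gmin ≤ g lam (-d) :=
    le_trans (g_anti_lam 0 hl hlam2) (g_anti hl (by linarith))
  have hgd0 : 0 < g lam (-d) := g_pos hl _
  have hdg0 : 0 ≤ d * g lam (-d) := by positivity
  have hdg1 : d * gmin ≤ d * g lam (-d) := mul_le_mul_of_nonneg_left hgd hd
  have hdg2 : d * g lam (-d) ≤ G := by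
    have h1 : g lam (-d) ≤ g lam (-Δ) := g_anti hl (by linarith)
    have h2 : g lam (-Δ) ≤ g c1 (-Δ) := g_anti_lam _ hc1 hw1
    rw [hG]
    exact mul_le_mul hdΔ (h1.trans h2) hgd0.le hΔ
  have hc5G : c5 * (1 + G) = min c4 (κ * gmin) := by
    rw [hc5]; field_simp
  have hc5c4 : c5 ≤ c4 := by
    have h1 : c5 * (1 + G) ≤ c4 := by rw [hc5G]; exact min_le_left _ _
    nlinarith [mul_nonneg hc5pos.le hG0]
  have hpt : ∀ v : Fin m → R, BK m x s (Khat m s lam d y) (Qv m x s v) +
      (c5 * (y + d)) * (if (0 < Qv m x s v ∧ |Qv m x s v - s| ≤ 2 * ((m : ℝ) + 1) ^ 2) then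
        (1 : ℝ) else 0) ≤ Fq x s d y (Qv m x s v) := by
    intro v
    have hQle : Qv m x s v ≤ ((m : ℝ) + 1) * s := by
      unfold Qv
      have : 0 ≤ ∑ i, x (v i) := Finset.sum_nonneg fun i _ => L.nonneg _
      linarith
    set q := Qv m x s v with hq
    split_ifs with hev
    · obtain ⟨hq0, hqρ⟩ := hev
      have hbg := hB R x s w q L hs hw1 hqρ
      have hF := Fq_of_lt L (y := y) (q := q) (δ := d) (by linarith)
      rw [hF]
      by_cases hqy : y < q
      · rw [if_pos hqy]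
        have h1 := cert_high L hm hd hy hqy hQle
        have h2 : (y + d) * bg m x s w q ≤ (y + d) * (1 - c4) :=
          mul_le_mul_of_nonneg_left hbg (by linarith)
        have h3 : c5 * (y + d) ≤ c4 * (y + d) := mul_le_mul_of_nonneg_right hc5c4 (by linarith)
        linarith
      · rw [if_neg hqy]
        push Not at hqy
        have h1 := cert_mid L hm hd hy (by linarith : -d < q) hqy
        rw [← hlam] at h1
        set dg := d * g lam (-d) with hdg
        have h1g : 0 < 1 + dg := by linarith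
        have h2 : (y * bg m x s w q + dg * (q - s)) / (1 + dg) + c5 * (y + d) ≤ y := by
          rw [← sub_nonneg]
          have e : y - ((y * bg m x s w q + dg * (q - s)) / (1 + dg) + c5 * (y + d)) =
              (y * (1 + dg) - (y * bg m x s w q + dg * (q - s)) -
                c5 * (y + d) * (1 + dg)) / (1 + dg) := by
            field_simp
            ring
          rw [e]
          apply div_nonneg _ h1g.le
          have h3 : c5 * (1 + dg) ≤ min c4 (κ * gmin) := by
            rw [← hc5G]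
            apply mul_le_mul_of_nonneg_left _ hc5pos.le
            linarith
          have h4 : c5 * (1 + dg) * y ≤ c4 * y :=
            mul_le_mul_of_nonneg_right (h3.trans (min_le_left _ _)) hy.le
          have h5 : c5 * (1 + dg) * d ≤ κ * gmin * d :=
            mul_le_mul_of_nonneg_right (h3.trans (min_le_right _ _)) hd
          have h6 : κ * gmin * d ≤ κ * dg := by
            have := mul_le_mul_of_nonneg_left hdg1 hκ.le
            linarith
          have h7 : κ * dg ≤ s * dg := mul_le_mul_of_nonneg_right hκs hdg0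
          have h8 : y * bg m x s w q ≤ y * (1 - c4) := mul_le_mul_of_nonneg_left hbg hy.le
          have h9 : dg * q ≤ dg * y := mul_le_mul_of_nonneg_left hqy hdg0
          nlinarith
        linarith
    · rw [mul_zero, add_zero]
      exact cert L hm hd hy hQle
  have hmean := mn_le_mn hpt
  rw [mn_add, AS2_stein, mn_mul_left, AS2_Fq] at hmean
  have hpr : mn (fun v : Fin m → R => if (0 < Qv m x s v ∧
      |Qv m x s v - s| ≤ 2 * ((m : ℝ) + 1) ^ 2) then (1 : ℝ) else 0) =
      pr (fun v : Fin m → R => 0 < Qv m x s v ∧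
        |Qv m x s v - s| ≤ 2 * ((m : ℝ) + 1) ^ 2) := by
    unfold pr
    congr 1
    funext v
    by_cases h : (0 < Qv m x s v ∧ |Qv m x s v - s| ≤ 2 * ((m : ℝ) + 1) ^ 2) <;> simp [h]
  rw [hpr] at hmean
  have h1 : c5 * (y + d) * (1 / (2 * ((m : ℝ) + 1))) ≤ c5 * (y + d) *
      pr (fun v : Fin m → R => 0 < Qv m x s v ∧
        |Qv m x s v - s| ≤ 2 * ((m : ℝ) + 1) ^ 2) :=
    mul_le_mul_of_nonneg_left hE (by positivity)
  linarith

end Pool.Agent.Lib.H3MT
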