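import Pool.Agent.Lib.H3MT.AS2
import Pool.Agent.Lib.H3MT.AL3

/-! # H3MT, chunk AS3: stability of (L) and of the Feige inequality -/

open scoped Classical

namespace Pool.Agent.Lib.H3MT

section AS3aux

variable {R : Type} [Fintype R]

theorem AS3_pr_mono {P Q : R → Prop} (h : ∀ r, P r → Q r) : pr P ≤ pr Q := by
  unfold pr
  refine mn_le_mn fun r => ?_
  by_cases hP : P r
  · rw [if_pos hP, if_pos (h r hP)]
  · rw [if_neg hP]
    split_ifs <;> norm_num

theorem AS3_pr_nonneg (P : R → Prop) : 0 ≤ pr P := by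
  unfold pr
  exact mn_nonneg fun r => by split_ifs <;> norm_num

theorem AS3_pr_congr {P Q : R → Prop} (h : ∀ r, P r ↔ Q r) : pr P = pr Q := by
  have : P = Q := funext fun r => propext (h r)
  rw [this]

theorem AS3_pr_not [Nonempty R] (P : R → Prop) : pr (fun r => ¬ P r) = 1 - pr P := by
  have h : pr (fun r => ¬ P r) + pr P = 1 := by
    unfold pr
    rw [← mn_add]
    refine Eq.trans ?_ (mn_const (R := R) (1:ℝ))
    congr 1
    funext r
    by_cases hP : P r <;> simp [hP]
  linarith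

theorem AS3_pr_le_one [Nonempty R] (P : R → Prop) : pr P ≤ 1 := by
  have := AS3_pr_nonneg (fun r => ¬ P r)
  rw [AS3_pr_not] at this
  linarith

theorem AS3_markov {φ : R → ℝ} (hφ : ∀ r, 0 ≤ φ r) {c : ℝ} (hc : 0 < c) :
    pr (fun r => c ≤ φ r) ≤ mn φ / c := by
  have h : mn φ / c = mn (fun r => φ r * (1 / c)) := by
    rw [mn_mul_right]
    ring
  rw [h]
  unfold pr
  refine mn_le_mn fun r => ?_
  split_ifs with h1
  · rw [mul_one_div, le_div_iff₀ hc]
    linarith
  · exact mul_nonneg (hφ r) (by positivity)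

end AS3aux

/-- the lower bound for `uT` in case (i) -/
theorem AS3_uT_lower (m : ℕ) {κ : ℝ} (hκ : 0 < κ) {R S : Type} [Fintype R]
    [Nonempty R] [Fintype S] [Nonempty S] {x : R → ℝ} {B : S → ℝ} {s w : ℝ} (L : Law x s w)
    (hB : ∀ j, s + 1 ≤ B j) (hs : κ * (((m : ℝ) + 1) * s + mn B) ≤ s) (hspos : 0 < s)
    (hδ : κ * (mn B - (s + 1)) ≤ s) :
    κ / ((κ + 2) * (2 * m + 1)) ≤ uT m x B (((m : ℝ) + 1) * s + mn B) := by
  have hm0 : (0:ℝ) ≤ m := Nat.cast_nonneg m
  set δ := mn B - (s + 1) with hδdef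
  have hδ0 : 0 ≤ δ := by
    have : mn (fun _ : S => s + 1) ≤ mn B := mn_le_mn hB
    rw [mn_const] at this
    linarith
  -- smalls
  have h1 : 1 / (2 * (m:ℝ) + 1) ≤ pr (fun v : Fin m → R => s / 2 < Qv m x s v) := by
    have h2 := markov_sum (m := m) L.nonneg (c := ((m:ℝ) + 1 / 2) * s) (by positivity)
    have h3 : pr (fun v : Fin m → R => s / 2 < Qv m x s v) =
        1 - pr (fun v : Fin m → R => ((m:ℝ) + 1 / 2) * s ≤ ∑ i, x (v i)) := by
      rw [← AS3_pr_not]
      refine AS3_pr_congr fun v => ?_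
      unfold Qv
      rw [not_le]
      constructor <;> intro h <;> linarith
    rw [h3]
    rw [L.mean] at h2
    have h4 : (m:ℝ) * s / (((m:ℝ) + 1 / 2) * s) = 1 - 1 / (2 * (m:ℝ) + 1) := by
      field_simp
      ring
    rw [h4] at h2
    linarith
  -- the big one
  have h5 : κ / (κ + 2) ≤ pr (fun j => B j - mn B ≤ s / 2) := by
    have h6 := AS3_markov (φ := fun j => B j - mn B + δ) (fun j => by
      have := hB j
      linarith) (c := s / 2 + δ) (by positivity)
    have h7 : mn (fun j => B j - mn B + δ) = δ := by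
      rw [mn_add, mn_sub, mn_const, mn_const]
      ring
    rw [h7] at h6
    have h8 : 1 - pr (fun j => s / 2 + δ ≤ B j - mn B + δ) ≤ pr (fun j => B j - mn B ≤ s / 2) := by
      rw [← AS3_pr_not]
      refine AS3_pr_mono fun j hj => ?_
      rw [not_le] at hj
      linarith
    refine le_trans ?_ h8
    have h9 : κ / (κ + 2) ≤ 1 - δ / (s / 2 + δ) := by
      have h10 : 1 - δ / (s / 2 + δ) = (s / 2) / (s / 2 + δ) := by
        field_simp
        ring
      rw [h10, div_le_div_iff₀ (by positivity) (by positivity)]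
      nlinarith
    linarith
  -- together
  have h11 : pr (fun j => B j - mn B ≤ s / 2) * (1 / (2 * (m:ℝ) + 1)) ≤
      uT m x B (((m : ℝ) + 1) * s + mn B) := by
    unfold uT
    conv_lhs => unfold pr
    rw [← mn_mul_right]
    refine mn_le_mn fun j => ?_
    by_cases hj : B j - mn B ≤ s / 2
    · rw [if_pos hj, one_mul]
      refine h1.trans (AS3_pr_mono fun v hv => ?_)
      unfold Qv at hv
      linarith
    · rw [if_neg hj, zero_mul]
      exact AS3_pr_nonneg _
  refine le_trans ?_ h11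
  have h12 := mul_le_mul_of_nonneg_right h5 (by positivity : 0 ≤ 1 / (2 * (m:ℝ) + 1))
  refine le_trans (le_of_eq ?_) h12
  field_simp

/-- crude Chebyshev for `vT` -/
theorem AS3_vT_cheb (m : ℕ) {R S : Type} [Fintype R]
    [Nonempty R] [Fintype S] [Nonempty S] {x : R → ℝ} {B : S → ℝ} {s w : ℝ} (L : Law x s w)
    (hB : 1 ≤ mn B) :
    vT m x (((m : ℝ) + 1) * s + mn B) ≤ 9 * (((m : ℝ) + 1) * w) := by
  have h1 := cheb_Q L (m := m) (ρ := 1 / 3) (by norm_num)
  have h2 : pr (fun r => 1 / 3 < |x r - s|) ≤ 9 * w := by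
    have h3 := AS3_markov (φ := fun r => (x r - s) ^ 2) (fun r => sq_nonneg _) (c := 1 / 9)
      (by norm_num)
    rw [L.var] at h3
    refine (AS3_pr_mono fun r hr => ?_).trans (h3.trans (le_of_eq (by ring)))
    have : (1 / 3 : ℝ) ^ 2 ≤ |x r - s| ^ 2 := by
      gcongr
    rw [sq_abs] at this
    linarith
  have h4 : vT m x (((m : ℝ) + 1) * s + mn B) ≤
      pr (fun v : Fin m → R => 1 / 3 < |Qv m x s v - s|) + pr (fun r => 1 / 3 < |x r - s|) := by
    unfold vT
    have h5 : pr (fun v : Fin m → R => 1 / 3 < |Qv m x s v - s|) + pr (fun r => 1 / 3 < |x r - s|) =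
        mn (fun v : Fin m → R => (if 1 / 3 < |Qv m x s v - s| then (1:ℝ) else 0) +
          pr (fun r => 1 / 3 < |x r - s|)) := by
      rw [mn_add, mn_const]
      rfl
    rw [h5]
    refine mn_le_mn fun v => ?_
    by_cases hv : 1 / 3 < |Qv m x s v - s|
    · rw [if_pos hv]
      linarith [AS3_pr_le_one (fun r => ((m : ℝ) + 1) * s + mn B ≤ ∑ i, x (v i) + x r),
        AS3_pr_nonneg (fun r => 1 / 3 < |x r - s|)]
    · rw [if_neg hv, zero_add]
      refine AS3_pr_mono fun r hr => ?_
      rw [not_lt] at hv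
      have h6 := neg_abs_le (Qv m x s v - s)
      have h7 : Qv m x s v - s = m * s - ∑ i, x (v i) := by
        unfold Qv
        ring
      have h8 := le_abs_self (x r - s)
      rw [h7] at h6 hv
      linarith
  have h9 : (m:ℝ) * w / (1 / 3) ^ 2 = 9 * (m * w) := by ring
  rw [h9] at h1
  linarith

/-- Normalised. `T = (m+1) s + mn B = (m+2) s + 1 + δ`, `s ≥ κ T` (so `κ ≤ κ T ≤ s`, `δ ≤ s/κ`).
(i) `c1 := κ/(2 (κ+2) (2m+1))`. `P(Q > s/2) ≥ 1 - m s/((m+1/2) s) = 1/(2m+1)` (`markov_sum`), and for the fraction of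
`j` with `C j = B j - mn B ≤ s/2`: `C j + δ ≥ 0` has mean `δ`, so it is `≥ 1 - δ/(s/2+δ) ≥ κ/(κ+2)`; so
`uT ≥ κ/((κ+2)(2m+1)) = 2 c1` (if `C j ≤ s/2 < Q v` then `C j < Q v`). If `vT ≤ c1` then `vT + c1 ≤ uT`.
(ii) `vT > c1 > 0`: some `(v, r)` has `∑ x + x r ≥ T`, so `(m+1)(s+1) ≥ (m+2) s + 1`, `s ≤ m`. Chebyshev for the sum of the
`m+1` variables `x - s` (variance `(m+1) w`), deviation `≥ T - (m+1) s ≥ 1`: `c1 < vT ≤ (m+1) w`.
`δ ≤ s/κ ≤ m/κ =: Δ`. `TP_slack` (with `κ`) and `two_point` as in `L_norm`, with `v = vT + c6`. -/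
theorem L_norm_stab (m : ℕ) (hm : 1 ≤ m) {κ : ℝ} (hκ : 0 < κ) : ∃ c : ℝ, 0 < c ∧
    ∀ (R S : Type) [Fintype R] [Nonempty R] [Fintype S] [Nonempty S] (x : R → ℝ) (B : S → ℝ)
      (s w : ℝ), Law x s w → (∀ j, s + 1 ≤ B j) → κ * (((m : ℝ) + 1) * s + mn B) ≤ s →
      vT m x (((m : ℝ) + 1) * s + mn B) + c ≤ uT m x B (((m : ℝ) + 1) * s + mn B) := by
  have hm0 : (0:ℝ) ≤ m := Nat.cast_nonneg m
  set c1 : ℝ := κ / ((κ + 2) * (2 * m + 1)) / 2 with hc1def
  have hc1 : 0 < c1 := by positivity
  obtain ⟨c6, hc6, hTP⟩ := TP_slack m hm (c1 := c1 / 9) (κ := κ) (Δ := m / κ) (by positivity) hκ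
    (by positivity)
  refine ⟨min c1 c6, lt_min hc1 hc6, ?_⟩
  intro R S _ _ _ _ x B s w L hB hs
  have hs0 : 0 ≤ s := by
    rw [← L.mean]
    exact mn_nonneg L.nonneg
  have hBm : s + 1 ≤ mn B := by
    have : mn (fun _ : S => s + 1) ≤ mn B := mn_le_mn hB
    rwa [mn_const] at this
  have hsκ : κ ≤ s := by nlinarith [mul_nonneg hm0 hs0]
  have hspos : 0 < s := by linarith
  have hδ : κ * (mn B - (s + 1)) ≤ s := by nlinarith [mul_nonneg hm0 hs0]
  have hlow := AS3_uT_lower m hκ L hB hs hspos hδ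
  set T := ((m : ℝ) + 1) * s + mn B with hT
  by_cases hcase : vT m x T ≤ c1
  · have h1 : min c1 c6 ≤ c1 := min_le_left _ _
    have h2 : c1 + c1 ≤ uT m x B T := by
      refine le_trans (le_of_eq ?_) hlow
      rw [hc1def]
      ring
    linarith
  · push Not at hcase
    -- s ≤ m
    have hsm : s ≤ m := by
      by_contra hcon
      push Not at hcon
      have : vT m x T = 0 := by
        unfold vT
        have h1 : ∀ v : Fin m → R, pr (fun r => T ≤ ∑ i, x (v i) + x r) = 0 := by
          intro v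
          unfold pr
          have h2 : ∀ r, ¬ (T ≤ ∑ i, x (v i) + x r) := by
            intro r
            rw [not_le]
            have h3 : ∑ i, x (v i) ≤ m * (s + 1) := by
              have : ∑ i, x (v i) ≤ ∑ _i : Fin m, (s + 1) := Finset.sum_le_sum fun i _ => L.le _
              rwa [Finset.sum_const, Finset.card_univ, Fintype.card_fin, nsmul_eq_mul] at this
            have h4 := L.le r
            rw [hT]
            linarith
          simp only [h2, if_false]
          exact mn_const 0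
        simp only [h1]
        exact mn_const 0
      linarith
    have hw : c1 / 9 ≤ ((m : ℝ) + 1) * w := by
      have := AS3_vT_cheb m L (B := B) (by linarith)
      rw [← hT] at this
      linarith
    have h1 := two_point (S := S) (C := fun j => B j - mn B) (δ := mn B - (s + 1))
      (v := vT m x T + c6) (H := fun c => pr (fun v : Fin m → R => c < Qv m x s v))
      (by linarith) (by rw [mn_sub, mn_const]; ring)
      (fun j => by
        have := hB j
        linarith) (by
        intro d y hd hdδ hy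
        have hdΔ : d ≤ m / κ := by
          rw [le_div_iff₀ hκ]
          nlinarith
        refine le_trans ?_ (hTP R x s w d y L hsm hsκ hw hd hdΔ hy)
        refine mul_le_mul_of_nonneg_left ?_ (by linarith)
        gcongr
        unfold vT
        refine mn_le_mn fun v => AS3_pr_mono fun r hr => ?_
        unfold Qv
        rw [hT] at hr
        linarith)
    have h2 : mn (fun j => pr (fun v : Fin m → R => B j - mn B < Qv m x s v)) = uT m x B T := by
      unfold uT
      congr 1
      funext j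
      refine AS3_pr_congr fun v => ?_
      unfold Qv
      rw [hT]
      constructor <;> intro h <;> linarith
    rw [h2] at h1
    have h3 : min c1 c6 ≤ c6 := min_le_right _ _
    linarith

/-- As `L_gen`, with `T₀ = (m+1) mn x + mn B ≤ T`, `κ T₀ ≤ κ T ≤ mn x`, `T₀ > 0` (`mn x > 0`). If the variance is `0`:
`vT m x T₀ = 0` and `uT m x B T₀ = P(B j < mn x + mn B) ≥ mn x/(mn x + mn B) ≥ mn x / T₀ ≥ κ` (Markov). Otherwise
`L_norm_stab` after scaling. `c := min` of the two constants. -/
theorem L_gen_stab (m : ℕ) (hm : 1 ≤ m) {κ : ℝ} (hκ : 0 < κ) : ∃ c : ℝ, 0 < c ∧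
    ∀ (R S : Type) [Fintype R] [Nonempty R] [Fintype S] [Nonempty S] (x : R → ℝ) (B : S → ℝ)
      (τ T : ℝ), (∀ r, 0 ≤ x r) → (∀ r, x r ≤ τ) → (∀ j, τ ≤ B j) → 0 < T →
      ((m : ℝ) + 1) * mn x + mn B ≤ T → κ * T ≤ mn x → vT m x T + c ≤ uT m x B T := by
  obtain ⟨c, hc, hL⟩ := L_norm_stab m hm hκ
  have hm0 : (0:ℝ) ≤ m := Nat.cast_nonneg m
  refine ⟨min c κ, lt_min hc hκ, ?_⟩
  intro R S _ _ _ _ x B τ T hx hτ hB hT hT' hκT
  set T₀ := ((m : ℝ) + 1) * mn x + mn B with hT₀
  have hxpos : 0 < mn x := lt_of_lt_of_le (by positivity) hκT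
  have hxτ : mn x ≤ τ := by
    have : mn x ≤ mn (fun _ : R => τ) := mn_le_mn hτ
    rwa [mn_const] at this
  have hτB : τ ≤ mn B := by
    have : mn (fun _ : S => τ) ≤ mn B := mn_le_mn hB
    rwa [mn_const] at this
  have hT₀pos : 0 < T₀ := by
    have := mul_nonneg hm0 hxpos.le
    rw [hT₀]
    linarith
  have hκT₀ : κ * T₀ ≤ mn x := (mul_le_mul_of_nonneg_left hT' hκ.le).trans hκT
  have h1 := vT_anti m x hT'
  have h2 := uT_mono m x B hT'
  suffices hmain : vT m x T₀ + min c κ ≤ uT m x B T₀ by linarith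
  by_cases hv : mn (fun r => (x r - mn x) ^ 2) = 0
  · have hconst := const_of_var hv
    have h3 : vT m x T₀ = 0 := by
      unfold vT
      have h4 : ∀ v : Fin m → R, pr (fun r => T₀ ≤ ∑ i, x (v i) + x r) = 0 := by
        intro v
        unfold pr
        have h5 : ∀ r, ¬ (T₀ ≤ ∑ i, x (v i) + x r) := by
          intro r
          rw [not_le, hconst r, Finset.sum_congr rfl (fun i _ => hconst (v i)), Finset.sum_const,
            Finset.card_univ, Fintype.card_fin, nsmul_eq_mul, hT₀]
          linarith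
        simp only [h5, if_false]
        exact mn_const 0
      simp only [h4]
      exact mn_const 0
    have h6 : κ ≤ uT m x B T₀ := by
      have hB0 : ∀ j, 0 ≤ B j := fun j => by linarith [hB j]
      have h7 := AS3_markov hB0 (c := mn x + mn B) (by linarith)
      have h8 : uT m x B T₀ = 1 - pr (fun j => mn x + mn B ≤ B j) := by
        rw [← AS3_pr_not]
        unfold uT
        conv_rhs => unfold pr
        congr 1
        funext j
        by_cases hj : ¬ (mn x + mn B ≤ B j)
        · rw [if_pos hj]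
          rw [not_le] at hj
          unfold pr
          have h9 : ∀ v : Fin m → R, ∑ i, x (v i) + B j < T₀ := by
            intro v
            rw [Finset.sum_congr rfl (fun i _ => hconst (v i)), Finset.sum_const,
              Finset.card_univ, Fintype.card_fin, nsmul_eq_mul, hT₀]
            linarith
          simp only [h9, if_true]
          exact mn_const 1
        · rw [if_neg hj]
          rw [not_not] at hj
          unfold pr
          have h9 : ∀ v : Fin m → R, ¬ (∑ i, x (v i) + B j < T₀) := by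
            intro v
            rw [Finset.sum_congr rfl (fun i _ => hconst (v i)), Finset.sum_const,
              Finset.card_univ, Fintype.card_fin, nsmul_eq_mul, hT₀, not_lt]
            linarith
          simp only [h9, if_false]
          exact mn_const 0
      rw [h8]
      have h10 : mn B / (mn x + mn B) = 1 - mn x / (mn x + mn B) := by
        have : mn x + mn B ≠ 0 := by linarith
        field_simp
        ring
      have h11 : κ ≤ mn x / (mn x + mn B) := by
        rw [le_div_iff₀ (by linarith)]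
        refine le_trans ?_ hκT₀
        refine mul_le_mul_of_nonneg_left ?_ hκ.le
        have := mul_nonneg hm0 hxpos.le
        rw [hT₀]
        linarith
      linarith
    have h12 : min c κ ≤ κ := min_le_right _ _
    linarith
  · obtain ⟨hu, hlaw⟩ := law_of_scale hx hτ hv
    set u := τ - mn x with hudef
    have hB' : ∀ j, mn x / u + 1 ≤ B j / u := by
      intro j
      rw [le_div_iff₀ hu, add_mul, div_mul_cancel₀ _ hu.ne', one_mul]
      linarith [hB j]
    have hmB : mn (fun j => B j / u) = mn B / u := by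
      have : (fun j => B j / u) = fun j => B j * (1 / u) := by
        funext j
        ring
      rw [this, mn_mul_right]
      ring
    have hTu : ((m : ℝ) + 1) * (mn x / u) + mn (fun j => B j / u) = T₀ / u := by
      rw [hmB, hT₀]
      ring
    have h3 := hL R S (fun r => x r / u) (fun j => B j / u) (mn x / u)
      (mn (fun r => (x r - mn x) ^ 2) / u ^ 2) hlaw hB' (by
        rw [hTu, le_div_iff₀ hu]
        refine le_trans (le_of_eq ?_) hκT₀
        field_simp)
    rw [hTu, vT_scale m x T₀ hu, uT_scale m x B T₀ hu] at h3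
    have h12 : min c κ ≤ c := min_le_left _ _
    linarith

/-- Stability of `feige`: same proof with `L_gen_stab`; `mn X_R = (∑_{v ∉ S} X v)/((m+1) M) ≥
κ (m+2) M/((m+1) M) ≥ κ`, so `mn X_R ≥ (κ/(m+2)) T`, `T = m + 2`; `η := c ((m+1)/(m+2))^(m+1)`. -/
theorem feige_stab (m : ℕ) (hm : 1 ≤ m) {κ : ℝ} (hκ : 0 < κ) : ∃ η : ℝ, 0 < η ∧
    ∀ (V : Type) [Fintype V] (M : ℕ) (X : V → ℝ) (S : Finset V), 1 ≤ M → (∀ v, 0 ≤ X v) →
      Fintype.card V = (m + 2) * M → ∑ v, X v ≤ Fintype.card V → S.card = M →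
      (∀ v ∈ S, ∀ u ∉ S, X u ≤ X v) →
      κ * Fintype.card V ≤ ∑ v : {v // v ∉ S}, X v →
      (((m : ℝ) + 1) * M) ^ (m + 1) + η * (Fintype.card V : ℝ) ^ (m + 1) ≤
        (cnt m X ((m : ℝ) + 2) : ℝ) := by
  have hm0 : (0:ℝ) ≤ m := Nat.cast_nonneg m
  obtain ⟨c, hc, hL⟩ := L_gen_stab m hm (κ := κ / (m + 2)) (by positivity)
  refine ⟨c * (((m:ℝ) + 1) / (m + 2)) ^ (m + 1), by positivity, ?_⟩
  intro V _ M X S hM hX hV hsum hS htop hκS
  have hMR : (1:ℝ) ≤ M := by exact_mod_cast hM
  have hcR : Fintype.card {v // v ∉ S} = (m + 1) * M := by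
    have h1 : Fintype.card {v // v ∉ S} = Fintype.card V - S.card := by
      rw [Fintype.card_subtype_compl]
      simp
    rw [h1, hV, hS]
    have : (m + 2) * M = (m + 1) * M + M := by ring
    omega
  have hcR' : (Fintype.card {v // v ∉ S} : ℝ) = ((m:ℝ) + 1) * M := by
    rw [hcR]
    push_cast
    ring
  have hcS : Fintype.card {v // v ∈ S} = M := by
    rw [← hS]
    simp
  have : Nonempty {v // v ∉ S} := by
    rw [← Fintype.card_pos_iff, hcR]
    positivity
  have : Nonempty {v // v ∈ S} := by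
    rw [← Fintype.card_pos_iff, hcS]
    omega
  obtain ⟨v0, hv0⟩ := Finite.exists_max (fun r : {v // v ∉ S} => X r)
  have hsplit : ∑ v : {v // v ∉ S}, X v + ∑ v : {v // v ∈ S}, X v = ∑ v, X v := by
    rw [add_comm, ← Fintype.sum_subtype_add_sum_subtype (fun v => v ∈ S) X]
    congr 1
    exact Finset.sum_congr (by ext; simp) fun _ _ => rfl
  have hmR : mn (fun r : {v // v ∉ S} => X r) = (∑ v : {v // v ∉ S}, X v) / (((m:ℝ) + 1) * M) := by
    unfold mn
    rw [hcR']
  have hmS : mn (fun r : {v // v ∈ S} => X r) = (∑ v : {v // v ∈ S}, X v) / M := by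
    unfold mn
    rw [hcS]
  have hVR : (Fintype.card V : ℝ) = ((m:ℝ) + 2) * M := by
    rw [hV]
    push_cast
    ring
  have h1 := hL {v // v ∉ S} {v // v ∈ S} (fun r => X r) (fun j => X j) (X v0) ((m:ℝ) + 2)
    (fun r => hX r) hv0 (fun j => htop j j.2 v0 v0.2) (by positivity) (by
      rw [hmR, hmS]
      have : ((m:ℝ) + 1) * ((∑ v : {v // v ∉ S}, X v) / (((m:ℝ) + 1) * M)) +
          (∑ v : {v // v ∈ S}, X v) / M = (∑ v, X v) / M := by
        rw [← hsplit]
        field_simp
      rw [this, div_le_iff₀ (by linarith), ← hVR]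
      exact hsum) (by
      rw [hmR, le_div_iff₀ (by positivity)]
      rw [hVR] at hκS
      refine le_trans ?_ hκS
      have : κ / (m + 2) * ((m:ℝ) + 2) = κ := by field_simp
      rw [this]
      have h2 : κ * (((m:ℝ) + 2) * M) = κ * (((m:ℝ) + 1) * M) + κ * M := by ring
      rw [h2]
      have : 0 < κ * M := by positivity
      linarith)
  have h2 := cnt_ge m X ((m:ℝ) + 2) S
  rw [hcR', hS] at h2
  have h3 : (((m:ℝ) + 1) * M) ^ (m + 1) * (1 - vT m (fun r : {v // v ∉ S} => X r) ((m:ℝ) + 2))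
      + ((m : ℝ) + 1) * (((m:ℝ) + 1) * M) ^ m * M *
        uT m (fun r : {v // v ∉ S} => X r) (fun j : {v // v ∈ S} => X j) ((m:ℝ) + 2) =
      (((m:ℝ) + 1) * M) ^ (m + 1) * (1 - vT m (fun r : {v // v ∉ S} => X r) ((m:ℝ) + 2) +
        uT m (fun r : {v // v ∉ S} => X r) (fun j : {v // v ∈ S} => X j) ((m:ℝ) + 2)) := by
    ring
  rw [h3] at h2
  refine le_trans ?_ h2
  have h4 : c * (((m:ℝ) + 1) / (m + 2)) ^ (m + 1) * (Fintype.card V : ℝ) ^ (m + 1) =
      (((m:ℝ) + 1) * M) ^ (m + 1) * c := by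
    rw [mul_assoc, ← mul_pow, hVR]
    have : ((m:ℝ) + 1) / (m + 2) * (((m:ℝ) + 2) * M) = ((m:ℝ) + 1) * M := by
      field_simp
    rw [this]
    ring
  rw [h4]
  have h5 : (((m:ℝ) + 1) * M) ^ (m + 1) + (((m:ℝ) + 1) * M) ^ (m + 1) * c =
      (((m:ℝ) + 1) * M) ^ (m + 1) * (1 + c) := by ring
  rw [h5]
  refine mul_le_mul_of_nonneg_left ?_ (by positivity)
  linarith

end Pool.Agent.Lib.H3MT
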