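import Mathlib

/-!
# H3MT: the exact vertex-degree threshold for perfect matchings in `k`-uniform hypergraphs

Common definitions and the exact statements of the parts (see `PROOF.md`).
A `k`-uniform hypergraph on `V` is `H : Finset (Finset V)` with all members of cardinality `k`.
-/

namespace Pool.Agent.Lib.H3MT

variable {V : Type*}

/-- all members of `H` have cardinality `k` -/
def Uniform (k : ℕ) (H : Finset (Finset V)) : Prop := ∀ e ∈ H, e.card = k

/-- the vertex degree -/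
def deg [DecidableEq V] (H : Finset (Finset V)) (v : V) : ℕ := (H.filter (fun e => v ∈ e)).card

/-- pairwise disjoint edges -/
def IsMatching (M : Finset (Finset V)) : Prop := (M : Set (Finset V)).PairwiseDisjoint id

/-- `H` contains a perfect matching -/
def HasPM [Fintype V] [DecidableEq V] (H : Finset (Finset V)) : Prop :=
  ∃ M ⊆ H, IsMatching M ∧ M.biUnion id = Finset.univ

/-- the threshold: the least `d` such that every `k`-uniform hypergraph on `n` vertices with minimum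
vertex degree at least `d` has a perfect matching -/
noncomputable def m1 (k n : ℕ) : ℕ :=
  sInf {d : ℕ | ∀ H : Finset (Finset (Fin n)), Uniform k H → (∀ v, d ≤ deg H v) → HasPM H}

/-- the conjectured threshold minus one: the degree of a vertex outside `S` in the hypergraph of all
`k`-sets meeting a set `S` with `n / k - 1` elements -/
def d0 (k n : ℕ) : ℕ := (n - 1).choose (k - 1) - (n - n / k).choose (k - 1)

/-- the asymptotic threshold `1 - (1 - 1/k)^(k-1)` -/
noncomputable def ck (k : ℕ) : ℝ := 1 - (1 - 1 / (k : ℝ)) ^ (k - 1)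

/-- `H` is `ε`-extremal: some set `S` of exactly `|V| / k` vertices is disjoint from at most
`ε |V|^k` edges -/
def Extremal [Fintype V] [DecidableEq V] (k : ℕ) (ε : ℝ) (H : Finset (Finset V)) : Prop :=
  ∃ S : Finset V, S.card = Fintype.card V / k ∧
    ((H.filter (fun e => Disjoint e S)).card : ℝ) ≤ ε * (Fintype.card V : ℝ) ^ k

/-- a fractional matching `w` on `H`, spread: all weights at most `C / |V|^(k-1)` -/
structure IsSpread [Fintype V] [DecidableEq V] (k : ℕ) (C : ℝ) (H : Finset (Finset V))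
    (w : Finset V → ℝ) : Prop where
  nonneg : ∀ e ∈ H, 0 ≤ w e
  le : ∀ e ∈ H, w e ≤ C / (Fintype.card V : ℝ) ^ (k - 1)
  load : ∀ v, ∑ e ∈ H with v ∈ e, w e ≤ 1

/-- (B3) ROUNDING: a spread fractional matching gives an integral one of almost the same size. -/
def StatementB3 : Prop :=
  ∀ (k : ℕ) (C ε : ℝ), 2 ≤ k → 0 < ε → ∃ N₀ : ℕ, ∀ (V : Type) [Fintype V] [DecidableEq V]
    (H : Finset (Finset V)) (w : Finset V → ℝ), N₀ ≤ Fintype.card V → Uniform k H →
    IsSpread k C H w →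
    ∃ M ⊆ H, IsMatching M ∧ ∑ e ∈ H, w e - ε * Fintype.card V ≤ (M.card : ℝ)

/-- (B4) ABSORBING (Hàn-Person-Schacht): vertex degree above one half. -/
def StatementB4 : Prop :=
  ∀ (k : ℕ) (γ μ : ℝ), 2 ≤ k → 0 < γ → 0 < μ → ∃ μ' : ℝ, 0 < μ' ∧ ∃ N₀ : ℕ,
    ∀ (V : Type) [Fintype V] [DecidableEq V] (H : Finset (Finset V)),
    N₀ ≤ Fintype.card V → Uniform k H →
    (∀ v, (1 / 2 + γ) * ((Fintype.card V - 1).choose (k - 1) : ℝ) ≤ deg H v) →
    ∃ M ⊆ H, IsMatching M ∧ ((M.biUnion id).card : ℝ) ≤ μ * Fintype.card V ∧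
      ∀ W : Finset V, Disjoint W (M.biUnion id) → (W.card : ℝ) ≤ μ' * Fintype.card V →
        k ∣ W.card → ∃ M' ⊆ H, IsMatching M' ∧ M'.biUnion id = M.biUnion id ∪ W

/-- (B5) EXTREMAL CASE. -/
def StatementB5 : Prop :=
  ∀ k : ℕ, 3 ≤ k → ∃ ε : ℝ, 0 < ε ∧ ∃ N₀ : ℕ,
    ∀ (V : Type) [Fintype V] [DecidableEq V] (H : Finset (Finset V)),
    N₀ ≤ Fintype.card V → k ∣ Fintype.card V → Uniform k H →
    (∀ v, d0 k (Fintype.card V) + 1 ≤ deg H v) → Extremal k ε H → HasPM H

/-- (B2) NON-EXTREMAL CASE: a nearly perfect spread fractional matching. -/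
def StatementB2 : Prop :=
  ∀ (k : ℕ) (ε₀ : ℝ), 3 ≤ k → 0 < ε₀ → ∃ η : ℝ, 0 < η ∧ ∀ ε : ℝ, 0 < ε → ∃ C : ℝ, ∃ N₀ : ℕ,
    ∀ (V : Type) [Fintype V] [DecidableEq V] (H : Finset (Finset V)),
    N₀ ≤ Fintype.card V → k ∣ Fintype.card V → Uniform k H →
    (∀ v, (ck k - η) * ((Fintype.card V - 1).choose (k - 1) : ℝ) ≤ deg H v) →
    ¬ Extremal k ε₀ H →
    ∃ w : Finset V → ℝ, IsSpread k C H w ∧
      (1 - ε) * (Fintype.card V : ℝ) / k ≤ ∑ e ∈ H, w e

/-- the final statement: the exact threshold -/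
def StatementMain : Prop :=
  ∀ k : ℕ, 3 ≤ k → ∃ N₀ : ℕ, ∀ n : ℕ, N₀ ≤ n → k ∣ n → m1 k n = d0 k n + 1

end Pool.Agent.Lib.H3MT
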