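import Mathlib
import Pool.Agent.Lib.H3MT.Defs

/-!
# H3MT, part B4 (absorbing lemma): definitions

`V` is a finite set of vertices, `H : Finset (Finset V)` a hypergraph (`Uniform`, `deg`, `IsMatching` are
in `Defs.lean`). `PM H S`: the set `S` is the
union of pairwise disjoint edges of `H`. `deg H v`: number of edges through `v`.
`link r H v`: the `r`-tuples of distinct vertices which together with `v` form an edge
(`r = k - 1`). An absorber is a family `a : Option (Fin r) × Fin r → V`, i.e. a first row
`u_j = a (none, j)` and further rows `a (some j, ·)`.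
-/

open Finset

namespace Pool.Agent.Lib.H3MT.AB

variable {V : Type*} [Fintype V] [DecidableEq V]

/-- `S` is the union of pairwise disjoint edges of `H`. -/
def PM (H : Finset (Finset V)) (S : Finset V) : Prop :=
  ∃ M ⊆ H, IsMatching M ∧ M.biUnion id = S

/-- The set of values of a tuple. -/
def img {ι : Type*} [Fintype ι] (a : ι → V) : Finset V := univ.image a

/-- The ordered link of `v`: tuples of distinct vertices which together with `v` form an edge. -/
def link (r : ℕ) (H : Finset (Finset V)) (v : V) : Finset (Fin r → V) :=
  univ.filter fun x => Function.Injective x ∧ v ∉ img x ∧ insert v (img x) ∈ H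

/-- Index set of absorbers: the row `none` and the rows `some j`. -/
abbrev Idx (r : ℕ) := Option (Fin r) × Fin r

/-- `a` absorbs the `r + 1` vertices `t0`, `t 0`, ..., `t (r-1)`. -/
def Absorbs (r : ℕ) (H : Finset (Finset V)) (t0 : V) (t : Fin r → V) (a : Idx r → V) : Prop :=
  Function.Injective a ∧ t0 ∉ img a ∧ (∀ j, t j ∉ img a) ∧
  (fun j => a (none, j)) ∈ link r H t0 ∧
  ∀ j, (fun i => a (some j, i)) ∈ link r H (a (none, j)) ∧
    (fun i => a (some j, i)) ∈ link r H (t j)

end Pool.Agent.Lib.H3MT.AB
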