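import Pool.Agent.Lib.H3MT.D0

/-!
# H3MT chunk D1 (M): the ordered link has `r!` times the degree many elements; consequence of the
degree condition

(1) `card_link`: map `x ∈ link r H v` to the edge `insert v (img x)`; every edge `e` through `v` has
exactly `r!` preimages: the injective `x : Fin r → V` with image `e.erase v` (`e.card = r + 1`), i.e. the
equivalences of `Fin r` with `e.erase v`. Use `Finset.card_eq_sum_card_fiberwise` with fibers of constant size.
(2) `choose_lower`: `r! * C(n-1, r) = (n-1)(n-2)...(n-r) ≥ (n - r)^r` (`Nat.descFactorial_eq_factorial_mul_choose`,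
`Nat.pow_sub_le_descFactorial`: `(n' + 1 - r)^r ≤ n'.descFactorial r`) and `(n-r)^r ≥ (1 - δ) n^r` for large `n` (Bernoulli
`one_add_mul_le_pow`: `(1 - r/n)^r ≥ 1 - r^2/n`).
(3) `link_large`: combine: `(1/2 + γ)(1 - δ) ≥ 1/2 + γ/2` for small `δ` (for instance `δ = γ / 4`).
-/

open Finset

namespace Pool.Agent.Lib.H3MT.AB

/-- the number of injective tuples with a given set of values -/
theorem D1_fiber {V : Type} [Fintype V] [DecidableEq V] (r : ℕ) (s : Finset V) (hs : s.card = r) :
    (univ.filter fun x : Fin r → V => Function.Injective x ∧ img x = s).card = r.factorial := by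
  classical
  have h1 : Fintype.card (Fin r ≃ s) = r.factorial := by
    have h2 : Fintype.card s = r := by rw [Fintype.card_coe, hs]
    have e : Fin r ≃ s := Fintype.equivOfCardEq (by rw [Fintype.card_fin, h2])
    rw [Fintype.card_equiv e, Fintype.card_fin]
  rw [← h1, ← card_univ]
  symm
  refine card_bij (fun e _ => fun i => ((e i : s) : V)) ?_ ?_ ?_
  · intro e _
    rw [mem_filter]
    refine ⟨mem_univ _, ?_, ?_⟩
    · intro i j hij
      exact e.injective (Subtype.ext hij)
    · ext y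
      rw [img, mem_image]
      constructor
      · rintro ⟨i, -, rfl⟩
        exact (e i).2
      · intro hy
        exact ⟨e.symm ⟨y, hy⟩, mem_univ _, by rw [Equiv.apply_symm_apply]⟩
  · intro e _ e' _ h
    ext i
    exact congrFun h i
  · intro x hx
    rw [mem_filter] at hx
    obtain ⟨-, hinj, himg⟩ := hx
    have hmem : ∀ i, x i ∈ s := by
      intro i
      rw [← himg, img]
      exact mem_image_of_mem x (mem_univ i)
    refine ⟨Equiv.ofBijective (fun i => (⟨x i, hmem i⟩ : s)) ⟨?_, ?_⟩, mem_univ _, ?_⟩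
    · intro i j hij
      exact hinj (congrArg Subtype.val hij)
    · rintro ⟨y, hy⟩
      rw [← himg, img, mem_image] at hy
      obtain ⟨i, -, hi⟩ := hy
      exact ⟨i, Subtype.ext hi⟩
    · funext i
      rfl

theorem card_link {V : Type} [Fintype V] [DecidableEq V] (r : ℕ) (H : Finset (Finset V))
    (hH : Uniform (r + 1) H) (v : V) :
    (link r H v).card = r.factorial * deg H v := by
  classical
  have h1 : ∀ x ∈ link r H v, insert v (img x) ∈ H.filter (fun e => v ∈ e) := by
    intro x hx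
    rw [link, mem_filter] at hx
    exact mem_filter.2 ⟨hx.2.2.2, mem_insert_self _ _⟩
  rw [card_eq_sum_card_fiberwise h1]
  have h2 : ∀ e ∈ H.filter (fun e => v ∈ e),
      ((link r H v).filter fun x => insert v (img x) = e).card = r.factorial := by
    intro e he
    rw [mem_filter] at he
    have hce : (e.erase v).card = r := by
      rw [card_erase_of_mem he.2, hH e he.1]
      rfl
    rw [← D1_fiber r (e.erase v) hce]
    congr 1
    ext x
    rw [mem_filter, mem_filter, link, mem_filter]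
    constructor
    · rintro ⟨⟨-, hinj, hv, -⟩, hxe⟩
      refine ⟨mem_univ _, hinj, ?_⟩
      rw [← hxe, erase_insert hv]
    · rintro ⟨-, hinj, himg⟩
      have h3 : insert v (img x) = e := by rw [himg, insert_erase he.2]
      refine ⟨⟨mem_univ _, hinj, ?_, ?_⟩, h3⟩
      · rw [himg]
        exact notMem_erase v e
      · rw [h3]
        exact he.1
  rw [sum_congr rfl h2, sum_const, smul_eq_mul, mul_comm]
  rfl

theorem choose_lower (r : ℕ) (δ : ℝ) (hδ : 0 < δ) :
    ∃ n0 : ℕ, ∀ n ≥ n0, (1 - δ) * (n : ℝ) ^ r ≤ r.factorial * ((n - 1).choose r : ℝ) := by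
  refine ⟨max (r + 1) ⌈(r : ℝ) ^ 2 / δ⌉₊, fun n hn => ?_⟩
  have hn1 : r + 1 ≤ n := le_of_max_le_left hn
  have hn2 : (r : ℝ) ^ 2 / δ ≤ n := (Nat.le_ceil _).trans (by exact_mod_cast le_of_max_le_right hn)
  have hn0 : (0 : ℝ) < n := by
    have : 0 < n := by omega
    exact_mod_cast this
  have hrn : (r : ℝ) ≤ n := by
    have : r ≤ n := by omega
    exact_mod_cast this
  have h1 : ((n - 1 + 1 - r : ℕ) : ℝ) ^ r ≤ r.factorial * ((n - 1).choose r : ℝ) := by
    have h2 := Nat.pow_sub_le_descFactorial (n - 1) r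
    rw [Nat.descFactorial_eq_factorial_mul_choose] at h2
    exact_mod_cast h2
  have h3 : ((n - 1 + 1 - r : ℕ) : ℝ) = n - r := by
    have h4 : n - 1 + 1 - r = n - r := by omega
    rw [h4, Nat.cast_sub (by omega)]
  rw [h3] at h1
  refine le_trans ?_ h1
  have h5 : (n : ℝ) - r = n * (1 + -(r / n)) := by
    field_simp
    ring
  rw [h5, mul_pow, mul_comm]
  apply mul_le_mul_of_nonneg_left _ (by positivity)
  have h6 : -2 ≤ -((r : ℝ) / n) := by
    have : (r : ℝ) / n ≤ 1 := by rw [div_le_one hn0]; exact hrn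
    linarith
  have h7 := one_add_mul_le_pow h6 r
  refine le_trans ?_ h7
  have h8 : (r : ℝ) ^ 2 / n ≤ δ := by
    rw [div_le_iff₀ hδ] at hn2
    rw [div_le_iff₀ hn0, mul_comm]
    exact hn2
  have h9 : (r : ℝ) * -((r : ℝ) / n) = -((r : ℝ) ^ 2 / n) := by ring
  rw [h9]
  linarith

theorem link_large (r : ℕ) (γ : ℝ) (hγ : 0 < γ) (hγ1 : γ ≤ 1 / 2) :
    ∃ n0 : ℕ, ∀ (V : Type) [Fintype V] [DecidableEq V], n0 ≤ Fintype.card V →
      ∀ H : Finset (Finset V), Uniform (r + 1) H →
      (∀ v, (1 / 2 + γ) * ((Fintype.card V - 1).choose r : ℝ) ≤ deg H v) →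
      ∀ v, (1 / 2 + γ / 2) * (Fintype.card V : ℝ) ^ r ≤ ((link r H v).card : ℝ) := by
  obtain ⟨n0, hn0⟩ := choose_lower r (γ / 4) (by positivity)
  refine ⟨n0, fun V _ _ hn H hH hd v => ?_⟩
  have h1 := hn0 (Fintype.card V) hn
  have h2 := hd v
  rw [card_link r H hH v]
  push_cast
  have h3 : (0 : ℝ) < r.factorial := by exact_mod_cast r.factorial_pos
  have h4 : (0 : ℝ) ≤ (Fintype.card V : ℝ) ^ r := by positivity
  calc (1 / 2 + γ / 2) * (Fintype.card V : ℝ) ^ r ≤
      ((1 / 2 + γ) * (1 - γ / 4)) * (Fintype.card V : ℝ) ^ r := by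
        apply mul_le_mul_of_nonneg_right _ h4
        nlinarith
    _ = (1 / 2 + γ) * ((1 - γ / 4) * (Fintype.card V : ℝ) ^ r) := by ring
    _ ≤ (1 / 2 + γ) * (r.factorial * ((Fintype.card V - 1).choose r : ℝ)) :=
      mul_le_mul_of_nonneg_left h1 (by positivity)
    _ = r.factorial * ((1 / 2 + γ) * ((Fintype.card V - 1).choose r : ℝ)) := by ring
    _ ≤ r.factorial * (deg H v : ℝ) := mul_le_mul_of_nonneg_left h2 h3.le

end Pool.Agent.Lib.H3MT.AB
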