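import Pool.Agent.Lib.H3MT.D0

/-!
# H3MT chunk D2 (M): tuples which are not injective, or which meet a given set, are rare;
pairs of tuples of a sequence which meet are rare

All counts are multiplied by `n = Fintype.card V` to avoid subtraction in exponents.
(1) `card_eq_mul`: for `i ≠ j` the map `{a | a i = a j} × V → (ι → V)`, `(a, v) ↦ Function.update a j v`, is a
bijection (inverse `b ↦ (Function.update b j (b i), b j)`).
(2) `card_noninj`: `¬ Injective a` means `a i = a j` for some `i ≠ j`: union bound over the pairs.
(3) `card_hit`: `{a | a i ∈ T} × V ≃ T × (ι → V)` (exchange the value at `i`); union bound over `i`.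
(4) `card_meet`: for a sequence `ω : Fin L → ι → V` of tuples and `i ≠ j`, the number of `ω` with
`ω i p = ω j q` for some `p, q` is at most `m² / n` times the number of all sequences: `Fin L → ι → V` is the same as
`Fin L × ι → V` (`Equiv.curry` / `(Equiv.curry _ _ _).symm`), apply (1) to the indices `(i, p) ≠ (j, q)`.
(5) `sum_meet`: sum of (4) over the ordered pairs `i ≠ j`.
-/

open Finset

namespace Pool.Agent.Lib.H3MT.AB

section

variable {V : Type} [Fintype V] [DecidableEq V] {ι : Type} [Fintype ι] [DecidableEq ι]

theorem card_eq_mul (i j : ι) (hij : i ≠ j) :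
    (univ.filter (fun a : ι → V => a i = a j)).card * Fintype.card V =
      Fintype.card V ^ Fintype.card ι := by
  rw [← Fintype.card_fun, ← Finset.card_univ, ← Finset.card_univ (α := ι → V), ← card_product]
  refine card_nbij' (fun p => Function.update p.1 j p.2)
    (fun b => (Function.update b j (b i), b j)) ?_ ?_ ?_ ?_
  · intro p _
    exact mem_coe.2 (mem_univ _)
  · intro b _
    rw [mem_coe, mem_product, mem_filter]
    refine ⟨⟨mem_univ _, ?_⟩, mem_univ _⟩
    show Function.update b j (b i) i = Function.update b j (b i) j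
    rw [Function.update_of_ne hij, Function.update_self]
  · rintro ⟨a, v⟩ hp
    rw [mem_coe, mem_product, mem_filter] at hp
    have h1 : a i = a j := hp.1.2
    show (Function.update (Function.update a j v) j (Function.update a j v i),
      Function.update a j v j) = (a, v)
    rw [Function.update_of_ne hij, Function.update_self, Function.update_idem, h1,
      Function.update_eq_self]
  · intro b _
    show Function.update (Function.update b j (b i)) j (b j) = b
    rw [Function.update_idem, Function.update_eq_self]

theorem card_noninj :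
    (univ.filter (fun a : ι → V => ¬ Function.Injective a)).card * Fintype.card V ≤
      Fintype.card ι ^ 2 * Fintype.card V ^ Fintype.card ι := by
  classical
  have h1 : (univ.filter (fun a : ι → V => ¬ Function.Injective a)) ⊆
      (univ : Finset ι).offDiag.biUnion fun p => univ.filter fun a : ι → V => a p.1 = a p.2 := by
    intro a ha
    rw [mem_filter, Function.not_injective_iff] at ha
    obtain ⟨-, i, j, hij, hne⟩ := ha
    rw [mem_biUnion]
    exact ⟨(i, j), mem_offDiag.2 ⟨mem_univ _, mem_univ _, hne⟩, mem_filter.2 ⟨mem_univ _, hij⟩⟩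
  calc (univ.filter (fun a : ι → V => ¬ Function.Injective a)).card * Fintype.card V ≤
      (∑ p ∈ (univ : Finset ι).offDiag, (univ.filter fun a : ι → V => a p.1 = a p.2).card) *
        Fintype.card V := Nat.mul_le_mul_right _ ((card_le_card h1).trans card_biUnion_le)
    _ = ∑ p ∈ (univ : Finset ι).offDiag, (univ.filter fun a : ι → V => a p.1 = a p.2).card *
        Fintype.card V := sum_mul _ _ _
    _ = ∑ p ∈ (univ : Finset ι).offDiag, Fintype.card V ^ Fintype.card ι := by
      refine sum_congr rfl fun p hp => ?_
      exact card_eq_mul p.1 p.2 (mem_offDiag.1 hp).2.2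
    _ = (univ : Finset ι).offDiag.card * Fintype.card V ^ Fintype.card ι := by
      rw [sum_const, smul_eq_mul]
    _ ≤ _ := by
      apply Nat.mul_le_mul_right
      rw [offDiag_card, card_univ, pow_two]
      exact Nat.sub_le _ _

theorem D2_hit (T : Finset V) (i : ι) :
    (univ.filter (fun a : ι → V => a i ∈ T)).card * Fintype.card V =
      T.card * Fintype.card V ^ Fintype.card ι := by
  rw [← Fintype.card_fun, ← Finset.card_univ, ← Finset.card_univ (α := ι → V), ← card_product,
    ← card_product]
  refine card_nbij' (fun p => (p.1 i, Function.update p.1 i p.2))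
    (fun p => (Function.update p.2 i p.1, p.2 i)) ?_ ?_ ?_ ?_
  · intro p hp
    rw [mem_coe, mem_product, mem_filter] at hp
    rw [mem_coe, mem_product]
    exact ⟨hp.1.2, mem_univ _⟩
  · intro p hp
    rw [mem_coe, mem_product] at hp
    rw [mem_coe, mem_product, mem_filter]
    refine ⟨⟨mem_univ _, ?_⟩, mem_univ _⟩
    show Function.update p.2 i p.1 i ∈ T
    rw [Function.update_self]
    exact hp.1
  · rintro ⟨a, v⟩ _
    show (Function.update (Function.update a i v) i (a i), Function.update a i v i) = (a, v)
    rw [Function.update_self, Function.update_idem, Function.update_eq_self]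
  · rintro ⟨t, b⟩ _
    show (Function.update b i t i, Function.update (Function.update b i t) i (b i)) = (t, b)
    rw [Function.update_self, Function.update_idem, Function.update_eq_self]

theorem card_hit (T : Finset V) :
    (univ.filter (fun a : ι → V => ∃ i, a i ∈ T)).card * Fintype.card V ≤
      Fintype.card ι * T.card * Fintype.card V ^ Fintype.card ι := by
  classical
  have h1 : (univ.filter (fun a : ι → V => ∃ i, a i ∈ T)) ⊆
      (univ : Finset ι).biUnion fun i => univ.filter fun a : ι → V => a i ∈ T := by
    intro a ha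
    obtain ⟨-, i, hi⟩ := mem_filter.1 ha
    rw [mem_biUnion]
    exact ⟨i, mem_univ _, mem_filter.2 ⟨mem_univ _, hi⟩⟩
  calc (univ.filter (fun a : ι → V => ∃ i, a i ∈ T)).card * Fintype.card V ≤
      (∑ i : ι, (univ.filter fun a : ι → V => a i ∈ T).card) * Fintype.card V :=
        Nat.mul_le_mul_right _ ((card_le_card h1).trans card_biUnion_le)
    _ = ∑ i : ι, (univ.filter fun a : ι → V => a i ∈ T).card * Fintype.card V := sum_mul _ _ _
    _ = ∑ i : ι, T.card * Fintype.card V ^ Fintype.card ι :=
      sum_congr rfl fun i _ => D2_hit T i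
    _ = _ := by rw [sum_const, smul_eq_mul, card_univ, mul_assoc]

theorem card_meet (L : ℕ) (i j : Fin L) (hij : i ≠ j) :
    (univ.filter (fun ω : Fin L → ι → V => ¬ Disjoint (img (ω i)) (img (ω j)))).card *
      Fintype.card V ≤ Fintype.card ι ^ 2 * (Fintype.card V ^ Fintype.card ι) ^ L := by
  classical
  have h1 : (univ.filter (fun ω : Fin L → ι → V => ¬ Disjoint (img (ω i)) (img (ω j)))) ⊆
      (univ : Finset (ι × ι)).biUnion fun p =>
        univ.filter fun ω : Fin L → ι → V => ω i p.1 = ω j p.2 := by
    intro ω hω
    rw [mem_filter, not_disjoint_iff] at hω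
    obtain ⟨-, x, hx, hy⟩ := hω
    obtain ⟨p, -, hp⟩ := mem_image.1 hx
    obtain ⟨q, -, hq⟩ := mem_image.1 hy
    rw [mem_biUnion]
    exact ⟨(p, q), mem_univ _, mem_filter.2 ⟨mem_univ _, by rw [hp, hq]⟩⟩
  have h2 : ∀ p : ι × ι, (univ.filter fun ω : Fin L → ι → V => ω i p.1 = ω j p.2).card *
      Fintype.card V = (Fintype.card V ^ Fintype.card ι) ^ L := by
    intro p
    have h3 := card_eq_mul (V := V) (ι := Fin L × ι) (i, p.1) (j, p.2)
      (fun h => hij (congrArg Prod.fst h))
    have h4 : (univ.filter fun ω : Fin L → ι → V => ω i p.1 = ω j p.2).card =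
        (univ.filter fun a : Fin L × ι → V => a (i, p.1) = a (j, p.2)).card := by
      refine card_nbij' (fun ω x => ω x.1 x.2) (fun a x y => a (x, y)) ?_ ?_ ?_ ?_
      · intro ω hω
        rw [mem_coe, mem_filter] at hω ⊢
        exact ⟨mem_univ _, hω.2⟩
      · intro ω hω
        rw [mem_coe, mem_filter] at hω ⊢
        exact ⟨mem_univ _, hω.2⟩
      · intro ω _
        rfl
      · intro a _
        rfl
    rw [h4, h3, Fintype.card_prod, Fintype.card_fin, ← pow_mul, mul_comm]
  calc (univ.filter (fun ω : Fin L → ι → V => ¬ Disjoint (img (ω i)) (img (ω j)))).card *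
      Fintype.card V ≤ (∑ p : ι × ι, (univ.filter fun ω : Fin L → ι → V =>
        ω i p.1 = ω j p.2).card) * Fintype.card V :=
        Nat.mul_le_mul_right _ ((card_le_card h1).trans card_biUnion_le)
    _ = ∑ p : ι × ι, (univ.filter fun ω : Fin L → ι → V => ω i p.1 = ω j p.2).card *
        Fintype.card V := sum_mul _ _ _
    _ = ∑ p : ι × ι, (Fintype.card V ^ Fintype.card ι) ^ L := sum_congr rfl fun p _ => h2 p
    _ = _ := by rw [sum_const, smul_eq_mul, card_univ, Fintype.card_prod, pow_two]

theorem sum_meet (L : ℕ) :
    (∑ ω : Fin L → ι → V, (univ.filter (fun p : Fin L × Fin L => p.1 ≠ p.2 ∧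
      ¬ Disjoint (img (ω p.1)) (img (ω p.2)))).card) * Fintype.card V ≤
      L ^ 2 * Fintype.card ι ^ 2 * (Fintype.card V ^ Fintype.card ι) ^ L := by
  classical
  simp only [card_filter]
  rw [sum_comm, sum_mul]
  calc ∑ p : Fin L × Fin L, (∑ ω : Fin L → ι → V, if p.1 ≠ p.2 ∧
      ¬ Disjoint (img (ω p.1)) (img (ω p.2)) then 1 else 0) * Fintype.card V ≤
      ∑ p : Fin L × Fin L, Fintype.card ι ^ 2 * (Fintype.card V ^ Fintype.card ι) ^ L := by
        refine sum_le_sum fun p _ => ?_
        by_cases hp : p.1 = p.2
        · simp [hp]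
        · rw [← card_filter]
          refine le_trans (Nat.mul_le_mul_right _ (card_le_card ?_)) (card_meet L p.1 p.2 hp)
          intro ω hω
          rw [mem_filter] at hω ⊢
          exact ⟨mem_univ _, hω.2.2⟩
    _ = _ := by
      rw [sum_const, smul_eq_mul, card_univ, Fintype.card_prod, Fintype.card_fin, pow_two L,
        mul_assoc (L * L)]

end

end Pool.Agent.Lib.H3MT.AB
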