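import Pool.Agent.Lib.H3MT.D2

/-!
# H3MT chunk D3 (M): there are many absorbers

Let `n = Fintype.card V`, `m = Fintype.card (Idx r) = (r + 1) * r`, `c = 1 / 2 + γ / 2`.
(1) For all `u, v`: `(link r H u ∩ link r H v).card ≥ 2 c n^r - n^r = γ n^r` (`Finset.card_union_add_card_inter`,
the union has at most `Fintype.card (Fin r → V) = n^r` elements).
(2) Let `P` be the set of the `a : Idx r → V` whose row `none` lies in `link r H t0` and whose row `some j` lies in
`link r H (a (none, j)) ∩ link r H (t j)` for all `j`. By the equivalence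
`(Idx r → V) ≃ (Option (Fin r) → Fin r → V) ≃ (Fin r → V) × (Fin r → Fin r → V)`
`P.card = ∑ x ∈ link r H t0, ∏ j, (link r H (x j) ∩ link r H (t j)).card ≥ (1/2) n^r (γ n^r)^r` (`Fintype.card_piFinset`).
(3) All elements of `P` which are injective and do not meet `{t0} ∪ {t j}` are absorbers. The others are at most
`(m² + m (r + 1)) n^m / n` (`card_noninj`, `card_hit`). For `n ≥ 4 (m² + m (r+1)) / γ^r` this is `≤ (1/4) γ^r n^m`.
-/

open Finset

namespace Pool.Agent.Lib.H3MT.AB

theorem D3_inter {V : Type} [Fintype V] [DecidableEq V] (r : ℕ) (H : Finset (Finset V)) (γ : ℝ)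
    (h : ∀ v, (1 / 2 + γ / 2) * (Fintype.card V : ℝ) ^ r ≤ ((link r H v).card : ℝ)) (u v : V) :
    γ * (Fintype.card V : ℝ) ^ r ≤ ((link r H u ∩ link r H v).card : ℝ) := by
  have h1 := Finset.card_union_add_card_inter (link r H u) (link r H v)
  have h2 : (link r H u ∪ link r H v).card ≤ Fintype.card V ^ r := by
    refine (Finset.card_le_univ _).trans ?_
    rw [Fintype.card_fun, Fintype.card_fin]
  have h3 : (((link r H u ∪ link r H v).card : ℝ)) + (link r H u ∩ link r H v).card =
      (link r H u).card + (link r H v).card := by exact_mod_cast h1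
  have h4 : ((link r H u ∪ link r H v).card : ℝ) ≤ (Fintype.card V : ℝ) ^ r := by exact_mod_cast h2
  have h5 := h u
  have h6 := h v
  linarith

/-- glue the first row and the other rows -/
def D3_glue {V : Type} (r : ℕ) (p : Σ _ : Fin r → V, (Fin r → Fin r → V)) : Idx r → V := fun q =>
  Option.elim q.1 (p.1 q.2) (fun j => p.2 j q.2)

theorem D3_glue_inj {V : Type} (r : ℕ) : Function.Injective (D3_glue (V := V) r) := by
  rintro ⟨x, y⟩ ⟨x', y'⟩ h
  have h1 : x = x' := by
    funext i
    exact congrFun h (none, i)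
  have h2 : y = y' := by
    funext j i
    exact congrFun h (some j, i)
  rw [h1, h2]

open Classical in
/-- the product set -/
noncomputable def D3_P {V : Type} [Fintype V] [DecidableEq V] (r : ℕ) (H : Finset (Finset V)) (t0 : V)
    (t : Fin r → V) : Finset (Idx r → V) :=
  univ.filter fun a => (fun j => a (none, j)) ∈ link r H t0 ∧
    ∀ j, (fun i => a (some j, i)) ∈ link r H (a (none, j)) ∧ (fun i => a (some j, i)) ∈ link r H (t j)

theorem D3_P_card {V : Type} [Fintype V] [DecidableEq V] (r : ℕ) (H : Finset (Finset V)) (γ : ℝ)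
    (hγ : 0 < γ)
    (h : ∀ v, (1 / 2 + γ / 2) * (Fintype.card V : ℝ) ^ r ≤ ((link r H v).card : ℝ)) (t0 : V)
    (t : Fin r → V) :
    (γ ^ r / 2) * (Fintype.card V : ℝ) ^ Fintype.card (Idx r) ≤ ((D3_P r H t0 t).card : ℝ) := by
  classical
  have h1 : ((link r H t0).sigma fun x => Fintype.piFinset fun j : Fin r =>
      link r H (x j) ∩ link r H (t j)).card ≤ (D3_P r H t0 t).card := by
    refine Finset.card_le_card_of_injOn (D3_glue r) ?_ ((D3_glue_inj r).injOn)
    rintro ⟨x, y⟩ hxy
    rw [Finset.mem_coe, Finset.mem_sigma, Fintype.mem_piFinset] at hxy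
    obtain ⟨hx, hy⟩ := hxy
    rw [Finset.mem_coe]
    unfold D3_P
    rw [Finset.mem_filter]
    refine ⟨Finset.mem_univ _, hx, fun j => ?_⟩
    have h2 := hy j
    rw [Finset.mem_inter] at h2
    exact h2
  have hn : (0 : ℝ) ≤ (Fintype.card V : ℝ) := Nat.cast_nonneg _
  rw [Finset.card_sigma] at h1
  have h3 : (∑ x ∈ link r H t0, (γ * (Fintype.card V : ℝ) ^ r) ^ r) ≤
      ((∑ x ∈ link r H t0, (Fintype.piFinset fun j : Fin r =>
        link r H (x j) ∩ link r H (t j)).card : ℕ) : ℝ) := by
    rw [Nat.cast_sum]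
    refine Finset.sum_le_sum fun x _ => ?_
    rw [Fintype.card_piFinset, Nat.cast_prod]
    have h4 : (γ * (Fintype.card V : ℝ) ^ r) ^ r = ∏ _j : Fin r, (γ * (Fintype.card V : ℝ) ^ r) := by
      rw [Finset.prod_const, Finset.card_univ, Fintype.card_fin]
    rw [h4]
    refine Finset.prod_le_prod (fun _ _ => by positivity) fun j _ => ?_
    exact D3_inter r H γ h (x j) (t j)
  rw [Finset.sum_const, nsmul_eq_mul] at h3
  have h5 : (((∑ x ∈ link r H t0, (Fintype.piFinset fun j : Fin r =>
        link r H (x j) ∩ link r H (t j)).card : ℕ) : ℝ)) ≤ ((D3_P r H t0 t).card : ℝ) := by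
    exact_mod_cast h1
  refine le_trans ?_ (h3.trans h5)
  have h6 := h t0
  have h7 : 0 ≤ (γ * (Fintype.card V : ℝ) ^ r) ^ r := by positivity
  have h8 : (1 / 2) * (Fintype.card V : ℝ) ^ r ≤ ((link r H t0).card : ℝ) := by
    refine le_trans ?_ h6
    have : 0 ≤ (Fintype.card V : ℝ) ^ r := by positivity
    nlinarith
  have h9 := mul_le_mul_of_nonneg_right h8 h7
  refine le_trans (le_of_eq ?_) h9
  have h10 : Fintype.card (Idx r) = r + r * r := by
    rw [Fintype.card_prod, Fintype.card_option, Fintype.card_fin]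
    ring
  rw [h10, mul_pow, ← pow_mul, pow_add]
  ring

open Classical in
theorem many_absorbers (r : ℕ) (hr : 1 ≤ r) (γ : ℝ) (hγ : 0 < γ) :
    ∃ n0 : ℕ, ∀ (V : Type) [Fintype V] [DecidableEq V], n0 ≤ Fintype.card V →
      ∀ H : Finset (Finset V),
      (∀ v, (1 / 2 + γ / 2) * (Fintype.card V : ℝ) ^ r ≤ ((link r H v).card : ℝ)) →
      ∀ (t0 : V) (t : Fin r → V),
      (γ ^ r / 4) * (Fintype.card V : ℝ) ^ Fintype.card (Idx r) ≤
        ((univ.filter (fun a : Idx r → V => Absorbs r H t0 t a)).card : ℝ) := by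
  set m : ℕ := Fintype.card (Idx r) with hm
  set c : ℝ := (m : ℝ) ^ 2 + m * (r + 1) with hc
  have hc0 : 0 ≤ c := by positivity
  refine ⟨⌈4 * c / γ ^ r⌉₊ + 1, ?_⟩
  intro V _ _ hV H h t0 t
  have hn : 4 * c / γ ^ r < (Fintype.card V : ℝ) := by
    refine lt_of_le_of_lt (Nat.le_ceil _) ?_
    exact_mod_cast hV
  have hγr : 0 < γ ^ r := pow_pos hγ r
  have hnpos : (0 : ℝ) < Fintype.card V := lt_of_le_of_lt (by positivity) hn
  have h1 := D3_P_card r H γ hγ h t0 t
  set T : Finset V := insert t0 (univ.image t) with hT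
  have hTc : T.card ≤ r + 1 := by
    refine (Finset.card_insert_le _ _).trans ?_
    have := (Finset.card_image_le (s := univ) (f := t))
    rw [Finset.card_univ, Fintype.card_fin] at this
    omega
  have h2 : D3_P r H t0 t ⊆ (univ.filter (fun a : Idx r → V => Absorbs r H t0 t a)) ∪
      ((univ.filter (fun a : Idx r → V => ¬ Function.Injective a)) ∪
        univ.filter (fun a : Idx r → V => ∃ i, a i ∈ T)) := by
    intro a ha
    unfold D3_P at ha
    rw [Finset.mem_filter] at ha
    rw [Finset.mem_union, Finset.mem_union, Finset.mem_filter, Finset.mem_filter, Finset.mem_filter]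
    by_cases hi : Function.Injective a
    · by_cases hh : ∃ i, a i ∈ T
      · exact Or.inr (Or.inr ⟨Finset.mem_univ _, hh⟩)
      · left
        refine ⟨Finset.mem_univ _, hi, ?_, ?_, ha.2.1, ha.2.2⟩
        · intro hmem
          unfold img at hmem
          rw [Finset.mem_image] at hmem
          obtain ⟨i, -, hi2⟩ := hmem
          exact hh ⟨i, by rw [hi2]; exact Finset.mem_insert_self _ _⟩
        · intro j hmem
          unfold img at hmem
          rw [Finset.mem_image] at hmem
          obtain ⟨i, -, hi2⟩ := hmem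
          refine hh ⟨i, ?_⟩
          rw [hi2]
          exact Finset.mem_insert_of_mem (Finset.mem_image_of_mem _ (Finset.mem_univ _))
    · exact Or.inr (Or.inl ⟨Finset.mem_univ _, hi⟩)
  have h3 := (Finset.card_le_card h2).trans (Finset.card_union_le _ _)
  have h4 := Finset.card_union_le (univ.filter (fun a : Idx r → V => ¬ Function.Injective a))
    (univ.filter (fun a : Idx r → V => ∃ i, a i ∈ T))
  have h5 := card_noninj (V := V) (ι := Idx r)
  have h6 := card_hit (V := V) (ι := Idx r) T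
  rw [← hm] at h5 h6
  set x : ℝ := ((univ.filter (fun a : Idx r → V => Absorbs r H t0 t a)).card : ℝ) with hx
  have h7 : ((D3_P r H t0 t).card : ℝ) ≤ x +
      (((univ.filter (fun a : Idx r → V => ¬ Function.Injective a)).card : ℝ) +
        ((univ.filter (fun a : Idx r → V => ∃ i, a i ∈ T)).card : ℝ)) := by
    rw [hx]
    exact_mod_cast h3.trans (Nat.add_le_add_left h4 _)
  have h5' : ((univ.filter (fun a : Idx r → V => ¬ Function.Injective a)).card : ℝ) *
      (Fintype.card V : ℝ) ≤ (m : ℝ) ^ 2 * (Fintype.card V : ℝ) ^ m := by exact_mod_cast h5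
  have h6' : ((univ.filter (fun a : Idx r → V => ∃ i, a i ∈ T)).card : ℝ) *
      (Fintype.card V : ℝ) ≤ (m : ℝ) * (r + 1) * (Fintype.card V : ℝ) ^ m := by
    have h8 : ((univ.filter (fun a : Idx r → V => ∃ i, a i ∈ T)).card : ℝ) *
      (Fintype.card V : ℝ) ≤ (m : ℝ) * T.card * (Fintype.card V : ℝ) ^ m := by exact_mod_cast h6
    refine h8.trans ?_
    have h9 : (T.card : ℝ) ≤ r + 1 := by exact_mod_cast hTc
    have h10 : (0 : ℝ) ≤ m := Nat.cast_nonneg _
    gcongr
  set N : ℝ := (Fintype.card V : ℝ) with hN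
  set p : ℝ := ((univ.filter (fun a : Idx r → V => ¬ Function.Injective a)).card : ℝ) with hp
  set q : ℝ := ((univ.filter (fun a : Idx r → V => ∃ i, a i ∈ T)).card : ℝ) with hq
  have hNm : 0 ≤ N ^ m := by positivity
  have h11 : (p + q) * N ≤ c * N ^ m := by
    rw [hc]
    linarith
  have h12 : 4 * c < N * γ ^ r := by
    rwa [div_lt_iff₀ hγr] at hn
  have h13 : (p + q) ≤ γ ^ r / 4 * N ^ m := by
    refine le_of_mul_le_mul_right ?_ hnpos
    refine h11.trans ?_
    have h14 : c ≤ γ ^ r / 4 * N := by linarith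
    calc c * N ^ m ≤ (γ ^ r / 4 * N) * N ^ m := mul_le_mul_of_nonneg_right h14 hNm
      _ = γ ^ r / 4 * N ^ m * N := by ring
  have h15 : γ ^ r / 2 * N ^ m ≤ x + (p + q) := h1.trans h7
  linarith

end Pool.Agent.Lib.H3MT.AB
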