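import Mathlib

/-!
# H3MT chunk D4 (M): Chernoff bound by counting

`A` is a subset of proportion `≥ α` of the finite set `Ω` with `N` elements; all but `exp (-α L / 8) N^L` of the
sequences `ω : Fin L → Ω` have at least `α L / 2` terms in `A`. Proof: with `X ω` the number of the terms in `A`,
`∑ ω, (1/2)^(X ω) = ∑ ω, ∏ i, (if ω i ∈ A then 1/2 else 1) = ∏ i, ∑ x, (if x ∈ A then 1/2 else 1) = (N - |A|/2)^L`
(`Finset.prod_univ_sum` / `Finset.sum_prod_piFinset`, `Fintype.piFinset_univ`) `≤ (N (1 - α/2))^L ≤ N^L exp (-α L / 2)`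
(`Real.add_one_le_exp`), and `(1/2)^(X ω) ≥ exp (- log 2 * α L / 2)` if `X ω < α L / 2`;
`(1 - log 2) / 2 ≥ 1 / 8` (`Real.log_two_lt_d9`).
-/

open Finset

namespace Pool.Agent.Lib.H3MT.AB

theorem chernoff {Ω : Type*} [Fintype Ω] [DecidableEq Ω] (A : Finset Ω) (α : ℝ) (h0 : 0 ≤ α)
    (hA : α * Fintype.card Ω ≤ A.card) (L : ℕ) :
    ((univ.filter (fun ω : Fin L → Ω =>
      ((univ.filter (fun i => ω i ∈ A)).card : ℝ) < α * L / 2)).card : ℝ) ≤
      Real.exp (-(α * L / 8)) * (Fintype.card Ω : ℝ) ^ L := by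
  classical
  set N : ℝ := (Fintype.card Ω : ℝ) with hN
  have hN0 : 0 ≤ N := Nat.cast_nonneg _
  have hAN : (A.card : ℝ) ≤ N := by
    rw [hN]
    exact_mod_cast Finset.card_le_univ A
  have hL0 : (0 : ℝ) ≤ L := Nat.cast_nonneg _
  -- the generating function
  have h1 : ∑ ω : Fin L → Ω, ((1 : ℝ) / 2) ^ (univ.filter (fun i => ω i ∈ A)).card =
      (N - A.card / 2) ^ L := by
    have e1 : ∀ ω : Fin L → Ω, ((1 : ℝ) / 2) ^ (univ.filter (fun i => ω i ∈ A)).card =
        ∏ i, (if ω i ∈ A then ((1 : ℝ) / 2) else 1) := by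
      intro ω
      rw [Finset.prod_ite, Finset.prod_const, Finset.prod_const_one, mul_one]
    have e2 : ∑ x : Ω, (if x ∈ A then ((1 : ℝ) / 2) else 1) = N - A.card / 2 := by
      have e3 : ∀ x : Ω, (if x ∈ A then ((1 : ℝ) / 2) else 1) = 1 - (if x ∈ A then (1 / 2 : ℝ) else 0) := by
        intro x
        split_ifs <;> norm_num
      rw [Finset.sum_congr rfl fun x _ => e3 x, Finset.sum_sub_distrib, Finset.sum_ite_mem,
        Finset.univ_inter, Finset.sum_const, Finset.sum_const, Finset.card_univ, nsmul_eq_mul,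
        nsmul_eq_mul, mul_one, hN]
      ring
    rw [Finset.sum_congr rfl fun ω _ => e1 ω]
    have e4 := Finset.prod_univ_sum (fun _ : Fin L => (univ : Finset Ω))
      (fun _ x => (if x ∈ A then ((1 : ℝ) / 2) else 1))
    rw [Fintype.piFinset_univ] at e4
    rw [← e4, Finset.prod_const, Finset.card_univ, Fintype.card_fin, e2]
  have h2 : (N - A.card / 2) ^ L ≤ (N * Real.exp (-(α / 2))) ^ L := by
    refine pow_le_pow_left₀ (by linarith) ?_ L
    have h3 : 1 - α / 2 ≤ Real.exp (-(α / 2)) := by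
      have := Real.add_one_le_exp (-(α / 2))
      linarith
    have h4 : N * (1 - α / 2) ≤ N * Real.exp (-(α / 2)) := mul_le_mul_of_nonneg_left h3 hN0
    linarith
  have h5 : ∀ ω ∈ univ.filter (fun ω : Fin L → Ω =>
      ((univ.filter (fun i => ω i ∈ A)).card : ℝ) < α * L / 2),
      Real.exp (-(Real.log 2 * (α * L / 2))) ≤
        ((1 : ℝ) / 2) ^ (univ.filter (fun i => ω i ∈ A)).card := by
    intro ω hω
    rw [Finset.mem_filter] at hω
    have h6 : ((1 : ℝ) / 2) ^ (univ.filter (fun i => ω i ∈ A)).card =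
        Real.exp (-(Real.log 2 * ((univ.filter (fun i => ω i ∈ A)).card : ℝ))) := by
      have h7 : ((1 : ℝ) / 2) = Real.exp (-Real.log 2) := by
        rw [Real.exp_neg, Real.exp_log (by norm_num)]
        norm_num
      rw [h7, ← Real.exp_nat_mul]
      congr 1
      ring
    rw [h6, Real.exp_le_exp]
    have h8 : 0 ≤ Real.log 2 := Real.log_nonneg (by norm_num)
    have := mul_le_mul_of_nonneg_left hω.2.le h8
    linarith
  have h9 : ((univ.filter (fun ω : Fin L → Ω =>
      ((univ.filter (fun i => ω i ∈ A)).card : ℝ) < α * L / 2)).card : ℝ) *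
      Real.exp (-(Real.log 2 * (α * L / 2))) ≤ (N * Real.exp (-(α / 2))) ^ L := by
    calc _ = ∑ ω ∈ univ.filter (fun ω : Fin L → Ω =>
          ((univ.filter (fun i => ω i ∈ A)).card : ℝ) < α * L / 2),
          Real.exp (-(Real.log 2 * (α * L / 2))) := by
            rw [Finset.sum_const, nsmul_eq_mul]
      _ ≤ ∑ ω ∈ univ.filter (fun ω : Fin L → Ω =>
          ((univ.filter (fun i => ω i ∈ A)).card : ℝ) < α * L / 2),
          ((1 : ℝ) / 2) ^ (univ.filter (fun i => ω i ∈ A)).card := Finset.sum_le_sum h5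
      _ ≤ ∑ ω : Fin L → Ω, ((1 : ℝ) / 2) ^ (univ.filter (fun i => ω i ∈ A)).card :=
          Finset.sum_le_sum_of_subset_of_nonneg (Finset.filter_subset _ _)
            (fun _ _ _ => by positivity)
      _ = (N - A.card / 2) ^ L := h1
      _ ≤ _ := h2
  have h10 : (N * Real.exp (-(α / 2))) ^ L = N ^ L * Real.exp (-(α * L / 2)) := by
    rw [mul_pow, ← Real.exp_nat_mul]
    congr 2
    ring
  rw [h10] at h9
  have h11 : Real.exp (-(α * L / 2)) ≤
      Real.exp (-(α * L / 8)) * Real.exp (-(Real.log 2 * (α * L / 2))) := by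
    rw [← Real.exp_add, Real.exp_le_exp]
    have h12 := Real.log_two_lt_d9
    have h13 : 0 ≤ α * L := mul_nonneg h0 hL0
    nlinarith
  have h14 : 0 < Real.exp (-(Real.log 2 * (α * L / 2))) := Real.exp_pos _
  refine le_of_mul_le_mul_right ?_ h14
  calc _ ≤ N ^ L * Real.exp (-(α * L / 2)) := h9
    _ ≤ N ^ L * (Real.exp (-(α * L / 8)) * Real.exp (-(Real.log 2 * (α * L / 2)))) :=
        mul_le_mul_of_nonneg_left h11 (pow_nonneg hN0 L)
    _ = _ := by ring

end Pool.Agent.Lib.H3MT.AB
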