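import Pool.Agent.Lib.H3MT.D2
import Pool.Agent.Lib.H3MT.D4

/-!
# H3MT chunk D5 (M): random selection of pairwise disjoint tuples

Let `n = Fintype.card V`, `m = Fintype.card ι`, `N = n^m`, `L = ⌊c n⌋₊` (`c n / 2 ≤ L ≤ c n` for `n ≥ 2 / c`).
(1) For each `s` at most `exp (-α L / 8) N^L` of the `ω : Fin L → ι → V` have less than `α L / 2` terms in `𝒜 s`
(`chernoff` with `Ω = (ι → V)`); together, over all `s`, less than `N^L / 2` of them for large `n`, because
`n^κ exp (-α L / 8) < 1 / 2` (`L ≥ c n / 2`; `n^κ exp (-b n) → 0`: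
`Real.tendsto_pow_mul_exp_neg_atTop_nhds_zero` or `Nat`/`Real` variants).
(2) Let `Q ω` be the number of the ordered pairs `(i, j)`, `i ≠ j`, with `img (ω i)` and `img (ω j)` not disjoint.
`sum_meet`: `∑ ω, Q ω ≤ L² m² N^L / n ≤ L (α / 16) N^L` since `L ≤ c n` and `c m² ≤ α / 16`. By Markov at most `N^L / 2` of
the `ω` have `Q ω > α L / 8`.
(3) Take `ω` outside both bad sets. Let `I` be the set of the `i` whose image is disjoint from all the other
images, and `F = I.image ω`. `ω` is injective on `I` (`ι` is nonempty: equal terms are not disjoint). `F.card ≤ L ≤ c n`.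
For each `s`: at least `α L / 2 - Q ω ≥ 3 α L / 8` indices `i ∈ I` have `ω i ∈ 𝒜 s` (every bad index is the first
component of a bad pair), so `(F ∩ 𝒜 s).card ≥ 3 α L / 8 ≥ α c n / 16`.
-/

open Finset

namespace Pool.Agent.Lib.H3MT.AB

theorem D5_lim (κ : ℕ) (b : ℝ) (hb : 0 < b) :
    ∃ n0 : ℕ, ∀ n : ℕ, n0 ≤ n → (n : ℝ) ^ κ * Real.exp (-(b * n)) < 1 / 2 := by
  have h1 : Filter.Tendsto (fun n : ℕ => (b * (n : ℝ))) Filter.atTop Filter.atTop :=
    tendsto_natCast_atTop_atTop.const_mul_atTop hb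
  have h2 := (Real.tendsto_pow_mul_exp_neg_atTop_nhds_zero κ).comp h1
  have h3 : (0 : ℝ) < b ^ κ / 2 := by positivity
  obtain ⟨n0, hn0⟩ := Filter.eventually_atTop.1 (h2.eventually (gt_mem_nhds h3))
  refine ⟨n0, fun n hn => ?_⟩
  have h4 := hn0 n hn
  simp only [Function.comp_apply] at h4
  rw [mul_pow, mul_assoc] at h4
  have h5 : (0 : ℝ) < b ^ κ := by positivity
  by_contra hcon
  push Not at hcon
  have h6 := mul_le_mul_of_nonneg_left hcon h5.le
  linarith

section

variable {V : Type} [Fintype V] [DecidableEq V] {ι : Type} [Fintype ι] [DecidableEq ι]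

/-- the bad pairs -/
def D5_Q {L : ℕ} (ω : Fin L → ι → V) : Finset (Fin L × Fin L) :=
  univ.filter fun p => p.1 ≠ p.2 ∧ ¬ Disjoint (img (ω p.1)) (img (ω p.2))

omit [Fintype V] [DecidableEq ι] in
/-- part (3) -/
theorem D5_good [Nonempty ι] {L : ℕ} (ω : Fin L → ι → V) :
    ∃ F : Finset (ι → V), F.card ≤ L ∧ (∀ a ∈ F, ∀ b ∈ F, a ≠ b → Disjoint (img a) (img b)) ∧
      ∀ A : Finset (ι → V), (univ.filter (fun i => ω i ∈ A)).card ≤ (F ∩ A).card + (D5_Q ω).card := by
  classical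
  set I : Finset (Fin L) := univ.filter fun i => ∀ j, j ≠ i → Disjoint (img (ω i)) (img (ω j))
    with hI
  have hmem : ∀ i, i ∈ I ↔ ∀ j, j ≠ i → Disjoint (img (ω i)) (img (ω j)) := by
    intro i
    rw [hI, mem_filter]
    simp
  have hne : ∀ a : ι → V, (img a).Nonempty := by
    intro a
    obtain ⟨x⟩ := (inferInstance : Nonempty ι)
    exact ⟨a x, mem_image_of_mem a (mem_univ x)⟩
  have hinj : Set.InjOn ω (I : Set (Fin L)) := by
    intro i hi j hj hij
    by_contra h
    have h1 := (hmem i).1 hi j (Ne.symm h)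
    rw [← hij, disjoint_self_iff_empty] at h1
    exact (hne (ω i)).ne_empty h1
  refine ⟨I.image ω, ?_, ?_, ?_⟩
  · refine card_image_le.trans ((card_le_univ I).trans ?_)
    rw [Fintype.card_fin]
  · intro a ha b hb hab
    obtain ⟨i, hi, rfl⟩ := mem_image.1 ha
    obtain ⟨j, hj, rfl⟩ := mem_image.1 hb
    exact (hmem i).1 hi j (fun h => hab (by rw [h]))
  · intro A
    have h1 : (univ.filter (fun i => ω i ∈ A)) ⊆
        (I.filter fun i => ω i ∈ A) ∪ (D5_Q ω).image Prod.fst := by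
      intro i hi
      rw [mem_filter] at hi
      rw [mem_union, mem_filter, mem_image]
      by_cases hiI : i ∈ I
      · exact Or.inl ⟨hiI, hi.2⟩
      · right
        rw [hmem] at hiI
        push Not at hiI
        obtain ⟨j, hj, hd⟩ := hiI
        refine ⟨(i, j), ?_, rfl⟩
        rw [D5_Q, mem_filter]
        exact ⟨mem_univ _, Ne.symm hj, hd⟩
    have h2 : (I.filter fun i => ω i ∈ A).card ≤ (I.image ω ∩ A).card := by
      have h3 : ((I.filter fun i => ω i ∈ A).image ω) ⊆ I.image ω ∩ A := by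
        intro a ha
        obtain ⟨i, hi, rfl⟩ := mem_image.1 ha
        rw [mem_filter] at hi
        exact mem_inter.2 ⟨mem_image_of_mem ω hi.1, hi.2⟩
      have h4 : ((I.filter fun i => ω i ∈ A).image ω).card = (I.filter fun i => ω i ∈ A).card := by
        apply card_image_of_injOn
        intro i hi j hj hij
        rw [coe_filter] at hi hj
        exact hinj hi.1 hj.1 hij
      rw [← h4]
      exact card_le_card h3
    calc (univ.filter (fun i => ω i ∈ A)).card ≤
        ((I.filter fun i => ω i ∈ A) ∪ (D5_Q ω).image Prod.fst).card := card_le_card h1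
      _ ≤ (I.filter fun i => ω i ∈ A).card + ((D5_Q ω).image Prod.fst).card := card_union_le _ _
      _ ≤ _ := Nat.add_le_add h2 card_image_le

end

theorem select (ι : Type) [Fintype ι] [DecidableEq ι] [Nonempty ι] (α c : ℝ) (hα : 0 < α)
    (hc : 0 < c) (hcα : c * (Fintype.card ι : ℝ) ^ 2 ≤ α / 16) (κ : ℕ) :
    ∃ n0 : ℕ, ∀ (V : Type) [Fintype V] [DecidableEq V], n0 ≤ Fintype.card V →
      ∀ (S : Type) [Fintype S], Fintype.card S ≤ Fintype.card V ^ κ →
      ∀ 𝒜 : S → Finset (ι → V),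
      (∀ s, α * (Fintype.card V : ℝ) ^ Fintype.card ι ≤ ((𝒜 s).card : ℝ)) →
      ∃ F : Finset (ι → V), (F.card : ℝ) ≤ c * Fintype.card V ∧
        (∀ a ∈ F, ∀ b ∈ F, a ≠ b → Disjoint (img a) (img b)) ∧
        ∀ s, α * c / 16 * Fintype.card V ≤ ((F ∩ 𝒜 s).card : ℝ) := by
  classical
  obtain ⟨n1, hn1⟩ := D5_lim κ (α * c / 16) (by positivity)
  refine ⟨max (n1 + 1) ⌈2 / c⌉₊, ?_⟩
  intro V _ _ hn S _ hS 𝒜 h𝒜
  obtain ⟨n, hnV⟩ : ∃ n : ℕ, n = Fintype.card V := ⟨_, rfl⟩
  obtain ⟨m, hmι⟩ : ∃ m : ℕ, m = Fintype.card ι := ⟨_, rfl⟩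
  have hsum := fun L => sum_meet (V := V) (ι := ι) L
  rw [← hnV] at hn hS h𝒜 ⊢
  rw [← hmι] at hcα h𝒜
  simp only [← hnV, ← hmι] at hsum
  have hn_pos : 0 < n := by
    have := le_of_max_le_left hn
    omega
  have hnr : (0 : ℝ) < n := by exact_mod_cast hn_pos
  have hcn : 2 / c ≤ n := (Nat.le_ceil _).trans (by exact_mod_cast le_of_max_le_right hn)
  have hcn1 : 1 ≤ c * n / 2 := by
    rw [div_le_iff₀ hc] at hcn
    linarith
  set L : ℕ := ⌊c * n⌋₊ with hL
  have hL1 : (L : ℝ) ≤ c * n := Nat.floor_le (by positivity)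
  have hL2 : c * n / 2 ≤ L := by
    have := Nat.lt_floor_add_one (c * n)
    rw [← hL] at this
    linarith
  have hLpos : (0 : ℝ) < L := by linarith
  set N : ℝ := (n : ℝ) ^ m with hN
  have hNpos : 0 < N := by positivity
  have hcardΩ : (Fintype.card (ι → V) : ℝ) = N := by
    rw [Fintype.card_fun, ← hnV, ← hmι, hN]
    push_cast
    rfl
  -- the bad set for the Chernoff bound
  set B1 : Finset (Fin L → ι → V) := univ.biUnion fun s : S => univ.filter fun ω =>
    ((univ.filter (fun i => ω i ∈ 𝒜 s)).card : ℝ) < α * L / 2 with hB1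
  have hB1c : (B1.card : ℝ) < N ^ L / 2 := by
    have h1 : (B1.card : ℝ) ≤ ∑ s : S, (Real.exp (-(α * L / 8)) * N ^ L) := by
      have h2 : (B1.card : ℝ) ≤ ∑ s : S, (((univ.filter fun ω : Fin L → ι → V =>
          ((univ.filter (fun i => ω i ∈ 𝒜 s)).card : ℝ) < α * L / 2).card : ℕ) : ℝ) := by
        rw [hB1]
        exact_mod_cast card_biUnion_le
      refine h2.trans (sum_le_sum fun s _ => ?_)
      have h3 := chernoff (𝒜 s) α hα.le (by rw [hcardΩ]; exact h𝒜 s) L
      rw [hcardΩ] at h3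
      exact h3
    rw [sum_const, card_univ, nsmul_eq_mul] at h1
    have h4 : (Fintype.card S : ℝ) ≤ (n : ℝ) ^ κ := by exact_mod_cast hS
    have h5 : Real.exp (-(α * L / 8)) ≤ Real.exp (-(α * c / 16 * n)) := by
      rw [Real.exp_le_exp, neg_le_neg_iff]
      have := mul_le_mul_of_nonneg_left hL2 hα.le
      linarith
    have h6 := hn1 n ((Nat.le_succ n1).trans (le_of_max_le_left hn))
    have h7 : (0 : ℝ) < N ^ L := by positivity
    calc (B1.card : ℝ) ≤ (Fintype.card S : ℝ) * (Real.exp (-(α * L / 8)) * N ^ L) := h1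
      _ ≤ (n : ℝ) ^ κ * (Real.exp (-(α * c / 16 * n)) * N ^ L) := by
        apply mul_le_mul h4 _ (by positivity) (by positivity)
        exact mul_le_mul_of_nonneg_right h5 h7.le
      _ = ((n : ℝ) ^ κ * Real.exp (-(α * c / 16 * n))) * N ^ L := by ring
      _ < 1 / 2 * N ^ L := mul_lt_mul_of_pos_right h6 h7
      _ = _ := by ring
  -- the bad set for the collisions
  set B2 : Finset (Fin L → ι → V) := univ.filter fun ω => α * L / 8 < ((D5_Q ω).card : ℝ)
    with hB2
  have hB2c : (B2.card : ℝ) ≤ N ^ L / 2 := by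
    have h1 : (B2.card : ℝ) * (α * L / 8) ≤ ∑ ω : Fin L → ι → V, ((D5_Q ω).card : ℝ) := by
      calc (B2.card : ℝ) * (α * L / 8) = ∑ ω ∈ B2, (α * L / 8) := by
            rw [sum_const, nsmul_eq_mul]
        _ ≤ ∑ ω ∈ B2, ((D5_Q ω).card : ℝ) := by
            refine sum_le_sum fun ω hω => ?_
            rw [hB2, mem_filter] at hω
            exact hω.2.le
        _ ≤ _ := sum_le_sum_of_subset_of_nonneg (subset_univ _) fun _ _ _ => Nat.cast_nonneg _
    have h2 : (∑ ω : Fin L → ι → V, ((D5_Q ω).card : ℝ)) * n ≤ L ^ 2 * m ^ 2 * N ^ L := by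
      have h3 := hsum L
      have h4 : (((∑ ω : Fin L → ι → V, (D5_Q ω).card) * n : ℕ) : ℝ) ≤
          ((L ^ 2 * m ^ 2 * (n ^ m) ^ L : ℕ) : ℝ) := by
        exact_mod_cast h3
      push_cast at h4
      exact h4
    have h5 : (B2.card : ℝ) * (α * L / 8) * n ≤ L ^ 2 * m ^ 2 * N ^ L :=
      (mul_le_mul_of_nonneg_right h1 hnr.le).trans h2
    have h7 : (0 : ℝ) < N ^ L := by positivity
    -- L² m² N^L ≤ L * (c n) * m² N^L ≤ L n (α/16) N^L
    have h8 : (L : ℝ) ^ 2 * m ^ 2 * N ^ L ≤ L * n * (α / 16) * N ^ L := by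
      apply mul_le_mul_of_nonneg_right _ h7.le
      calc (L : ℝ) ^ 2 * m ^ 2 = L * (L * m ^ 2) := by ring
        _ ≤ L * ((c * n) * m ^ 2) := by
          apply mul_le_mul_of_nonneg_left _ hLpos.le
          exact mul_le_mul_of_nonneg_right hL1 (by positivity)
        _ = L * n * (c * m ^ 2) := by ring
        _ ≤ L * n * (α / 16) := mul_le_mul_of_nonneg_left hcα (by positivity)
    have h9 : (B2.card : ℝ) * (α * L * n / 8) ≤ (N ^ L / 2) * (α * L * n / 8) := by
      calc (B2.card : ℝ) * (α * L * n / 8) = (B2.card : ℝ) * (α * L / 8) * n := by ring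
        _ ≤ L * n * (α / 16) * N ^ L := h5.trans h8
        _ = _ := by ring
    exact le_of_mul_le_mul_right h9 (by positivity)
  -- a good sequence
  have hex : ∃ ω : Fin L → ι → V, ω ∉ B1 ∧ ω ∉ B2 := by
    by_contra hcon
    push Not at hcon
    have h1 : (univ : Finset (Fin L → ι → V)) ⊆ B1 ∪ B2 := by
      intro ω _
      rw [mem_union]
      by_cases h : ω ∈ B1
      · exact Or.inl h
      · exact Or.inr (hcon ω h)
    have h2 := (card_le_card h1).trans (card_union_le _ _)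
    rw [card_univ, Fintype.card_fun, Fintype.card_fin] at h2
    have h3 : (((Fintype.card (ι → V)) ^ L : ℕ) : ℝ) ≤ ((B1.card + B2.card : ℕ) : ℝ) := by
      exact_mod_cast h2
    push_cast at h3
    have h4 : ((Fintype.card (ι → V) : ℕ) : ℝ) = N := hcardΩ
    rw [Fintype.card_fun] at h4 h3
    push_cast at h4 h3
    rw [h4] at h3
    linarith
  obtain ⟨ω, hω1, hω2⟩ := hex
  obtain ⟨F, hF1, hF2, hF3⟩ := D5_good ω
  refine ⟨F, ?_, hF2, fun s => ?_⟩
  · have : (F.card : ℝ) ≤ L := by exact_mod_cast hF1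
    exact this.trans hL1
  · have h1 : α * L / 2 ≤ ((univ.filter (fun i => ω i ∈ 𝒜 s)).card : ℝ) := by
      by_contra h
      push Not at h
      apply hω1
      rw [hB1, mem_biUnion]
      exact ⟨s, mem_univ _, mem_filter.2 ⟨mem_univ _, h⟩⟩
    have h2 : ((D5_Q ω).card : ℝ) ≤ α * L / 8 := by
      by_contra h
      push Not at h
      exact hω2 (mem_filter.2 ⟨mem_univ _, h⟩)
    have h3 : ((univ.filter (fun i => ω i ∈ 𝒜 s)).card : ℝ) ≤
        (F ∩ 𝒜 s).card + (D5_Q ω).card := by exact_mod_cast hF3 (𝒜 s)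
    have h4 := mul_le_mul_of_nonneg_left hL2 hα.le
    have h5 : 0 < α * c * n := by positivity
    nlinarith

end Pool.Agent.Lib.H3MT.AB
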