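import Pool.Agent.Lib.H3MT.D0

/-!
# H3MT chunk D6 (M): perfect matchings of sets, perfect matchings of absorbers

(1) `PM.biUnion`: the union of pairwise disjoint sets with perfect matchings has one (union of the matchings; the
edges of `M_i` are subsets of `S i`). `PM.union` is the case of two sets.
(2) `Absorbs.pm`: the `r` edges `insert (a (none, j)) (img (fun i => a (some j, i)))` are pairwise disjoint (`a` is
injective) and their union is `img a`. (`r ≥ 1` is not needed: for `r = 0` both sides are empty.)
(3) `Absorbs.pm_insert`: the `r + 1` edges `insert t0 (img (fun j => a (none, j)))` and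
`insert (t j) (img (fun i => a (some j, i)))` are pairwise disjoint and their union is `img a ∪ insert t0 (img t)`.
-/

open Finset

namespace Pool.Agent.Lib.H3MT.AB

section

variable {V : Type} [Fintype V] [DecidableEq V]

theorem PM.biUnion {H : Finset (Finset V)} {κ : Type*} [DecidableEq κ] (I : Finset κ)
    (S : κ → Finset V) (h : ∀ i ∈ I, PM H (S i))
    (hd : ∀ i ∈ I, ∀ j ∈ I, i ≠ j → Disjoint (S i) (S j)) : PM H (I.biUnion S) := by
  unfold PM at h
  choose! M hM1 hM2 hM3 using h
  refine ⟨I.biUnion M, biUnion_subset.2 hM1, ?_, ?_⟩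
  · intro e he f hf hef
    rw [Finset.mem_coe, mem_biUnion] at he hf
    obtain ⟨i, hi, he⟩ := he
    obtain ⟨j, hj, hf⟩ := hf
    by_cases hij : i = j
    · subst hij
      exact hM2 i hi he hf hef
    · have h1 : e ⊆ S i := by
        rw [← hM3 i hi]
        exact subset_biUnion_of_mem id he
      have h2 : f ⊆ S j := by
        rw [← hM3 j hj]
        exact subset_biUnion_of_mem id hf
      exact (hd i hi j hj hij).mono h1 h2
  · rw [Finset.biUnion_biUnion]
    exact Finset.biUnion_congr rfl hM3

theorem PM.union {H : Finset (Finset V)} {S T : Finset V} (hS : PM H S) (hT : PM H T)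
    (hd : Disjoint S T) : PM H (S ∪ T) := by
  have h1 := PM.biUnion (H := H) (univ : Finset Bool) (fun b => if b then S else T)
    (by
      intro b _
      cases b
      · exact hT
      · exact hS)
    (by
      intro b _ c _ hbc
      cases b <;> cases c
      · exact absurd rfl hbc
      · exact hd.symm
      · exact hd
      · exact absurd rfl hbc)
  have h2 : (univ : Finset Bool).biUnion (fun b => if b then S else T) = S ∪ T := by
    ext x
    simp [or_comm]
  rwa [h2] at h1

theorem D6_single {H : Finset (Finset V)} {e : Finset V} (he : e ∈ H) : PM H e := by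
  refine ⟨{e}, Finset.singleton_subset_iff.2 he, ?_, by simp⟩
  rw [IsMatching, coe_singleton]
  exact Set.pairwiseDisjoint_singleton e id

theorem D6_mem {ι : Type*} [Fintype ι] (a : ι → V) (x : V) : x ∈ img a ↔ ∃ i, a i = x := by
  rw [img, mem_image]
  constructor
  · rintro ⟨i, -, h⟩
    exact ⟨i, h⟩
  · rintro ⟨i, h⟩
    exact ⟨i, mem_univ _, h⟩

theorem Absorbs.pm {r : ℕ} {H : Finset (Finset V)} {t0 : V} {t : Fin r → V} {a : Idx r → V}
    (h : Absorbs r H t0 t a) : PM H (img a) := by
  obtain ⟨hinj, -, -, -, hrow⟩ := h
  have h1 : PM H ((univ : Finset (Fin r)).biUnion fun j =>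
      insert (a (none, j)) (img fun i => a (some j, i))) := by
    apply PM.biUnion
    · intro j _
      have h2 := (hrow j).1
      rw [link, mem_filter] at h2
      exact D6_single h2.2.2.2
    · intro j _ j' _ hj
      rw [Finset.disjoint_left]
      intro x hx hx'
      rw [mem_insert, D6_mem] at hx hx'
      rcases hx with rfl | ⟨i, rfl⟩
      · rcases hx' with hx' | ⟨i', hx'⟩
        · exact hj (congrArg Prod.snd (hinj hx'))
        · have := congrArg Prod.fst (hinj hx')
          simp at this
      · rcases hx' with hx' | ⟨i', hx'⟩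
        · have := congrArg Prod.fst (hinj hx')
          simp at this
        · have := congrArg Prod.fst (hinj hx')
          exact hj (Option.some_injective _ this).symm
  have h2 : ((univ : Finset (Fin r)).biUnion fun j =>
      insert (a (none, j)) (img fun i => a (some j, i))) = img a := by
    ext x
    rw [mem_biUnion, D6_mem]
    constructor
    · rintro ⟨j, -, hx⟩
      rw [mem_insert, D6_mem] at hx
      rcases hx with rfl | ⟨i, rfl⟩
      · exact ⟨_, rfl⟩
      · exact ⟨_, rfl⟩
    · rintro ⟨⟨o, i⟩, rfl⟩
      cases o with
      | none => exact ⟨i, mem_univ _, mem_insert_self _ _⟩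
      | some j =>
        refine ⟨j, mem_univ _, ?_⟩
        rw [mem_insert, D6_mem]
        exact Or.inr ⟨i, rfl⟩
  rwa [h2] at h1

theorem Absorbs.pm_insert {r : ℕ} {H : Finset (Finset V)} {t0 : V} {t : Fin r → V}
    {a : Idx r → V} (h : Absorbs r H t0 t a) (h0 : t0 ∉ img t) (ht : Function.Injective t) :
    PM H (img a ∪ insert t0 (img t)) := by
  obtain ⟨hinj, ha0, hat, hnone, hrow⟩ := h
  rw [D6_mem] at h0 ha0
  push_neg at h0 ha0
  have hat' : ∀ j p, a p ≠ t j := by
    intro j p hp
    apply hat j
    rw [D6_mem]
    exact ⟨p, hp⟩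
  have hTinj : Function.Injective (fun o : Option (Fin r) => o.elim t0 t) := by
    intro o o' hoo
    cases o with
    | none =>
      cases o' with
      | none => rfl
      | some j => exact absurd hoo.symm (h0 j)
    | some j =>
      cases o' with
      | none => exact absurd hoo (h0 j)
      | some j' => exact congrArg some (ht hoo)
  have hTa : ∀ (o : Option (Fin r)) p, a p ≠ o.elim t0 t := by
    intro o p
    cases o with
    | none => exact ha0 p
    | some j => exact hat' j p
  have h1 : PM H ((univ : Finset (Option (Fin r))).biUnion fun o =>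
      insert (o.elim t0 t) (img fun i => a (o, i))) := by
    apply PM.biUnion
    · intro o _
      apply D6_single
      cases o with
      | none =>
        rw [link, mem_filter] at hnone
        exact hnone.2.2.2
      | some j =>
        have h2 := (hrow j).2
        rw [link, mem_filter] at h2
        exact h2.2.2.2
    · intro o _ o' _ ho
      rw [Finset.disjoint_left]
      intro x hx hx'
      rw [mem_insert, D6_mem] at hx hx'
      rcases hx with rfl | ⟨i, rfl⟩
      · rcases hx' with hx' | ⟨i', hx'⟩
        · exact ho (hTinj hx')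
        · exact hTa o _ hx'
      · rcases hx' with hx' | ⟨i', hx'⟩
        · exact hTa o' _ hx'
        · exact ho (congrArg Prod.fst (hinj hx')).symm
  have h2 : ((univ : Finset (Option (Fin r))).biUnion fun o =>
      insert (o.elim t0 t) (img fun i => a (o, i))) = img a ∪ insert t0 (img t) := by
    ext x
    rw [mem_biUnion, mem_union, mem_insert, D6_mem, D6_mem]
    constructor
    · rintro ⟨o, -, hx⟩
      rw [mem_insert, D6_mem] at hx
      rcases hx with rfl | ⟨i, rfl⟩
      · cases o with
        | none => exact Or.inr (Or.inl rfl)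
        | some j => exact Or.inr (Or.inr ⟨j, rfl⟩)
      · exact Or.inl ⟨_, rfl⟩
    · rintro (⟨⟨o, i⟩, rfl⟩ | rfl | ⟨j, rfl⟩)
      · refine ⟨o, mem_univ _, ?_⟩
        rw [mem_insert, D6_mem]
        exact Or.inr ⟨i, rfl⟩
      · exact ⟨none, mem_univ _, mem_insert_self _ _⟩
      · exact ⟨some j, mem_univ _, mem_insert_self _ _⟩
  rwa [h2] at h1

end

end Pool.Agent.Lib.H3MT.AB
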