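import Pool.Agent.Lib.H3MT.D0

/-!
# H3MT chunk D8 (S/M): partition into tuples, distinct choice

(1) `partition_tuples`: a set `W` with `(r + 1) q` elements is enumerated by `Fin q × Fin (r + 1)`
(`Finset.equivFinOfCardEq`, `finProdFinEquiv`); `T0 i` = element number `(i, 0)`, `T i j` = element number `(i, j.succ)`.
(2) `distinct_choice`: Hall's theorem `Finset.all_card_le_biUnion_card_iff_exists_injective`: all the sets `B i`,
`i : Fin q`, have at least `q` elements.
-/

open Finset

namespace Pool.Agent.Lib.H3MT.AB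

section

variable {V : Type} [Fintype V] [DecidableEq V]

theorem partition_tuples (r q : ℕ) (W : Finset V) (hW : W.card = (r + 1) * q) :
    ∃ (T0 : Fin q → V) (T : Fin q → Fin r → V), (∀ i, T0 i ∉ img (T i)) ∧
      (∀ i, Function.Injective (T i)) ∧
      (∀ i j, i ≠ j → Disjoint (insert (T0 i) (img (T i))) (insert (T0 j) (img (T j)))) ∧
      univ.biUnion (fun i => insert (T0 i) (img (T i))) = W := by
  have e : (Fin q × Fin (r + 1)) ≃ W :=
    finProdFinEquiv.trans (W.equivFinOfCardEq (by rw [hW, mul_comm])).symm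
  have hmem : ∀ (i : Fin q) (x : V),
      x ∈ insert ((e (i, 0) : W) : V) (img fun j : Fin r => ((e (i, j.succ) : W) : V)) ↔
        ∃ j : Fin (r + 1), ((e (i, j) : W) : V) = x := by
    intro i x
    rw [mem_insert, img, mem_image, Fin.exists_fin_succ]
    constructor
    · rintro (h | ⟨j, -, h⟩)
      · exact Or.inl h.symm
      · exact Or.inr ⟨j, h⟩
    · rintro (h | ⟨j, h⟩)
      · exact Or.inl h.symm
      · exact Or.inr ⟨j, mem_univ _, h⟩
  refine ⟨fun i => (e (i, 0) : W), fun i j => (e (i, j.succ) : W), ?_, ?_, ?_, ?_⟩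
  · intro i h
    rw [img, mem_image] at h
    obtain ⟨j, -, hj⟩ := h
    have h1 := e.injective (Subtype.ext hj)
    have h2 := congrArg Prod.snd h1
    exact Fin.succ_ne_zero j h2
  · intro i j j' h
    have h1 := e.injective (Subtype.ext h)
    have h2 := congrArg Prod.snd h1
    exact Fin.succ_injective _ h2
  · intro i i' hi
    rw [Finset.disjoint_left]
    intro x hx hx'
    rw [hmem] at hx hx'
    obtain ⟨j, hj⟩ := hx
    obtain ⟨j', hj'⟩ := hx'
    have h1 := e.injective (Subtype.ext (hj.trans hj'.symm))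
    exact hi (congrArg Prod.fst h1)
  · ext x
    rw [mem_biUnion]
    constructor
    · rintro ⟨i, -, hx⟩
      rw [hmem] at hx
      obtain ⟨j, rfl⟩ := hx
      exact (e (i, j)).2
    · intro hx
      obtain ⟨⟨i, j⟩, hij⟩ := e.surjective ⟨x, hx⟩
      refine ⟨i, mem_univ _, ?_⟩
      rw [hmem]
      exact ⟨j, by rw [hij]⟩

end

theorem distinct_choice {β : Type*} [DecidableEq β] (q : ℕ) (B : Fin q → Finset β)
    (h : ∀ i, q ≤ (B i).card) : ∃ f : Fin q → β, Function.Injective f ∧ ∀ i, f i ∈ B i := by
  rw [← Finset.all_card_le_biUnion_card_iff_exists_injective]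
  intro s
  rcases s.eq_empty_or_nonempty with rfl | ⟨i, hi⟩
  · simp
  · calc s.card ≤ q := by
          have := card_le_univ s
          rwa [Fintype.card_fin] at this
      _ ≤ (B i).card := h i
      _ ≤ (s.biUnion B).card := card_le_card (subset_biUnion_of_mem B hi)

end Pool.Agent.Lib.H3MT.AB
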