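import Pool.Agent.Lib.H3MT.D1
import Pool.Agent.Lib.H3MT.D3
import Pool.Agent.Lib.H3MT.D5
import Pool.Agent.Lib.H3MT.D6
import Pool.Agent.Lib.H3MT.D8

/-!
# H3MT chunk D7 (M): the absorbing lemma

Let `k = r + 1`, `n = Fintype.card V`, `m = (r + 1) r`. `link_large` and `many_absorbers` give
`α n^m` absorbers, `α = γ^r / 4`, for each `(t0, t)`. Apply `select` with `S = V × (Fin r → V)` (`n^(r+1)` elements),
`𝒜 (t0, t) = {a | Absorbs r H t0 t a}`, `c = min (α / (16 m²)) (ε / m)`: get `F`. Let `F'` be the set of the `a ∈ F` which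
absorb some `(t0, t)` and `A` the union of the `img a`, `a ∈ F'`; `A.card ≤ m F.card ≤ ε n`. Let `β = α c / 16`.
If `W` is disjoint from `A`, `k ∣ W.card`, `W.card ≤ β n`: `W.card = (r+1) q`; split `W` by `partition_tuples` into `q` tuples
`(T0 i, T i)`; each has at least `β n ≥ q` absorbers in `F'`; `distinct_choice` gives distinct absorbers `f i ∈ F'`.
`A ∪ W` is the disjoint union of the sets `img (f i) ∪ insert (T0 i) (img (T i))` (`Absorbs.pm_insert`) and of the `img a`
for the other `a ∈ F'` (`Absorbs.pm`); conclude with `PM.biUnion` and `PM.union`.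
-/

open Finset

namespace Pool.Agent.Lib.H3MT.AB

/-- The absorbing lemma (Han, Person, Schacht). -/
theorem absorbing (r : ℕ) (hr : 1 ≤ r) (γ : ℝ) (hγ : 0 < γ) (hγ1 : γ ≤ 1 / 2) (ε : ℝ)
    (hε : 0 < ε) :
    ∃ β : ℝ, 0 < β ∧ ∃ n0 : ℕ, ∀ (V : Type) [Fintype V] [DecidableEq V],
      n0 ≤ Fintype.card V → ∀ H : Finset (Finset V), Uniform (r + 1) H →
      (∀ v, (1 / 2 + γ) * ((Fintype.card V - 1).choose r : ℝ) ≤ deg H v) →
      ∃ A : Finset V, (A.card : ℝ) ≤ ε * Fintype.card V ∧
        ∀ W : Finset V, Disjoint W A → (W.card : ℝ) ≤ β * Fintype.card V → r + 1 ∣ W.card →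
          PM H (A ∪ W) := by
  classical
  haveI : NeZero r := ⟨by omega⟩
  haveI : Nonempty (Idx r) := ⟨(none, 0)⟩
  set m : ℕ := Fintype.card (Idx r) with hm
  have hm0 : 0 < m := Fintype.card_pos
  have hmr : (0 : ℝ) < m := by exact_mod_cast hm0
  set α : ℝ := γ ^ r / 4 with hα
  have hα0 : 0 < α := by positivity
  set c : ℝ := min (α / (16 * (m : ℝ) ^ 2)) (ε / m) with hc
  have hc0 : 0 < c := lt_min (by positivity) (by positivity)
  have hc1 : c * (m : ℝ) ^ 2 ≤ α / 16 := by
    have : c ≤ α / (16 * (m : ℝ) ^ 2) := min_le_left _ _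
    calc c * (m : ℝ) ^ 2 ≤ α / (16 * (m : ℝ) ^ 2) * (m : ℝ) ^ 2 := by gcongr
      _ = α / 16 := by field_simp
  have hc2 : c * m ≤ ε := by
    have : c ≤ ε / m := min_le_right _ _
    calc c * m ≤ ε / m * m := by gcongr
      _ = ε := by field_simp
  obtain ⟨n1, h1⟩ := link_large r γ hγ hγ1
  obtain ⟨n2, h2⟩ := many_absorbers r hr γ hγ
  obtain ⟨n3, h3⟩ := select (Idx r) α c hα0 hc0 hc1 (r + 1)
  refine ⟨α * c / 16, by positivity, max n1 (max n2 n3), fun V _ _ hn H hH hd => ?_⟩
  have hl := h1 V (le_trans (le_max_left _ _) hn) H hH hd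
  have ha := h2 V (le_trans (le_trans (le_max_left _ _) (le_max_right _ _)) hn) H hl
  obtain ⟨F, hF1, hF2, hF3⟩ := h3 V (le_trans (le_trans (le_max_right _ _) (le_max_right _ _)) hn)
    (V × (Fin r → V)) (by simp [pow_succ, mul_comm])
    (fun p => univ.filter (fun a : Idx r → V => Absorbs r H p.1 p.2 a))
    (fun p => by
      have := ha p.1 p.2
      rw [hα]
      convert this using 2)
  set F' : Finset (Idx r → V) :=
    F.filter (fun a => ∃ p : V × (Fin r → V), Absorbs r H p.1 p.2 a) with hF'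
  set A : Finset V := F'.biUnion img with hA
  have hsub : F' ⊆ F := filter_subset _ _
  refine ⟨A, ?_, fun W hWA hWc hWk => ?_⟩
  · have h5 : A.card ≤ F'.card * m := by
      refine card_biUnion_le_card_mul _ _ _ (fun a _ => ?_)
      exact card_image_le.trans (by rw [card_univ])
    have h6 : F'.card ≤ F.card := card_le_card hsub
    have h7 : (A.card : ℝ) ≤ F.card * m := by
      have : A.card ≤ F.card * m := h5.trans (Nat.mul_le_mul_right _ h6)
      exact_mod_cast this
    have h8 : (0 : ℝ) ≤ Fintype.card V := by positivity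
    calc (A.card : ℝ) ≤ F.card * m := h7
      _ ≤ (c * Fintype.card V) * m := by gcongr
      _ = (c * m) * Fintype.card V := by ring
      _ ≤ ε * Fintype.card V := by gcongr
  · obtain ⟨q, hq⟩ := hWk
    obtain ⟨T0, T, hT1, hT2, hT3, hT4⟩ := partition_tuples r q W hq
    have hqW : q ≤ W.card := by
      rw [hq]; exact Nat.le_mul_of_pos_left _ (by omega)
    obtain ⟨f, hf1, hf2⟩ := distinct_choice q
      (fun i => F ∩ univ.filter (fun a : Idx r → V => Absorbs r H (T0 i) (T i) a)) (fun i => by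
        have h9 := hF3 (T0 i, T i)
        have h10 : (q : ℝ) ≤ W.card := by exact_mod_cast hqW
        have h11 : (q : ℝ) ≤
            ((F ∩ univ.filter (fun a : Idx r → V => Absorbs r H (T0 i) (T i) a)).card : ℝ) :=
          le_trans h10 (le_trans hWc h9)
        exact_mod_cast h11)
    have hfF : ∀ i, f i ∈ F := fun i => (mem_inter.1 (hf2 i)).1
    have hfA : ∀ i, Absorbs r H (T0 i) (T i) (f i) := fun i =>
      (mem_filter.1 (mem_inter.1 (hf2 i)).2).2
    have hfF' : ∀ i, f i ∈ F' := fun i =>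
      mem_filter.2 ⟨hfF i, ⟨(T0 i, T i), hfA i⟩⟩
    have himg : ∀ a ∈ F', img a ⊆ A := fun a h => subset_biUnion_of_mem img h
    have hXW : ∀ i, insert (T0 i) (img (T i)) ⊆ W := fun i => by
      rw [← hT4]
      exact subset_biUnion_of_mem (fun i => insert (T0 i) (img (T i))) (mem_univ i)
    have hsplit : A ∪ W = (F' \ univ.image f).biUnion img ∪
        (univ : Finset (Fin q)).biUnion (fun i => img (f i) ∪ insert (T0 i) (img (T i))) := by
      apply Subset.antisymm
      · apply union_subset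
        · intro x hx
          obtain ⟨a, haF, hxa⟩ := mem_biUnion.1 hx
          by_cases hai : a ∈ univ.image f
          · obtain ⟨i, -, rfl⟩ := mem_image.1 hai
            exact mem_union_right _ (mem_biUnion.2 ⟨i, mem_univ _, mem_union_left _ hxa⟩)
          · exact mem_union_left _ (mem_biUnion.2 ⟨a, mem_sdiff.2 ⟨haF, hai⟩, hxa⟩)
        · intro x hx
          rw [← hT4] at hx
          obtain ⟨i, -, hxi⟩ := mem_biUnion.1 hx
          exact mem_union_right _ (mem_biUnion.2 ⟨i, mem_univ _, mem_union_right _ hxi⟩)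
      · apply union_subset
        · intro x hx
          obtain ⟨a, haF, hxa⟩ := mem_biUnion.1 hx
          exact mem_union_left _ (himg a (mem_sdiff.1 haF).1 hxa)
        · intro x hx
          obtain ⟨i, -, hxi⟩ := mem_biUnion.1 hx
          rcases mem_union.1 hxi with h | h
          · exact mem_union_left _ (himg _ (hfF' i) h)
          · exact mem_union_right _ (hXW i h)
    rw [hsplit]
    have hWA' : Disjoint A W := hWA.symm
    refine PM.union (PM.biUnion _ _ ?_ ?_) (PM.biUnion _ _ ?_ ?_) ?_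
    · intro a haF
      obtain ⟨p, hp⟩ := (mem_filter.1 (mem_sdiff.1 haF).1).2
      exact hp.pm
    · intro a ha b hb hab
      exact hF2 a (hsub (mem_sdiff.1 ha).1) b (hsub (mem_sdiff.1 hb).1) hab
    · intro i _
      exact (hfA i).pm_insert (hT1 i) (hT2 i)
    · intro i _ j _ hij
      have e1 : Disjoint (img (f i)) (img (f j)) :=
        hF2 _ (hfF i) _ (hfF j) (fun h => hij (hf1 h))
      have e2 : Disjoint (img (f i)) (insert (T0 j) (img (T j))) :=
        (hWA'.mono_left (himg _ (hfF' i))).mono_right (hXW j)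
      have e3 : Disjoint (insert (T0 i) (img (T i))) (img (f j)) :=
        ((hWA'.mono_left (himg _ (hfF' j))).mono_right (hXW i)).symm
      have e4 := hT3 i j hij
      rw [disjoint_union_left, disjoint_union_right, disjoint_union_right]
      exact ⟨⟨e1, e2⟩, ⟨e3, e4⟩⟩
    · rw [disjoint_biUnion_left]
      intro a ha
      rw [disjoint_biUnion_right]
      intro i _
      have haF := (mem_sdiff.1 ha).1
      have hai := (mem_sdiff.1 ha).2
      rw [disjoint_union_right]
      refine ⟨hF2 a (hsub haF) _ (hfF i) (fun h => hai (mem_image.2 ⟨i, mem_univ _, h.symm⟩)), ?_⟩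
      exact (hWA'.mono_left (himg _ haF)).mono_right (hXW i)

/-- Part B4. (Replace `γ` by `min γ (1/2)`; the matching is the one of `A = A ∪ ∅`.) -/
theorem statementB4 : StatementB4 := by
  intro k γ μ hk hγ hμ
  obtain ⟨r, rfl⟩ : ∃ r, k = r + 1 := ⟨k - 1, by omega⟩
  obtain ⟨β, hβ, n0, h⟩ := absorbing r (by omega) (min γ (1 / 2)) (by positivity)
    (min_le_right _ _) μ hμ
  refine ⟨β, hβ, n0, fun V _ _ H hn hH hd => ?_⟩
  obtain ⟨A, hA, hW⟩ := h V hn H hH (fun v => by
    refine le_trans ?_ (hd v)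
    have : min γ (1 / 2) ≤ γ := min_le_left _ _
    have h0 : (0 : ℝ) ≤ ((Fintype.card V - 1).choose r : ℝ) := by positivity
    simp only [Nat.add_sub_cancel]
    nlinarith)
  obtain ⟨M, hM, hdis, hun⟩ := hW ∅ (by simp) (by simp; positivity) (by simp)
  rw [union_empty] at hun
  refine ⟨M, hM, hdis, by rw [hun]; exact hA, fun W hWA hWc hWk => ?_⟩
  rw [hun] at hWA ⊢
  exact hW W hWA hWc hWk

end Pool.Agent.Lib.H3MT.AB
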