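import Mathlib
import Pool.Agent.Lib.H3MT.Defs
import Pool.Agent.Lib.Helper4.BF.LP

/-!
# H3MT, part B1: duality for fractional matchings with capacities
-/

open Finset

namespace Pool.Agent.Lib.H3MT.FC

/-- Duality for fractional matchings with capacity `cap` on every edge. -/
theorem lp_cap {V : Type} [Fintype V] [DecidableEq V] (H : Finset (Finset V)) (cap L : ℝ)
    (hcap : 0 < cap) :
    (∃ w : Finset V → ℝ, (∀ e ∈ H, 0 ≤ w e) ∧ (∀ e ∈ H, w e ≤ cap) ∧
      (∀ v, ∑ e ∈ H with v ∈ e, w e ≤ 1) ∧ L ≤ ∑ e ∈ H, w e) ∨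
    ∃ u : V → ℝ, (∀ v, 0 ≤ u v) ∧
      ∑ v, u v + cap * ∑ e ∈ H, max 0 (1 - ∑ v ∈ e, u v) < L := by
  classical
  by_cases hH : H.Nonempty
  swap
  · rw [not_nonempty_iff_eq_empty] at hH
    subst hH
    by_cases hL : L ≤ 0
    · left
      exact ⟨fun _ => 0, by simp, by simp, by simp, by simpa using hL⟩
    · right
      refine ⟨fun _ => 0, by simp, ?_⟩
      simpa using lt_of_not_ge hL
  obtain ⟨e0, he0⟩ := hH
  have : Nonempty {e // e ∈ H} := ⟨⟨e0, he0⟩⟩
  have : Nonempty (V ⊕ {e // e ∈ H}) := ⟨Sum.inr ⟨e0, he0⟩⟩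
  let A : {e // e ∈ H} → (V ⊕ {e // e ∈ H}) → ℝ := fun e j =>
    match j with
    | Sum.inl v => if v ∈ e.1 then 1 else 0
    | Sum.inr e' => if e = e' then 1 / cap else 0
  obtain ⟨k, w, y, hk, hw, hy, hwk, hyk, h1, h2⟩ :=
    Pool.Agent.Helper4.BF.lp_pair A
      (by
        intro i j
        rcases j with v | e'
        · simp only [A]; split_ifs <;> norm_num
        · simp only [A]; split_ifs <;> positivity)
      (by
        intro i
        refine ⟨Sum.inr i, ?_⟩
        simp only [A, if_true]
        positivity)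
  by_cases hL : L ≤ k
  · left
    refine ⟨fun e => if h : e ∈ H then w ⟨e, h⟩ else 0, ?_, ?_, ?_, ?_⟩
    · intro e he
      simp only [he, dif_pos]
      exact hw _
    · intro e he
      simp only [he, dif_pos]
      have := h1 (Sum.inr ⟨e, he⟩)
      simp only [A] at this
      rw [Finset.sum_eq_single (⟨e, he⟩ : {e // e ∈ H})] at this
      · simp only [if_true] at this
        rw [mul_one_div, div_le_one hcap] at this
        exact this
      · intro b _ hb
        simp [hb]
      · simp
    · intro v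
      have := h1 (Sum.inl v)
      simp only [A] at this
      refine le_trans (le_of_eq ?_) this
      rw [Finset.sum_filter, ← Finset.sum_coe_sort H]
      refine Finset.sum_congr rfl fun e _ => ?_
      by_cases hv : v ∈ e.1
      · simp [hv, e.2]
      · simp [hv]
    · refine hL.trans (le_of_eq ?_)
      rw [← hwk, ← Finset.sum_coe_sort H]
      refine Finset.sum_congr rfl fun e _ => ?_
      simp [e.2]
  · right
    push Not at hL
    refine ⟨fun v => y (Sum.inl v), fun v => hy _, ?_⟩
    refine lt_of_le_of_lt ?_ hL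
    rw [← hyk, Fintype.sum_sum_type]
    gcongr
    rw [← Finset.sum_coe_sort H, Finset.mul_sum]
    refine Finset.sum_le_sum fun e _ => ?_
    have := h2 e
    rw [Fintype.sum_sum_type] at this
    simp only [A] at this
    have h3 : ∑ v, (if v ∈ e.1 then (1:ℝ) else 0) * y (Sum.inl v) = ∑ v ∈ e.1, y (Sum.inl v) := by
      simp [← Finset.sum_filter]
    have h4 : ∑ e', (if e = e' then 1 / cap else 0) * y (Sum.inr e') = 1 / cap * y (Sum.inr e) := by
      rw [Finset.sum_eq_single e]
      · simp
      · intro b _ hb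
        simp [Ne.symm hb]
      · simp
    rw [h3, h4] at this
    have h5 : cap * (1 / cap * y (Sum.inr e)) = y (Sum.inr e) := by
      field_simp
    have h6 := mul_le_mul_of_nonneg_left this hcap.le
    rw [mul_add, h5] at h6
    rcases le_total (1 - ∑ v ∈ e.1, y (Sum.inl v)) 0 with h | h
    · rw [max_eq_left h, mul_zero]
      exact hy _
    · rw [max_eq_right h]
      linarith

end Pool.Agent.Lib.H3MT.FC
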