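import Mathlib
import Pool.Agent.Lib.H3MT.Defs
import Pool.Agent.Lib.H3MT.D1

/-!
# H3MT, part B2: elementary lemmas on almost covers
-/

open Finset

namespace Pool.Agent.Lib.H3MT.FC

open AB

/-- A top set of prescribed cardinality. -/
theorem exists_top {V : Type} [Fintype V] (u : V → ℝ) (r : ℕ) (hr : r ≤ Fintype.card V) :
    ∃ S : Finset V, S.card = r ∧ ∀ v ∈ S, ∀ w ∉ S, u w ≤ u v := by
  classical
  have hne : (univ.powersetCard r : Finset (Finset V)).Nonempty :=
    powersetCard_nonempty.2 (by simpa using hr)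
  obtain ⟨S, hS, hmax⟩ := exists_max_image _ (fun S => ∑ v ∈ S, u v) hne
  rw [mem_powersetCard] at hS
  refine ⟨S, hS.2, fun v hv w hw => ?_⟩
  have h := hmax (insert w (S.erase v)) (by
    rw [mem_powersetCard]
    refine ⟨subset_univ _, ?_⟩
    rw [card_insert_of_notMem (by simp [hw]), card_erase_of_mem hv]
    have := card_pos.2 ⟨v, hv⟩
    omega)
  rw [sum_insert (by simp [hw]), ← add_sum_erase S u hv] at h
  linarith

theorem sum_deg {V : Type} [Fintype V] [DecidableEq V] (k : ℕ) (B : Finset (Finset V))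
    (hB : Uniform k B) : ∑ v, deg B v = k * B.card := by
  unfold deg
  simp_rw [card_filter]
  rw [sum_comm]
  have : ∀ e ∈ B, ∑ v, (if v ∈ e then 1 else 0) = k := by
    intro e he
    rw [← card_filter, filter_mem_eq_inter, univ_inter, hB e he]
  rw [sum_congr rfl this, sum_const, smul_eq_mul, mul_comm]

/-- A vertex of small weight lying in few bad edges. -/
theorem exists_low {V : Type} [Fintype V] [DecidableEq V] (u : V → ℝ) (B : Finset (Finset V))
    (k : ℕ) (hB : Uniform k B) (ξ : ℝ) (hξ : 0 < ξ) (hξ1 : ξ ≤ 1) (hV : 0 < Fintype.card V) :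
    ∃ v1, ((univ.filter (fun v => u v < u v1)).card : ℝ) ≤ ξ * Fintype.card V ∧
      (deg B v1 : ℝ) * (ξ * Fintype.card V) ≤ k * B.card := by
  have hV' : (0:ℝ) < Fintype.card V := by exact_mod_cast hV
  have hr : ⌈ξ * Fintype.card V⌉₊ ≤ Fintype.card V := by
    rw [Nat.ceil_le]
    nlinarith
  obtain ⟨R, hRc, hR⟩ := exists_top (fun v => - u v) _ hr
  have hRpos : 0 < R.card := by
    rw [hRc, Nat.ceil_pos]
    positivity
  obtain ⟨v1, hv1, hmin⟩ := exists_min_image R (fun v => deg B v) (card_pos.1 hRpos)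
  refine ⟨v1, ?_, ?_⟩
  · have hsub : univ.filter (fun v => u v < u v1) ⊆ R.erase v1 := by
      intro v hv
      rw [mem_filter] at hv
      rw [mem_erase]
      refine ⟨fun h => by rw [h] at hv; exact lt_irrefl _ hv.2, ?_⟩
      by_contra hvR
      have := hR v1 hv1 v hvR
      linarith [hv.2]
    have h1 := card_le_card hsub
    rw [card_erase_of_mem hv1] at h1
    have h2 : (univ.filter (fun v => u v < u v1)).card + 1 ≤ R.card := by omega
    have h3 : (R.card : ℝ) < ξ * Fintype.card V + 1 := by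
      rw [hRc]
      exact Nat.ceil_lt_add_one (by positivity)
    have h4 : ((univ.filter (fun v => u v < u v1)).card : ℝ) + 1 ≤ R.card := by exact_mod_cast h2
    linarith
  · have h1 : R.card * deg B v1 ≤ ∑ v ∈ R, deg B v := by
      rw [← smul_eq_mul]
      exact card_nsmul_le_sum _ _ _ hmin
    have h2 : ∑ v ∈ R, deg B v ≤ ∑ v, deg B v :=
      sum_le_sum_of_subset (subset_univ _)
    rw [sum_deg k B hB] at h2
    have h3 : (R.card : ℝ) * deg B v1 ≤ k * B.card := by exact_mod_cast h1.trans h2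
    have h4 : ξ * Fintype.card V ≤ (R.card : ℝ) := by
      rw [hRc]
      exact Nat.le_ceil _
    have h5 : (0:ℝ) ≤ deg B v1 := Nat.cast_nonneg _
    nlinarith

/-- The weights above `u v1`, normalised. -/
noncomputable def nX {V : Type} (k : ℕ) (β : ℝ) (u : V → ℝ) (v1 v : V) : ℝ :=
  k * max 0 (u v - u v1) / (1 - β - k * u v1)

section

variable {V : Type} [Fintype V] [DecidableEq V] {k : ℕ} {ε : ℝ} {u : V → ℝ} {v1 : V}

theorem low_bd (hk : 1 ≤ k) (hε : 0 < ε) (hε1 : ε < 1) (hV : 0 < Fintype.card V)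
    (hu : ∀ v, 0 ≤ u v) (hsum : ∑ v, u v < (1 - ε) * Fintype.card V / k)
    (hlow : ((univ.filter (fun v => u v < u v1)).card : ℝ) ≤ ε / 2 * Fintype.card V) :
    ∑ v, max 0 (u v - u v1) ≤ ∑ v, u v - u v1 * ((1 - ε / 2) * Fintype.card V) ∧
    k * u v1 * (1 - ε / 2) < 1 - ε := by
  have hV' : (0:ℝ) < Fintype.card V := by exact_mod_cast hV
  have hk' : (0:ℝ) < k := by exact_mod_cast hk
  have hc : (1 - ε / 2) * (Fintype.card V : ℝ) ≤ ((univ.filter (fun v => ¬ u v < u v1)).card : ℝ) := by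
    have h := card_filter_add_card_filter_not (s := (univ : Finset V)) (fun v => u v < u v1)
    rw [card_univ] at h
    have h' : ((univ.filter (fun v => u v < u v1)).card : ℝ) +
        ((univ.filter (fun v => ¬ u v < u v1)).card : ℝ) = Fintype.card V := by exact_mod_cast h
    linarith
  have h1 : ∑ v, max 0 (u v - u v1) = ∑ v with ¬ u v < u v1, (u v - u v1) := by
    rw [sum_filter]
    refine sum_congr rfl fun v _ => ?_
    by_cases h : u v < u v1
    · rw [if_neg (not_not.2 h)]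
      exact max_eq_left (by linarith)
    · rw [if_pos h]
      exact max_eq_right (by linarith)
  have h2 : ∑ v with ¬ u v < u v1, u v ≤ ∑ v, u v :=
    sum_le_sum_of_subset_of_nonneg (subset_univ _) fun v _ _ => hu v
  have h3 : ∑ v with ¬ u v < u v1, (u v - u v1) ≤
      ∑ v, u v - u v1 * ((1 - ε / 2) * Fintype.card V) := by
    rw [sum_sub_distrib, sum_const, nsmul_eq_mul]
    have := mul_le_mul_of_nonneg_left hc (hu v1)
    linarith
  refine ⟨h1.le.trans h3, ?_⟩
  have h4 : 0 ≤ ∑ v, max 0 (u v - u v1) := sum_nonneg fun v _ => le_max_left _ _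
  have h5 : u v1 * ((1 - ε / 2) * Fintype.card V) < (1 - ε) * Fintype.card V / k := by
    linarith [h1.le.trans h3]
  rw [lt_div_iff₀ hk'] at h5
  have h6 : (k * u v1 * (1 - ε / 2)) * Fintype.card V < (1 - ε) * Fintype.card V := by
    calc (k * u v1 * (1 - ε / 2)) * Fintype.card V =
        u v1 * ((1 - ε / 2) * Fintype.card V) * k := by ring
      _ < _ := h5
  exact lt_of_mul_lt_mul_right h6 hV'.le

theorem c_pos (hε : 0 < ε) (hε1 : ε < 1) (h : k * u v1 * (1 - ε / 2) < 1 - ε) :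
    0 < 1 - ε / 2 - k * u v1 := by
  have h1 : 1 - ε ≤ (1 - ε / 2) * (1 - ε / 2) := by nlinarith
  have h2 : k * u v1 * (1 - ε / 2) < (1 - ε / 2) * (1 - ε / 2) := h.trans_le h1
  have h3 := lt_of_mul_lt_mul_right h2 (by linarith)
  linarith

theorem nX_nonneg (hc : 0 < 1 - ε / 2 - k * u v1) (v : V) : 0 ≤ nX k (ε / 2) u v1 v := by
  unfold nX
  exact div_nonneg (mul_nonneg (Nat.cast_nonneg _) (le_max_left _ _)) hc.le

theorem nX_sum (hk : 1 ≤ k) (hε : 0 < ε) (hε1 : ε < 1) (hV : 0 < Fintype.card V)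
    (hu : ∀ v, 0 ≤ u v) (hsum : ∑ v, u v < (1 - ε) * Fintype.card V / k)
    (hlow : ((univ.filter (fun v => u v < u v1)).card : ℝ) ≤ ε / 2 * Fintype.card V) :
    ∑ v, nX k (ε / 2) u v1 v ≤ Fintype.card V := by
  obtain ⟨h1, h2⟩ := low_bd hk hε hε1 hV hu hsum hlow
  have hc := c_pos (k := k) (u := u) (v1 := v1) hε hε1 h2
  have hV' : (0:ℝ) < Fintype.card V := by exact_mod_cast hV
  have hk' : (0:ℝ) < k := by exact_mod_cast hk
  unfold nX
  rw [← sum_div, ← mul_sum, div_le_iff₀ hc]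
  rw [lt_div_iff₀ hk'] at hsum
  have h3 : k * ∑ v, max 0 (u v - u v1) ≤
      k * (∑ v, u v - u v1 * ((1 - ε / 2) * Fintype.card V)) :=
    mul_le_mul_of_nonneg_left h1 hk'.le
  have h4 : (k:ℝ) * u v1 ≤ 1 := by linarith
  have h5 : k * u v1 * (ε / 2) ≤ ε / 2 := by nlinarith
  have h6 : (k * u v1 * (ε / 2)) * Fintype.card V ≤ ε / 2 * Fintype.card V :=
    mul_le_mul_of_nonneg_right h5 hV'.le
  nlinarith

/-- a good edge has `nX`-weight at least `k`. -/
theorem nX_good (hk : 1 ≤ k) (hc : 0 < 1 - ε / 2 - k * u v1) (e : Finset V) (he : e.card = k)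
    (hu : ∀ v, 0 ≤ u v) (hgood : 1 - ε / 2 ≤ ∑ v ∈ e, u v) : (k:ℝ) ≤ ∑ v ∈ e, nX k (ε / 2) u v1 v := by
  have hk' : (0:ℝ) < k := by exact_mod_cast hk
  unfold nX
  rw [← sum_div, ← mul_sum, le_div_iff₀ hc]
  refine mul_le_mul_of_nonneg_left ?_ hk'.le
  have h1 : ∑ v ∈ e, (u v - u v1) ≤ ∑ v ∈ e, max 0 (u v - u v1) :=
    sum_le_sum fun v _ => le_max_right _ _
  rw [sum_sub_distrib, sum_const, he, nsmul_eq_mul] at h1
  linarith

/-- the tuple version. -/
theorem nX_tuple {r : ℕ} (hc : 0 < 1 - ε / 2 - ((r + 1 : ℕ) : ℝ) * u v1) (t : Fin r → V)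
    (ht : Function.Injective t) (hv : v1 ∉ img t)
    (hgood : 1 - ε / 2 ≤ ∑ v ∈ insert v1 (img t), u v) :
    (r:ℝ) + 1 ≤ ∑ i, nX (r + 1) (ε / 2) u v1 (t i) := by
  have hk' : (0:ℝ) < ((r + 1 : ℕ) : ℝ) := by positivity
  rw [sum_insert hv, img, sum_image (fun a _ b _ h => ht h)] at hgood
  unfold nX
  rw [← sum_div, ← mul_sum, le_div_iff₀ hc]
  have e1 : (r:ℝ) + 1 = ((r + 1 : ℕ) : ℝ) := by push_cast; ring
  rw [e1]
  refine mul_le_mul_of_nonneg_left ?_ hk'.le
  have h1 : ∑ i, (u (t i) - u v1) ≤ ∑ i, max 0 (u (t i) - u v1) :=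
    sum_le_sum fun v _ => le_max_right _ _
  rw [sum_sub_distrib, sum_const, card_univ, Fintype.card_fin, nsmul_eq_mul] at h1
  push_cast at hc ⊢
  linarith

/-- the ordered link of `v1`. -/
theorem link_le {r : ℕ} (H : Finset (Finset V)) (hc : 0 < 1 - ε / 2 - ((r + 1 : ℕ) : ℝ) * u v1) :
    (link r H v1).card ≤
      (univ.filter (fun t : Fin r → V => (r:ℝ) + 1 ≤ ∑ i, nX (r + 1) (ε / 2) u v1 (t i))).card +
      (link r (H.filter (fun e => ∑ v ∈ e, u v < 1 - ε / 2)) v1).card := by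
  classical
  refine (card_le_card ?_).trans (card_union_le _ _)
  intro t ht
  rw [link, mem_filter] at ht
  obtain ⟨-, h1, h2, h3⟩ := ht
  rw [mem_union]
  by_cases hb : ∑ v ∈ insert v1 (img t), u v < 1 - ε / 2
  · right
    rw [link, mem_filter]
    exact ⟨mem_univ _, h1, h2, by rw [mem_filter]; exact ⟨h3, hb⟩⟩
  · left
    rw [mem_filter]
    exact ⟨mem_univ _, nX_tuple hc t h1 h2 (not_lt.1 hb)⟩

/-- degrees are at most `N^(k-1)`. -/
theorem deg_le {r : ℕ} (H : Finset (Finset V)) (hH : Uniform (r + 1) H) (v : V) :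
    (deg H v : ℝ) ≤ (Fintype.card V : ℝ) ^ r := by
  have h := card_link r H hH v
  have h1 : (link r H v).card ≤ Fintype.card (Fin r → V) := card_le_univ _
  rw [Fintype.card_fun, Fintype.card_fin] at h1
  have h2 : deg H v ≤ r.factorial * deg H v := Nat.le_mul_of_pos_left _ (Nat.factorial_pos r)
  have h3 : deg H v ≤ Fintype.card V ^ r := by omega
  exact_mod_cast h3

/-- few edges outside the set of heavy vertices. -/
theorem few_edges {r : ℕ} (H : Finset (Finset V)) (hH : Uniform (r + 1) H)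
    (hc : 0 < 1 - ε / 2 - ((r + 1 : ℕ) : ℝ) * u v1) (hu : ∀ v, 0 ≤ u v) (S : Finset V) (κ : ℝ)
    (hκ : 0 ≤ κ)
    (hS : ∑ v : {v // v ∉ S}, nX (r + 1) (ε / 2) u v1 v ≤ κ * Fintype.card V) :
    ((H.filter (fun e => Disjoint e S)).card : ℝ) ≤
      (H.filter (fun e => ∑ v ∈ e, u v < 1 - ε / 2)).card + κ * (Fintype.card V : ℝ) ^ (r + 1) := by
  classical
  set G : Finset (Finset V) :=
    H.filter (fun e => Disjoint e S ∧ ¬ (∑ v ∈ e, u v < 1 - ε / 2)) with hG
  have hsub : H.filter (fun e => Disjoint e S) ⊆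
      H.filter (fun e => ∑ v ∈ e, u v < 1 - ε / 2) ∪ G := by
    intro e he
    rw [mem_filter] at he
    rw [mem_union, hG, mem_filter, mem_filter]
    tauto
  have h1 : ((H.filter (fun e => Disjoint e S)).card : ℝ) ≤
      (H.filter (fun e => ∑ v ∈ e, u v < 1 - ε / 2)).card + G.card := by
    exact_mod_cast (card_le_card hsub).trans (card_union_le _ _)
  have hGu : Uniform (r + 1) G := fun e he => hH e (mem_filter.1 he).1
  have h2 : ((r + 1 : ℕ) : ℝ) * G.card ≤ ∑ e ∈ G, ∑ v ∈ e, nX (r + 1) (ε / 2) u v1 v := by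
    have : ∑ e ∈ G, ((r + 1 : ℕ) : ℝ) ≤ ∑ e ∈ G, ∑ v ∈ e, nX (r + 1) (ε / 2) u v1 v := by
      refine sum_le_sum fun e he => ?_
      have he' := (mem_filter.1 he)
      exact nX_good (by omega) hc e (hH e he'.1) hu (not_lt.1 he'.2.2)
    rw [sum_const, nsmul_eq_mul] at this
    linarith
  have h3 : ∑ e ∈ G, ∑ v ∈ e, nX (r + 1) (ε / 2) u v1 v =
      ∑ v ∈ univ.filter (fun v => v ∉ S), (deg G v : ℝ) * nX (r + 1) (ε / 2) u v1 v := by
    have h4 : ∀ e ∈ G, ∑ v ∈ e, nX (r + 1) (ε / 2) u v1 v =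
        ∑ v ∈ univ.filter (fun v => v ∉ S), if v ∈ e then nX (r + 1) (ε / 2) u v1 v else 0 := by
      intro e he
      have he' := (mem_filter.1 he).2.1
      rw [← sum_filter]
      refine sum_congr ?_ fun _ _ => rfl
      ext v
      simp only [mem_filter, mem_univ, true_and]
      exact ⟨fun hv => ⟨fun hvS => (disjoint_left.1 he') hv hvS, hv⟩, fun h => h.2⟩
    rw [sum_congr rfl h4, sum_comm]
    refine sum_congr rfl fun v _ => ?_
    rw [← sum_filter, sum_const, nsmul_eq_mul, deg]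
  have h5 : ∑ v ∈ univ.filter (fun v => v ∉ S), (deg G v : ℝ) * nX (r + 1) (ε / 2) u v1 v ≤
      (Fintype.card V : ℝ) ^ r * (κ * Fintype.card V) := by
    have h6 : ∑ v ∈ univ.filter (fun v => v ∉ S), (deg G v : ℝ) * nX (r + 1) (ε / 2) u v1 v ≤
        ∑ v ∈ univ.filter (fun v => v ∉ S),
          (Fintype.card V : ℝ) ^ r * nX (r + 1) (ε / 2) u v1 v :=
      sum_le_sum fun v _ => mul_le_mul_of_nonneg_right (deg_le G hGu v) (nX_nonneg hc v)
    refine h6.trans ?_
    rw [← mul_sum]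
    refine mul_le_mul_of_nonneg_left ?_ (by positivity)
    refine le_trans (le_of_eq ?_) hS
    exact (sum_subtype (univ.filter (fun v => v ∉ S)) (by simp)
      (fun v => nX (r + 1) (ε / 2) u v1 v))
  have h7 : ((r + 1 : ℕ) : ℝ) * G.card ≤ κ * (Fintype.card V : ℝ) ^ (r + 1) := by
    rw [pow_succ]
    calc _ ≤ _ := h2
      _ = _ := h3
      _ ≤ _ := h5
      _ = _ := by ring
  have h8 : (G.card : ℝ) ≤ ((r + 1 : ℕ) : ℝ) * G.card := by
    have : (0:ℝ) ≤ G.card := Nat.cast_nonneg _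
    have h9 : (1:ℝ) ≤ ((r + 1 : ℕ) : ℝ) := by push_cast; linarith [(Nat.cast_nonneg r : (0:ℝ) ≤ r)]
    nlinarith
  linarith

end

end Pool.Agent.Lib.H3MT.FC
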