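import Mathlib
import Pool.Agent.Lib.H3MT.P1
import Pool.Agent.Lib.H3MT.P2
import Pool.Agent.Lib.H3MT.AS3

/-!
# H3MT, part B2: the non-extremal case gives a nearly perfect spread fractional matching
-/

open Finset

namespace Pool.Agent.Lib.H3MT.FC

open AB

theorem ck_bd (k : ℕ) (hk : 1 ≤ k) : 0 ≤ ck k ∧ ck k ≤ 1 := by
  unfold ck
  have hk' : (1:ℝ) ≤ k := by exact_mod_cast hk
  have h1 : (1:ℝ) / k ≤ 1 := by
    rw [div_le_one (by linarith)]
    exact hk'
  have h0 : (0:ℝ) ≤ 1 - 1 / k := by linarith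
  have h2 : (0:ℝ) ≤ (1 - 1 / (k:ℝ)) ^ (k - 1) := pow_nonneg h0 _
  have h3 : (1 - 1 / (k:ℝ)) ^ (k - 1) ≤ 1 := by
    refine pow_le_one₀ h0 ?_
    have : (0:ℝ) ≤ 1 / k := by positivity
    linarith
  constructor <;> linarith

open scoped Classical in
/-- The core: a light fractional cover gives a contradiction. -/
theorem core (m : ℕ) (hm : 1 ≤ m) (ε₀ ε η' ζ : ℝ) (hε₀ : 0 < ε₀) (hε : 0 < ε) (hη' : 0 < η')
    (hζ : 0 < ζ) (hζ1 : ζ ≤ ε₀ / 2) (hζ2 : ((m + 2).factorial : ℝ) * ζ ≤ η' / 4 * (ε / 2))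
    (hf : ∀ (V : Type) [Fintype V] (M : ℕ) (X : V → ℝ) (S : Finset V), 1 ≤ M → (∀ v, 0 ≤ X v) →
      Fintype.card V = (m + 2) * M → ∑ v, X v ≤ Fintype.card V → S.card = M →
      (∀ v ∈ S, ∀ u ∉ S, X u ≤ X v) →
      ε₀ / 2 * Fintype.card V ≤ ∑ v : {v // v ∉ S}, X v →
      (((m : ℝ) + 1) * M) ^ (m + 1) + η' * (Fintype.card V : ℝ) ^ (m + 1) ≤
        (cnt m X ((m : ℝ) + 2) : ℝ))
    (V : Type) [Fintype V] [DecidableEq V] (H : Finset (Finset V)) (M : ℕ) (hM : 1 ≤ M)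
    (hV : Fintype.card V = (m + 2) * M) (hH : Uniform (m + 2) H)
    (hch : (1 - η' / 4) * (Fintype.card V : ℝ) ^ (m + 1) ≤
      (m + 1).factorial * ((Fintype.card V - 1).choose (m + 1) : ℝ))
    (hdeg : ∀ v, (ck (m + 2) - η' / 4) * ((Fintype.card V - 1).choose (m + 1) : ℝ) ≤ deg H v)
    (hne : ¬ Extremal (m + 2) ε₀ H) (u : V → ℝ) (hu : ∀ v, 0 ≤ u v)
    (hlt : ∑ v, u v + 1 / ((m + 2 : ℕ) * (ε / 2) * ζ) / (Fintype.card V : ℝ) ^ (m + 1) *
      ∑ e ∈ H, max 0 (1 - ∑ v ∈ e, u v) < (1 - ε) * (Fintype.card V : ℝ) / (m + 2 : ℕ)) :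
    False := by
  classical
  have hVpos : 0 < Fintype.card V := by rw [hV]; positivity
  set N : ℝ := (Fintype.card V : ℝ) with hN
  have hNpos : 0 < N := by rw [hN]; exact_mod_cast hVpos
  have hk : (0:ℝ) < ((m + 2 : ℕ) : ℝ) := by positivity
  have hNp : 0 < N ^ (m + 1) := by positivity
  have hs0 : 0 ≤ ∑ v, u v := sum_nonneg fun v _ => hu v
  have hs1 : 0 ≤ ∑ e ∈ H, max 0 (1 - ∑ v ∈ e, u v) := sum_nonneg fun v _ => le_max_left _ _
  have hcap : 0 < 1 / ((m + 2 : ℕ) * (ε / 2) * ζ) / N ^ (m + 1) := by positivity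
  have hε1 : ε < 1 := by
    by_contra hcon
    push Not at hcon
    have h1 : (1 - ε) * N / (m + 2 : ℕ) ≤ 0 := by
      apply div_nonpos_of_nonpos_of_nonneg _ hk.le
      exact mul_nonpos_of_nonpos_of_nonneg (by linarith) hNpos.le
    have h2 := mul_nonneg hcap.le hs1
    linarith
  have hsum : ∑ v, u v < (1 - ε) * N / (m + 2 : ℕ) := by
    have h2 := mul_nonneg hcap.le hs1
    linarith
  set bad := H.filter (fun e => ∑ v ∈ e, u v < 1 - ε / 2) with hbad
  have hbadU : Uniform (m + 2) bad := fun e he => hH e (mem_filter.1 he).1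
  -- few bad edges
  have hbadc : (bad.card : ℝ) ≤ ζ * N ^ (m + 2) := by
    have h1 : ε / 2 * bad.card ≤ ∑ e ∈ H, max 0 (1 - ∑ v ∈ e, u v) := by
      have h2 : ∑ e ∈ bad, ε / 2 ≤ ∑ e ∈ bad, max 0 (1 - ∑ v ∈ e, u v) := by
        refine sum_le_sum fun e he => ?_
        have := (mem_filter.1 he).2
        exact le_max_of_le_right (by linarith)
      have h3 : ∑ e ∈ bad, max 0 (1 - ∑ v ∈ e, u v) ≤ ∑ e ∈ H, max 0 (1 - ∑ v ∈ e, u v) :=
        sum_le_sum_of_subset_of_nonneg (filter_subset _ _) fun e _ _ => le_max_left _ _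
      rw [sum_const, nsmul_eq_mul] at h2
      linarith
    have h4 : 1 / ((m + 2 : ℕ) * (ε / 2) * ζ) / N ^ (m + 1) * (ε / 2 * bad.card) <
        (1 - ε) * N / (m + 2 : ℕ) := by
      have := mul_le_mul_of_nonneg_left h1 hcap.le
      linarith
    have h5 : 1 / ((m + 2 : ℕ) * (ε / 2) * ζ) / N ^ (m + 1) * (ε / 2 * bad.card) =
        (bad.card : ℝ) / (ζ * N ^ (m + 1)) / (m + 2 : ℕ) := by
      field_simp
    rw [h5, div_lt_div_iff_of_pos_right hk, div_lt_iff₀ (by positivity)] at h4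
    have h6 : (1 - ε) * N * (ζ * N ^ (m + 1)) ≤ ζ * N ^ (m + 2) := by
      have : ζ * N ^ (m + 2) - (1 - ε) * N * (ζ * N ^ (m + 1)) = ε * (ζ * N ^ (m + 2)) := by ring
      have h7 : 0 ≤ ε * (ζ * N ^ (m + 2)) := by positivity
      linarith
    linarith
  -- the vertex
  obtain ⟨v1, hlow, hbdeg⟩ := exists_low u bad (m + 2) hbadU (ε / 2) (by positivity) (by linarith)
    hVpos
  obtain ⟨hb1, hb2⟩ := low_bd (k := m + 2) (by omega) hε hε1 hVpos hu hsum hlow
  have hc : 0 < 1 - ε / 2 - ((m + 2 : ℕ) : ℝ) * u v1 := c_pos hε hε1 hb2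
  have hX0 := nX_nonneg (k := m + 2) (u := u) (v1 := v1) hc
  have hXs := nX_sum (k := m + 2) (by omega) hε hε1 hVpos hu hsum hlow
  set X : V → ℝ := nX (m + 2) (ε / 2) u v1 with hX
  obtain ⟨S, hSc, hStop⟩ := exists_top X M (by
    rw [hV]
    exact Nat.le_mul_of_pos_left _ (by omega))
  by_cases hcase : ε₀ / 2 * Fintype.card V ≤ ∑ v ∈ univ.filter (fun v => v ∉ S), X v
  · have h1 := hf V M X S hM hX0 hV hXs hSc hStop (by
      rw [← sum_subtype (univ.filter (fun v => v ∉ S)) (by simp) X]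
      exact hcase)
    have h2 := link_le (r := m + 1) (ε := ε) (u := u) (v1 := v1) H hc
    rw [card_link (m + 1) H hH v1, card_link (m + 1) bad hbadU v1] at h2
    have h3 : (univ.filter (fun t : Fin (m + 1) → V =>
        ((m + 1 : ℕ) : ℝ) + 1 ≤ ∑ i, nX (m + 1 + 1) (ε / 2) u v1 (t i))).card +
        cnt m X ((m : ℝ) + 2) = Fintype.card V ^ (m + 1) := by
      have h4 := card_filter_add_card_filter_not (s := (univ : Finset (Fin (m + 1) → V)))
        (fun t => ((m + 1 : ℕ) : ℝ) + 1 ≤ ∑ i, nX (m + 1 + 1) (ε / 2) u v1 (t i))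
      rw [card_univ, Fintype.card_fun, Fintype.card_fin] at h4
      rw [← h4]
      congr 1
      unfold cnt
      congr 1
      ext t
      simp only [mem_filter, mem_univ, true_and, not_le]
      push_cast
      rw [hX]
      constructor <;> intro h <;> linarith
    have h5 : ((m + 1).factorial : ℝ) * deg H v1 + cnt m X ((m : ℝ) + 2) ≤
        N ^ (m + 1) + (m + 1).factorial * deg bad v1 := by
      have : (m + 1).factorial * deg H v1 + cnt m X ((m : ℝ) + 2) ≤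
        Fintype.card V ^ (m + 1) + (m + 1).factorial * deg bad v1 := by omega
      rw [hN]
      exact_mod_cast this
    have h6 : ((m + 1).factorial : ℝ) * deg bad v1 ≤ η' / 4 * N ^ (m + 1) := by
      have h7 : (deg bad v1 : ℝ) * (ε / 2 * N) ≤ ((m + 2 : ℕ) : ℝ) * (ζ * N ^ (m + 2)) :=
        hbdeg.trans (mul_le_mul_of_nonneg_left hbadc hk.le)
      have h8 : (((m + 1).factorial : ℝ) * deg bad v1) * (ε / 2 * N) ≤
          (η' / 4 * N ^ (m + 1)) * (ε / 2 * N) := by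
        calc (((m + 1).factorial : ℝ) * deg bad v1) * (ε / 2 * N) =
            ((m + 1).factorial : ℝ) * (deg bad v1 * (ε / 2 * N)) := by ring
          _ ≤ ((m + 1).factorial : ℝ) * (((m + 2 : ℕ) : ℝ) * (ζ * N ^ (m + 2))) := by gcongr
          _ = (((m + 2).factorial : ℝ) * ζ) * N ^ (m + 2) := by
            rw [Nat.factorial_succ (m + 1)]
            push_cast
            ring
          _ ≤ (η' / 4 * (ε / 2)) * N ^ (m + 2) := by gcongr
          _ = _ := by ring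
      exact le_of_mul_le_mul_right h8 (by positivity)
    have h9 : (((m : ℝ) + 1) * M) ^ (m + 1) = (1 - ck (m + 2)) * N ^ (m + 1) := by
      have e1 : ((m : ℝ) + 1) * M = (1 - 1 / ((m + 2 : ℕ) : ℝ)) * N := by
        rw [hN, hV]
        push_cast
        field_simp
        ring
      rw [e1, mul_pow]
      unfold ck
      simp
    obtain ⟨hck0, hck1⟩ := ck_bd (m + 2) (by omega)
    have h10 := hdeg v1
    have h11 : ((m + 1).factorial : ℝ) * ((Fintype.card V - 1).choose (m + 1) : ℝ) ≤ N ^ (m + 1) := by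
      have : (m + 1).factorial * (Fintype.card V - 1).choose (m + 1) ≤ Fintype.card V ^ (m + 1) := by
        rw [← Nat.descFactorial_eq_factorial_mul_choose]
        exact (Nat.descFactorial_le_pow _ _).trans (Nat.pow_le_pow_left (by omega) _)
      rw [hN]
      exact_mod_cast this
    set P : ℝ := ((m + 1).factorial : ℝ) * ((Fintype.card V - 1).choose (m + 1) : ℝ) with hP
    have h12 : (ck (m + 2) - η' / 4) * P ≤ ((m + 1).factorial : ℝ) * deg H v1 := by
      have := mul_le_mul_of_nonneg_left h10 (Nat.cast_nonneg ((m + 1).factorial) : (0:ℝ) ≤ _)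
      calc _ = ((m + 1).factorial : ℝ) *
            ((ck (m + 2) - η' / 4) * ((Fintype.card V - 1).choose (m + 1) : ℝ)) := by
            rw [hP]; ring
        _ ≤ _ := this
    have h13 : ck (m + 2) * ((1 - η' / 4) * N ^ (m + 1)) ≤ ck (m + 2) * P :=
      mul_le_mul_of_nonneg_left hch hck0
    have h14 : η' / 4 * P ≤ η' / 4 * N ^ (m + 1) := mul_le_mul_of_nonneg_left h11 (by positivity)
    have h15 : ck (m + 2) * (η' / 4 * N ^ (m + 1)) ≤ 1 * (η' / 4 * N ^ (m + 1)) :=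
      mul_le_mul_of_nonneg_right hck1 (by positivity)
    have h16 : 0 < η' / 4 * N ^ (m + 1) := by positivity
    nlinarith
  · apply hne
    refine ⟨S, ?_, ?_⟩
    · rw [hSc, hV, Nat.mul_div_cancel_left _ (by omega)]
    · push Not at hcase
      have h1 := few_edges (r := m + 1) (ε := ε) (u := u) (v1 := v1) H hH hc hu S (ε₀ / 2)
        (by positivity) (by
          refine le_trans (le_of_eq ?_) hcase.le
          exact (sum_subtype (univ.filter (fun v => v ∉ S)) (by simp) X).symm)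
      have h2 : ζ * N ^ (m + 2) ≤ ε₀ / 2 * N ^ (m + 2) :=
        mul_le_mul_of_nonneg_right hζ1 (by positivity)
      have h3 : (m + 1 + 1) = m + 2 := rfl
      rw [h3] at h1
      have h4 : ε₀ * (Fintype.card V : ℝ) ^ (m + 2) =
        ε₀ / 2 * N ^ (m + 2) + ε₀ / 2 * N ^ (m + 2) := by rw [← hN]; ring
      rw [h4]
      linarith

theorem statementB2 : StatementB2 := by
  intro k ε₀ hk hε₀
  obtain ⟨m, rfl⟩ : ∃ m, k = m + 2 := ⟨k - 2, by omega⟩
  have hm : 1 ≤ m := by omega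
  obtain ⟨η', hη', hf⟩ := feige_stab m hm (κ := ε₀ / 2) (by positivity)
  refine ⟨η' / 4, by positivity, fun ε hε => ?_⟩
  have hfac : (0:ℝ) < ((m + 2).factorial : ℝ) := by exact_mod_cast Nat.factorial_pos _
  set ζ : ℝ := min (ε₀ / 2) (η' / 4 * (ε / 2) / (m + 2).factorial) with hζdef
  have hζ : 0 < ζ := lt_min (by positivity) (by positivity)
  have hζ1 : ζ ≤ ε₀ / 2 := min_le_left _ _
  have hζ2 : ((m + 2).factorial : ℝ) * ζ ≤ η' / 4 * (ε / 2) := by
    have : ζ ≤ η' / 4 * (ε / 2) / (m + 2).factorial := min_le_right _ _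
    rw [le_div_iff₀ hfac] at this
    linarith
  obtain ⟨n0, hn0⟩ := choose_lower (m + 1) (η' / 4) (by positivity)
  refine ⟨1 / ((m + 2 : ℕ) * (ε / 2) * ζ), max n0 1, ?_⟩
  intro V _ _ H hN hdvd hH hdeg hne
  obtain ⟨M, hM⟩ := hdvd
  have hN0 : n0 ≤ Fintype.card V := (le_max_left _ _).trans hN
  have hN1 : 1 ≤ Fintype.card V := (le_max_right _ _).trans hN
  have hM1 : 1 ≤ M := by
    rcases Nat.eq_zero_or_pos M with h | h
    · rw [h] at hM; omega
    · exact h
  have hNpos : (0:ℝ) < Fintype.card V := by exact_mod_cast hN1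
  have hcap : 0 < 1 / ((m + 2 : ℕ) * (ε / 2) * ζ) / (Fintype.card V : ℝ) ^ (m + 1) := by positivity
  rcases lp_cap H _ ((1 - ε) * (Fintype.card V : ℝ) / (m + 2 : ℕ)) hcap with
    ⟨w, h1, h2, h3, h4⟩ | ⟨u, hu, hlt⟩
  · exact ⟨w, ⟨h1, h2, h3⟩, h4⟩
  · exfalso
    exact core m hm ε₀ ε η' ζ hε₀ hε hη' hζ hζ1 hζ2 hf V H M hM1 hM hH (hn0 _ hN0) hdeg hne u hu
      hlt

end Pool.Agent.Lib.H3MT.FC
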