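import Mathlib

/-!
# H3MT chunk R10 (S): counting the orderings of a `k`-set

`orders`: the injective `y : Fin k → U` with image `E`, `|E| = k`, are `k!` in number (they are the
equivalences `Fin k ≃ E`, `Fintype.card_equiv`).

`orders_fix`: those with `y j = u`, `u ∈ E`: `(k-1)!`.  For `u, u' ∈ E` composition with
`Equiv.swap u u'` is a bijection between the `y` with `y j = u` and those with `y j = u'`, so all `k`
classes have the same size, `k * size = k! = k * (k-1)!`, `k ≥ 1`.
-/

namespace Pool.Agent.Lib.H3MT.R

open Finset

theorem orders {k : ℕ} {U : Type} [Fintype U] [DecidableEq U] (E : Finset U) (hE : E.card = k) :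
    (univ.filter (fun y : Fin k → U => Function.Injective y ∧ univ.image y = E)).card =
      k.factorial := by
  have e : {y : Fin k → U // Function.Injective y ∧ univ.image y = E} ≃ (Fin k ↪ E) :=
    { toFun := fun y => ⟨fun j => ⟨y.1 j, by
          have h := mem_image_of_mem y.1 (mem_univ j)
          rwa [y.2.2] at h⟩, by
          intro a b hab
          exact y.2.1 (congrArg Subtype.val hab)⟩
      invFun := fun f => ⟨fun j => (f j).1, by
          refine ⟨fun a b hab => f.injective (Subtype.ext hab), ?_⟩
          apply Finset.eq_of_subset_of_card_le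
          · intro x hx
            rw [mem_image] at hx
            obtain ⟨j, -, rfl⟩ := hx
            exact (f j).2
          · rw [Finset.card_image_of_injective _ (fun a b hab => f.injective (Subtype.ext hab)),
              Finset.card_univ, Fintype.card_fin, hE]⟩
      left_inv := fun y => by rfl
      right_inv := fun f => by rfl }
  have h1 : (univ.filter (fun y : Fin k → U => Function.Injective y ∧ univ.image y = E)).card =
      Fintype.card {y : Fin k → U // Function.Injective y ∧ univ.image y = E} :=
    (Fintype.card_subtype _).symm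
  rw [h1, Fintype.card_congr e, Fintype.card_embedding_eq, Fintype.card_fin, Fintype.card_coe, hE,
    Nat.descFactorial_self]

theorem R10_swap {k : ℕ} {U : Type} [Fintype U] [DecidableEq U] (E : Finset U)
    (j : Fin k) (u u' : U) (hu : u ∈ E) (hu' : u' ∈ E) :
    (univ.filter (fun y : Fin k → U =>
      (Function.Injective y ∧ univ.image y = E) ∧ y j = u)).card =
    (univ.filter (fun y : Fin k → U =>
      (Function.Injective y ∧ univ.image y = E) ∧ y j = u')).card := by
  have hmap : ∀ x : U, x ∈ E → Equiv.swap u u' x ∈ E := by
    intro x hx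
    rw [Equiv.swap_apply_def]
    split_ifs
    · exact hu'
    · exact hu
    · exact hx
  have himg : ∀ y : Fin k → U, univ.image y = E →
      univ.image (fun i => Equiv.swap u u' (y i)) = E := by
    intro y hy
    ext x
    rw [mem_image]
    constructor
    · rintro ⟨i, -, rfl⟩
      apply hmap
      rw [← hy]
      exact mem_image_of_mem y (mem_univ i)
    · intro hx
      have h1 := hmap x hx
      rw [← hy, mem_image] at h1
      obtain ⟨i, -, hi⟩ := h1
      refine ⟨i, mem_univ i, ?_⟩
      rw [hi]
      simp
  refine Finset.card_nbij' (fun y i => Equiv.swap u u' (y i)) (fun y i => Equiv.swap u u' (y i))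
    ?_ ?_ ?_ ?_
  · intro y hy
    simp only [coe_filter, mem_univ, true_and, Set.mem_ofPred_eq] at hy ⊢
    obtain ⟨⟨h1, h2⟩, h3⟩ := hy
    exact ⟨⟨(Equiv.swap u u').injective.comp h1, himg y h2⟩, by rw [h3, Equiv.swap_apply_left]⟩
  · intro y hy
    simp only [coe_filter, mem_univ, true_and, Set.mem_ofPred_eq] at hy ⊢
    obtain ⟨⟨h1, h2⟩, h3⟩ := hy
    exact ⟨⟨(Equiv.swap u u').injective.comp h1, himg y h2⟩, by rw [h3, Equiv.swap_apply_right]⟩
  · intro y _
    funext i
    simp
  · intro y _
    funext i
    simp

theorem orders_fix {k : ℕ} {U : Type} [Fintype U] [DecidableEq U] (E : Finset U)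
    (hE : E.card = k) (j : Fin k) (u : U) (hu : u ∈ E) :
    (univ.filter (fun y : Fin k → U =>
      (Function.Injective y ∧ univ.image y = E) ∧ y j = u)).card = (k - 1).factorial := by
  have hk : 0 < k := j.pos
  set A := univ.filter (fun y : Fin k → U => Function.Injective y ∧ univ.image y = E) with hA
  have h1 : A.card = ∑ v ∈ E, (A.filter (fun y => y j = v)).card := by
    apply Finset.card_eq_sum_card_fiberwise
    intro y hy
    rw [hA, Finset.mem_coe, mem_filter] at hy
    rw [Finset.mem_coe, ← hy.2.2]
    exact mem_image_of_mem y (mem_univ j)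
  have h2 : ∀ v ∈ E, (A.filter (fun y => y j = v)).card = (univ.filter (fun y : Fin k → U =>
      (Function.Injective y ∧ univ.image y = E) ∧ y j = u)).card := by
    intro v hv
    rw [hA, Finset.filter_filter]
    exact R10_swap E j v u hv hu
  rw [hA, orders E hE, Finset.sum_congr rfl h2, Finset.sum_const, hE, smul_eq_mul] at h1
  have h3 : k.factorial = k * (k - 1).factorial := (Nat.mul_factorial_pred hk.ne').symm
  rw [h3] at h1
  exact (Nat.eq_of_mul_eq_mul_left hk h1).symm

end Pool.Agent.Lib.H3MT.R
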