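import Mathlib
import Pool.Agent.Lib.H3MT.Defs

/-!
# H3MT, part B3 (rounding): definitions

`X` is the finite set of parts (the edges of a maximum matching and the single uncovered vertices);
the vertices of the hypergraph are embedded in `X × Fin k`.  A *block* is
`p : Fin k × Fin N → X` (`k` groups of `N` parts).  An edge of a block is given by its positions
`F : Fin k → Fin N × Fin k`: its `j`-th vertex is the vertex number `(F j).2` of the part
`p (j, (F j).1)`.
-/

namespace Pool.Agent.Lib.H3MT.R

open Finset

/-- the vertices of the edge with the positions `F` in the block `p` -/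
def vt {k N : ℕ} {X : Type} (p : Fin k × Fin N → X) (F : Fin k → Fin N × Fin k) :
    Fin k → X × Fin k :=
  fun j => (p (j, (F j).1), (F j).2)

/-- ordered weights: `ω y` is the weight of the ordered edge `y : Fin k → X × Fin k` -/
structure Wt {k : ℕ} {X : Type} [Fintype X] [DecidableEq X] (C : ℝ)
    (ω : (Fin k → X × Fin k) → ℝ) : Prop where
  nonneg : ∀ y, 0 ≤ ω y
  le : ∀ y, ω y ≤ C / (Fintype.card X : ℝ) ^ (k - 1)
  load : ∀ j v, ∑ y with y j = v, ω y ≤ 1

/-- the scaled weights of a block -/
noncomputable def Wb {k N : ℕ} {X : Type} [Fintype X] (ω : (Fin k → X × Fin k) → ℝ)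
    (p : Fin k × Fin N → X) (F : Fin k → Fin N × Fin k) : ℝ :=
  ω (vt p F) * ((Fintype.card X : ℝ) / N) ^ (k - 1)

/-- the load of the vertex `v` in the coordinate `j` -/
noncomputable def ld {k : ℕ} {α : Type} [Fintype α] [DecidableEq α] (W : (Fin k → α) → ℝ)
    (j : Fin k) (v : α) : ℝ :=
  ∑ F with F j = v, W F

/-- the total excess of the loads above one -/
noncomputable def exc {k : ℕ} {α : Type} [Fintype α] [DecidableEq α] (W : (Fin k → α) → ℝ) : ℝ :=
  ∑ j, ∑ v, max (ld W j v - 1) 0

/-- the number of the positions of the block whose part lies in `B` -/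
def cB {k N : ℕ} {X : Type} [DecidableEq X] (B : Finset X) (p : Fin k × Fin N → X) : ℕ :=
  (univ.filter (fun a => p a ∈ B)).card

end Pool.Agent.Lib.H3MT.R
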