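import Mathlib
import Pool.Agent.Lib.H3MT.RDefs
import Pool.Agent.Lib.H3MT.R10

/-!
# H3MT chunk R11 (M): ordered weights from a spread fractional matching

`π : V → X × Fin k` injective, `|X| ≤ |V|`, `X` nonempty.  Put (with classical decidability)
`ω y = w (univ.filter (fun v => π v ∈ univ.image y)) / (k-1)!` if `y` is injective and
`∃ e ∈ H, univ.image y = e.image π`, and `0` otherwise.  If `univ.image y = e.image π` then
`univ.filter (fun v => π v ∈ univ.image y) = e` (`π` injective).
* nonneg, le: `w e ≤ C/|V|^(k-1) ≤ C/|X|^(k-1)` (`0 ≤ C`), `1 ≤ (k-1)!`.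
* load: `∑_{y, y j = u} ω y = ∑_{e ∈ H} ∑_{y inj, image = e.image π, y j = u} w e/(k-1)!`; the inner sum
  is empty unless `u ∈ e.image π` (`y j` lies in the image), i.e. `u = π v` with `v ∈ e`, and then it is
  `w e` by `orders_fix` (`|e.image π| = k`).  If `u = π v`: the sum is `∑_{e ∋ v} w e ≤ 1`.  If
  `u` is not in the range of `π`: zero.
* total: `∑_y ω y = ∑_{e ∈ H} k! * w e/(k-1)! = k ∑ w e` by `orders` (`1 ≤ k`).
(Different `e ∈ H` have different images: every `y` belongs to at most one `e`.)
-/

namespace Pool.Agent.Lib.H3MT.R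

open Finset

open Classical in
/-- the ordered weights -/
noncomputable def R11_om {k : ℕ} {V X : Type} [Fintype V] [DecidableEq V] [Fintype X]
    [DecidableEq X] (H : Finset (Finset V)) (w : Finset V → ℝ) (π : V → X × Fin k)
    (y : Fin k → X × Fin k) : ℝ :=
  ∑ e ∈ H, if Function.Injective y ∧ univ.image y = e.image π then w e / ((k - 1).factorial : ℝ)
    else 0

theorem R11_sum {k : ℕ} {V X : Type} [Fintype V] [DecidableEq V] [Fintype X]
    [DecidableEq X] (H : Finset (Finset V)) (w : Finset V → ℝ) (π : V → X × Fin k)
    (A : Finset (Fin k → X × Fin k)) :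
    ∑ y ∈ A, R11_om H w π y = ∑ e ∈ H, ((A.filter (fun y : Fin k → X × Fin k =>
      Function.Injective y ∧ univ.image y = e.image π)).card : ℝ) *
        (w e / ((k - 1).factorial : ℝ)) := by
  classical
  unfold R11_om
  rw [Finset.sum_comm]
  apply Finset.sum_congr rfl
  intro e _
  rw [← Finset.sum_filter, Finset.sum_const, nsmul_eq_mul]

theorem ordered_weights {k : ℕ} (hk : 1 ≤ k) (C : ℝ) (hC : 0 ≤ C) (V : Type) [Fintype V]
    [DecidableEq V] (H : Finset (Finset V)) (w : Finset V → ℝ) (hH : Uniform k H)
    (hw : IsSpread k C H w) (X : Type) [Fintype X] [DecidableEq X] [Nonempty X]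
    (hX : Fintype.card X ≤ Fintype.card V) (π : V → X × Fin k) (hπ : Function.Injective π) :
    ∃ ω : (Fin k → X × Fin k) → ℝ, Wt C ω ∧ ∑ y, ω y = k * ∑ e ∈ H, w e ∧
      ∀ y, 0 < ω y → Function.Injective y ∧ ∃ e ∈ H, univ.image y = e.image π := by
  classical
  have hfac : (0 : ℝ) < ((k - 1).factorial : ℝ) := by exact_mod_cast Nat.factorial_pos _
  have hfac1 : (1 : ℝ) ≤ ((k - 1).factorial : ℝ) := by exact_mod_cast Nat.factorial_pos _
  have hXpos : (0 : ℝ) < (Fintype.card X : ℝ) := by exact_mod_cast Fintype.card_pos
  have hXV : (Fintype.card X : ℝ) ≤ (Fintype.card V : ℝ) := by exact_mod_cast hX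
  have hcard : ∀ e ∈ H, (e.image π).card = k := by
    intro e he
    rw [Finset.card_image_of_injective e hπ]
    exact hH e he
  have hterm : ∀ e ∈ H, 0 ≤ w e / ((k - 1).factorial : ℝ) ∧
      w e / ((k - 1).factorial : ℝ) ≤ C / (Fintype.card X : ℝ) ^ (k - 1) := by
    intro e he
    refine ⟨div_nonneg (hw.nonneg e he) hfac.le, ?_⟩
    calc w e / ((k - 1).factorial : ℝ) ≤ w e := div_le_self (hw.nonneg e he) hfac1
      _ ≤ C / (Fintype.card V : ℝ) ^ (k - 1) := hw.le e he
      _ ≤ C / (Fintype.card X : ℝ) ^ (k - 1) := by
        apply div_le_div_of_nonneg_left hC (by positivity)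
        exact pow_le_pow_left₀ hXpos.le hXV _
  refine ⟨R11_om H w π, ⟨?_, ?_, ?_⟩, ?_, ?_⟩
  · intro y
    unfold R11_om
    apply Finset.sum_nonneg
    intro e he
    split_ifs
    · exact (hterm e he).1
    · exact le_rfl
  · intro y
    unfold R11_om
    by_cases hy : ∃ e ∈ H, Function.Injective y ∧ univ.image y = e.image π
    · obtain ⟨e, he, hye⟩ := hy
      rw [Finset.sum_eq_single_of_mem e he, if_pos hye]
      · exact (hterm e he).2
      · intro e' he' hne
        rw [if_neg]
        rintro ⟨-, h2⟩
        apply hne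
        have h3 : e'.image π = e.image π := h2.symm.trans hye.2
        exact Finset.image_injective hπ h3
    · rw [Finset.sum_eq_zero]
      · positivity
      · intro e he
        rw [if_neg]
        exact fun h => hy ⟨e, he, h⟩
  · intro j u
    rw [R11_sum]
    have h1 : ∀ e ∈ H, (((univ.filter (fun y : Fin k → X × Fin k => y j = u)).filter
        (fun y : Fin k → X × Fin k => Function.Injective y ∧
          univ.image y = e.image π)).card : ℝ) * (w e / ((k - 1).factorial : ℝ)) =
        if u ∈ e.image π then w e else 0 := by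
      intro e he
      split_ifs with hu
      · have h2 := orders_fix (e.image π) (hcard e he) j u hu
        rw [Finset.filter_filter]
        have h3 : (univ.filter (fun y : Fin k → X × Fin k => y j = u ∧
            (Function.Injective y ∧ univ.image y = e.image π))) =
            univ.filter (fun y : Fin k → X × Fin k =>
              (Function.Injective y ∧ univ.image y = e.image π) ∧ y j = u) := by
          apply Finset.filter_congr
          intro y _
          exact and_comm
        rw [h3, h2]
        field_simp
      · rw [Finset.filter_filter, Finset.filter_false_of_mem, Finset.card_empty, Nat.cast_zero,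
          zero_mul]
        rintro y - ⟨h3, -, h4⟩
        apply hu
        rw [← h4, ← h3]
        exact mem_image_of_mem y (mem_univ j)
    rw [Finset.sum_congr rfl h1]
    by_cases hu : ∃ v, π v = u
    · obtain ⟨v, rfl⟩ := hu
      refine le_trans (le_of_eq ?_) (hw.load v)
      rw [Finset.sum_filter]
      apply Finset.sum_congr rfl
      intro e _
      have h2 : π v ∈ e.image π ↔ v ∈ e := by
        rw [mem_image]
        constructor
        · rintro ⟨v', hv', h⟩
          rwa [← hπ h]
        · intro h
          exact ⟨v, h, rfl⟩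
      simp only [h2]
    · rw [Finset.sum_eq_zero]
      · exact zero_le_one
      · intro e _
        rw [if_neg]
        intro h
        rw [mem_image] at h
        obtain ⟨v, -, hv⟩ := h
        exact hu ⟨v, hv⟩
  · rw [R11_sum, Finset.mul_sum]
    apply Finset.sum_congr rfl
    intro e he
    have h2 := orders (e.image π) (hcard e he)
    rw [h2]
    have h3 : (k.factorial : ℝ) = k * ((k - 1).factorial : ℝ) := by
      exact_mod_cast (Nat.mul_factorial_pred (by omega : k ≠ 0)).symm
    rw [h3]
    field_simp
  · intro y hy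
    unfold R11_om at hy
    obtain ⟨e, he, hne⟩ := Finset.exists_ne_zero_of_sum_ne_zero hy.ne'
    by_cases hye : Function.Injective y ∧ univ.image y = e.image π
    · exact ⟨hye.1, e, he, hye.2⟩
    · rw [if_neg hye] at hne
      exact absurd rfl hne

end Pool.Agent.Lib.H3MT.R
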