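import Mathlib

/-!
# H3MT chunk R1 (M): the Erdős box theorem (1964)

A subset of `X^ι` of positive density contains a box `∏ A i` with `|A i| = Q`, if `|X|` is large.

Proof.  By `Fintype.equivFin` (or `Fintype.induction_empty_option`, or for `ι = Fin s`) induction on
`s = |ι|`.  `s = 0`: `S` is nonempty (its size is `≥ d > 0`), so `S = univ`; no condition on the `A i`.
Step `s + 1`: write `ι → X` as `X × (Fin s → X)`.  For `z : Fin s → X` let
`T z = {x | (x, z) ∈ S}`; the mean of `|T z| / |X|` over `z` is `≥ d`, so at least `(d/2) |X|^s` of the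
`z` have `|T z| ≥ (d/2) |X|`.  For such `z` (and `|X| ≥ 4 Q / d`, say) the number of `Q`-subsets of
`T z` is `≥ C(⌈(d/2)|X|⌉, Q) ≥ (d/4)^Q C(|X|, Q)` (or count the tuples `a : Fin Q → X` with all
entries in `T z`: at least `((d/2)|X|)^Q` of the `|X|^Q` tuples, of which at most `Q^2 |X|^(Q-1)` are not
injective: this avoids binomials).  Double counting the pairs (injective tuple `a`, `z`): some
injective `a : Fin Q → X` has at least `d' |X|^s` of the `z` with all `a i ∈ T z`,
`d' = (d/2) * ((d/2)^Q - Q^2/|X|) ≥ (d/2)^(Q+1) / 2`.  Induction hypothesis for this set of `z` with `d'' = (d/2)^(Q+1)/2`.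
-/

namespace Pool.Agent.Lib.H3MT.R

open Finset

theorem R1_pick {X Z : Type} [Fintype X] [DecidableEq X] [Fintype Z] [Nonempty Z]
    (T : Z → Finset X) {d : ℝ} (hd : 0 < d) (q : ℕ)
    (hn : 2 * ((q : ℝ) + 1) ≤ d * Fintype.card X)
    (hT : d * Fintype.card X * Fintype.card Z ≤ ∑ z, ((T z).card : ℝ)) :
    ∃ A : Finset X, A.card = q + 1 ∧
      (d / 2) ^ (q + 1) * (Fintype.card Z : ℝ) ≤ ((univ.filter (fun z => A ⊆ T z)).card : ℝ) := by
  classical
  obtain ⟨n, hnn⟩ : ∃ n : ℕ, n = Fintype.card X := ⟨_, rfl⟩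
  obtain ⟨m, hm⟩ : ∃ m : ℕ, m = Fintype.card Z := ⟨_, rfl⟩
  rw [← hnn] at hn hT
  rw [← hm] at hT ⊢
  have hm0 : 0 < m := by rw [hm]; exact Fintype.card_pos
  have hm0' : (0 : ℝ) < m := by exact_mod_cast hm0
  have hq0 : (0 : ℝ) ≤ q := Nat.cast_nonneg q
  have hn0 : (0 : ℝ) < n := by
    rcases (Nat.cast_nonneg n : (0 : ℝ) ≤ n).lt_or_eq with h | h
    · exact h
    · rw [← h, mul_zero] at hn
      linarith
  have hd1 : d ≤ 1 := by
    have h1 : ∑ z, ((T z).card : ℝ) ≤ n * m := by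
      have h2 : ∀ z ∈ (univ : Finset Z), ((T z).card : ℝ) ≤ n := by
        intro z _
        have := Finset.card_le_univ (T z)
        rw [← hnn] at this
        exact_mod_cast this
      have h3 := Finset.sum_le_card_nsmul _ _ _ h2
      rw [Finset.card_univ, ← hm, nsmul_eq_mul, mul_comm] at h3
      exact h3
    have h2 := hT.trans h1
    have h3 : d * (n * m) ≤ 1 * (n * m) := by linarith [mul_assoc d (n : ℝ) m]
    exact le_of_mul_le_mul_right h3 (mul_pos hn0 hm0')
  have hnq : q + 1 ≤ n := by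
    have h1 : (q : ℝ) + 1 ≤ n := by nlinarith
    exact_mod_cast h1
  have hne : (powersetCard (q + 1) (univ : Finset X)).Nonempty := by
    rw [powersetCard_nonempty, Finset.card_univ, ← hnn]
    exact hnq
  have hfac : (0 : ℝ) < ((q + 1).factorial : ℝ) := by exact_mod_cast Nat.factorial_pos _
  -- the double count
  have hcount : ∑ A ∈ powersetCard (q + 1) (univ : Finset X),
      ((univ.filter (fun z => A ⊆ T z)).card : ℝ) = ∑ z, (((T z).card.choose (q + 1) : ℕ) : ℝ) := by
    have h1 : ∀ z, (((T z).card.choose (q + 1) : ℕ) : ℝ) =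
        ∑ A ∈ powersetCard (q + 1) (univ : Finset X), if A ⊆ T z then (1 : ℝ) else 0 := by
      intro z
      rw [← Finset.card_powersetCard, Finset.card_eq_sum_ones, Nat.cast_sum,
        ← Finset.sum_filter]
      have h2 : powersetCard (q + 1) (T z) =
          (powersetCard (q + 1) (univ : Finset X)).filter (fun A => A ⊆ T z) := by
        ext A
        simp only [mem_powersetCard, mem_filter, subset_univ, true_and]
        tauto
      rw [h2, Nat.cast_one]
    rw [Finset.sum_congr rfl (fun z _ => h1 z), Finset.sum_comm]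
    refine Finset.sum_congr rfl (fun A _ => ?_)
    rw [Finset.card_filter, Nat.cast_sum]
    refine Finset.sum_congr rfl (fun z _ => ?_)
    split_ifs <;> simp
  obtain ⟨u, hu⟩ : ∃ u : Z → ℝ, u = fun z => (((T z).card + 1 - (q + 1) : ℕ) : ℝ) := ⟨_, rfl⟩
  have hu0 : ∀ z ∈ (univ : Finset Z), 0 ≤ u z := by
    intro z _
    rw [hu]
    exact Nat.cast_nonneg _
  have hu1 : ∀ z, ((T z).card : ℝ) - q ≤ u z := by
    intro z
    rw [hu]
    simp only
    have h1 : (T z).card ≤ ((T z).card + 1 - (q + 1)) + q := by omega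
    have h2 : ((T z).card : ℝ) ≤ (((T z).card + 1 - (q + 1) : ℕ) : ℝ) + q := by exact_mod_cast h1
    linarith
  have hsum : (d * n / 2) * m ≤ ∑ z, u z := by
    have h1 : ∑ z, (((T z).card : ℝ) - q) ≤ ∑ z, u z := Finset.sum_le_sum (fun z _ => hu1 z)
    rw [Finset.sum_sub_distrib, Finset.sum_const, Finset.card_univ, ← hm, nsmul_eq_mul] at h1
    nlinarith
  have hj := pow_sum_div_card_le_sum_pow (s := (univ : Finset Z)) (f := u) hu0 q
  rw [Finset.card_univ, ← hm] at hj
  have hmain : (d * n / 2) ^ (q + 1) * m ≤ ∑ z, u z ^ (q + 1) := by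
    refine le_trans ?_ hj
    rw [le_div_iff₀ (pow_pos hm0' q)]
    have h1 : (d * n / 2) ^ (q + 1) * m * (m : ℝ) ^ q = ((d * n / 2) * m) ^ (q + 1) := by ring
    rw [h1]
    exact pow_le_pow_left₀ (by positivity) hsum _
  have hch : ∀ z, u z ^ (q + 1) / ((q + 1).factorial : ℝ) ≤ (((T z).card.choose (q + 1) : ℕ) : ℝ) := by
    intro z
    rw [hu]
    exact Nat.pow_le_choose (q + 1) (T z).card
  have htot : (((powersetCard (q + 1) (univ : Finset X)).card : ℕ) : ℝ) ≤
      (n : ℝ) ^ (q + 1) / ((q + 1).factorial : ℝ) := by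
    rw [Finset.card_powersetCard, Finset.card_univ, ← hnn]
    exact Nat.choose_le_pow_div (q + 1) n
  have hfin : ∑ A ∈ powersetCard (q + 1) (univ : Finset X), ((d / 2) ^ (q + 1) * (m : ℝ)) ≤
      ∑ A ∈ powersetCard (q + 1) (univ : Finset X), ((univ.filter (fun z => A ⊆ T z)).card : ℝ) := by
    rw [hcount, Finset.sum_const, nsmul_eq_mul]
    have h1 : ∑ z, u z ^ (q + 1) / ((q + 1).factorial : ℝ) ≤
        ∑ z, (((T z).card.choose (q + 1) : ℕ) : ℝ) := Finset.sum_le_sum (fun z _ => hch z)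
    refine le_trans ?_ h1
    rw [← Finset.sum_div]
    have h2 : (((powersetCard (q + 1) (univ : Finset X)).card : ℕ) : ℝ) * ((d / 2) ^ (q + 1) * (m : ℝ)) ≤
        (n : ℝ) ^ (q + 1) / ((q + 1).factorial : ℝ) * ((d / 2) ^ (q + 1) * (m : ℝ)) :=
      mul_le_mul_of_nonneg_right htot (by positivity)
    refine h2.trans ?_
    rw [div_mul_eq_mul_div]
    refine div_le_div_of_nonneg_right ?_ hfac.le
    have h3 : (n : ℝ) ^ (q + 1) * ((d / 2) ^ (q + 1) * m) = (d * n / 2) ^ (q + 1) * m := by ring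
    rw [h3]
    exact hmain
  obtain ⟨A, hA, hA2⟩ := Finset.exists_le_of_sum_le hne hfin
  exact ⟨A, (mem_powersetCard.1 hA).2, hA2⟩

theorem R1_fin (q : ℕ) (s : ℕ) : ∀ (d : ℝ), 0 < d →
    ∃ n₀ : ℕ, ∀ (X : Type) [Fintype X] [DecidableEq X], n₀ ≤ Fintype.card X →
      ∀ S : Finset (Fin s → X), d * (Fintype.card X : ℝ) ^ s ≤ S.card →
        ∃ A : Fin s → Finset X, (∀ i, (A i).card = q + 1) ∧
          ∀ p : Fin s → X, (∀ i, p i ∈ A i) → p ∈ S := by
  induction s with
  | zero =>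
    intro d hd
    refine ⟨0, fun X _ _ _ S hS => ⟨fun i => i.elim0, fun i => i.elim0, fun p _ => ?_⟩⟩
    rw [pow_zero, mul_one] at hS
    have h1 : (0 : ℝ) < S.card := lt_of_lt_of_le hd hS
    have h2 : 0 < S.card := by exact_mod_cast h1
    obtain ⟨p', hp'⟩ := Finset.card_pos.1 h2
    rwa [Subsingleton.elim p p']
  | succ s ih =>
    intro d hd
    obtain ⟨n₁, hn₁⟩ := ih ((d / 2) ^ (q + 1)) (by positivity)
    obtain ⟨n₂, hn₂⟩ := exists_nat_ge (2 * ((q : ℝ) + 1) / d)
    refine ⟨max n₁ (max n₂ 1), fun X _ _ hX S hS => ?_⟩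
    have hX1 : n₁ ≤ Fintype.card X := (le_max_left _ _).trans hX
    have hX2 : n₂ ≤ Fintype.card X := (le_max_left _ _).trans ((le_max_right _ _).trans hX)
    have hX3 : 1 ≤ Fintype.card X := (le_max_right _ _).trans ((le_max_right _ _).trans hX)
    have hne : Nonempty X := Fintype.card_pos_iff.1 hX3
    have hcard : 2 * ((q : ℝ) + 1) ≤ d * Fintype.card X := by
      have h1 : 2 * ((q : ℝ) + 1) / d ≤ Fintype.card X := hn₂.trans (by exact_mod_cast hX2)
      rw [div_le_iff₀ hd] at h1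
      linarith
    obtain ⟨T, hT⟩ : ∃ T : (Fin s → X) → Finset X,
        T = fun z => univ.filter (fun x => (Fin.cons x z : Fin (s + 1) → X) ∈ S) := ⟨_, rfl⟩
    have hmemT : ∀ z x, x ∈ T z ↔ (Fin.cons x z : Fin (s + 1) → X) ∈ S := by
      intro z x
      rw [hT]
      simp
    have hsum : (S.card : ℝ) ≤ ∑ z, ((T z).card : ℝ) := by
      have h1 : S.card ≤ (univ.sigma T).card := by
        refine Finset.card_le_card_of_injOn (fun p => ⟨Fin.tail p, p 0⟩) ?_ ?_
        · intro p hp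
          rw [Finset.mem_coe, mem_sigma]
          refine ⟨mem_univ _, ?_⟩
          rw [hmemT]
          simp only [Fin.cons_self_tail]
          exact hp
        · intro p _ p' _ hpp
          simp only [Sigma.mk.injEq, heq_eq_eq] at hpp
          rw [← Fin.cons_self_tail p, ← Fin.cons_self_tail p', hpp.1, hpp.2]
      rw [Finset.card_sigma] at h1
      exact_mod_cast h1
    have hcz : (Fintype.card (Fin s → X) : ℝ) = (Fintype.card X : ℝ) ^ s := by
      rw [Fintype.card_fun, Fintype.card_fin, Nat.cast_pow]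
    obtain ⟨A, hA1, hA2⟩ := R1_pick T hd q hcard (by
      refine le_trans ?_ (hS.trans hsum)
      rw [hcz]
      apply le_of_eq
      ring)
    rw [hcz] at hA2
    obtain ⟨A', hA3, hA4⟩ := hn₁ X hX1 (univ.filter (fun z => A ⊆ T z)) hA2
    refine ⟨Fin.cons A A', ?_, ?_⟩
    · intro i
      refine Fin.cases ?_ (fun j => ?_) i
      · rw [Fin.cons_zero]; exact hA1
      · rw [Fin.cons_succ]; exact hA3 j
    · intro p hp
      have h0 : p 0 ∈ A := by
        have := hp 0
        rwa [Fin.cons_zero] at this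
      have h1 : Fin.tail p ∈ univ.filter (fun z => A ⊆ T z) := by
        refine hA4 _ (fun i => ?_)
        have := hp i.succ
        rwa [Fin.cons_succ] at this
      have h2 := (mem_filter.1 h1).2 h0
      rw [hmemT, Fin.cons_self_tail] at h2
      exact h2

theorem box (ι : Type) [Fintype ι] [DecidableEq ι] (d : ℝ) (hd : 0 < d) (Q : ℕ) :
    ∃ n₀ : ℕ, ∀ (X : Type) [Fintype X] [DecidableEq X], n₀ ≤ Fintype.card X →
      ∀ S : Finset (ι → X), d * (Fintype.card X : ℝ) ^ (Fintype.card ι) ≤ S.card →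
        ∃ A : ι → Finset X, (∀ i, (A i).card = Q) ∧
          ∀ p : ι → X, (∀ i, p i ∈ A i) → p ∈ S := by
  obtain ⟨n₀, h⟩ := R1_fin Q (Fintype.card ι) d hd
  refine ⟨n₀, fun X _ _ hX S hS => ?_⟩
  let e : ι ≃ Fin (Fintype.card ι) := Fintype.equivFin ι
  let E : (ι → X) ≃ (Fin (Fintype.card ι) → X) := e.arrowCongr (Equiv.refl X)
  obtain ⟨A, hA1, hA2⟩ := h X hX (S.map E.toEmbedding) (by rw [Finset.card_map]; exact hS)
  have hB : ∀ i, ∃ B : Finset X, B ⊆ A (e i) ∧ B.card = Q := fun i =>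
    Finset.exists_subset_card_eq (by rw [hA1]; exact Nat.le_succ Q)
  choose B hB1 hB2 using hB
  refine ⟨B, hB2, fun p hp => ?_⟩
  have h1 : E p ∈ S.map E.toEmbedding := by
    refine hA2 _ (fun j => ?_)
    have h2 := hB1 _ (hp (e.symm j))
    rw [Equiv.apply_symm_apply] at h2
    exact h2
  rw [Finset.mem_map_equiv, Equiv.symm_apply_apply] at h1
  exact h1

end Pool.Agent.Lib.H3MT.R
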