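import Mathlib

/-!
# H3MT chunk R2 (S/M): marginals of the uniform distribution on `ι → X`

`e : κ → ι` injective: the sum over `p : ι → X` of `G (p ∘ e)` is `|X|^(|ι|-|κ|)` times the sum over
`z : κ → X` of `G z`.

Proof.  Restrict to the range of `e`: `Equiv.piEquivPiSubtypeProd (fun i => i ∈ Set.range e)` gives
`(ι → X) ≃ (Set.range e → X) × (complement → X)`, `Equiv.ofInjective e` identifies the first
factor with `κ → X`, and the second has `|X|^(|ι|-|κ|)` elements.  (Or: the fibers of `p ↦ p ∘ e` all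
have `|X|^(|ι|-|κ|)` elements, `Finset.sum_fiberwise`.)  If `X` is empty: both sides vanish unless
`ι` is empty; the product form below is true in all cases.
-/

namespace Pool.Agent.Lib.H3MT.R

open Finset

theorem sum_comp {ι κ X : Type} [Fintype ι] [DecidableEq ι] [Fintype κ] [DecidableEq κ]
    [Fintype X] [DecidableEq X] (e : κ → ι) (he : Function.Injective e) (G : (κ → X) → ℝ) :
    (∑ p : ι → X, G (p ∘ e)) * (Fintype.card X : ℝ) ^ (Fintype.card κ) =
      (Fintype.card X : ℝ) ^ (Fintype.card ι) * ∑ z : κ → X, G z := by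
  classical
  set τ := ((Set.range e)ᶜ : Set ι) with hτ
  let σ : κ ⊕ τ ≃ ι := (Equiv.sumCongr (Equiv.ofInjective e he) (Equiv.refl _)).trans
    (Equiv.Set.sumCompl (Set.range e))
  have hσ : ∀ k, σ (Sum.inl k) = e k := fun k => rfl
  let E : (κ → X) × (τ → X) ≃ (ι → X) :=
    (Equiv.sumArrowEquivProdArrow κ τ X).symm.trans (Equiv.arrowCongr σ (Equiv.refl X))
  have hE : ∀ z : (κ → X) × (τ → X), (E z) ∘ e = z.1 := by
    intro z
    funext k
    show (Sum.elim z.1 z.2) (σ.symm (e k)) = z.1 k
    rw [← hσ k, Equiv.symm_apply_apply, Sum.elim_inl]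
  have hcard : Fintype.card ι = Fintype.card κ + Fintype.card τ := by
    rw [← Fintype.card_congr σ, Fintype.card_sum]
  have h1 : ∑ p : ι → X, G (p ∘ e) = ∑ z : (κ → X) × (τ → X), G z.1 := by
    rw [← Equiv.sum_comp E]
    exact sum_congr rfl fun z _ => by rw [hE]
  rw [h1, Fintype.sum_prod_type, hcard, pow_add]
  simp only [sum_const, card_univ, nsmul_eq_mul, Fintype.card_fun]
  rw [← mul_sum]
  push_cast
  ring

/-- the number of the `p` with `p ∘ e ∈ S` -/
theorem card_comp {ι κ X : Type} [Fintype ι] [DecidableEq ι] [Fintype κ] [DecidableEq κ]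
    [Fintype X] [DecidableEq X] (e : κ → ι) (he : Function.Injective e) (S : Finset (κ → X)) :
    ((univ.filter (fun p : ι → X => p ∘ e ∈ S)).card : ℝ) * (Fintype.card X : ℝ) ^ (Fintype.card κ) =
      (Fintype.card X : ℝ) ^ (Fintype.card ι) * S.card := by
  have h := sum_comp e he (fun z : κ → X => if z ∈ S then (1 : ℝ) else 0)
  rw [Finset.sum_boole, Finset.sum_boole] at h
  rw [h]
  congr 2
  congr 1
  ext z
  simp

end Pool.Agent.Lib.H3MT.R
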