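import Mathlib
import Pool.Agent.Lib.H3MT.RDefs
import Pool.Agent.Lib.H3MT.R2

/-!
# H3MT chunk R3 (S/M): the mean total weight of a block, the mean of `cB`, non-injective blocks

`tot_mean`: `∑_p ∑_F W_p(F) = |X|^(kN) * (N/|X|) * ∑_y ω y`.  Swap the sums.  For fixed
`F = (f, α)` (`f j = (F j).1`, `α j = (F j).2`) apply `R2.sum_comp` with `e : Fin k → Fin k × Fin N`,
`e j = (j, f j)` (injective) and `G z = ω (fun j => (z j, α j))`: the sum over `p` of `ω (vt p F)` is
`|X|^(kN-k) ∑_z ω (z, α)`; the sum over `α` gives `∑_y ω y` (`y : Fin k → X × Fin k` is the pair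
`(z, α)`), the sum over `f` the factor `N^k`; `N^k * (|X|/N)^(k-1) * |X|^(kN-k) = |X|^(kN) * N/|X|`.
(`1 ≤ k`, `1 ≤ N`, `X` nonempty.)

`cB_mean`: for each position `a`, `R2.card_comp` with `κ = Unit`.

`noninj`: a non-injective `p` has `p a = p b` for some `a ≠ b`; `R2.card_comp` with `κ = Bool` (or
`Fin 2`), `S = {z | z 0 = z 1}`, `|S| = |X|`; union bound over the `(kN)^2` pairs.
-/

namespace Pool.Agent.Lib.H3MT.R

open Finset

theorem R3_swap {A B : Type} [Fintype A] [Fintype B] {k : ℕ} (g : (Fin k → A × B) → ℝ) :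
    ∑ y : Fin k → A × B, g y = ∑ f : Fin k → A, ∑ α : Fin k → B, g (fun j => (f j, α j)) := by
  classical
  rw [← Equiv.sum_comp (Equiv.arrowProdEquivProdArrow (Fin k) (fun _ => A) (fun _ => B)).symm,
    Fintype.sum_prod_type]
  rfl

theorem tot_mean {k N : ℕ} {X : Type} [Fintype X] [DecidableEq X] [Nonempty X] (hk : 1 ≤ k)
    (hN : 1 ≤ N) (ω : (Fin k → X × Fin k) → ℝ) :
    ∑ p : Fin k × Fin N → X, ∑ F : Fin k → Fin N × Fin k, Wb ω p F =
      (Fintype.card X : ℝ) ^ (k * N) * (N / (Fintype.card X : ℝ)) * ∑ y, ω y := by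
  have hX : (0 : ℝ) < Fintype.card X := by exact_mod_cast Fintype.card_pos
  have hN0 : (0 : ℝ) < N := by exact_mod_cast hN
  have key : ∀ (f : Fin k → Fin N) (α : Fin k → Fin k),
      (∑ p : Fin k × Fin N → X, ω (fun j => (p (j, f j), α j))) * (Fintype.card X : ℝ) ^ k =
      (Fintype.card X : ℝ) ^ (k * N) * ∑ z : Fin k → X, ω (fun j => (z j, α j)) := by
    intro f α
    have h := sum_comp (ι := Fin k × Fin N) (κ := Fin k) (X := X) (fun j => (j, f j))
      (fun a b hab => (Prod.ext_iff.1 hab).1) (fun z => ω (fun j => (z j, α j)))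
    rw [Fintype.card_fin, Fintype.card_prod, Fintype.card_fin, Fintype.card_fin] at h
    exact h
  have h1 : (∑ p : Fin k × Fin N → X, ∑ F : Fin k → Fin N × Fin k, ω (vt p F)) *
      (Fintype.card X : ℝ) ^ k = (N : ℝ) ^ k * ((Fintype.card X : ℝ) ^ (k * N) * ∑ y, ω y) := by
    rw [Finset.sum_comm, R3_swap, sum_mul]
    have h2 : ∀ f : Fin k → Fin N,
        (∑ α : Fin k → Fin k, ∑ p : Fin k × Fin N → X, ω (vt p fun j => (f j, α j))) *
          (Fintype.card X : ℝ) ^ k = (Fintype.card X : ℝ) ^ (k * N) * ∑ y, ω y := by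
      intro f
      have h5 : (∑ α : Fin k → Fin k, ∑ p : Fin k × Fin N → X, ω (vt p fun j => (f j, α j))) *
          (Fintype.card X : ℝ) ^ k = ∑ α : Fin k → Fin k,
            (Fintype.card X : ℝ) ^ (k * N) * ∑ z : Fin k → X, ω (fun j => (z j, α j)) := by
        rw [sum_mul]
        exact sum_congr rfl fun α _ => key f α
      rw [h5, ← mul_sum, R3_swap, Finset.sum_comm]
    rw [sum_congr rfl fun f _ => h2 f, sum_const, card_univ, nsmul_eq_mul, Fintype.card_fun,
      Fintype.card_fin, Fintype.card_fin]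
    push_cast
    rfl
  have h3 : ∑ p : Fin k × Fin N → X, ∑ F : Fin k → Fin N × Fin k, Wb ω p F =
      (∑ p : Fin k × Fin N → X, ∑ F : Fin k → Fin N × Fin k, ω (vt p F)) *
        ((Fintype.card X : ℝ) / N) ^ (k - 1) := by
    rw [sum_mul]
    refine sum_congr rfl fun p _ => ?_
    rw [sum_mul]
    rfl
  rw [h3]
  obtain ⟨m, rfl⟩ : ∃ m, k = m + 1 := ⟨k - 1, by omega⟩
  rw [Nat.add_sub_cancel]
  set S := ∑ p : Fin (m + 1) × Fin N → X, ∑ F : Fin (m + 1) → Fin N × Fin (m + 1), ω (vt p F)
  set Y := ∑ y, ω y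
  set x := (Fintype.card X : ℝ)
  set P := x ^ ((m + 1) * N)
  have h4 : S = (N : ℝ) ^ (m + 1) * (P * Y) / x ^ (m + 1) := by
    rw [eq_div_iff (by positivity), h1]
  rw [h4, div_pow]
  field_simp
  ring

theorem cB_mean {k N : ℕ} {X : Type} [Fintype X] [DecidableEq X] [Nonempty X]
    (B : Finset X) :
    ∑ p : Fin k × Fin N → X, (cB B p : ℝ) =
      (Fintype.card X : ℝ) ^ (k * N) * ((k * N : ℕ) * (B.card : ℝ) / (Fintype.card X : ℝ)) := by
  have hX : (0 : ℝ) < Fintype.card X := by exact_mod_cast Fintype.card_pos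
  have key : ∀ a : Fin k × Fin N, (∑ p : Fin k × Fin N → X, if p a ∈ B then (1 : ℝ) else 0) =
      (Fintype.card X : ℝ) ^ (k * N) * ((B.card : ℝ) / (Fintype.card X : ℝ)) := by
    intro a
    have h := sum_comp (ι := Fin k × Fin N) (κ := Unit) (X := X) (fun _ => a)
      (fun _ _ _ => rfl) (fun z => if z () ∈ B then (1 : ℝ) else 0)
    rw [Fintype.card_prod, Fintype.card_fin, Fintype.card_fin, Fintype.card_unit, pow_one] at h
    have h2 : ∑ z : Unit → X, (if z () ∈ B then (1 : ℝ) else 0) = B.card := by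
      rw [← Equiv.sum_comp (Equiv.funUnique Unit X).symm]
      simp
    rw [h2] at h
    rw [← mul_div_assoc, eq_div_iff hX.ne', ← h]
    rfl
  have h1 : ∀ p : Fin k × Fin N → X, (cB B p : ℝ) = ∑ a, if p a ∈ B then (1 : ℝ) else 0 := by
    intro p
    rw [cB, Finset.sum_boole]
  rw [sum_congr rfl fun p _ => h1 p, Finset.sum_comm, sum_congr rfl fun a _ => key a, sum_const,
    card_univ, nsmul_eq_mul, Fintype.card_prod, Fintype.card_fin, Fintype.card_fin]
  ring

theorem noninj {k N : ℕ} {X : Type} [Fintype X] [DecidableEq X] [Nonempty X] :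
    ((univ.filter (fun p : Fin k × Fin N → X => ¬ Function.Injective p)).card : ℝ) ≤
      (Fintype.card X : ℝ) ^ (k * N) * (((k * N : ℕ) : ℝ) ^ 2 / (Fintype.card X : ℝ)) := by
  have hX : (0 : ℝ) < Fintype.card X := by exact_mod_cast Fintype.card_pos
  have key : ∀ a b : Fin k × Fin N, a ≠ b →
      (∑ p : Fin k × Fin N → X, if p a = p b then (1 : ℝ) else 0) =
      (Fintype.card X : ℝ) ^ (k * N) * (1 / (Fintype.card X : ℝ)) := by
    intro a b hab
    have h := sum_comp (ι := Fin k × Fin N) (κ := Bool) (X := X) (fun c => cond c a b)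
      (by
        intro c d hcd
        cases c <;> cases d <;> simp_all) (fun z => if z true = z false then (1 : ℝ) else 0)
    rw [Fintype.card_prod, Fintype.card_fin, Fintype.card_fin, Fintype.card_bool] at h
    have h2 : ∑ z : Bool → X, (if z true = z false then (1 : ℝ) else 0) = Fintype.card X := by
      rw [← Equiv.sum_comp (Equiv.boolArrowEquivProd X).symm, Fintype.sum_prod_type]
      have h3 : ∀ x y : X, (if (Equiv.boolArrowEquivProd X).symm (x, y) true =
          (Equiv.boolArrowEquivProd X).symm (x, y) false then (1 : ℝ) else 0) =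
          if x = y then 1 else 0 := by
        intro x y
        simp [Equiv.boolArrowEquivProd, eq_comm]
      simp only [h3]
      simp
    rw [h2] at h
    have h4 : (∑ p : Fin k × Fin N → X, if p a = p b then (1 : ℝ) else 0) *
        (Fintype.card X : ℝ) ^ 2 = (Fintype.card X : ℝ) ^ (k * N) * Fintype.card X := h
    have h5 : (∑ p : Fin k × Fin N → X, if p a = p b then (1 : ℝ) else 0) =
        (Fintype.card X : ℝ) ^ (k * N) * Fintype.card X / (Fintype.card X : ℝ) ^ 2 := by
      rw [eq_div_iff (by positivity), h4]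
    rw [h5]
    field_simp
  have h1 : ((univ.filter (fun p : Fin k × Fin N → X => ¬ Function.Injective p)).card : ℝ) ≤
      ∑ a : Fin k × Fin N, ∑ b : Fin k × Fin N, ∑ p : Fin k × Fin N → X,
        if a ≠ b ∧ p a = p b then (1 : ℝ) else 0 := by
    rw [sum_congr rfl fun a _ => Finset.sum_comm, Finset.sum_comm, ← Finset.sum_boole]
    refine sum_le_sum fun p _ => ?_
    by_cases hp : Function.Injective p
    · rw [if_neg (not_not.2 hp)]
      exact sum_nonneg fun a _ => sum_nonneg fun b _ => by split_ifs <;> norm_num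
    · rw [if_pos hp]
      obtain ⟨a, b, hab, hne⟩ := Function.not_injective_iff.1 hp
      refine le_trans ?_ (single_le_sum (f := fun a => ∑ b : Fin k × Fin N,
        if a ≠ b ∧ p a = p b then (1 : ℝ) else 0) (fun a _ => sum_nonneg fun b _ => by
          split_ifs <;> norm_num) (mem_univ a))
      refine le_trans ?_ (single_le_sum (f := fun b =>
        if a ≠ b ∧ p a = p b then (1 : ℝ) else 0) (fun b _ => by
          split_ifs <;> norm_num) (mem_univ b))
      rw [if_pos ⟨hne, hab⟩]
  refine h1.trans ?_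
  have h2 : ∀ a b : Fin k × Fin N, (∑ p : Fin k × Fin N → X,
      if a ≠ b ∧ p a = p b then (1 : ℝ) else 0) ≤
      (Fintype.card X : ℝ) ^ (k * N) * (1 / (Fintype.card X : ℝ)) := by
    intro a b
    by_cases hab : a = b
    · simp only [hab, ne_eq, not_true_eq_false, false_and, if_false, sum_const_zero]
      positivity
    · rw [← key a b hab]
      refine sum_le_sum fun p _ => ?_
      simp only [ne_eq, hab, not_false_eq_true, true_and]
      exact le_rfl
  refine (sum_le_sum fun a _ => sum_le_sum fun b _ => h2 a b).trans ?_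
  rw [sum_const, sum_const, card_univ, nsmul_eq_mul, nsmul_eq_mul, Fintype.card_prod,
    Fintype.card_fin, Fintype.card_fin]
  apply le_of_eq
  ring

end Pool.Agent.Lib.H3MT.R
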