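import Mathlib
import Pool.Agent.Lib.H3MT.R2

/-!
# H3MT chunk R4 (M): the second moment of a sum over sections

`g : (Fin k → X) → [0, b]`, `j : Fin k`, `i : Fin N`.  For a block `p : Fin k × Fin N → X` let
`G p = ∑_{f : Fin k → Fin N, f j = i} g (fun l => p (l, f l))`.  Given `p (j, i) = x` its mean is
`N^(k-1) * m x`, `m x = (∑_{z, z j = x} g z) / |X|^(k-1)`.  Claim: the mean square deviation is at
most `k * b^2 * N^(2(k-1)) / N`.

Proof.  `h z = g z - m (z j)`: then `|h| ≤ b` (both terms are in `[0, b]`: there are `|X|^(k-1)` `z`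
with `z j = x`) and `∑_{z, z j = x} h z = 0` for every `x`.  There are `N^(k-1)` `f` with `f j = i`, so
the deviation is `∑_f h (p ∘ f)` (with `(p ∘ f) l = p (l, f l)`; `(p∘f) j = p (j, i)`).  Expand the
square and swap the sums: `∑_{f, f'} ∑_p h (p∘f) h (p∘f')`.
* If `f l ≠ f' l` for all `l ≠ j` the inner sum is zero: apply `R2.sum_comp` with
  `κ = Fin k ⊕ {l // l ≠ j}`, `e (inl l) = (l, f l)`, `e (inr l) = (l, f' l)` (injective),
  `G z = h (z ∘ inl) * h (fun l => if hl : l = j then z (inl j) else z (inr ⟨l, hl⟩))`; the sum over the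
  `inr` part with the `inl` part fixed is `∑_{z', z' j = z (inl j)} h z' = 0`.
* Otherwise it is at most `b^2 |X|^(kN)` in absolute value, and there are at most `(k-1) N^(2(k-1)-1)`
  such pairs (union bound over `l ≠ j`: `f' l = f l` leaves `N^(k-1) * N^(k-2)` pairs; none if
  `k = 1`).  Bound used: `k * N^(2(k-1)) / N`.
-/

namespace Pool.Agent.Lib.H3MT.R

open Finset

theorem R4_cardfix {κ Y : Type} [Fintype κ] [DecidableEq κ] [Fintype Y] [DecidableEq Y] (j : κ)
    (x : Y) : (univ.filter (fun z : κ → Y => z j = x)).card =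
      Fintype.card Y ^ (Fintype.card κ - 1) := by
  have h1 : (univ.filter (fun z : κ → Y => z j = x)) =
      Fintype.piFinset (fun l => if l = j then ({x} : Finset Y) else univ) := by
    ext z
    simp only [mem_filter, mem_univ, true_and, Fintype.mem_piFinset]
    constructor
    · intro h l
      by_cases hl : l = j
      · subst hl; simp [h]
      · simp [hl]
    · intro h
      have := h j
      simpa using this
  rw [h1, Fintype.card_piFinset]
  have h2 : ∀ l, (if l = j then ({x} : Finset Y) else univ).card =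
      if l = j then 1 else Fintype.card Y := by
    intro l
    by_cases hl : l = j <;> simp [hl]
  rw [Finset.prod_congr rfl (fun l _ => h2 l), Finset.prod_ite, Finset.prod_const_one, one_mul,
    Finset.prod_const]
  congr 1
  rw [Finset.filter_not, Finset.card_sdiff_of_subset (filter_subset _ _), card_univ]
  simp [Finset.filter_eq']

theorem R4_cardfix2 {κ Y : Type} [Fintype κ] [DecidableEq κ] [Fintype Y] [DecidableEq Y] (j l : κ)
    (hl : l ≠ j) (x y : Y) : (univ.filter (fun z : κ → Y => z j = x ∧ z l = y)).card =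
      Fintype.card Y ^ (Fintype.card κ - 2) := by
  have h1 : (univ.filter (fun z : κ → Y => z j = x ∧ z l = y)) =
      Fintype.piFinset (fun a => if a = j then ({x} : Finset Y) else
        if a = l then {y} else univ) := by
    ext z
    simp only [mem_filter, mem_univ, true_and, Fintype.mem_piFinset]
    constructor
    · rintro ⟨h, h'⟩ a
      by_cases ha : a = j
      · subst ha; simp [h]
      · by_cases ha' : a = l
        · subst ha'; simp [ha, h']
        · simp [ha, ha']
    · intro h
      have h2 := h j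
      have h3 := h l
      simp only [if_true, mem_singleton, if_neg hl] at h2 h3
      exact ⟨h2, h3⟩
  rw [h1, Fintype.card_piFinset]
  have h2 : ∀ a, (if a = j then ({x} : Finset Y) else if a = l then {y} else univ).card =
      if a = j ∨ a = l then 1 else Fintype.card Y := by
    intro a
    by_cases ha : a = j
    · simp [ha]
    · by_cases ha' : a = l
      · subst ha'; simp [ha]
      · simp [ha, ha']
  rw [Finset.prod_congr rfl (fun l _ => h2 l), Finset.prod_ite, Finset.prod_const_one, one_mul,
    Finset.prod_const]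
  congr 1
  rw [Finset.filter_not, Finset.card_sdiff_of_subset (filter_subset _ _), card_univ]
  congr 1
  have h3 : (univ.filter (fun a : κ => a = j ∨ a = l)) = {j, l} := by
    ext a; simp
  rw [h3, card_pair hl.symm]

theorem R4_fiber {k : ℕ} {X : Type} [Fintype X] [DecidableEq X] (j : Fin k) (x : X)
    (h : (Fin k → X) → ℝ) :
    ∑ z2 : {l : Fin k // l ≠ j} → X, h (fun l => if hl : l = j then x else z2 ⟨l, hl⟩) =
      ∑ z : Fin k → X with z j = x, h z := by
  refine Finset.sum_bij' (fun z2 _ => fun l => if hl : l = j then x else z2 ⟨l, hl⟩)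
    (fun z _ => fun l => z l.1) ?_ ?_ ?_ ?_ ?_
  · intro z2 _
    simp
  · intro z _
    exact mem_univ _
  · intro z2 _
    funext l
    simp [l.2]
  · intro z hz
    rw [mem_filter] at hz
    funext l
    by_cases hl : l = j
    · subst hl; simp [hz.2]
    · simp [hl]
  · intro z2 _
    rfl

theorem R4_indep {k N : ℕ} {X : Type} [Fintype X] [DecidableEq X] [Nonempty X]
    (j : Fin k) (h : (Fin k → X) → ℝ) (h0 : ∀ x, ∑ z : Fin k → X with z j = x, h z = 0)
    (f f' : Fin k → Fin N) (hj : f j = f' j) (hne : ∀ l, l ≠ j → f l ≠ f' l) :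
    ∑ p : Fin k × Fin N → X, h (fun l => p (l, f l)) * h (fun l => p (l, f' l)) = 0 := by
  classical
  let e : Fin k ⊕ {l : Fin k // l ≠ j} → Fin k × Fin N :=
    Sum.elim (fun l => (l, f l)) (fun l => (l.1, f' l.1))
  have he : Function.Injective e := by
    intro a b hab
    rcases a with a | a <;> rcases b with b | b
    · simp only [e, Sum.elim_inl, Prod.mk.injEq] at hab
      rw [hab.1]
    · simp only [e, Sum.elim_inl, Sum.elim_inr, Prod.mk.injEq] at hab
      exfalso
      have h1 := hab.2
      rw [hab.1] at h1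
      exact hne b.1 b.2 h1
    · simp only [e, Sum.elim_inl, Sum.elim_inr, Prod.mk.injEq] at hab
      exfalso
      have h1 := hab.2
      rw [hab.1] at h1
      exact hne b (hab.1 ▸ a.2) h1.symm
    · simp only [e, Sum.elim_inr, Prod.mk.injEq] at hab
      rw [Subtype.ext hab.1]
  let G : (Fin k ⊕ {l : Fin k // l ≠ j} → X) → ℝ := fun z =>
    h (fun l => z (Sum.inl l)) *
      h (fun l => if hl : l = j then z (Sum.inl j) else z (Sum.inr ⟨l, hl⟩))
  have hG : ∀ p : Fin k × Fin N → X, h (fun l => p (l, f l)) * h (fun l => p (l, f' l)) =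
      G (p ∘ e) := by
    intro p
    have h1 : (fun l => if hl : l = j then (p ∘ e) (Sum.inl j)
        else (p ∘ e) (Sum.inr (⟨l, hl⟩ : {l : Fin k // l ≠ j}))) = fun l => p (l, f' l) := by
      funext l
      by_cases hl : l = j
      · subst hl
        simp [e, hj]
      · simp [e, hl]
    simp only [G]
    rw [h1]
    rfl
  have hsum : ∑ z, G z = 0 := by
    rw [← (Equiv.sumArrowEquivProdArrow (Fin k) {l : Fin k // l ≠ j} X).symm.sum_comp,
      Fintype.sum_prod_type]
    refine Finset.sum_eq_zero (fun z1 _ => ?_)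
    have h1 : ∀ z2 : {l : Fin k // l ≠ j} → X,
        G ((Equiv.sumArrowEquivProdArrow (Fin k) {l : Fin k // l ≠ j} X).symm (z1, z2)) =
        h z1 * h (fun l => if hl : l = j then z1 j else z2 ⟨l, hl⟩) := by
      intro z2
      rfl
    rw [Finset.sum_congr rfl (fun z2 _ => h1 z2), ← Finset.mul_sum, R4_fiber, h0, mul_zero]
  have h2 := sum_comp e he G
  rw [hsum, mul_zero] at h2
  rw [Finset.sum_congr rfl (fun p _ => hG p)]
  rcases mul_eq_zero.1 h2 with h3 | h3
  · exact h3
  · exfalso
    have : (0 : ℝ) < (Fintype.card X : ℝ) ^ Fintype.card (Fin k ⊕ {l : Fin k // l ≠ j}) := by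
      have : 0 < Fintype.card X := Fintype.card_pos
      positivity
    exact this.ne' h3

theorem second_moment {k N : ℕ} {X : Type} [Fintype X] [DecidableEq X] [Nonempty X]
    (j : Fin k) (i : Fin N) (g : (Fin k → X) → ℝ) (b : ℝ) (hg0 : ∀ z, 0 ≤ g z)
    (hgb : ∀ z, g z ≤ b) :
    ∑ p : Fin k × Fin N → X,
      ((∑ f : Fin k → Fin N with f j = i, g (fun l => p (l, f l))) -
        (N : ℝ) ^ (k - 1) *
          ((∑ z : Fin k → X with z j = p (j, i), g z) / (Fintype.card X : ℝ) ^ (k - 1))) ^ 2 ≤
      (Fintype.card X : ℝ) ^ (k * N) * (k * b ^ 2 * (N : ℝ) ^ (2 * (k - 1)) / N) := by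
  classical
  have hb : 0 ≤ b := (hg0 (fun _ => Classical.arbitrary X)).trans (hgb _)
  have hP : (0 : ℝ) < Fintype.card X := by exact_mod_cast Fintype.card_pos
  have hN : (0 : ℝ) < N := by exact_mod_cast i.pos
  set m : X → ℝ := fun x => (∑ z : Fin k → X with z j = x, g z) / (Fintype.card X : ℝ) ^ (k - 1)
    with hm
  have hcard : ∀ x : X, ((univ.filter (fun z : Fin k → X => z j = x)).card : ℝ) =
      (Fintype.card X : ℝ) ^ (k - 1) := by
    intro x
    rw [R4_cardfix, Fintype.card_fin]
    push_cast
    rfl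
  have hPk : (0 : ℝ) < (Fintype.card X : ℝ) ^ (k - 1) := by positivity
  have hm0 : ∀ x, 0 ≤ m x := fun x => div_nonneg (sum_nonneg (fun z _ => hg0 z)) hPk.le
  have hmb : ∀ x, m x ≤ b := by
    intro x
    rw [hm, div_le_iff₀ hPk, ← hcard x]
    calc ∑ z : Fin k → X with z j = x, g z ≤ ∑ z : Fin k → X with z j = x, b :=
          sum_le_sum (fun z _ => hgb z)
      _ = b * ((univ.filter (fun z : Fin k → X => z j = x)).card : ℝ) := by
          rw [sum_const, nsmul_eq_mul, mul_comm]
  set h : (Fin k → X) → ℝ := fun z => g z - m (z j) with hh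
  have hhb : ∀ z, |h z| ≤ b := by
    intro z
    rw [abs_le]
    constructor
    · have := hg0 z; have := hmb (z j); simp only [hh]; linarith
    · have := hgb z; have := hm0 (z j); simp only [hh]; linarith
  have hh0 : ∀ x, ∑ z : Fin k → X with z j = x, h z = 0 := by
    intro x
    have h1 : ∑ z : Fin k → X with z j = x, h z = ∑ z : Fin k → X with z j = x, (g z - m x) := by
      refine sum_congr rfl (fun z hz => ?_)
      rw [mem_filter] at hz
      simp only [hh, hz.2]
    rw [h1, sum_sub_distrib, sum_const, nsmul_eq_mul, hcard x, hm]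
    field_simp
    simp
  set S := univ.filter (fun f : Fin k → Fin N => f j = i) with hS
  have hScard : (S.card : ℝ) = (N : ℝ) ^ (k - 1) := by
    rw [hS, R4_cardfix, Fintype.card_fin, Fintype.card_fin]
    push_cast
    rfl
  have hdev : ∀ p : Fin k × Fin N → X,
      ((∑ f ∈ S, g (fun l => p (l, f l))) - (N : ℝ) ^ (k - 1) * m (p (j, i))) =
        ∑ f ∈ S, h (fun l => p (l, f l)) := by
    intro p
    have h1 : ∑ f ∈ S, h (fun l => p (l, f l)) =
        ∑ f ∈ S, (g (fun l => p (l, f l)) - m (p (j, i))) := by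
      refine sum_congr rfl (fun f hf => ?_)
      rw [hS, mem_filter] at hf
      simp only [hh, hf.2]
    rw [h1, sum_sub_distrib, sum_const, nsmul_eq_mul, hScard]
  have hstart : ∑ p : Fin k × Fin N → X,
      ((∑ f ∈ S, g (fun l => p (l, f l))) - (N : ℝ) ^ (k - 1) * m (p (j, i))) ^ 2 =
      ∑ f ∈ S, ∑ f' ∈ S, ∑ p : Fin k × Fin N → X,
        h (fun l => p (l, f l)) * h (fun l => p (l, f' l)) := by
    rw [sum_congr rfl (fun p _ => by rw [hdev p, sq, sum_mul_sum])]
    rw [sum_comm]
    refine sum_congr rfl (fun f _ => ?_)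
    rw [sum_comm]
  have hgoal : ∑ p : Fin k × Fin N → X,
      ((∑ f : Fin k → Fin N with f j = i, g (fun l => p (l, f l))) -
        (N : ℝ) ^ (k - 1) *
          ((∑ z : Fin k → X with z j = p (j, i), g z) / (Fintype.card X : ℝ) ^ (k - 1))) ^ 2 =
      ∑ p : Fin k × Fin N → X,
      ((∑ f ∈ S, g (fun l => p (l, f l))) - (N : ℝ) ^ (k - 1) * m (p (j, i))) ^ 2 := rfl
  rw [hgoal, hstart]
  -- bound of a single term
  set D : ℝ := b ^ 2 * (Fintype.card X : ℝ) ^ (k * N) with hD
  have hD0 : 0 ≤ D := by positivity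
  have hterm : ∀ f f' : Fin k → Fin N, ∑ p : Fin k × Fin N → X,
        h (fun l => p (l, f l)) * h (fun l => p (l, f' l)) ≤ D := by
    intro f f'
    calc ∑ p : Fin k × Fin N → X, h (fun l => p (l, f l)) * h (fun l => p (l, f' l))
        ≤ ∑ p : Fin k × Fin N → X, b ^ 2 := by
          refine sum_le_sum (fun p _ => ?_)
          have h1 := hhb (fun l => p (l, f l))
          have h2 := hhb (fun l => p (l, f' l))
          calc _ ≤ |h (fun l => p (l, f l)) * h (fun l => p (l, f' l))| := le_abs_self _
            _ = |h (fun l => p (l, f l))| * |h (fun l => p (l, f' l))| := abs_mul _ _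
            _ ≤ b * b := mul_le_mul h1 h2 (abs_nonneg _) hb
            _ = b ^ 2 := by ring
      _ = D := by
          rw [sum_const, card_univ, nsmul_eq_mul, Fintype.card_fun, Fintype.card_prod,
            Fintype.card_fin, Fintype.card_fin, hD]
          push_cast
          ring
  have hpair : ∀ f ∈ S, ∀ f' ∈ S, ∑ p : Fin k × Fin N → X,
        h (fun l => p (l, f l)) * h (fun l => p (l, f' l)) ≤
        ∑ l : Fin k, if l ≠ j ∧ f l = f' l then D else 0 := by
    intro f hf f' hf'
    rw [hS, mem_filter] at hf hf'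
    by_cases hc : ∀ l, l ≠ j → f l ≠ f' l
    · rw [R4_indep j h hh0 f f' (hf.2.trans hf'.2.symm) hc]
      refine sum_nonneg (fun l _ => ?_)
      split_ifs
      · exact hD0
      · exact le_refl 0
    · push Not at hc
      obtain ⟨l, hl, hll⟩ := hc
      refine (hterm f f').trans ?_
      have h1 : D ≤ if l ≠ j ∧ f l = f' l then D else 0 := by rw [if_pos ⟨hl, hll⟩]
      refine h1.trans ?_
      refine single_le_sum (f := fun l => if l ≠ j ∧ f l = f' l then D else 0) (fun l _ => ?_)
        (mem_univ l)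
      split_ifs
      · exact hD0
      · exact le_refl 0
  have hcount : ∀ f ∈ S, ∀ l : Fin k, ∑ f' ∈ S, (if l ≠ j ∧ f l = f' l then D else 0) ≤
      (N : ℝ) ^ (k - 1) / N * D := by
    intro f hf l
    by_cases hl : l = j
    · subst hl
      simp only [ne_eq, not_true_eq_false, false_and, if_false, sum_const_zero]
      positivity
    · have hk2 : 2 ≤ k := by
        by_contra hk
        have h1 := l.isLt
        have h2 := j.isLt
        exact hl (Fin.ext (by omega))
      rw [← sum_filter, sum_const, nsmul_eq_mul]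
      refine mul_le_mul_of_nonneg_right ?_ hD0
      have h1 : (S.filter (fun f' => l ≠ j ∧ f l = f' l)) =
          univ.filter (fun z : Fin k → Fin N => z j = i ∧ z l = f l) := by
        ext z
        simp only [hS, mem_filter, mem_univ, true_and]
        constructor
        · rintro ⟨h1, _, h2⟩; exact ⟨h1, h2.symm⟩
        · rintro ⟨h1, h2⟩; exact ⟨h1, hl, h2.symm⟩
      rw [h1, R4_cardfix2 j l hl, Fintype.card_fin, Fintype.card_fin]
      rw [le_div_iff₀ hN]
      push_cast
      rw [← pow_succ]
      have : k - 2 + 1 = k - 1 := by omega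
      rw [this]
  calc ∑ f ∈ S, ∑ f' ∈ S, ∑ p : Fin k × Fin N → X,
        h (fun l => p (l, f l)) * h (fun l => p (l, f' l))
      ≤ ∑ f ∈ S, ∑ f' ∈ S, ∑ l : Fin k, (if l ≠ j ∧ f l = f' l then D else 0) :=
        sum_le_sum (fun f hf => sum_le_sum (fun f' hf' => hpair f hf f' hf'))
    _ = ∑ f ∈ S, ∑ l : Fin k, ∑ f' ∈ S, (if l ≠ j ∧ f l = f' l then D else 0) :=
        sum_congr rfl (fun f _ => sum_comm)
    _ ≤ ∑ f ∈ S, ∑ l : Fin k, (N : ℝ) ^ (k - 1) / N * D :=
        sum_le_sum (fun f hf => sum_le_sum (fun l _ => hcount f hf l))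
    _ = (Fintype.card X : ℝ) ^ (k * N) * (k * b ^ 2 * (N : ℝ) ^ (2 * (k - 1)) / N) := by
        rw [sum_const, sum_const, nsmul_eq_mul, nsmul_eq_mul, hScard, card_univ, Fintype.card_fin,
          hD, two_mul, pow_add]
        ring

end Pool.Agent.Lib.H3MT.R
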