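import Mathlib
import Pool.Agent.Lib.H3MT.RDefs
import Pool.Agent.Lib.H3MT.R4

/-!
# H3MT chunk R5 (M): the mean excess of the loads

`Wt C ω` (`0 ≤ C`): for every `lam > 0`
`∑_p exc (Wb ω p) ≤ |X|^(kN) * (k^2 N) * (lam/2 + k (k^(k-1) C)^2 / (2 lam N))`.

Proof.  Swap: `exc = ∑_j ∑_v max (ld - 1) 0`, `v = (i, a) : Fin N × Fin k`; there are `k * N * k`
pairs `(j, v)`.  Fix `j, i, a`.  The functions `F : Fin k → Fin N × Fin k` with `F j = (i, a)` are the
pairs `(f, α)` with `f j = i`, `α j = a`, so `ld (Wb ω p) j (i,a) = ∑_{f, f j = i} g (fun l => p (l, f l))`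
with `g z = (|X|/N)^(k-1) * ∑_{α, α j = a} ω (fun l => (z l, α l))`, and
`0 ≤ g z ≤ (|X|/N)^(k-1) * k^(k-1) * C/|X|^(k-1) = k^(k-1) C / N^(k-1) =: b`.
The mean in `R4.second_moment` is `N^(k-1) * (∑_{z, z j = x} g z)/|X|^(k-1) = ∑_{y, y j = (x, a)} ω y ≤ 1`
(`x = p (j, i)`), so `max (ld - 1) 0 ≤ max (ld - mean) 0 ≤ lam/2 + (ld - mean)^2/(2 lam)`
(`t ≤ lam/2 + t^2/(2 lam)`).  Sum over `p` (`|X|^(kN)` blocks) with `R4.second_moment`:
`k b^2 N^(2(k-1)) / N = k (k^(k-1) C)^2 / N`.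
-/

namespace Pool.Agent.Lib.H3MT.R

open Finset

theorem R5_prod {k : ℕ} {A B : Type} [Fintype A] [DecidableEq A] [Fintype B] [DecidableEq B]
    (j : Fin k) (a : A) (b : B) (Φ : (Fin k → A × B) → ℝ) :
    ∑ y : Fin k → A × B with y j = (a, b), Φ y =
      ∑ z : Fin k → A with z j = a, ∑ α : Fin k → B with α j = b, Φ (fun l => (z l, α l)) := by
  classical
  rw [sum_filter, ← (Equiv.arrowProdEquivProdArrow (Fin k) (fun _ => A) (fun _ => B)).symm.sum_comp,
    Fintype.sum_prod_type, sum_filter]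
  refine sum_congr rfl (fun z _ => ?_)
  by_cases hz : z j = a
  · rw [if_pos hz, sum_filter]
    refine sum_congr rfl (fun α _ => ?_)
    by_cases hα : α j = b
    · rw [if_pos hα, if_pos]
      · rfl
      · change (z j, α j) = (a, b)
        rw [hz, hα]
    · rw [if_neg hα, if_neg]
      intro h
      change (z j, α j) = (a, b) at h
      exact hα (Prod.mk.inj h).2
  · rw [if_neg hz]
    refine sum_eq_zero (fun α _ => ?_)
    rw [if_neg]
    intro h
    change (z j, α j) = (a, b) at h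
    exact hz (Prod.mk.inj h).1

theorem R5_one {k N : ℕ} {X : Type} [Fintype X] [DecidableEq X] [Nonempty X]
    (hN : 1 ≤ N) (C : ℝ) (hC : 0 ≤ C) (ω : (Fin k → X × Fin k) → ℝ) (hω : Wt C ω) (lam : ℝ)
    (hlam : 0 < lam) (j : Fin k) (i : Fin N) (a : Fin k) :
    ∑ p : Fin k × Fin N → X, max (ld (Wb ω p) j (i, a) - 1) 0 ≤
      (Fintype.card X : ℝ) ^ (k * N) *
        (lam / 2 + k * ((k : ℝ) ^ (k - 1) * C) ^ 2 / (2 * lam * N)) := by
  classical
  have hP : (0 : ℝ) < Fintype.card X := by exact_mod_cast Fintype.card_pos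
  have hN' : (0 : ℝ) < N := by exact_mod_cast hN
  set s : ℝ := ((Fintype.card X : ℝ) / N) ^ (k - 1) with hs
  have hs0 : 0 ≤ s := by positivity
  set g : (Fin k → X) → ℝ := fun z =>
    ∑ α : Fin k → Fin k with α j = a, ω (fun l => (z l, α l)) * s with hg
  have hg0 : ∀ z, 0 ≤ g z := fun z => sum_nonneg (fun α _ => mul_nonneg (hω.nonneg _) hs0)
  set b : ℝ := (k : ℝ) ^ (k - 1) * C / (N : ℝ) ^ (k - 1) with hb
  have hgb : ∀ z, g z ≤ b := by
    intro z
    calc g z ≤ ∑ α : Fin k → Fin k with α j = a, C / (Fintype.card X : ℝ) ^ (k - 1) * s :=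
          sum_le_sum (fun α _ => mul_le_mul_of_nonneg_right (hω.le _) hs0)
      _ = b := by
          rw [sum_const, nsmul_eq_mul, R4_cardfix, Fintype.card_fin, hs, hb, div_pow]
          push_cast
          field_simp
  have hld : ∀ p : Fin k × Fin N → X, ld (Wb ω p) j (i, a) =
      ∑ f : Fin k → Fin N with f j = i, g (fun l => p (l, f l)) := by
    intro p
    rw [ld, R5_prod]
    rfl
  have hmean : ∀ x : X, (N : ℝ) ^ (k - 1) *
      ((∑ z : Fin k → X with z j = x, g z) / (Fintype.card X : ℝ) ^ (k - 1)) ≤ 1 := by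
    intro x
    have h1 : ∑ z : Fin k → X with z j = x, g z =
        (∑ y : Fin k → X × Fin k with y j = (x, a), ω y) * s := by
      rw [R5_prod, sum_mul]
      refine sum_congr rfl (fun z _ => ?_)
      rw [sum_mul]
    rw [h1, hs, div_pow]
    have h2 : (N : ℝ) ^ (k - 1) * ((∑ y : Fin k → X × Fin k with y j = (x, a), ω y) *
        ((Fintype.card X : ℝ) ^ (k - 1) / (N : ℝ) ^ (k - 1)) / (Fintype.card X : ℝ) ^ (k - 1)) =
        ∑ y : Fin k → X × Fin k with y j = (x, a), ω y := by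
      field_simp
    rw [h2]
    exact hω.load j (x, a)
  have hptw : ∀ p : Fin k × Fin N → X, max (ld (Wb ω p) j (i, a) - 1) 0 ≤
      lam / 2 + ((∑ f : Fin k → Fin N with f j = i, g (fun l => p (l, f l))) -
        (N : ℝ) ^ (k - 1) *
          ((∑ z : Fin k → X with z j = p (j, i), g z) / (Fintype.card X : ℝ) ^ (k - 1))) ^ 2 /
          (2 * lam) := by
    intro p
    rw [hld p]
    have h1 := hmean (p (j, i))
    set u := ∑ f : Fin k → Fin N with f j = i, g (fun l => p (l, f l))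
    set m := (N : ℝ) ^ (k - 1) *
          ((∑ z : Fin k → X with z j = p (j, i), g z) / (Fintype.card X : ℝ) ^ (k - 1))
    have h2 : u - m ≤ lam / 2 + (u - m) ^ 2 / (2 * lam) := by
      have h3 : lam / 2 + (u - m) ^ 2 / (2 * lam) - (u - m) = (u - m - lam) ^ 2 / (2 * lam) := by
        field_simp
        ring
      have h4 : 0 ≤ (u - m - lam) ^ 2 / (2 * lam) := by positivity
      linarith
    refine max_le (by linarith) (by positivity)
  calc ∑ p : Fin k × Fin N → X, max (ld (Wb ω p) j (i, a) - 1) 0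
      ≤ ∑ p : Fin k × Fin N → X, (lam / 2 +
        ((∑ f : Fin k → Fin N with f j = i, g (fun l => p (l, f l))) -
        (N : ℝ) ^ (k - 1) *
          ((∑ z : Fin k → X with z j = p (j, i), g z) / (Fintype.card X : ℝ) ^ (k - 1))) ^ 2 /
          (2 * lam)) := sum_le_sum (fun p _ => hptw p)
    _ = (Fintype.card X : ℝ) ^ (k * N) * (lam / 2) + (∑ p : Fin k × Fin N → X,
        ((∑ f : Fin k → Fin N with f j = i, g (fun l => p (l, f l))) -
        (N : ℝ) ^ (k - 1) *
          ((∑ z : Fin k → X with z j = p (j, i), g z) / (Fintype.card X : ℝ) ^ (k - 1))) ^ 2) /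
          (2 * lam) := by
        rw [sum_add_distrib, sum_const, card_univ, nsmul_eq_mul, Fintype.card_fun,
          Fintype.card_prod, Fintype.card_fin, Fintype.card_fin, sum_div]
        push_cast
        rfl
    _ ≤ (Fintype.card X : ℝ) ^ (k * N) * (lam / 2) + ((Fintype.card X : ℝ) ^ (k * N) *
          (k * b ^ 2 * (N : ℝ) ^ (2 * (k - 1)) / N)) / (2 * lam) := by
        have := second_moment j i g b hg0 hgb
        gcongr
    _ = _ := by
        rw [hb, two_mul, pow_add]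
        field_simp

theorem exc_mean {k N : ℕ} {X : Type} [Fintype X] [DecidableEq X] [Nonempty X]
    (hN : 1 ≤ N) (C : ℝ) (hC : 0 ≤ C) (ω : (Fin k → X × Fin k) → ℝ) (hω : Wt C ω) (lam : ℝ)
    (hlam : 0 < lam) :
    ∑ p : Fin k × Fin N → X, exc (Wb ω p) ≤
      (Fintype.card X : ℝ) ^ (k * N) * ((k ^ 2 * N) *
        (lam / 2 + k * ((k : ℝ) ^ (k - 1) * C) ^ 2 / (2 * lam * N))) := by
  have h1 : ∑ p : Fin k × Fin N → X, exc (Wb ω p) =
      ∑ j : Fin k, ∑ v : Fin N × Fin k, ∑ p : Fin k × Fin N → X,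
        max (ld (Wb ω p) j v - 1) 0 := by
    unfold exc
    rw [sum_comm]
    refine sum_congr rfl (fun j _ => ?_)
    rw [sum_comm]
  rw [h1]
  calc ∑ j : Fin k, ∑ v : Fin N × Fin k, ∑ p : Fin k × Fin N → X,
        max (ld (Wb ω p) j v - 1) 0
      ≤ ∑ j : Fin k, ∑ v : Fin N × Fin k, (Fintype.card X : ℝ) ^ (k * N) *
        (lam / 2 + k * ((k : ℝ) ^ (k - 1) * C) ^ 2 / (2 * lam * N)) :=
        sum_le_sum (fun j _ => sum_le_sum (fun v _ => R5_one hN C hC ω hω lam hlam j v.1 v.2))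
    _ = _ := by
        rw [sum_const, sum_const, card_univ, card_univ, Fintype.card_prod, Fintype.card_fin,
          Fintype.card_fin, nsmul_eq_mul, nsmul_eq_mul]
        push_cast
        ring

end Pool.Agent.Lib.H3MT.R
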