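import Mathlib
import Pool.Agent.Lib.H3MT.RDefs
import Pool.Agent.Lib.H3MT.R3
import Pool.Agent.Lib.H3MT.R5

/-!
# H3MT chunk R6 (M): many good blocks

`Z p = (∑_F Wb ω p F) - exc (Wb ω p) - cB B p`.  If `k (|B| + ε |X|) ≤ ∑_y ω y` then, for a
suitable `N = N(k, C, ε)` and `g = g(k, C, ε) > 0`, for `|X|` large at least `g |X|^(kN)` blocks `p` are
injective and have `Z p ≥ k N ε / 4`.

Proof.  `K = k (k^(k-1) C)^2`, `lam = ε/(2k)`, `N ≥ 1` with `N ≥ 4 k^2 K/ε^2`.  By `tot_mean`, `cB_mean`,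
`exc_mean`: `∑_p Z p ≥ |X|^(kN) (k N ε - k^2 N lam/2 - k^2 K/(2 lam)) ≥ |X|^(kN) k N ε / 2`
(`k^2 N lam/2 = k N ε/4`; `k^2 K/(2 lam) = k^3 K/ε ≤ k N ε/4`).
`Z p ≤ ∑_F Wb ω p F ≤ (N k)^k * C / N^(k-1) = k^k C N` (each weight is at most
`C/|X|^(k-1) * (|X|/N)^(k-1)`; `exc ≥ 0`).  So with `a = #{p | Z p ≥ k N ε/4}`:
`a * k^k C N + |X|^(kN) k N ε/4 ≥ ∑_p Z p ≥ |X|^(kN) k N ε/2`, `a ≥ 2 g |X|^(kN)` with
`g = k ε / (8 k^k C)`.  By `noninj` at most `(kN)^2/|X| * |X|^(kN) ≤ g |X|^(kN)` blocks are not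
injective if `|X| ≥ (kN)^2/g`.
-/

namespace Pool.Agent.Lib.H3MT.R

open Finset

theorem R6_exc_nonneg {k : ℕ} {α : Type} [Fintype α] [DecidableEq α] (W : (Fin k → α) → ℝ) :
    0 ≤ exc W :=
  sum_nonneg (fun _ _ => sum_nonneg (fun _ _ => le_max_right _ _))

theorem R6_tot_le {k N : ℕ} {X : Type} [Fintype X] [DecidableEq X] [Nonempty X] (hk : 1 ≤ k)
    (hN : 1 ≤ N) (C : ℝ) (ω : (Fin k → X × Fin k) → ℝ) (hω : Wt C ω)
    (p : Fin k × Fin N → X) : ∑ F, Wb ω p F ≤ (k : ℝ) ^ k * C * N := by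
  have hP : (0 : ℝ) < Fintype.card X := by exact_mod_cast Fintype.card_pos
  have hN' : (0 : ℝ) < N := by exact_mod_cast hN
  calc ∑ F, Wb ω p F ≤ ∑ F : Fin k → Fin N × Fin k, C / (Fintype.card X : ℝ) ^ (k - 1) *
        ((Fintype.card X : ℝ) / N) ^ (k - 1) :=
        sum_le_sum (fun F _ => mul_le_mul_of_nonneg_right (hω.le _) (by positivity))
    _ = (k : ℝ) ^ k * C * N := by
        rw [sum_const, card_univ, nsmul_eq_mul, Fintype.card_fun, Fintype.card_prod,
          Fintype.card_fin, Fintype.card_fin, div_pow]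
        obtain ⟨l, rfl⟩ : ∃ l, k = l + 1 := ⟨k - 1, by omega⟩
        simp only [Nat.add_sub_cancel]
        push_cast
        rw [mul_pow]
        field_simp
        ring

theorem many_good (k : ℕ) (hk : 1 ≤ k) (C ε : ℝ) (hC : 0 < C) (hε : 0 < ε) :
    ∃ N : ℕ, 1 ≤ N ∧ ∃ g : ℝ, 0 < g ∧ ∃ n₀ : ℕ, ∀ (X : Type) [Fintype X] [DecidableEq X],
      n₀ ≤ Fintype.card X → ∀ (ω : (Fin k → X × Fin k) → ℝ) (B : Finset X), Wt C ω →
        k * ((B.card : ℝ) + ε * Fintype.card X) ≤ ∑ y, ω y →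
        ∃ S : Finset (Fin k × Fin N → X), g * (Fintype.card X : ℝ) ^ (k * N) ≤ S.card ∧
          ∀ p ∈ S, Function.Injective p ∧
            k * N * ε / 4 ≤ ∑ F, Wb ω p F - exc (Wb ω p) - cB B p := by
  classical
  have hk' : (0 : ℝ) < k := by exact_mod_cast hk
  set K : ℝ := k * ((k : ℝ) ^ (k - 1) * C) ^ 2 with hK
  have hK0 : 0 < K := by positivity
  set N : ℕ := ⌈4 * (k : ℝ) ^ 2 * K / ε ^ 2⌉₊ + 1 with hN
  have hN1 : 1 ≤ N := by omega
  have hN' : (0 : ℝ) < N := by exact_mod_cast hN1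
  have hNK : 4 * (k : ℝ) ^ 2 * K / ε ^ 2 ≤ N := by
    refine (Nat.le_ceil _).trans ?_
    rw [hN]
    push_cast
    linarith
  set g : ℝ := k * ε / (8 * (k : ℝ) ^ k * C) with hg
  have hg0 : 0 < g := by positivity
  refine ⟨N, hN1, g, hg0, ⌈(((k * N : ℕ) : ℝ) ^ 2) / g⌉₊ + 1, fun X _ _ hX ω B hω hB => ?_⟩
  have hXpos : 0 < Fintype.card X := by omega
  have hXne : Nonempty X := Fintype.card_pos_iff.1 hXpos
  have hP : (0 : ℝ) < Fintype.card X := by exact_mod_cast hXpos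
  set P : ℝ := (Fintype.card X : ℝ) with hPdef
  set T : ℝ := P ^ (k * N) with hT
  have hT0 : 0 < T := by positivity
  set t : ℝ := k * N * ε / 4 with ht
  have ht0 : 0 < t := by positivity
  set Z : (Fin k × Fin N → X) → ℝ := fun p => ∑ F, Wb ω p F - exc (Wb ω p) - cB B p with hZ
  have hcard : ((univ : Finset (Fin k × Fin N → X)).card : ℝ) = T := by
    rw [card_univ, Fintype.card_fun, Fintype.card_prod, Fintype.card_fin, Fintype.card_fin]
    push_cast
    rfl
  -- the mean of Z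
  have hmean : T * (2 * t) ≤ ∑ p, Z p := by
    have h1 : ∑ p, Z p = ∑ p : Fin k × Fin N → X, ∑ F : Fin k → Fin N × Fin k, Wb ω p F -
        ∑ p : Fin k × Fin N → X, exc (Wb ω p) - ∑ p : Fin k × Fin N → X, (cB B p : ℝ) := by
      rw [hZ, sum_sub_distrib, sum_sub_distrib]
    rw [h1, tot_mean hk hN1 ω, cB_mean B]
    have h2 := exc_mean hN1 C hC.le ω hω (ε / (2 * k)) (by positivity)
    have h3 : T * (N / P) * (k * ((B.card : ℝ) + ε * P)) ≤ T * (N / P) * ∑ y, ω y :=
      mul_le_mul_of_nonneg_left hB (by positivity)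
    have h4 : T * (N / P) * (k * ((B.card : ℝ) + ε * P)) =
        T * (((k * N : ℕ) : ℝ) * (B.card : ℝ) / P) + T * (k * N * ε) := by
      push_cast
      field_simp
    have h5 : ((k : ℝ) ^ 2 * N) * (ε / (2 * k) / 2 + k * ((k : ℝ) ^ (k - 1) * C) ^ 2 /
        (2 * (ε / (2 * k)) * N)) ≤ 2 * t := by
      rw [← hK]
      have h6 : ((k : ℝ) ^ 2 * N) * (ε / (2 * k) / 2 + K / (2 * (ε / (2 * k)) * N)) =
          t + k ^ 3 * K / ε := by
        rw [ht]
        field_simp
        ring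
      have h7 : (k : ℝ) ^ 3 * K / ε ≤ t := by
        rw [ht]
        have h8 : 4 * (k : ℝ) ^ 2 * K ≤ N * ε ^ 2 := by
          rwa [div_le_iff₀ (by positivity)] at hNK
        rw [div_le_iff₀ hε]
        nlinarith
      linarith
    have h6 := h2.trans (mul_le_mul_of_nonneg_left h5 hT0.le)
    have h7 : T * (k * N * ε) = T * (4 * t) := by rw [ht]; ring
    linarith
  -- the upper bound
  have hupper : ∀ p, Z p ≤ (if t ≤ Z p then (k : ℝ) ^ k * C * N else 0) + t := by
    intro p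
    split_ifs with h
    · have h1 := R6_tot_le hk hN1 C ω hω p
      have h2 := R6_exc_nonneg (Wb ω p)
      have h3 : (0 : ℝ) ≤ cB B p := by positivity
      simp only [hZ]
      linarith
    · linarith
  set S0 := univ.filter (fun p => t ≤ Z p) with hS0
  have hS0card : T * (2 * t) ≤ S0.card * ((k : ℝ) ^ k * C * N) + T * t := by
    calc T * (2 * t) ≤ ∑ p, Z p := hmean
      _ ≤ ∑ p, ((if t ≤ Z p then (k : ℝ) ^ k * C * N else 0) + t) :=
          sum_le_sum (fun p _ => hupper p)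
      _ = S0.card * ((k : ℝ) ^ k * C * N) + T * t := by
          rw [sum_add_distrib, ← sum_filter, sum_const, sum_const, nsmul_eq_mul, nsmul_eq_mul,
            hcard]
  have hS0' : 2 * g * T ≤ S0.card := by
    have h1 : T * t ≤ S0.card * ((k : ℝ) ^ k * C * N) := by linarith
    have h2 : 2 * g * T = T * t / ((k : ℝ) ^ k * C * N) := by
      rw [hg, ht]
      field_simp
      ring
    rw [h2, div_le_iff₀ (by positivity)]
    exact h1
  have hnon := noninj (k := k) (N := N) (X := X)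
  have hnon' : ((univ.filter (fun p : Fin k × Fin N → X => ¬ Function.Injective p)).card : ℝ) ≤
      g * T := by
    refine hnon.trans ?_
    rw [mul_comm g T]
    refine mul_le_mul_of_nonneg_left ?_ hT0.le
    rw [div_le_iff₀ hP]
    have h1 : (((k * N : ℕ) : ℝ) ^ 2) / g ≤ P := by
      refine (Nat.le_ceil _).trans ?_
      have h9 : ((⌈(((k * N : ℕ) : ℝ) ^ 2) / g⌉₊ + 1 : ℕ) : ℝ) ≤ P := by
        rw [hPdef]
        exact Nat.cast_le.2 hX
      rw [Nat.cast_add, Nat.cast_one] at h9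
      linarith
    rw [div_le_iff₀ hg0] at h1
    linarith
  refine ⟨univ.filter (fun p => Function.Injective p ∧ t ≤ Z p), ?_, ?_⟩
  · have h1 : S0.card ≤ (univ.filter (fun p : Fin k × Fin N → X =>
        Function.Injective p ∧ t ≤ Z p)).card +
        (univ.filter (fun p : Fin k × Fin N → X => ¬ Function.Injective p)).card := by
      rw [hS0]
      refine (card_le_card ?_).trans (card_union_le _ _)
      intro p hp
      rw [mem_filter] at hp
      rw [mem_union, mem_filter, mem_filter]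
      by_cases hi : Function.Injective p
      · exact Or.inl ⟨mem_univ _, hi, hp.2⟩
      · exact Or.inr ⟨mem_univ _, hi⟩
    have h2 : (S0.card : ℝ) ≤ (univ.filter (fun p : Fin k × Fin N → X =>
        Function.Injective p ∧ t ≤ Z p)).card +
        (univ.filter (fun p : Fin k × Fin N → X => ¬ Function.Injective p)).card := by
      exact_mod_cast h1
    linarith
  · intro p hp
    rw [mem_filter] at hp
    exact hp.2

end Pool.Agent.Lib.H3MT.R
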