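import Mathlib
import Pool.Agent.Lib.H3MT.RDefs

/-!
# H3MT chunk R7 (S/M): rounding the weights of one block

`W : (Fin k → α) → ℝ` nonnegative, `1 ≤ k`, `Q : ℕ`.  There are integers `c F` with `c F > 0 → W F > 0`,
all loads `≤ Q`, and `∑ c ≥ Q (∑ W - exc W) - |α|^k`.

Proof.  `D F = ∏`-free version: `D F = max 1 (sup_j ld W j (F j))` (`Finset.sup'` or
`univ.sup' ..`), `W' F = W F / D F`, `c F = ⌊Q * W' F⌋₊`.
Loads: for `F j = v`: `W' F ≤ W F / max 1 (ld W j v)`, so `∑_{F, F j = v} W' F ≤ ld/max 1 ld ≤ 1`.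
Loss: `W F - W' F = W F (1 - 1/D F) ≤ ∑_j W F (1 - 1/max 1 (ld W j (F j)))`; the sum over `F` with
`F j = v` of the `j`-th term is `ld (1 - 1/max 1 ld) = max (ld - 1) 0` (`ld ≥ 0`); so
`∑ W' ≥ ∑ W - exc W`.  Rounding down loses at most `1` for each of the `|α|^k` functions `F`.
-/

namespace Pool.Agent.Lib.H3MT.R

open Finset

theorem R7_D {k : ℕ} (hk : 1 ≤ k) {α : Type} [Fintype α] [DecidableEq α]
    (W : (Fin k → α) → ℝ) : ∃ D : (Fin k → α) → ℝ, (∀ F, 1 ≤ D F) ∧
      (∀ F j, ld W j (F j) ≤ D F) ∧ ∀ F, D F = 1 ∨ ∃ j, D F = ld W j (F j) := by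
  have hne : (univ : Finset (Fin k)).Nonempty := ⟨⟨0, hk⟩, mem_univ _⟩
  refine ⟨fun F => max 1 (univ.sup' hne (fun j => ld W j (F j))), fun F => le_max_left _ _,
    fun F j => ?_, fun F => ?_⟩
  · exact (Finset.le_sup' (fun j => ld W j (F j)) (mem_univ j)).trans (le_max_right _ _)
  · rcases max_choice (1 : ℝ) (univ.sup' hne (fun j => ld W j (F j))) with h | h
    · exact Or.inl h
    · obtain ⟨j, -, hj⟩ := Finset.exists_mem_eq_sup' hne (fun j => ld W j (F j))
      exact Or.inr ⟨j, h.trans hj⟩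

theorem R7_term (x : ℝ) (hx : 0 ≤ x) : x * (1 - 1 / max 1 x) = max (x - 1) 0 := by
  rcases le_total x 1 with h | h
  · rw [max_eq_left h, max_eq_right (by linarith)]
    norm_num
  · rw [max_eq_right h, max_eq_left (by linarith)]
    have : x ≠ 0 := by linarith
    field_simp

theorem round_block {k : ℕ} (hk : 1 ≤ k) {α : Type} [Fintype α] [DecidableEq α]
    (W : (Fin k → α) → ℝ) (hW : ∀ F, 0 ≤ W F) (Q : ℕ) :
    ∃ c : (Fin k → α) → ℕ, (∀ F, 0 < c F → 0 < W F) ∧
      (∀ j v, ∑ F with F j = v, c F ≤ Q) ∧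
      (Q : ℝ) * (∑ F, W F - exc W) - (Fintype.card α : ℝ) ^ k ≤ ∑ F, (c F : ℝ) := by
  obtain ⟨D, hD1, hD2, hD3⟩ := R7_D hk W
  have hDpos : ∀ F, 0 < D F := fun F => lt_of_lt_of_le one_pos (hD1 F)
  have hld0 : ∀ j v, 0 ≤ ld W j v := fun j v => Finset.sum_nonneg fun F _ => hW F
  have hQ0 : (0 : ℝ) ≤ Q := Nat.cast_nonneg Q
  have hW'0 : ∀ F, 0 ≤ W F / D F := fun F => div_nonneg (hW F) (hDpos F).le
  refine ⟨fun F => ⌊(Q : ℝ) * (W F / D F)⌋₊, ?_, ?_, ?_⟩
  · intro F hF
    rcases (hW F).lt_or_eq with h | h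
    · exact h
    · exfalso
      have hF' : 0 < ⌊(Q : ℝ) * (W F / D F)⌋₊ := hF
      rw [← h] at hF'
      simp at hF'
  · intro j v
    have h1 : ∑ F with F j = v, W F / D F ≤ 1 := by
      have h2 : ∀ F ∈ univ.filter (fun F : Fin k → α => F j = v), W F / D F ≤
          W F / max 1 (ld W j v) := by
        intro F hF
        rw [mem_filter] at hF
        apply div_le_div_of_nonneg_left (hW F) (lt_of_lt_of_le one_pos (le_max_left _ _))
        rw [← hF.2]
        exact max_le (hD1 F) (hD2 F j)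
      refine (Finset.sum_le_sum h2).trans ?_
      rw [← Finset.sum_div]
      have h3 : (0 : ℝ) < max 1 (ld W j v) := lt_of_lt_of_le one_pos (le_max_left _ _)
      rw [div_le_one h3]
      exact le_max_right _ _
    have h4 : ((∑ F with F j = v, ⌊(Q : ℝ) * (W F / D F)⌋₊ : ℕ) : ℝ) ≤ Q := by
      push_cast
      calc ∑ F with F j = v, ((⌊(Q : ℝ) * (W F / D F)⌋₊ : ℕ) : ℝ)
          ≤ ∑ F with F j = v, (Q : ℝ) * (W F / D F) :=
            Finset.sum_le_sum fun F _ => Nat.floor_le (mul_nonneg hQ0 (hW'0 F))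
        _ = Q * ∑ F with F j = v, W F / D F := by rw [Finset.mul_sum]
        _ ≤ Q * 1 := mul_le_mul_of_nonneg_left h1 hQ0
        _ = Q := mul_one _
    exact_mod_cast h4
  · -- the loss by the normalisation
    have h1 : ∀ F, W F - W F / D F ≤ ∑ j, W F * (1 - 1 / max 1 (ld W j (F j))) := by
      intro F
      have h0 : ∀ j ∈ (univ : Finset (Fin k)), 0 ≤ W F * (1 - 1 / max 1 (ld W j (F j))) := by
        intro j _
        apply mul_nonneg (hW F)
        have h3 : (1 : ℝ) ≤ max 1 (ld W j (F j)) := le_max_left _ _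
        have h4 : 1 / max 1 (ld W j (F j)) ≤ 1 := by
          rw [div_le_one (by linarith)]
          exact h3
        linarith
      rcases hD3 F with h | ⟨j, h⟩
      · rw [h, div_one, sub_self]
        exact Finset.sum_nonneg h0
      · have h2 : max 1 (ld W j (F j)) = D F := by
          rw [← h]
          exact max_eq_right (hD1 F)
        refine le_trans (le_of_eq ?_) (Finset.single_le_sum h0 (mem_univ j))
        rw [h2]
        ring
    have h2 : ∑ F, (W F - W F / D F) ≤ exc W := by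
      refine (Finset.sum_le_sum fun F _ => h1 F).trans (le_of_eq ?_)
      rw [Finset.sum_comm]
      unfold exc
      apply Finset.sum_congr rfl
      intro j _
      rw [← Finset.sum_fiberwise univ (fun F : Fin k → α => F j)]
      apply Finset.sum_congr rfl
      intro v _
      rw [← R7_term (ld W j v) (hld0 j v)]
      have h3 : ∀ F ∈ univ.filter (fun F : Fin k → α => F j = v),
          W F * (1 - 1 / max 1 (ld W j (F j))) = W F * (1 - 1 / max 1 (ld W j v)) := by
        intro F hF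
        rw [mem_filter] at hF
        rw [hF.2]
      rw [Finset.sum_congr rfl h3, ← Finset.sum_mul]
      rfl
    rw [Finset.sum_sub_distrib] at h2
    have h3 : ∑ F : Fin k → α, ((Q : ℝ) * (W F / D F) - 1) ≤
        ∑ F : Fin k → α, ((⌊(Q : ℝ) * (W F / D F)⌋₊ : ℕ) : ℝ) :=
      Finset.sum_le_sum fun F _ => (Nat.sub_one_lt_floor _).le
    rw [Finset.sum_sub_distrib, ← Finset.mul_sum, Finset.sum_const, Finset.card_univ,
      Fintype.card_fun, Fintype.card_fin, nsmul_eq_mul, mul_one] at h3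
    push_cast at h3
    have h4 : (Q : ℝ) * (∑ F, W F - exc W) ≤ Q * ∑ F, W F / D F := by
      apply mul_le_mul_of_nonneg_left _ hQ0
      linarith
    linarith

end Pool.Agent.Lib.H3MT.R
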