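import Mathlib
import Pool.Agent.Lib.H3MT.RDefs
import Pool.Agent.Lib.H3MT.R7

/-!
# H3MT chunk R8 (M): pigeonhole on the types

`S` is a set of at least `g |X|^(kN)` injective blocks with `Z p ≥ t > 0` (`t = k N ε/4`).  There are
`Q` and `d > 0` depending only on `k, N, t, g`, such that some type `(β, c)` has a class `S'` of at least
`d |X|^(kN)` blocks.

Proof.  `Q` with `Q * t > (N k)^k`, `Q ≥ 1`.  For `p ∈ S` let `c_p` be given by `R7.round_block` for
`W = Wb ω p` (`ω ≥ 0`, so `Wb ≥ 0`; `|Fin N × Fin k| = N k`): `c_p F > 0 → Wb ω p F > 0`, hence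
`ω (vt p F) > 0` (the factor `(|X|/N)^(k-1)` is `≥ 0`);
`∑ c_p ≥ Q (Z p + cB B p) - (N k)^k > Q * cB B p`.  `c_p F ≤ Q` (it is a term of the load of `F 0`,
`1 ≤ k`).  The type of `p` is (`univ.filter (fun a => p a ∈ B)`, `c_p` as a function into
`Fin (Q+1)`): finitely many types, say `T` of them (a number depending only on `k, N, Q`);
pigeonhole (`Finset.exists_le_card_fiber_of_nsmul_le_card_of_maps_to` or by contradiction with
`Finset.card_eq_sum_card_fiberwise`): a class of size `≥ |S|/T`.  `d = g/T`.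
If `S` is empty then `g |X|^(kN) ≤ 0`, impossible for `X` nonempty; `X` empty and `S` empty: exclude by
`[Nonempty X]`.
-/

namespace Pool.Agent.Lib.H3MT.R

open Finset

theorem R8_one (k N : ℕ) (hk : 1 ≤ k) (t : ℝ) (Q : ℕ)
    (hQ : ((N : ℝ) * k) ^ k < Q * t) (X : Type) [Fintype X] [DecidableEq X]
    (ω : (Fin k → X × Fin k) → ℝ) (B : Finset X) (hω : ∀ y, 0 ≤ ω y) (p : Fin k × Fin N → X)
    (hp : t ≤ ∑ F, Wb ω p F - exc (Wb ω p) - cB B p) :
    ∃ c : (Fin k → Fin N × Fin k) → Fin (Q + 1), (∀ F, 0 < (c F : ℕ) → 0 < ω (vt p F)) ∧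
      (∀ j v, ∑ F with F j = v, (c F : ℕ) ≤ Q) ∧
      Q * (univ.filter (fun a => p a ∈ B)).card < ∑ F, (c F : ℕ) := by
  have hfac : (0 : ℝ) ≤ ((Fintype.card X : ℝ) / N) ^ (k - 1) := by positivity
  have hW : ∀ F, 0 ≤ Wb ω p F := fun F => mul_nonneg (hω _) hfac
  obtain ⟨c, hc1, hc2, hc3⟩ := round_block hk (Wb ω p) hW Q
  have hle : ∀ F, c F ≤ Q := by
    intro F
    refine le_trans ?_ (hc2 ⟨0, hk⟩ (F ⟨0, hk⟩))
    exact Finset.single_le_sum (f := c) (fun _ _ => Nat.zero_le _)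
      (mem_filter.2 ⟨mem_univ F, rfl⟩)
  refine ⟨fun F => ⟨c F, Nat.lt_succ_of_le (hle F)⟩, ?_, hc2, ?_⟩
  · intro F hF
    have h1 := hc1 F hF
    unfold Wb at h1
    rcases (hω (vt p F)).lt_or_eq with h | h
    · exact h
    · rw [← h, zero_mul] at h1
      exact absurd h1 (lt_irrefl _)
  · have h2 : ((univ.filter (fun a => p a ∈ B)).card : ℝ) = cB B p := rfl
    have hcard : (Fintype.card (Fin N × Fin k) : ℝ) = (N : ℝ) * k := by
      rw [Fintype.card_prod, Fintype.card_fin, Fintype.card_fin]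
      push_cast
      rfl
    rw [hcard] at hc3
    have h3 : ((Q * (univ.filter (fun a => p a ∈ B)).card : ℕ) : ℝ) < ((∑ F, c F : ℕ) : ℝ) := by
      push_cast
      rw [h2]
      have h4 : (Q : ℝ) * (t + cB B p) ≤ Q * (∑ F, Wb ω p F - exc (Wb ω p)) := by
        apply mul_le_mul_of_nonneg_left _ (Nat.cast_nonneg Q)
        linarith
      nlinarith
    exact_mod_cast h3

theorem type_class (k N : ℕ) (hk : 1 ≤ k) (hN : 1 ≤ N) (t g : ℝ) (ht : 0 < t) (hg : 0 < g) :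
    ∃ Q : ℕ, ∃ d : ℝ, 0 < d ∧ ∀ (X : Type) [Fintype X] [DecidableEq X] [Nonempty X]
      (ω : (Fin k → X × Fin k) → ℝ) (B : Finset X) (S : Finset (Fin k × Fin N → X)),
      (∀ y, 0 ≤ ω y) → g * (Fintype.card X : ℝ) ^ (k * N) ≤ S.card →
      (∀ p ∈ S, Function.Injective p ∧ t ≤ ∑ F, Wb ω p F - exc (Wb ω p) - cB B p) →
      ∃ (β : Finset (Fin k × Fin N)) (c : (Fin k → Fin N × Fin k) → ℕ)
        (S' : Finset (Fin k × Fin N → X)), d * (Fintype.card X : ℝ) ^ (k * N) ≤ S'.card ∧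
        (∀ j v, ∑ F with F j = v, c F ≤ Q) ∧ Q * β.card < ∑ F, c F ∧
        ∀ p ∈ S', Function.Injective p ∧ (∀ a, p a ∈ B ↔ a ∈ β) ∧
          ∀ F, 0 < c F → 0 < ω (vt p F) := by
  classical
  obtain ⟨Q, hQ⟩ := exists_nat_gt (((N : ℝ) * k) ^ k / t)
  rw [div_lt_iff₀ ht] at hQ
  have hT : (0 : ℝ) < Fintype.card (Finset (Fin k × Fin N) ×
      ((Fin k → Fin N × Fin k) → Fin (Q + 1))) := by
    exact_mod_cast Fintype.card_pos
  refine ⟨Q, g / Fintype.card (Finset (Fin k × Fin N) ×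
      ((Fin k → Fin N × Fin k) → Fin (Q + 1))), div_pos hg hT, ?_⟩
  intro X _ _ _ ω B S hω hS hp
  have key := fun p (hpS : p ∈ S) => R8_one k N hk t Q hQ X ω B hω p (hp p hpS).2
  choose! c hc using key
  obtain ⟨τ, -, hτ⟩ := Finset.exists_le_card_fiber_of_nsmul_le_card_of_maps_to (s := S)
    (t := (univ : Finset (Finset (Fin k × Fin N) × ((Fin k → Fin N × Fin k) → Fin (Q + 1)))))
    (f := fun p => (univ.filter (fun a => p a ∈ B), c p))
    (b := g / Fintype.card (Finset (Fin k × Fin N) ×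
      ((Fin k → Fin N × Fin k) → Fin (Q + 1))) * (Fintype.card X : ℝ) ^ (k * N))
    (fun _ _ => mem_univ _) ⟨_, mem_univ (∅, fun _ => 0)⟩ (by
      rw [nsmul_eq_mul, Finset.card_univ]
      refine le_trans (le_of_eq ?_) hS
      field_simp)
  have hXpos : (0 : ℝ) < (Fintype.card X : ℝ) := by exact_mod_cast Fintype.card_pos
  have hpos : (0 : ℝ) < ((S.filter fun p => (univ.filter (fun a => p a ∈ B), c p) = τ).card : ℝ) :=
    lt_of_lt_of_le (mul_pos (div_pos hg hT) (pow_pos hXpos _)) hτ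
  have hne : (S.filter fun p => (univ.filter (fun a => p a ∈ B), c p) = τ).Nonempty := by
    rw [← Finset.card_pos]
    exact_mod_cast hpos
  obtain ⟨p₀, hp₀⟩ := hne
  rw [mem_filter] at hp₀
  refine ⟨τ.1, fun F => (τ.2 F : ℕ), S.filter fun p => (univ.filter (fun a => p a ∈ B), c p) = τ,
    hτ, ?_, ?_, ?_⟩
  · rw [← hp₀.2]
    exact (hc p₀ hp₀.1).2.1
  · rw [← hp₀.2]
    exact (hc p₀ hp₀.1).2.2
  · intro p hpS'
    rw [mem_filter] at hpS'
    refine ⟨(hp p hpS'.1).1, ?_, ?_⟩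
    · intro a
      rw [← hpS'.2]
      simp
    · rw [← hpS'.2]
      exact (hc p hpS'.1).1

end Pool.Agent.Lib.H3MT.R
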