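import Mathlib
import Pool.Agent.Lib.H3MT.RDefs

/-!
# H3MT chunk R9 (M): the blow-up

`A : Fin k × Fin N → Finset X`, `|A a| = Q`, and every `p ∈ ∏ A a` is injective, has `p a ∈ B ↔ a ∈ β`,
and `ω (vt p F) > 0` for `c F > 0`; all loads of `c` are `≤ Q`, `Q |β| < ∑ c`.  Then there are more than
`|A' ∩ B|` disjoint edges inside the parts of `A' = ⋃ A a`.

Proof.  `L = Σ F, Fin (c F)`, `|L| = ∑ c`.  `Q ≥ 1` (some `c F > 0`, `1 ≤ k`), so the `A a` are nonempty
and there are `p ∈ ∏ A a` with any prescribed value at any single position.  Hence: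
* the `A a` are pairwise disjoint (a common element `x` of `A a` and `A a'`: take `p a = p a' = x`; not
  injective);
* `A a ∩ B = ∅` for `a ∉ β`, so `|A' ∩ B| ≤ Q |β| < |L|`.
Packing: for `j : Fin k` and `v : Fin N × Fin k` the type `{l : L // (l.1) j = v}` has
`∑_{F, F j = v} c F ≤ Q` elements, so it embeds in `Fin Q`; this gives `s j : L → Fin Q`, injective on
each of the sets `{l | l.1 j = v}`.  Let `al a : Fin Q ≃ A a`, and
`y (F, t) j = (al (j, (F j).1) (s j (F, t)), (F j).2)`.
* `ω (y l) > 0`: `y l = vt p F` for a `p ∈ ∏ A a` with `p (j, (F j).1) = al (j, (F j).1) (s j l)` for all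
  `j` (the positions `(j, (F j).1)` are different for different `j`), and `c F > 0` as `Fin (c F)` is
  nonempty.
* all the vertices `y l j` are different: if `y l j = y l' j'` then (disjointness of the `A a`)
  `j = j'` and `(F j).1 = (F' j).1`, second components: `(F j).2 = (F' j).2`, so `F j = F' j` and
  `s j l = s j l'`, hence `l = l'`.
-/

namespace Pool.Agent.Lib.H3MT.R

open Finset

theorem R9_pack {k N Q : ℕ} (c : (Fin k → Fin N × Fin k) → ℕ)
    (hload : ∀ j v, ∑ F with F j = v, c F ≤ Q) (j : Fin k) :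
    ∃ s : (Σ F : Fin k → Fin N × Fin k, Fin (c F)) → Fin Q,
      ∀ l l', l.1 j = l'.1 j → s l = s l' → l = l' := by
  classical
  have h1 : ∀ v : Fin N × Fin k,
      Nonempty ({l : (Σ F : Fin k → Fin N × Fin k, Fin (c F)) // l.1 j = v} ↪ Fin Q) := by
    intro v
    apply Function.Embedding.nonempty_of_card_le
    rw [Fintype.card_subtype, Fintype.card_fin]
    refine le_trans (le_of_eq ?_) (hload j v)
    have h2 : (univ.filter fun l : (Σ F : Fin k → Fin N × Fin k, Fin (c F)) => l.1 j = v) =
        (univ.filter fun F : Fin k → Fin N × Fin k => F j = v).sigma fun F => univ := by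
      ext l
      simp
    rw [h2, Finset.card_sigma]
    simp
  have e := fun v => (h1 v).some
  refine ⟨fun l => e (l.1 j) ⟨l, rfl⟩, ?_⟩
  intro l l' hll hs
  have h3 : ∀ (v : Fin N × Fin k) (hv : l'.1 j = v), e (l'.1 j) ⟨l', rfl⟩ = e v ⟨l', hv⟩ := by
    rintro _ rfl
    rfl
  have h4 : e (l.1 j) ⟨l, rfl⟩ = e (l.1 j) ⟨l', hll.symm⟩ := by
    rw [← h3 (l.1 j) hll.symm]
    exact hs
  have h5 := (e (l.1 j)).injective h4
  exact congrArg Subtype.val h5

theorem blow_up {k N Q : ℕ} (hk : 1 ≤ k) {X : Type} [Fintype X] [DecidableEq X]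
    (ω : (Fin k → X × Fin k) → ℝ) (B : Finset X)
    (β : Finset (Fin k × Fin N)) (c : (Fin k → Fin N × Fin k) → ℕ)
    (hload : ∀ j v, ∑ F with F j = v, c F ≤ Q) (hgain : Q * β.card < ∑ F, c F)
    (A : Fin k × Fin N → Finset X) (hA : ∀ a, (A a).card = Q)
    (hp : ∀ p : Fin k × Fin N → X, (∀ a, p a ∈ A a) → Function.Injective p ∧
      (∀ a, p a ∈ B ↔ a ∈ β) ∧ ∀ F, 0 < c F → 0 < ω (vt p F)) :
    ∃ (L : Type) (_ : Fintype L) (A' : Finset X) (y : L → Fin k → X × Fin k),
      (∀ l, 0 < ω (y l)) ∧ (∀ l l' j j', y l j = y l' j' → l = l' ∧ j = j') ∧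
      (∀ l j, (y l j).1 ∈ A') ∧ (A' ∩ B).card < Fintype.card L := by
  classical
  have hQ : 1 ≤ Q := by
    have h1 : 0 < ∑ F, c F := lt_of_le_of_lt (Nat.zero_le _) hgain
    obtain ⟨F, -, hF⟩ := Finset.exists_ne_zero_of_sum_ne_zero h1.ne'
    have h2 : c F ≤ ∑ F' with F' ⟨0, hk⟩ = F ⟨0, hk⟩, c F' :=
      Finset.single_le_sum (f := c) (fun _ _ => Nat.zero_le _) (mem_filter.2 ⟨mem_univ F, rfl⟩)
    have h3 := hload ⟨0, hk⟩ (F ⟨0, hk⟩)
    omega
  have hne : ∀ a, (A a).Nonempty := by
    intro a
    rw [← Finset.card_pos, hA a]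
    omega
  choose p0 hp0 using hne
  have hdisj : ∀ a a' x, x ∈ A a → x ∈ A a' → a = a' := by
    intro a a' x hx hx'
    by_contra hne
    have h1 : ∀ b, (Function.update (Function.update p0 a x) a' x) b ∈ A b := by
      intro b
      by_cases hb' : b = a'
      · subst hb'
        rw [Function.update_self]
        exact hx'
      · rw [Function.update_of_ne hb']
        by_cases hb : b = a
        · subst hb
          rw [Function.update_self]
          exact hx
        · rw [Function.update_of_ne hb]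
          exact hp0 b
    have h2 := (hp _ h1).1
    apply hne
    apply h2
    rw [Function.update_self, Function.update_of_ne hne, Function.update_self]
  choose s hs using fun j => R9_pack (Q := Q) c hload j
  set al : ∀ a : Fin k × Fin N, Fin Q ≃ A a := fun a => (Finset.equivFinOfCardEq (hA a)).symm
  set y : (Σ F : Fin k → Fin N × Fin k, Fin (c F)) → Fin k → X × Fin k :=
    fun l j => ((al (j, (l.1 j).1) (s j l)).1, (l.1 j).2) with hy
  refine ⟨(Σ F : Fin k → Fin N × Fin k, Fin (c F)), inferInstance, univ.biUnion A, y, ?_, ?_, ?_, ?_⟩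
  · intro l
    set p : Fin k × Fin N → X := fun a => if a.2 = (l.1 a.1).1 then (al a (s a.1 l)).1 else p0 a
      with hpdef
    have h1 : ∀ a, p a ∈ A a := by
      intro a
      rw [hpdef]
      dsimp only
      split_ifs
      · exact (al a (s a.1 l)).2
      · exact hp0 a
    have h2 : y l = vt p l.1 := by
      funext j
      unfold vt
      rw [hpdef]
      dsimp only
      rw [if_pos rfl]
    rw [h2]
    exact (hp p h1).2.2 l.1 (lt_of_le_of_lt (Nat.zero_le _) l.2.2)
  · intro l l' j j' h
    have h1 : ((al (j, (l.1 j).1) (s j l)).1 : X) = (al (j', (l'.1 j').1) (s j' l')).1 :=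
      congrArg (fun z : X × Fin k => z.1) h
    have h2' : (y l j).2 = (y l' j').2 := congrArg (fun z : X × Fin k => z.2) h
    have h2 : (l.1 j).2 = (l'.1 j').2 := h2'
    have h3 : (j, (l.1 j).1) = (j', (l'.1 j').1) := by
      apply hdisj _ _ ((al (j, (l.1 j).1) (s j l)).1 : X) (al (j, (l.1 j).1) (s j l)).2
      rw [h1]
      exact (al (j', (l'.1 j').1) (s j' l')).2
    have h4 : j = j' := congrArg Prod.fst h3
    subst h4
    have h5 : (l.1 j).1 = (l'.1 j).1 := congrArg Prod.snd h3
    have h6 : l.1 j = l'.1 j := Prod.ext h5 h2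
    refine ⟨hs j l l' h6 ?_, rfl⟩
    rw [← h6] at h1
    exact (al (j, (l.1 j).1)).injective (Subtype.ext h1)
  · intro l j
    rw [mem_biUnion]
    exact ⟨_, mem_univ _, (al (j, (l.1 j).1) (s j l)).2⟩
  · have h1 : (univ.biUnion A) ∩ B ⊆ β.biUnion A := by
      intro x hx
      rw [mem_inter, mem_biUnion] at hx
      obtain ⟨⟨a, -, hxa⟩, hxB⟩ := hx
      rw [mem_biUnion]
      refine ⟨a, ?_, hxa⟩
      have h2 : ∀ b, (Function.update p0 a x) b ∈ A b := by
        intro b
        by_cases hb : b = a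
        · subst hb
          rw [Function.update_self]
          exact hxa
        · rw [Function.update_of_ne hb]
          exact hp0 b
      have h3 := (hp _ h2).2.1 a
      rw [Function.update_self] at h3
      exact h3.1 hxB
    have h2 : (β.biUnion A).card ≤ β.card * Q :=
      Finset.card_biUnion_le_card_mul _ _ _ fun a _ => (hA a).le
    have h3 : Fintype.card (Σ F : Fin k → Fin N × Fin k, Fin (c F)) = ∑ F, c F := by
      rw [Fintype.card_sigma]
      simp
    rw [h3]
    calc ((univ.biUnion A) ∩ B).card ≤ (β.biUnion A).card := Finset.card_le_card h1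
      _ ≤ β.card * Q := h2
      _ = Q * β.card := Nat.mul_comm _ _
      _ < _ := hgain

end Pool.Agent.Lib.H3MT.R
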