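import Mathlib
import Pool.Agent.Lib.H3MT.RDefs
import Pool.Agent.Lib.H3MT.R1
import Pool.Agent.Lib.H3MT.R6
import Pool.Agent.Lib.H3MT.R8
import Pool.Agent.Lib.H3MT.R9

/-!
# H3MT, part B3: the core of the rounding lemma (assembly)
-/

namespace Pool.Agent.Lib.H3MT.R

open Finset

theorem core (k : ℕ) (hk : 1 ≤ k) (C ε : ℝ) (hC : 0 < C) (hε : 0 < ε) :
    ∃ n₀ : ℕ, ∀ (X : Type) [Fintype X] [DecidableEq X],
      n₀ ≤ Fintype.card X → ∀ (ω : (Fin k → X × Fin k) → ℝ) (B : Finset X), Wt C ω →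
        k * ((B.card : ℝ) + ε * Fintype.card X) ≤ ∑ y, ω y →
        ∃ (L : Type) (_ : Fintype L) (A' : Finset X) (y : L → Fin k → X × Fin k),
          (∀ l, 0 < ω (y l)) ∧ (∀ l l' j j', y l j = y l' j' → l = l' ∧ j = j') ∧
          (∀ l j, (y l j).1 ∈ A') ∧ (A' ∩ B).card < Fintype.card L := by
  obtain ⟨N, hN, g, hg, n1, h1⟩ := many_good k hk C ε hC hε
  have ht : 0 < (k : ℝ) * N * ε / 4 := by
    have hk' : (0 : ℝ) < k := by exact_mod_cast hk
    have hN' : (0 : ℝ) < N := by exact_mod_cast hN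
    positivity
  obtain ⟨Q, d, hd, h2⟩ := type_class k N hk hN (k * N * ε / 4) g ht hg
  obtain ⟨n2, h3⟩ := box (Fin k × Fin N) d hd Q
  refine ⟨n1 + n2 + 1, fun X _ _ hX ω B hω hB => ?_⟩
  obtain ⟨S, hS, hS'⟩ := h1 X (by omega) ω B hω hB
  haveI : Nonempty X := Fintype.card_pos_iff.1 (by omega)
  obtain ⟨β, c, S', hS1, hload, hgain, hS2⟩ := h2 X ω B S hω.nonneg hS hS'
  obtain ⟨A, hA, hA'⟩ := h3 X (by omega) S' (by simpa using hS1)
  exact blow_up hk ω B β c hload hgain A hA (fun p hp => hS2 p (hA' p hp))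

end Pool.Agent.Lib.H3MT.R
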