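import Mathlib
import Pool.Agent.Lib.H3MT.RFin1
import Pool.Agent.Lib.H3MT.R11

/-!
# H3MT, part B3: the rounding lemma (final assembly)
-/

namespace Pool.Agent.Lib.H3MT.R

open Finset

theorem exists_max {V : Type} [Fintype V] [DecidableEq V] (H : Finset (Finset V)) :
    ∃ M ⊆ H, IsMatching M ∧ ∀ M' ⊆ H, IsMatching M' → M'.card ≤ M.card := by
  classical
  have hne : (H.powerset.filter (fun M => IsMatching M)).Nonempty :=
    ⟨∅, by simp [IsMatching]⟩
  obtain ⟨M, hM, hmax⟩ := Finset.exists_max_image _ Finset.card hne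
  rw [mem_filter, mem_powerset] at hM
  exact ⟨M, hM.1, hM.2, fun M' hM' h' => hmax M' (by
    rw [mem_filter, mem_powerset]; exact ⟨hM', h'⟩)⟩

/-- the parts of a matching -/
theorem parts {k : ℕ} (hk : 1 ≤ k) {V : Type} [Fintype V] [DecidableEq V]
    (M : Finset (Finset V)) (hMk : ∀ e ∈ M, e.card = k) (hM : IsMatching M) :
    ∃ (X : Type) (_ : Fintype X) (_ : DecidableEq X) (π : V → X × Fin k)
      (ι : {e // e ∈ M} → X),
      Function.Injective π ∧ Function.Injective ι ∧
      (∀ e : {e // e ∈ M}, ∀ v, (π v).1 = ι e ↔ v ∈ e.1) ∧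
      Fintype.card X + k * M.card = Fintype.card V + M.card := by
  classical
  have hU : (M.biUnion id).card = k * M.card := by
    rw [card_biUnion (fun a ha b hb hab => hM ha hb hab)]
    exact (sum_congr rfl (fun e he => hMk e he)).trans (by simp [mul_comm])
  have hex : ∀ v, v ∈ M.biUnion id → ∃ e : {e // e ∈ M}, v ∈ e.1 := by
    intro v hv
    rw [mem_biUnion] at hv
    obtain ⟨e, he, hv⟩ := hv
    exact ⟨⟨e, he⟩, hv⟩
  choose E hE using hex
  have hE1 : ∀ v (hv : v ∈ M.biUnion id), ∀ e : {e // e ∈ M}, v ∈ e.1 → E v hv = e := by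
    intro v hv e he
    by_contra hne
    have hd : Disjoint (E v hv).1 e.1 :=
      hM (E v hv).2 e.2 (fun h => hne (Subtype.ext h))
    exact disjoint_left.1 hd (hE v hv) he
  let q : (e : {e // e ∈ M}) → e.1 ≃ Fin k := fun e => e.1.equivFinOfCardEq (hMk e.1 e.2)
  refine ⟨{e // e ∈ M} ⊕ {v // v ∉ M.biUnion id}, inferInstance, inferInstance,
    fun v => if hv : v ∈ M.biUnion id then (Sum.inl (E v hv), q (E v hv) ⟨v, hE v hv⟩)
      else (Sum.inr ⟨v, hv⟩, ⟨0, hk⟩), Sum.inl, ?_, Sum.inl_injective, ?_, ?_⟩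
  · intro v v' h
    by_cases hv : v ∈ M.biUnion id
    · by_cases hv' : v' ∈ M.biUnion id
      · simp only [dif_pos hv, dif_pos hv', Prod.mk.injEq] at h
        obtain ⟨h1, h2⟩ := h
        have h3 : E v hv = E v' hv' := Sum.inl.inj h1
        have h4 : ∀ (e e' : {e // e ∈ M}) (he : e = e') (x : V) (hx : x ∈ e.1) (x' : V)
            (hx' : x' ∈ e'.1), q e ⟨x, hx⟩ = q e' ⟨x', hx'⟩ → x = x' := by
          intro e e' he x hx x' hx' hq
          subst he
          have := (q e).injective hq
          exact congrArg Subtype.val this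
        exact h4 _ _ h3 _ _ _ _ h2
      · simp only [dif_pos hv, dif_neg hv', Prod.mk.injEq] at h
        exact absurd h.1 (by simp)
    · by_cases hv' : v' ∈ M.biUnion id
      · simp only [dif_neg hv, dif_pos hv', Prod.mk.injEq] at h
        exact absurd h.1 (by simp)
      · simp only [dif_neg hv, dif_neg hv', Prod.mk.injEq] at h
        have := Sum.inr.inj h.1
        exact congrArg Subtype.val this
  · intro e v
    by_cases hv : v ∈ M.biUnion id
    · simp only [dif_pos hv]
      constructor
      · intro h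
        have := Sum.inl.inj h
        rw [← this]
        exact hE v hv
      · intro h
        rw [hE1 v hv e h]
    · simp only [dif_neg hv]
      constructor
      · intro h
        exact absurd h (by simp)
      · intro h
        exact absurd (mem_biUnion.2 ⟨e.1, e.2, h⟩) hv
  · have h1 : Fintype.card {v // v ∉ M.biUnion id} = Fintype.card V - (M.biUnion id).card := by
      rw [Fintype.card_subtype_compl, Fintype.card_coe]
    have h2 : (M.biUnion id).card ≤ Fintype.card V := card_le_univ _
    rw [Fintype.card_sum, h1, hU, Fintype.card_coe]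
    rw [hU] at h2
    omega

/-- (B3) -/
theorem statementB3 : StatementB3 := by
  classical
  intro k C ε hk hε
  have hk1 : 1 ≤ k := by omega
  obtain ⟨n0, h0⟩ := core k hk1 (max C 1) ε (lt_max_of_lt_right one_pos) hε
  refine ⟨k * (n0 + 1), fun V _ _ H w hn hH hw => ?_⟩
  have hw' : IsSpread k (max C 1) H w :=
    ⟨hw.nonneg, fun e he => (hw.le e he).trans (by gcongr; exact le_max_left _ _), hw.load⟩
  obtain ⟨M, hMH, hM, hmax⟩ := exists_max H
  refine ⟨M, hMH, hM, ?_⟩
  by_contra hlt
  rw [not_le] at hlt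
  obtain ⟨X, _, _, π, ι, hπ, hι, hπι, hcard⟩ := parts hk1 M (fun e he => hH e (hMH he)) hM
  have hkM : k * M.card ≤ Fintype.card V := by
    have hU : (M.biUnion id).card = k * M.card := by
      rw [card_biUnion (fun a ha b hb hab => hM ha hb hab)]
      exact (sum_congr rfl (fun e he => hH e (hMH he))).trans (by simp [mul_comm])
    rw [← hU]
    exact card_le_univ _
  have hXV : Fintype.card X ≤ Fintype.card V := by
    have : M.card ≤ k * M.card := Nat.le_mul_of_pos_left _ hk1
    omega
  have hVX : Fintype.card V ≤ k * Fintype.card X := by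
    obtain ⟨l, rfl⟩ : ∃ l, k = l + 1 := ⟨k - 1, by omega⟩
    nlinarith
  have hX0 : n0 + 1 ≤ Fintype.card X := by
    have : k * (n0 + 1) ≤ k * Fintype.card X := hn.trans hVX
    exact Nat.le_of_mul_le_mul_left this hk1
  have hXne : Nonempty X := Fintype.card_pos_iff.1 (by omega)
  obtain ⟨ω, hω, htot, hωe⟩ := ordered_weights hk1 (max C 1) (le_max_of_le_right zero_le_one)
    V H w hH hw' X hXV π hπ
  set B : Finset X := univ.image ι with hB
  have hBcard : B.card = M.card := by
    rw [hB, card_image_of_injective _ hι]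
    simp
  obtain ⟨L, _, A', y, hy0, hyd, hyA, hAL⟩ := h0 X (by omega) ω B hω (by
    rw [htot, hBcard]
    have h1 : (Fintype.card X : ℝ) ≤ Fintype.card V := by exact_mod_cast hXV
    have h2 : (M.card : ℝ) + ε * Fintype.card X ≤ ∑ e ∈ H, w e := by
      have := mul_le_mul_of_nonneg_left h1 hε.le
      linarith
    exact mul_le_mul_of_nonneg_left h2 (by positivity))
  choose e heH he using fun l => (hωe (y l) (hy0 l)).2
  -- the vertices of the new edges
  have hmem : ∀ l v, v ∈ e l ↔ ∃ j, y l j = π v := by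
    intro l v
    constructor
    · intro hv
      have : π v ∈ univ.image (y l) := by rw [he l]; exact mem_image_of_mem _ hv
      obtain ⟨j, _, hj⟩ := mem_image.1 this
      exact ⟨j, hj⟩
    · rintro ⟨j, hj⟩
      have : y l j ∈ (e l).image π := by rw [← he l]; exact mem_image_of_mem _ (mem_univ _)
      rw [hj] at this
      obtain ⟨v', hv', h⟩ := mem_image.1 this
      rw [← hπ h]
      exact hv'
  have hdis : ∀ l l', l ≠ l' → Disjoint (e l) (e l') := by
    intro l l' hll
    rw [disjoint_left]
    intro v hv hv'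
    obtain ⟨j, hj⟩ := (hmem l v).1 hv
    obtain ⟨j', hj'⟩ := (hmem l' v).1 hv'
    exact hll (hyd l l' j j' (hj.trans hj'.symm)).1
  have hcardk : ∀ l, (e l).card = k := fun l => hH _ (heH l)
  have hinj : Function.Injective e := by
    intro l l' h
    by_contra hne
    have h1 := hdis l l' hne
    rw [← h, disjoint_self_iff_empty] at h1
    have h2 := hcardk l
    rw [h1] at h2
    simp at h2
    omega
  set M1 := M.filter (fun f => ∀ hf : f ∈ M, ι ⟨f, hf⟩ ∉ A') with hM1
  set M2 := univ.image e with hM2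
  have hM12 : ∀ f ∈ M1, ∀ l, Disjoint f (e l) := by
    intro f hf l
    rw [hM1, mem_filter] at hf
    rw [disjoint_left]
    intro v hv hv'
    obtain ⟨j, hj⟩ := (hmem l v).1 hv'
    have h1 := hyA l j
    rw [hj, (hπι ⟨f, hf.1⟩ v).2 hv] at h1
    exact hf.2 hf.1 h1
  have hM' : IsMatching (M1 ∪ M2) := by
    intro f hf g hg hfg
    rw [mem_coe, mem_union] at hf hg
    simp only [Function.onFun, id]
    rcases hf with hf | hf
    · rcases hg with hg | hg
      · exact hM (mem_of_mem_filter f hf) (mem_of_mem_filter g hg) hfg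
      · obtain ⟨l, _, rfl⟩ := mem_image.1 hg
        exact hM12 f hf l
    · obtain ⟨l, _, rfl⟩ := mem_image.1 hf
      rcases hg with hg | hg
      · exact (hM12 g hg l).symm
      · obtain ⟨l', _, rfl⟩ := mem_image.1 hg
        exact hdis l l' (fun h => hfg (by rw [h]))
  have hsub : M1 ∪ M2 ⊆ H := by
    intro f hf
    rcases mem_union.1 hf with hf | hf
    · exact hMH (mem_of_mem_filter f hf)
    · obtain ⟨l, _, rfl⟩ := mem_image.1 hf
      exact heH l
  have hdM : Disjoint M1 M2 := by
    rw [disjoint_left]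
    intro f hf hf2
    obtain ⟨l, _, rfl⟩ := mem_image.1 hf2
    have h1 := hM12 (e l) hf l
    rw [disjoint_self_iff_empty] at h1
    have h2 := hcardk l
    rw [h1] at h2
    simp at h2
    omega
  have hle := hmax _ hsub hM'
  rw [card_union_of_disjoint hdM, hM2, card_image_of_injective _ hinj, card_univ] at hle
  -- the removed edges
  have hrem : (M.filter (fun f => ¬ ∀ hf : f ∈ M, ι ⟨f, hf⟩ ∉ A')).card ≤ (A' ∩ B).card := by
    refine card_le_card_of_injOn (fun f => if hf : f ∈ M then ι ⟨f, hf⟩ else hXne.some) ?_ ?_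
    · intro f hf
      rw [mem_coe, mem_filter] at hf
      simp only [dif_pos hf.1, mem_coe, mem_inter]
      obtain ⟨h1, h2⟩ := hf
      push Not at h2
      obtain ⟨_, h2⟩ := h2
      exact ⟨h2, mem_image_of_mem _ (mem_univ _)⟩
    · intro f hf g hg h
      rw [mem_coe, mem_filter] at hf hg
      simp only [dif_pos hf.1, dif_pos hg.1] at h
      exact congrArg Subtype.val (hι h)
  have hsplit := card_filter_add_card_filter_not (s := M) (fun f => ∀ hf : f ∈ M, ι ⟨f, hf⟩ ∉ A')
  rw [← hM1] at hsplit
  omega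

end Pool.Agent.Lib.H3MT.R
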