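import Pool.Agent.Lib.H3MT.X0

namespace Pool.Agent.Lib.H3MT

open Finset

/-- **X1.** `a ^ r ≤ C(r a, r)`.
Proof: e.g. `C(r a, r) = ∏_{i<r} (r a - i)/(r - i)` and `r a - i ≥ a (r - i)` (for `a ≥ 1`), i.e.
`descFactorial (r a) r ≥ a^r r!`; or by induction. -/
theorem X1_choose_mul (r a : ℕ) : a ^ r ≤ (r * a).choose r := by
  rcases Nat.eq_zero_or_pos a with rfl | ha
  · rcases Nat.eq_zero_or_pos r with rfl | hr
    · simp
    · rw [zero_pow (by omega)]
      exact Nat.zero_le _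
  induction r with
  | zero => simp
  | succ r ih =>
    have h1 : ((r + 1) * a) * ((r + 1) * a - 1).choose r = (r + 1) * ((r + 1) * a).choose (r + 1) := by
      obtain ⟨m, hm⟩ : ∃ m, (r + 1) * a = m + 1 := ⟨(r + 1) * a - 1, by
        have : 1 ≤ (r + 1) * a := Nat.mul_pos (by omega) ha
        omega⟩
      rw [hm, Nat.add_sub_cancel, Nat.add_one_mul_choose_eq, mul_comm]
    have h2 : (r + 1) * (a * ((r + 1) * a - 1).choose r) = (r + 1) * ((r + 1) * a).choose (r + 1) := by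
      rw [← h1, mul_assoc]
    have h3 := Nat.eq_of_mul_eq_mul_left (by omega : 0 < r + 1) h2
    rw [← h3, pow_succ, mul_comm]
    apply Nat.mul_le_mul_left
    refine ih.trans (Nat.choose_le_choose _ ?_)
    rw [add_mul, one_mul]
    omega

/-- **X1.** `C(x + j, r) ≤ C(x, r) + j (x + j) ^ (r - 1)` for `r ≥ 1`.
Proof: induction on `j`, Pascal, `C(y, r-1) ≤ y^(r-1)`. -/
theorem X1_choose_add (x j r : ℕ) (hr : 1 ≤ r) :
    (x + j).choose r ≤ x.choose r + j * (x + j) ^ (r - 1) := by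
  obtain ⟨s, rfl⟩ : ∃ s, r = s + 1 := ⟨r - 1, by omega⟩
  rw [Nat.add_sub_cancel]
  induction j with
  | zero => simp
  | succ j ih =>
    rw [← Nat.add_assoc, Nat.choose_succ_succ']
    have h1 : (x + j).choose s ≤ (x + j + 1) ^ s :=
      (Nat.choose_le_pow _ _).trans (Nat.pow_le_pow_left (by omega) _)
    have h2 : j * (x + j) ^ s ≤ j * (x + j + 1) ^ s :=
      Nat.mul_le_mul_left _ (Nat.pow_le_pow_left (by omega) _)
    rw [add_mul, one_mul]
    omega

/-- **X1.** `C(x + j, r) ≥ C(x, r) + j C(x, r - 1)` for `r ≥ 1`. Proof: induction on `j`, Pascal. -/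
theorem X1_choose_add_ge (x j r : ℕ) (hr : 1 ≤ r) :
    x.choose r + j * x.choose (r - 1) ≤ (x + j).choose r := by
  obtain ⟨s, rfl⟩ : ∃ s, r = s + 1 := ⟨r - 1, by omega⟩
  rw [Nat.add_sub_cancel]
  induction j with
  | zero => simp
  | succ j ih =>
    rw [← Nat.add_assoc, Nat.choose_succ_succ']
    have h1 : x.choose s ≤ (x + j).choose s := Nat.choose_le_choose _ (by omega)
    rw [add_mul, one_mul]
    omega

end Pool.Agent.Lib.H3MT
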