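import Pool.Agent.Lib.H3MT.X0
import Pool.Agent.Lib.H3MT.X1

namespace Pool.Agent.Lib.H3MT

open Finset

variable {V : Type*} [DecidableEq V]

/-- the matching covers `|M|` vertices of `A` and `(k-1) |M|` vertices of `B` -/
theorem X14_cover {k : ℕ} {A B : Finset V} (hd : Disjoint A B) {M : Finset (Finset V)}
    (hM : IsMatching M) (hMt : M ⊆ tp k A B) :
    (M.biUnion id ∩ A).card = M.card ∧ (M.biUnion id ∩ B).card = (k - 1) * M.card := by
  have h1 : ∀ Y : Finset V, (M.biUnion id ∩ Y).card = ∑ e ∈ M, (e ∩ Y).card := by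
    intro Y
    rw [Finset.biUnion_inter, Finset.card_biUnion]
    · rfl
    · intro e he f hf hef
      exact (hM he hf hef).mono inter_subset_left inter_subset_left
  constructor
  · rw [h1, Finset.sum_congr rfl (fun e he => (mem_tp.1 (hMt he)).2.2)]
    simp
  · rw [h1, Finset.sum_congr rfl (fun e he => tp_card_inter hd (hMt he))]
    rw [Finset.sum_const, smul_eq_mul, mul_comm]

/-- **X14.** If a matching of type `(1, k-1)` leaves a vertex of `A` and `(k-1) r` vertices of `B`
uncovered then there is an edge of type `(1, k-1)` disjoint from it.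
Proof: let `a ∈ A` and `B' ⊆ B` be uncovered, `|B'| ≥ (k-1) r` (`M` covers exactly `|M|` vertices of
`A` and `(k-1) |M|` of `B`).  The sets `insert a T`, `T ⊆ B'`, `|T| = k-1`, are of type `(1, k-1)`,
contain `a`, and there are `C(|B'|, k-1) ≥ r^(k-1) > D` of them (`X1_choose_mul`, state it as known:
import X1), so one of them is an edge. -/
theorem X14_free {k r : ℕ} (hk : 2 ≤ k) {H : Finset (Finset V)} {A B : Finset V}
    (hd : Disjoint A B) {M : Finset (Finset V)} (hM : IsMatching M) (hMt : M ⊆ tp k A B)
    (hA : M.card < A.card) (hB : (k - 1) * M.card + (k - 1) * r ≤ B.card) {D : ℝ}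
    (hmis : ∀ v ∈ A, (mis k H A B v : ℝ) ≤ D) (hD : D < (r : ℝ) ^ (k - 1)) :
    ∃ e ∈ tp k A B, e ∈ H ∧ ∀ f ∈ M, Disjoint e f := by
  obtain ⟨h1, h2⟩ := X14_cover hd hM hMt
  -- an uncovered vertex of A
  have h3 : ∃ a ∈ A, a ∉ M.biUnion id := by
    by_contra h
    push Not at h
    have h4 : A ⊆ M.biUnion id ∩ A := fun a ha => mem_inter.2 ⟨h a ha, ha⟩
    have h5 := card_le_card h4
    omega
  obtain ⟨a, haA, haM⟩ := h3
  have haB : a ∉ B := fun h => disjoint_left.1 hd haA h
  -- the uncovered vertices of B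
  have h4 : (B \ M.biUnion id).card + (M.biUnion id ∩ B).card = B.card := by
    rw [inter_comm]
    exact card_sdiff_add_card_inter B (M.biUnion id)
  have h5 : (k - 1) * r ≤ (B \ M.biUnion id).card := by omega
  by_contra hcon
  push Not at hcon
  have hins : ∀ T ∈ (B \ M.biUnion id).powersetCard (k - 1),
      insert a T ∈ (tp k A B).filter (fun e => a ∈ e ∧ e ∉ H) := by
    intro T hT
    rw [mem_powersetCard] at hT
    have haT : a ∉ T := fun h => haB (mem_sdiff.1 (hT.1 h)).1
    have ht : insert a T ∈ tp k A B := by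
      rw [mem_tp]
      refine ⟨?_, ?_, ?_⟩
      · apply insert_subset (mem_union_left _ haA)
        intro x hx
        exact mem_union_right _ (mem_sdiff.1 (hT.1 hx)).1
      · rw [card_insert_of_notMem haT, hT.2]
        omega
      · have h6 : insert a T ∩ A = {a} := by
          ext x
          rw [mem_inter, mem_insert, mem_singleton]
          constructor
          · rintro ⟨rfl | hx, hxA⟩
            · rfl
            · exact absurd (mem_sdiff.1 (hT.1 hx)).1 (disjoint_left.1 hd hxA)
          · rintro rfl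
            exact ⟨Or.inl rfl, haA⟩
        rw [h6, card_singleton]
    rw [mem_filter]
    refine ⟨ht, mem_insert_self _ _, fun hH => ?_⟩
    obtain ⟨f, hf, hdf⟩ := hcon _ ht hH
    apply hdf
    rw [disjoint_left]
    intro x hx hxf
    have hxM : x ∈ M.biUnion id := mem_biUnion.2 ⟨f, hf, hxf⟩
    rcases mem_insert.1 hx with rfl | hx
    · exact haM hxM
    · exact (mem_sdiff.1 (hT.1 hx)).2 hxM
  have h6 : ((B \ M.biUnion id).powersetCard (k - 1)).card ≤ mis k H A B a := by
    unfold mis
    apply card_le_card_of_injOn (fun T => insert a T) hins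
    intro T hT T' hT' h
    rw [mem_coe, mem_powersetCard] at hT hT'
    have haT : a ∉ T := fun h => haB (mem_sdiff.1 (hT.1 h)).1
    have haT' : a ∉ T' := fun h => haB (mem_sdiff.1 (hT'.1 h)).1
    have h7 := congrArg (fun s : Finset V => s.erase a) h
    simp only [erase_insert haT, erase_insert haT'] at h7
    exact h7
  rw [card_powersetCard] at h6
  have h7 : r ^ (k - 1) ≤ mis k H A B a :=
    (X1_choose_mul (k - 1) r).trans ((Nat.choose_le_choose _ h5).trans h6)
  have h8 : ((r ^ (k - 1) : ℕ) : ℝ) ≤ (mis k H A B a : ℝ) := by exact_mod_cast h7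
  push_cast at h8
  have h9 := hmis a haA
  linarith

end Pool.Agent.Lib.H3MT
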