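import Pool.Agent.Lib.H3MT.X0

namespace Pool.Agent.Lib.H3MT

open Finset

variable {V : Type*} [DecidableEq V]

/-- **X15.** The cyclic rotation.  `Ψ i p` (`i, p : Fin (n+1)`) are distinct vertices, in `A` for
`p = 0` and in `B` otherwise.  Then the `n + 1` sets `f_j = {Ψ i (j + i) : i}` are of type `(1, n)`,
pairwise disjoint, and together they are all the `Ψ i p`.
Proof: `i ↦ Ψ i (j + i)` is injective, so `|f_j| = n + 1`; `Ψ i (j+i) ∈ A` iff `j + i = 0` iff
`i = -j`; `Ψ i (j+i) = Ψ i' (j'+i')` implies `i = i'` and `j = j'`. -/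
theorem X15_rotate {n : ℕ} {A B : Finset V} (hd : Disjoint A B)
    (Ψ : Fin (n + 1) → Fin (n + 1) → V)
    (hinj : ∀ i p i' p', Ψ i p = Ψ i' p' → i = i' ∧ p = p')
    (hA : ∀ i, Ψ i 0 ∈ A) (hB : ∀ i p, p ≠ 0 → Ψ i p ∈ B) :
    (∀ j : Fin (n + 1), (univ : Finset (Fin (n + 1))).image (fun i => Ψ i (j + i)) ∈ tp (n + 1) A B) ∧
    (∀ j j' : Fin (n + 1), j ≠ j' →
      Disjoint ((univ : Finset (Fin (n + 1))).image (fun i => Ψ i (j + i)))
        ((univ : Finset (Fin (n + 1))).image (fun i => Ψ i (j' + i)))) := by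
  constructor
  · intro j
    refine mem_tp.2 ⟨?_, ?_, ?_⟩
    · intro x hx
      obtain ⟨i, -, rfl⟩ := mem_image.1 hx
      by_cases h : j + i = 0
      · rw [h]; exact mem_union_left _ (hA i)
      · exact mem_union_right _ (hB i _ h)
    · rw [card_image_of_injective]
      · simp
      · intro i i' h
        exact (hinj _ _ _ _ h).1
    · rw [card_eq_one]
      refine ⟨Ψ (-j) 0, ?_⟩
      ext x
      rw [mem_inter, mem_image, mem_singleton]
      constructor
      · rintro ⟨⟨i, -, rfl⟩, hxA⟩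
        by_cases h : j + i = 0
        · rw [h, eq_neg_of_add_eq_zero_right h]
        · exact absurd (hB i _ h) (fun h' => (disjoint_left.1 hd) hxA h')
      · rintro rfl
        refine ⟨⟨-j, mem_univ _, ?_⟩, hA _⟩
        rw [add_neg_cancel]
  · intro j j' hjj
    rw [disjoint_left]
    intro x hx hx'
    obtain ⟨i, -, rfl⟩ := mem_image.1 hx
    obtain ⟨i', -, h⟩ := mem_image.1 hx'
    obtain ⟨h1, h2⟩ := hinj _ _ _ _ h
    subst h1
    exact hjj (add_right_cancel h2).symm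

/-- **X15.** Enumeration of a set of type `(1, n)`: a bijection with `Fin (n+1)` sending `0` to the
vertex in `A`. Proof: `e = {a} ∪ (e ∩ B)`, enumerate `e ∩ B` by `Fin n` and use `Fin.cons`. -/
theorem X15_enum {n : ℕ} {A B e : Finset V} (hd : Disjoint A B) (he : e ∈ tp (n + 1) A B) :
    ∃ φ : Fin (n + 1) → V, Function.Injective φ ∧ (∀ x, x ∈ e ↔ ∃ p, φ p = x) ∧ φ 0 ∈ A ∧
      ∀ p, p ≠ 0 → φ p ∈ B := by
  obtain ⟨h1, h2, h3⟩ := mem_tp.1 he
  have hB := tp_card_inter hd he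
  rw [Nat.add_sub_cancel] at hB
  obtain ⟨a, ha⟩ := card_eq_one.1 h3
  have haA : a ∈ e ∩ A := by rw [ha]; exact mem_singleton_self _
  let ψ := (e ∩ B).equivFinOfCardEq hB
  have hψ : ∀ p : Fin n, ((ψ.symm p : V)) ∈ e ∩ B := fun p => (ψ.symm p).2
  refine ⟨Fin.cons a (fun p => (ψ.symm p : V)), ?_, ?_, ?_, ?_⟩
  · rw [Fin.cons_injective_iff]
    constructor
    · rintro ⟨p, hp⟩
      have := hψ p
      simp only at hp
      rw [hp] at this
      exact (disjoint_left.1 hd) (mem_inter.1 haA).2 (mem_inter.1 this).2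
    · intro p q hpq
      exact ψ.symm.injective (Subtype.ext hpq)
  · intro x
    constructor
    · intro hx
      rcases mem_union.1 (h1 hx) with h | h
      · have : x ∈ e ∩ A := mem_inter.2 ⟨hx, h⟩
        rw [ha, mem_singleton] at this
        exact ⟨0, by rw [Fin.cons_zero, this]⟩
      · refine ⟨(ψ ⟨x, mem_inter.2 ⟨hx, h⟩⟩).succ, ?_⟩
        rw [Fin.cons_succ, Equiv.symm_apply_apply]
    · rintro ⟨p, rfl⟩
      refine Fin.cases ?_ (fun q => ?_) p
      · rw [Fin.cons_zero]; exact (mem_inter.1 haA).1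
      · rw [Fin.cons_succ]; exact (mem_inter.1 (hψ q)).1
  · rw [Fin.cons_zero]; exact (mem_inter.1 haA).2
  · intro p hp
    obtain ⟨q, rfl⟩ := Fin.exists_succ_eq.2 hp
    rw [Fin.cons_succ]; exact (mem_inter.1 (hψ q)).2

end Pool.Agent.Lib.H3MT
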