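import Pool.Agent.Lib.H3MT.X0

namespace Pool.Agent.Lib.H3MT

open Finset

variable {V : Type*} [DecidableEq V]

/-- **X16.** Counting the rotations (`k = n + 1`).  `M` is a matching of edges of type `(1, n)`, with
enumerations `φ e`; `u 0, ..., u n` are distinct uncovered vertices, `u 0 ∈ A`, the others in `B`.  If
for every injective `c : Fin n → M` one of the sets `f_j(c) = {u j} ∪ {φ (c i) (j + i.succ) : i}`
is not an edge, then `|M| (|M|-1) ... (|M|-n+1) ≤ (n+1) D`.
Proof: `Fin n ↪ M` has `descFactorial |M| n` elements (`Fintype.card_embedding_eq`).  For each `j`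
the map `c ↦ f_j(c)` is injective: if `f_j(c) = f_j(c')`, then for each `i` the vertex
`φ (c i) (j + i.succ)`, which lies in the edge `c i` and is not `u j`, equals some
`φ (c' i') (j + i'.succ)`; the edges of `M` are disjoint, so `c i = c' i'`, and `φ (c i)` is
injective, so `i = i'`.  Its values are sets of type `(1, n)` containing `u j` (hypothesis `htp`), so
at most `D` of them are non-edges. -/
theorem X16_count {n : ℕ} {H : Finset (Finset V)} {A B : Finset V}
    {M : Finset (Finset V)} (hM : IsMatching M) (φ : Finset V → Fin (n + 1) → V)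
    (hφi : ∀ e ∈ M, Function.Injective (φ e)) (hφe : ∀ e ∈ M, ∀ p, φ e p ∈ e)
    (u : Fin (n + 1) → V) (hu : ∀ j, ∀ e ∈ M, u j ∉ e) {D : ℝ}
    (hmis : ∀ j, (mis (n + 1) H A B (u j) : ℝ) ≤ D)
    (htp : ∀ (c : Fin n → Finset V) (j : Fin (n + 1)), Function.Injective c → (∀ i, c i ∈ M) →
      insert (u j) ((univ : Finset (Fin n)).image (fun i => φ (c i) (j + i.succ))) ∈ tp (n + 1) A B)
    (hbad : ∀ c : Fin n → Finset V, Function.Injective c → (∀ i, c i ∈ M) →
      ∃ j : Fin (n + 1),
        insert (u j) ((univ : Finset (Fin n)).image (fun i => φ (c i) (j + i.succ))) ∉ H) :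
    (M.card.descFactorial n : ℝ) ≤ (n + 1) * D := by
  classical
  -- the sets f_j(c)
  let f : Fin (n + 1) → (Fin n ↪ M) → Finset V := fun j c =>
    insert (u j) ((univ : Finset (Fin n)).image (fun i => φ ((c i : M) : Finset V) (j + i.succ)))
  have hcard : Fintype.card (Fin n ↪ M) = M.card.descFactorial n := by
    rw [Fintype.card_embedding_eq]; simp
  have hdisj : ∀ e ∈ M, ∀ e' ∈ M, ∀ x, x ∈ e → x ∈ e' → e = e' := by
    intro e he e' he' x hx hx'
    by_contra hne
    exact (disjoint_left.1 (hM (mem_coe.2 he) (mem_coe.2 he') hne)) hx hx'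
  have hinj : ∀ j, Function.Injective (f j) := by
    intro j c c' hcc
    apply Function.Embedding.ext
    intro i
    have h1 : φ ((c i : M) : Finset V) (j + i.succ) ∈ f j c := by
      apply mem_insert_of_mem
      exact mem_image.2 ⟨i, mem_univ _, rfl⟩
    rw [hcc] at h1
    rcases mem_insert.1 h1 with h | h
    · exfalso
      exact hu j _ (c i).2 (h ▸ hφe _ (c i).2 _)
    · obtain ⟨i', -, hi'⟩ := mem_image.1 h
      have h2 : ((c' i' : M) : Finset V) = ((c i : M) : Finset V) := by
        refine hdisj _ (c' i').2 _ (c i).2 (φ ((c' i' : M) : Finset V) (j + i'.succ))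
          (hφe _ (c' i').2 _) ?_
        rw [hi']
        exact hφe _ (c i).2 _
      rw [h2] at hi'
      have h3 := hφi _ (c i).2 hi'
      have h4 : i' = i := Fin.succ_injective _ (add_left_cancel h3)
      subst h4
      exact (Subtype.ext h2).symm
  have hcov : (univ : Finset (Fin n ↪ M)) ⊆
      (univ : Finset (Fin (n + 1))).biUnion (fun j => univ.filter (fun c => f j c ∉ H)) := by
    intro c _
    obtain ⟨j, hj⟩ := hbad (fun i => ((c i : M) : Finset V))
      (fun i i' h => c.injective (Subtype.ext h)) (fun i => (c i).2)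
    exact mem_biUnion.2 ⟨j, mem_univ _, mem_filter.2 ⟨mem_univ _, hj⟩⟩
  have hle : ∀ j, ((univ.filter (fun c : Fin n ↪ M => f j c ∉ H)).card : ℝ) ≤ D := by
    intro j
    refine le_trans ?_ (hmis j)
    have : (univ.filter (fun c : Fin n ↪ M => f j c ∉ H)).card ≤ mis (n + 1) H A B (u j) := by
      unfold mis
      refine card_le_card_of_injOn (f j) ?_ (fun a _ b _ h => hinj j h)
      intro c hc
      have hc' := (mem_filter.1 (mem_coe.1 hc)).2
      refine mem_coe.2 (mem_filter.2 ⟨?_, mem_insert_self _ _, hc'⟩)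
      exact htp (fun i => ((c i : M) : Finset V)) j
        (fun i i' h => c.injective (Subtype.ext h)) (fun i => (c i).2)
    exact_mod_cast this
  calc (M.card.descFactorial n : ℝ) = ((univ : Finset (Fin n ↪ M)).card : ℝ) := by
        rw [← hcard]; rfl
    _ ≤ (((univ : Finset (Fin (n + 1))).biUnion
          (fun j => univ.filter (fun c : Fin n ↪ M => f j c ∉ H))).card : ℝ) := by
        exact_mod_cast card_le_card hcov
    _ ≤ ∑ j : Fin (n + 1), ((univ.filter (fun c : Fin n ↪ M => f j c ∉ H)).card : ℝ) := by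
        exact_mod_cast card_biUnion_le
    _ ≤ ∑ j : Fin (n + 1), D := sum_le_sum (fun j _ => hle j)
    _ = (n + 1) * D := by simp

end Pool.Agent.Lib.H3MT
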