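import Pool.Agent.Lib.H3MT.X13
import Pool.Agent.Lib.H3MT.X14
import Pool.Agent.Lib.H3MT.X15
import Pool.Agent.Lib.H3MT.X16

namespace Pool.Agent.Lib.H3MT

open Finset

variable {V : Type*} [DecidableEq V]

theorem X17_insert {H : Finset (Finset V)} {T : Finset (Finset V)} {M : Finset (Finset V)}
    (hMH : M ⊆ H) (hMT : M ⊆ T) (hM : IsMatching M) {e : Finset V} (heT : e ∈ T) (heH : e ∈ H)
    (hdis : ∀ f ∈ M, Disjoint e f) (hne : e.Nonempty) :
    ∃ M' ⊆ H, M' ⊆ T ∧ IsMatching M' ∧ M'.card = M.card + 1 := by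
  have hnot : e ∉ M := by
    intro h
    have := hdis e h
    rw [disjoint_self] at this
    rw [Finset.bot_eq_empty] at this
    exact hne.ne_empty this
  refine ⟨insert e M, insert_subset heH hMH, insert_subset heT hMT, ?_, card_insert_of_notMem hnot⟩
  unfold IsMatching
  rw [coe_insert]
  refine Set.PairwiseDisjoint.insert hM ?_
  intro f hf _
  exact hdis f hf

/-- the switch: a non-perfect matching of type `(1,n)` with enough edges can be enlarged -/
theorem X17_enlarge {n r m : ℕ} {H : Finset (Finset V)} {A B : Finset V}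
    (hd : Disjoint A B) (hA : A.card = m) (hB : B.card = n * m) {M : Finset (Finset V)}
    (hMH : M ⊆ H) (hMT : M ⊆ tp (n + 1) A B) (hM : IsMatching M) (hlt : M.card < m)
    (hbig : r + n ≤ M.card + 1) {D : ℝ} (hmis : ∀ v ∈ A ∪ B, (mis (n + 1) H A B v : ℝ) ≤ D)
    (hD : (n + 1 : ℝ) * D < (r : ℝ) ^ n) :
    ∃ M' ⊆ H, M' ⊆ tp (n + 1) A B ∧ IsMatching M' ∧ M'.card = M.card + 1 := by
  classical
  obtain ⟨hcA, hcB⟩ := X13_cover_card hd hM hMT
  -- uncovered vertices
  have h1 : (A \ M.biUnion id).card = m - M.card := by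
    have := card_sdiff_add_card_inter A (M.biUnion id)
    omega
  have h2 : (B \ M.biUnion id).card = n * (m - M.card) := by
    have h3 := card_sdiff_add_card_inter B (M.biUnion id)
    rw [hcB, hB] at h3
    have h4 : n * m = n * (m - M.card) + n * M.card := by
      rw [← Nat.mul_add]; congr 1; omega
    simp only [Nat.add_sub_cancel] at h3
    omega
  obtain ⟨a, ha⟩ : (A \ M.biUnion id).Nonempty := card_pos.1 (by rw [h1]; omega)
  have h5 : n ≤ (B \ M.biUnion id).card := by
    rw [h2]
    calc n = n * 1 := (Nat.mul_one n).symm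
      _ ≤ n * (m - M.card) := Nat.mul_le_mul_left n (by omega)
  obtain ⟨B1, hB1s, hB1c⟩ := exists_subset_card_eq h5
  let eB : Fin n ≃ B1 := (Fintype.equivFinOfCardEq (by rw [Fintype.card_coe]; exact hB1c)).symm
  let u : Fin (n + 1) → V := Fin.cons a (fun i => ((eB i : B1) : V))
  have hu0 : u 0 = a := rfl
  have hus : ∀ i : Fin n, u i.succ = ((eB i : B1) : V) := fun i => rfl
  have hucov : ∀ j, u j ∉ M.biUnion id := by
    intro j
    refine Fin.cases ?_ (fun i => ?_) j
    · rw [hu0]; exact (mem_sdiff.1 ha).2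
    · rw [hus]; exact (mem_sdiff.1 (hB1s (eB i).2)).2
  have huA : u 0 ∈ A := by rw [hu0]; exact (mem_sdiff.1 ha).1
  have huB : ∀ j, j ≠ 0 → u j ∈ B := by
    intro j
    refine Fin.cases ?_ (fun i => ?_) j
    · intro h; exact absurd rfl h
    · intro _; rw [hus]; exact (mem_sdiff.1 (hB1s (eB i).2)).1
  have huinj : Function.Injective u := by
    intro j j'
    refine Fin.cases ?_ (fun i => ?_) j
    · refine Fin.cases (fun _ => rfl) (fun i' h => ?_) j'
      exact absurd (by rw [h]; exact huB _ (Fin.succ_ne_zero i')) ((disjoint_left.1 hd) huA)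
    · refine Fin.cases (fun h => ?_) (fun i' h => ?_) j'
      · exact absurd (by rw [← h]; exact huB _ (Fin.succ_ne_zero i)) ((disjoint_left.1 hd) huA)
      · rw [hus, hus] at h
        have := eB.injective (Subtype.ext h)
        rw [this]
  have hu : ∀ j, ∀ e ∈ M, u j ∉ e := by
    intro j e he h
    exact hucov j (mem_biUnion.2 ⟨e, he, h⟩)
  -- enumerations
  have hex : ∀ e : Finset V, ∃ φ : Fin (n + 1) → V, e ∈ M → (Function.Injective φ ∧
      (∀ x, x ∈ e ↔ ∃ p, φ p = x) ∧ φ 0 ∈ A ∧ ∀ p, p ≠ 0 → φ p ∈ B) := by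
    intro e
    by_cases he : e ∈ M
    · obtain ⟨φ, hφ⟩ := X15_enum hd (hMT he)
      exact ⟨φ, fun _ => hφ⟩
    · exact ⟨fun _ => a, fun h => absurd h he⟩
  choose φ hφ using hex
  -- the array
  have hΨ : ∀ c : Fin n → Finset V, Function.Injective c → (∀ i, c i ∈ M) →
      (∀ i p i' p', (Fin.cons u (fun i : Fin n => φ (c i)) : Fin (n + 1) → Fin (n + 1) → V) i p =
        (Fin.cons u (fun i : Fin n => φ (c i)) : Fin (n + 1) → Fin (n + 1) → V) i' p' →
        i = i' ∧ p = p') ∧
      (∀ i, (Fin.cons u (fun i : Fin n => φ (c i)) : Fin (n + 1) → Fin (n + 1) → V) i 0 ∈ A) ∧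
      (∀ i p, p ≠ 0 →
        (Fin.cons u (fun i : Fin n => φ (c i)) : Fin (n + 1) → Fin (n + 1) → V) i p ∈ B) := by
    intro c hc hcM
    refine ⟨?_, ?_, ?_⟩
    · intro i p i' p'
      refine Fin.cases ?_ (fun i => ?_) i
      · refine Fin.cases ?_ (fun i' => ?_) i'
        · intro h
          simp only [Fin.cons_zero] at h
          exact ⟨rfl, huinj h⟩
        · intro h
          simp only [Fin.cons_zero, Fin.cons_succ] at h
          exact absurd (((hφ (c i') (hcM i')).2.1 _).2 ⟨p', h.symm⟩) (hu p _ (hcM i'))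
      · refine Fin.cases ?_ (fun i' => ?_) i'
        · intro h
          simp only [Fin.cons_zero, Fin.cons_succ] at h
          exact absurd (((hφ (c i) (hcM i)).2.1 _).2 ⟨p, h⟩) (hu p' _ (hcM i))
        · intro h
          simp only [Fin.cons_succ] at h
          have h6 : φ (c i) p ∈ c i := ((hφ (c i) (hcM i)).2.1 _).2 ⟨p, rfl⟩
          have h7 : φ (c i) p ∈ c i' := ((hφ (c i') (hcM i')).2.1 _).2 ⟨p', h.symm⟩
          have h8 : c i = c i' := by
            by_contra hne
            exact (disjoint_left.1 (hM (hcM i) (hcM i') hne)) h6 h7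
          have h9 : i = i' := hc h8
          subst h9
          exact ⟨rfl, (hφ (c i) (hcM i)).1 h⟩
    · intro i
      refine Fin.cases ?_ (fun i => ?_) i
      · simpa only [Fin.cons_zero] using huA
      · simpa only [Fin.cons_succ] using (hφ (c i) (hcM i)).2.2.1
    · intro i p hp
      refine Fin.cases ?_ (fun i => ?_) i
      · simpa only [Fin.cons_zero] using huB p hp
      · simpa only [Fin.cons_succ] using (hφ (c i) (hcM i)).2.2.2 p hp
  have himg : ∀ (c : Fin n → Finset V) (j : Fin (n + 1)),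
      (univ : Finset (Fin (n + 1))).image (fun i =>
        (Fin.cons u (fun i : Fin n => φ (c i)) : Fin (n + 1) → Fin (n + 1) → V) i (j + i)) =
      insert (u j) ((univ : Finset (Fin n)).image (fun i => φ (c i) (j + i.succ))) := by
    intro c j
    ext x
    simp only [mem_image, mem_univ, true_and, mem_insert]
    constructor
    · rintro ⟨i, hi⟩
      revert hi
      refine Fin.cases ?_ (fun i => ?_) i
      · intro h
        simp only [Fin.cons_zero, add_zero] at h
        exact Or.inl h.symm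
      · intro h
        simp only [Fin.cons_succ] at h
        exact Or.inr ⟨i, h⟩
    · rintro (h | ⟨i, h⟩)
      · refine ⟨0, ?_⟩
        simp only [Fin.cons_zero, add_zero]
        exact h.symm
      · refine ⟨i.succ, ?_⟩
        simp only [Fin.cons_succ]
        exact h
  have htp : ∀ (c : Fin n → Finset V) (j : Fin (n + 1)), Function.Injective c →
      (∀ i, c i ∈ M) →
      insert (u j) ((univ : Finset (Fin n)).image (fun i => φ (c i) (j + i.succ))) ∈
        tp (n + 1) A B := by
    intro c j hc hcM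
    obtain ⟨g1, g2, g3⟩ := hΨ c hc hcM
    have := (X15_rotate hd _ g1 g2 g3).1 j
    rw [himg] at this
    exact this
  -- a good choice of the edges
  obtain ⟨c, hc, hcM, hgood⟩ : ∃ c : Fin n → Finset V, Function.Injective c ∧ (∀ i, c i ∈ M) ∧
      ∀ j : Fin (n + 1),
        insert (u j) ((univ : Finset (Fin n)).image (fun i => φ (c i) (j + i.succ))) ∈ H := by
    by_contra hcon
    push Not at hcon
    have h10 := X16_count (H := H) hM φ (fun e he => (hφ e he).1)
      (fun e he p => ((hφ e he).2.1 _).2 ⟨p, rfl⟩) u hu (D := D)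
      (fun j => hmis (u j) (by
        by_cases hj : j = 0
        · rw [hj]; exact mem_union_left _ huA
        · exact mem_union_right _ (huB j hj))) htp hcon
    have h11 : r ^ n ≤ M.card.descFactorial n := by
      refine le_trans ?_ (Nat.pow_sub_le_descFactorial M.card n)
      exact Nat.pow_le_pow_left (by omega) n
    have h12 : ((r : ℝ)) ^ n ≤ (M.card.descFactorial n : ℝ) := by exact_mod_cast h11
    linarith
  obtain ⟨g1, g2, g3⟩ := hΨ c hc hcM
  have hrot := (X15_rotate hd _ g1 g2 g3).2
  simp only [himg] at hrot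
  -- the new matching
  let F : Fin (n + 1) → Finset V := fun j =>
    insert (u j) ((univ : Finset (Fin n)).image (fun i => φ (c i) (j + i.succ)))
  have hFne : ∀ j, (F j).Nonempty := fun j => insert_nonempty _ _
  have hFinj : Function.Injective F := by
    intro j j' h
    by_contra hne
    have := hrot j j' hne
    rw [show insert (u j) ((univ : Finset (Fin n)).image (fun i => φ (c i) (j + i.succ))) = F j
      from rfl, show insert (u j') ((univ : Finset (Fin n)).image
        (fun i => φ (c i) (j' + i.succ))) = F j' from rfl, ← h, disjoint_self] at this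
    rw [Finset.bot_eq_empty] at this
    exact (hFne j).ne_empty this
  let M₁ : Finset (Finset V) := (univ : Finset (Fin n)).image c
  let M₂ : Finset (Finset V) := (univ : Finset (Fin (n + 1))).image F
  have hM₁c : M₁.card = n := by
    rw [card_image_of_injective _ hc, card_univ, Fintype.card_fin]
  have hM₂c : M₂.card = n + 1 := by
    rw [card_image_of_injective _ hFinj, card_univ, Fintype.card_fin]
  have hM₁M : M₁ ⊆ M := by
    intro e he
    obtain ⟨i, -, rfl⟩ := mem_image.1 he
    exact hcM i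
  have hM₂ : IsMatching M₂ := by
    intro e he f hf hef
    rw [mem_coe] at he hf
    obtain ⟨j, -, rfl⟩ := mem_image.1 he
    obtain ⟨j', -, rfl⟩ := mem_image.1 hf
    have hjj : j ≠ j' := fun h => hef (by rw [h])
    exact hrot j j' hjj
  have hdis : ∀ e ∈ M₂, ∀ f ∈ M \ M₁, Disjoint e f := by
    intro e he f hf
    obtain ⟨j, -, rfl⟩ := mem_image.1 he
    obtain ⟨hfM, hfM₁⟩ := mem_sdiff.1 hf
    rw [disjoint_left]
    intro x hx hxf
    rcases mem_insert.1 hx with h | h
    · rw [h] at hxf; exact hu j f hfM hxf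
    · obtain ⟨i, -, rfl⟩ := mem_image.1 h
      have h6 : φ (c i) (j + i.succ) ∈ c i := ((hφ (c i) (hcM i)).2.1 _).2 ⟨_, rfl⟩
      have h8 : c i ≠ f := by
        intro h; exact hfM₁ (mem_image.2 ⟨i, mem_univ _, h⟩)
      exact (disjoint_left.1 (hM (hcM i) hfM h8)) h6 hxf
  obtain ⟨q1, q2⟩ := X13_replace hM hM₁M hM₂ (by
    intro e he
    obtain ⟨j, -, rfl⟩ := mem_image.1 he
    exact hFne j) hdis
  refine ⟨(M \ M₁) ∪ M₂, ?_, ?_, q1, by omega⟩
  · refine union_subset (sdiff_subset.trans hMH) ?_
    intro e he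
    obtain ⟨j, -, rfl⟩ := mem_image.1 he
    exact hgood j
  · refine union_subset (sdiff_subset.trans hMT) ?_
    intro e he
    obtain ⟨j, -, rfl⟩ := mem_image.1 he
    exact htp c j hc hcM

/-- **X17, the switching lemma.** -/
theorem X17_switch {k r m : ℕ} (hk : 2 ≤ k) {H : Finset (Finset V)} {A B : Finset V}
    (hd : Disjoint A B) (hA : A.card = m) (hB : B.card = (k - 1) * m) (hm : 2 * (r + k) ≤ m)
    {D : ℝ} (hmis : ∀ v ∈ A ∪ B, (mis k H A B v : ℝ) ≤ D)
    (hD : (k : ℝ) * D < (r : ℝ) ^ (k - 1)) :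
    ∃ M ⊆ H, IsMatching M ∧ M.biUnion id = A ∪ B := by
  classical
  -- a matching of maximal cardinality
  let 𝓜 : Finset (Finset (Finset V)) :=
    (H.powerset).filter (fun M => M ⊆ tp k A B ∧ IsMatching M)
  have h0 : (∅ : Finset (Finset V)) ∈ 𝓜 := by
    refine mem_filter.2 ⟨empty_mem_powerset _, empty_subset _, ?_⟩
    intro e he
    simp at he
  obtain ⟨M, hM𝓜, hmax⟩ := exists_max_image 𝓜 card ⟨_, h0⟩
  obtain ⟨hMH', hMT, hM⟩ := mem_filter.1 hM𝓜
  have hMH : M ⊆ H := mem_powerset.1 hMH'
  have hmax' : ∀ M' ⊆ H, M' ⊆ tp k A B → IsMatching M' → M'.card ≤ M.card := by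
    intro M' h1 h2 h3
    exact hmax M' (mem_filter.2 ⟨mem_powerset.2 h1, h2, h3⟩)
  obtain ⟨hcA, hcB⟩ := X13_cover_card hd hM hMT
  obtain ⟨n, rfl⟩ : ∃ n, k = n + 1 := ⟨k - 1, by omega⟩
  rw [Nat.add_sub_cancel] at hB hD hcB
  have hcm : M.card ≤ m := by
    rw [← hcA, ← hA]; exact card_le_card inter_subset_left
  have hD0 : 0 ≤ D := by
    obtain ⟨v, hv⟩ : A.Nonempty := card_pos.1 (by omega)
    exact le_trans (Nat.cast_nonneg _) (hmis v (mem_union_left _ hv))
  have hfull : M.card = m := by
    by_contra hne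
    have hlt : M.card < m := by omega
    by_cases hcase : M.card + r ≤ m
    · -- many uncovered vertices
      have hDlt : D < (r : ℝ) ^ (n + 1 - 1) := by
        rw [Nat.add_sub_cancel]
        refine lt_of_le_of_lt ?_ hD
        have : (1 : ℝ) ≤ ((n + 1 : ℕ) : ℝ) := by exact_mod_cast Nat.succ_pos n
        nlinarith
      obtain ⟨e, he1, he2, he3⟩ := X14_free hk hd hM hMT (by rw [hA]; exact hlt)
        (by rw [hB, Nat.add_sub_cancel, ← Nat.mul_add]; exact Nat.mul_le_mul_left n hcase)
        (fun v hv => hmis v (mem_union_left _ hv)) hDlt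
      obtain ⟨M', g1, g2, g3, g4⟩ := X17_insert hMH hMT hM he1 he2 he3 (by
        rw [← card_pos, (mem_tp.1 he1).2.1]; omega)
      have := hmax' M' g1 g2 g3
      omega
    · obtain ⟨M', g1, g2, g3, g4⟩ := X17_enlarge (r := r) hd hA hB hMH hMT hM hlt
        (by omega) hmis (by push_cast at hD; exact hD)
      have := hmax' M' g1 g2 g3
      omega
  refine ⟨M, hMH, hM, ?_⟩
  apply Subset.antisymm
  · intro x hx
    obtain ⟨e, he, hxe⟩ := mem_biUnion.1 hx
    exact (mem_tp.1 (hMT he)).1 hxe
  · refine union_subset ?_ ?_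
    · have : A ∩ M.biUnion id = A := eq_of_subset_of_card_le inter_subset_left (by omega)
      exact inter_eq_left.1 this
    · have : B ∩ M.biUnion id = B := eq_of_subset_of_card_le inter_subset_left (by
        rw [hcB, hfull, hB])
      exact inter_eq_left.1 this

end Pool.Agent.Lib.H3MT
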