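import Pool.Agent.Lib.H3MT.X12
import Pool.Agent.Lib.H3MT.X17

namespace Pool.Agent.Lib.H3MT

open Finset

variable {V : Type*} [Fintype V] [DecidableEq V]

theorem X18_union {M₁ M₂ : Finset (Finset V)} (h1 : IsMatching M₁) (h2 : IsMatching M₂)
    (hd : Disjoint (M₁.biUnion id) (M₂.biUnion id)) : IsMatching (M₁ ∪ M₂) := by
  intro e he f hf hne
  rw [coe_union] at he hf
  rcases he with he | he <;> rcases hf with hf | hf
  · exact h1 he hf hne
  · exact Disjoint.mono (subset_biUnion_of_mem id he) (subset_biUnion_of_mem id hf) hd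
  · exact Disjoint.mono (subset_biUnion_of_mem id he) (subset_biUnion_of_mem id hf) hd.symm
  · exact h2 he hf hne

/-- **X18.** From a balanced pair `(S₁, W₁)` with few missing sets to a perfect matching of it:
cover the atypical vertices of `S₁` greedily (X12), then the switching lemma (X17). -/
theorem X18_finish {k r q : ℕ} (hk : 2 ≤ k) {H : Finset (Finset V)} (hH : Uniform k H)
    {S₁ W₁ : Finset V} (hd : Disjoint S₁ W₁) (hbal : W₁.card = (k - 1) * S₁.card) {D : ℝ}
    (hW : ∀ v ∈ W₁, (mis k H S₁ W₁ v : ℝ) ≤ D)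
    (hbad : (S₁.filter (fun v => D < (mis k H S₁ W₁ v : ℝ))).card ≤ q)
    (hlk : ∀ v ∈ S₁, (k - 1) * q * Fintype.card V ^ (k - 2) < lk H v W₁)
    (hm : 2 * (r + k) + q ≤ S₁.card) (hD : (k : ℝ) * D < (r : ℝ) ^ (k - 1)) :
    ∃ M ⊆ H, IsMatching M ∧ M.biUnion id = S₁ ∪ W₁ := by
  classical
  set A0 : Finset V := S₁.filter (fun v => D < (mis k H S₁ W₁ v : ℝ)) with hA0
  have hA0S : A0 ⊆ S₁ := filter_subset _ _
  have hd0 : Disjoint A0 W₁ := Disjoint.mono_left hA0S hd
  obtain ⟨M₂, hM₂H, hM₂, hc2, hcov, htype⟩ :=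
    X12_cover hk hH hd0 hbad (fun v hv => hlk v (hA0S hv))
  set S₂ : Finset V := S₁ \ A0 with hS₂
  set W₂ : Finset V := W₁ \ M₂.biUnion id with hW₂
  have hM₂U : M₂.biUnion id ⊆ A0 ∪ W₁ := by
    intro x hx
    obtain ⟨e, he, hxe⟩ := mem_biUnion.1 hx
    exact (htype e he).2 hxe
  have hS₂c : S₂.card + A0.card = S₁.card := card_sdiff_add_card_eq_card hA0S
  -- the matching `M₂` is of type `(1, k-1)` for `(A0, W₁)`
  have hM₂t : M₂ ⊆ tp k A0 W₁ := by
    intro e he
    exact mem_tp.2 ⟨(htype e he).2, hH e (hM₂H he), (htype e he).1⟩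
  obtain ⟨-, hcB⟩ := X13_cover_card hd0 hM₂ hM₂t
  have hW₂c : W₂.card + (k - 1) * A0.card = W₁.card := by
    have := card_sdiff_add_card_inter W₁ (M₂.biUnion id)
    rw [hcB, hc2] at this
    exact this
  have hbal2 : W₂.card = (k - 1) * S₂.card := by
    have h1 : (k - 1) * S₂.card + (k - 1) * A0.card = (k - 1) * S₁.card := by
      rw [← Nat.mul_add, hS₂c]
    omega
  have hd2 : Disjoint S₂ W₂ := Disjoint.mono sdiff_subset sdiff_subset hd
  have hmono : ∀ v, mis k H S₂ W₂ v ≤ mis k H S₁ W₁ v := fun v =>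
    mis_mono sdiff_subset sdiff_subset hd v
  obtain ⟨M₃, hM₃H, hM₃, hM₃U⟩ := X17_switch (r := r) (m := S₂.card) hk hd2 rfl hbal2
    (by omega) (D := D) (by
      intro v hv
      rcases mem_union.1 hv with h | h
      · have h1 : v ∈ S₁ := (mem_sdiff.1 h).1
        have h2 : v ∉ A0 := (mem_sdiff.1 h).2
        have h3 : (mis k H S₁ W₁ v : ℝ) ≤ D := by
          by_contra h4
          exact h2 (mem_filter.2 ⟨h1, not_le.1 h4⟩)
        exact le_trans (by exact_mod_cast hmono v) h3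
      · exact le_trans (by exact_mod_cast hmono v) (hW v (mem_sdiff.1 h).1)) hD
  refine ⟨M₂ ∪ M₃, union_subset hM₂H hM₃H, X18_union hM₂ hM₃ ?_, ?_⟩
  · rw [hM₃U, disjoint_union_right]
    refine ⟨?_, disjoint_sdiff⟩
    rw [disjoint_left]
    intro x hx hxS
    rcases mem_union.1 (hM₂U hx) with h | h
    · exact (mem_sdiff.1 hxS).2 h
    · exact (disjoint_left.1 hd) (mem_sdiff.1 hxS).1 h
  · rw [union_biUnion, hM₃U]
    ext x
    simp only [mem_union]
    constructor
    · rintro (h | h | h)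
      · rcases mem_union.1 (hM₂U h) with h' | h'
        · exact Or.inl (hA0S h')
        · exact Or.inr h'
      · exact Or.inl (mem_sdiff.1 h).1
      · exact Or.inr (mem_sdiff.1 h).1
    · rintro (h | h)
      · by_cases hx : x ∈ A0
        · exact Or.inl (hcov hx)
        · exact Or.inr (Or.inl (mem_sdiff.2 ⟨h, hx⟩))
      · by_cases hx : x ∈ M₂.biUnion id
        · exact Or.inl hx
        · exact Or.inr (Or.inr (mem_sdiff.2 ⟨h, hx⟩))

end Pool.Agent.Lib.H3MT
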