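import Pool.Agent.Lib.H3MT.X0
import Pool.Agent.Lib.H3MT.X1

namespace Pool.Agent.Lib.H3MT

open Finset

variable {V : Type*} [Fintype V] [DecidableEq V]

omit [Fintype V] in
theorem X11_inter {c : ℕ} {M : Finset (Finset V)} (hM : IsMatching M) (Y : Finset V)
    (h : ∀ e ∈ M, (e ∩ Y).card = c) : (M.biUnion id ∩ Y).card = c * M.card := by
  have h1 : (M.biUnion id ∩ Y).card = ∑ e ∈ M, (e ∩ Y).card := by
    rw [Finset.biUnion_inter, Finset.card_biUnion]
    · rfl
    · intro e he f hf hef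
      exact (hM he hf hef).mono inter_subset_left inter_subset_left
  rw [h1, Finset.sum_congr rfl h, Finset.sum_const, smul_eq_mul, mul_comm]

/-- one more edge -/
theorem X11_step {k t r : ℕ} (hk : 3 ≤ k) {H : Finset (Finset V)} (hH : Uniform k H)
    {S : Finset V} (hS : 2 * r + 2 * t ≤ S.card) (hW : k * r + k * t ≤ Sᶜ.card) {D : ℝ}
    (hD : ∀ v ∈ Sᶜ, ((((univ : Finset V).powersetCard k).filter
      (fun e => v ∈ e ∧ e ∉ H ∧ ¬ e ⊆ Sᶜ)).card : ℝ) ≤ D)
    (hsmall : D < (r : ℝ) ^ (k - 1)) {M : Finset (Finset V)} (hMH : M ⊆ H) (hM : IsMatching M)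
    (hMt : M.card < t) (hM2 : ∀ e ∈ M, (e ∩ S).card = 2) :
    ∃ e ∈ H, (e ∩ S).card = 2 ∧ ∀ f ∈ M, Disjoint e f := by
  have hMc : ∀ e ∈ M, (e ∩ Sᶜ).card = k - 2 := by
    intro e he
    have h1 := hM2 e he
    have h2 := hH e (hMH he)
    have h3 : e ∩ Sᶜ = e \ S := by
      ext x
      simp
    have h4 := card_sdiff_add_card_inter e S
    rw [h3]
    omega
  have hc1 := X11_inter hM S hM2
  have hc2 := X11_inter hM Sᶜ hMc
  set U := M.biUnion id with hU
  have h4 : (S \ U).card + (U ∩ S).card = S.card := by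
    rw [inter_comm]
    exact card_sdiff_add_card_inter S U
  have h5 : (Sᶜ \ U).card + (U ∩ Sᶜ).card = Sᶜ.card := by
    rw [inter_comm]
    exact card_sdiff_add_card_inter Sᶜ U
  have h6 : 2 * r ≤ (S \ U).card := by omega
  have h7 : k * r + 1 ≤ (Sᶜ \ U).card := by
    have h8 : (k - 2) * M.card ≤ k * M.card := Nat.mul_le_mul_right _ (Nat.sub_le _ _)
    have h9 : k * (M.card + 1) ≤ k * t := Nat.mul_le_mul_left _ hMt
    have h10 : k * (M.card + 1) = k * M.card + k := by ring
    omega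
  obtain ⟨v, hv⟩ : (Sᶜ \ U).Nonempty := by
    rw [← card_pos]
    omega
  have hvS : v ∉ S := mem_compl.1 (mem_sdiff.1 hv).1
  have hvU : v ∉ U := (mem_sdiff.1 hv).2
  by_contra hcon
  push Not at hcon
  -- the sets
  have hshape : ∀ P ∈ (S \ U).powersetCard 2, ∀ T ∈ ((Sᶜ \ U).erase v).powersetCard (k - 3),
      insert v (P ∪ T) ∩ S = P ∧ (insert v (P ∪ T) \ S).erase v = T ∧
      (insert v (P ∪ T)).card = k ∧ ∀ f ∈ M, Disjoint (insert v (P ∪ T)) f := by
    intro P hP T hT
    rw [mem_powersetCard] at hP hT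
    have hvP : v ∉ P := fun h => hvS (mem_sdiff.1 (hP.1 h)).1
    have hvT : v ∉ T := fun h => (mem_erase.1 (hT.1 h)).1 rfl
    have hTS : ∀ x ∈ T, x ∉ S := fun x hx =>
      mem_compl.1 (mem_sdiff.1 (mem_erase.1 (hT.1 hx)).2).1
    have hPS : ∀ x ∈ P, x ∈ S := fun x hx => (mem_sdiff.1 (hP.1 hx)).1
    have hPT : Disjoint P T := by
      rw [disjoint_left]
      intro x hx hx'
      exact hTS x hx' (hPS x hx)
    refine ⟨?_, ?_, ?_, ?_⟩
    · ext x
      rw [mem_inter, mem_insert, mem_union]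
      constructor
      · rintro ⟨rfl | hx | hx, hxS⟩
        · exact absurd hxS hvS
        · exact hx
        · exact absurd hxS (hTS x hx)
      · intro hx
        exact ⟨Or.inr (Or.inl hx), hPS x hx⟩
    · ext x
      rw [mem_erase, mem_sdiff, mem_insert, mem_union]
      constructor
      · rintro ⟨hxv, rfl | hx | hx, hxS⟩
        · exact absurd rfl hxv
        · exact absurd (hPS x hx) hxS
        · exact hx
      · intro hx
        refine ⟨?_, Or.inr (Or.inr hx), hTS x hx⟩
        rintro rfl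
        exact hvT hx
    · rw [card_insert_of_notMem, card_union_of_disjoint hPT, hP.2, hT.2]
      · omega
      · rw [mem_union]
        rintro (h | h)
        · exact hvP h
        · exact hvT h
    · intro f hf
      rw [disjoint_left]
      intro x hx hxf
      have hxU : x ∈ U := mem_biUnion.2 ⟨f, hf, hxf⟩
      rcases mem_insert.1 hx with rfl | hx
      · exact hvU hxU
      · rcases mem_union.1 hx with hx | hx
        · exact (mem_sdiff.1 (hP.1 hx)).2 hxU
        · exact (mem_sdiff.1 (mem_erase.1 (hT.1 hx)).2).2 hxU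
  have hcard : (((S \ U).powersetCard 2) ×ˢ (((Sᶜ \ U).erase v).powersetCard (k - 3))).card ≤
      (((univ : Finset V).powersetCard k).filter (fun e => v ∈ e ∧ e ∉ H ∧ ¬ e ⊆ Sᶜ)).card := by
    apply card_le_card_of_injOn (fun z => insert v (z.1 ∪ z.2))
    · rintro ⟨P, T⟩ hz
      rw [mem_coe, mem_product] at hz
      obtain ⟨hP, hT⟩ := hz
      obtain ⟨e1, e2, e3, e4⟩ := hshape P hP T hT
      rw [mem_coe, mem_filter, mem_powersetCard]
      refine ⟨⟨subset_univ _, e3⟩, mem_insert_self _ _, ?_, ?_⟩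
      · intro hH'
        obtain ⟨f, hf, hf2⟩ := hcon _ hH' (by rw [e1]; exact (mem_powersetCard.1 hP).2)
        exact hf2 (e4 f hf)
      · intro hsub
        have h8 := (mem_powersetCard.1 hP).2
        have h9 : P.Nonempty := by
          rw [← card_pos, h8]
          norm_num
        obtain ⟨x, hx⟩ := h9
        have h10 := hsub (mem_insert_of_mem (mem_union_left T hx))
        exact (mem_compl.1 h10) (mem_sdiff.1 ((mem_powersetCard.1 hP).1 hx)).1
    · rintro ⟨P, T⟩ hz ⟨P', T'⟩ hz' heq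
      rw [mem_coe, mem_product] at hz hz'
      obtain ⟨e1, e2, -, -⟩ := hshape P hz.1 T hz.2
      obtain ⟨e1', e2', -, -⟩ := hshape P' hz'.1 T' hz'.2
      have heq' : insert v (P ∪ T) = insert v (P' ∪ T') := heq
      rw [Prod.mk.injEq]
      exact ⟨by rw [← e1, heq', e1'], by rw [← e2, heq', e2']⟩
  have h8 : r ^ (k - 1) ≤ (((S \ U).powersetCard 2) ×ˢ
      (((Sᶜ \ U).erase v).powersetCard (k - 3))).card := by
    rw [card_product, card_powersetCard, card_powersetCard, card_erase_of_mem hv]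
    have h9 : r ^ (k - 1) = r ^ 2 * r ^ (k - 3) := by
      rw [← pow_add]
      congr 1
      omega
    rw [h9]
    apply Nat.mul_le_mul
    · exact (X1_choose_mul 2 r).trans (Nat.choose_le_choose _ h6)
    · refine (X1_choose_mul (k - 3) r).trans (Nat.choose_le_choose _ ?_)
      have h10 : (k - 3) * r ≤ k * r := Nat.mul_le_mul_right _ (Nat.sub_le _ _)
      omega
  have h9 : ((r ^ (k - 1) : ℕ) : ℝ) ≤ (((univ : Finset V).powersetCard k).filter
      (fun e => v ∈ e ∧ e ∉ H ∧ ¬ e ⊆ Sᶜ)).card := by exact_mod_cast h8.trans hcard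
  push_cast at h9
  have h10 := hD v (mem_sdiff.1 hv).1
  linarith

/-- **X11.** `t` disjoint edges with exactly two vertices in `S` (`k ≥ 3`).
Proof: take a matching of such edges of maximal cardinality `q` and suppose `q < t`.  Then
`S' = S \ V(M)` has at least `2 r` vertices and `W' = Sᶜ \ V(M)` at least
`k r + k t - (k-2) q ≥ k r + 1` vertices.  Take `v ∈ W'`.  The sets `{v} ∪ P ∪ T` with
`P ⊆ S'`, `|P| = 2`, `T ⊆ W' \ {v}`, `|T| = k-3` are distinct `k`-sets, there are
`C(|S'|, 2) C(|W'| - 1, k-3) ≥ r^2 r^(k-3) = r^(k-1)` of them (`a^r ≤ C(r a, r)`), each contains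
`v` and is not inside `Sᶜ`.  At most `D < r^(k-1)` of them are non-edges, so one is an edge,
disjoint from the matching: contradiction.  (If `q ≥ t` take `t` of the edges.) -/
theorem X11_matchT {k t r : ℕ} (hk : 3 ≤ k) {H : Finset (Finset V)} (hH : Uniform k H)
    {S : Finset V} (hS : 2 * r + 2 * t ≤ S.card) (hW : k * r + k * t ≤ Sᶜ.card) {D : ℝ}
    (hD : ∀ v ∈ Sᶜ, ((((univ : Finset V).powersetCard k).filter
      (fun e => v ∈ e ∧ e ∉ H ∧ ¬ e ⊆ Sᶜ)).card : ℝ) ≤ D)
    (hsmall : D < (r : ℝ) ^ (k - 1)) :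
    ∃ M ⊆ H, IsMatching M ∧ M.card = t ∧ ∀ e ∈ M, (e ∩ S).card = 2 := by
  have key : ∀ q, q ≤ t → ∃ M ⊆ H, IsMatching M ∧ M.card = q ∧ ∀ e ∈ M, (e ∩ S).card = 2 := by
    intro q
    induction q with
    | zero =>
      intro _
      refine ⟨∅, empty_subset _, ?_, card_empty, fun e he => absurd he (notMem_empty e)⟩
      rw [IsMatching, coe_empty]
      exact Set.pairwiseDisjoint_empty
    | succ q ih =>
      intro hq
      obtain ⟨M, hMH, hM, hMc, hM2⟩ := ih (by omega)
      obtain ⟨e, he, he2, hed⟩ := X11_step hk hH hS hW hD hsmall hMH hM (by omega) hM2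
      have heM : e ∉ M := by
        intro h
        have h1 := disjoint_self_iff_empty e |>.1 (hed e h)
        rw [h1] at he2
        simp at he2
      refine ⟨insert e M, insert_subset he hMH, ?_, by rw [card_insert_of_notMem heM, hMc], ?_⟩
      · rw [IsMatching, coe_insert]
        apply Set.PairwiseDisjoint.insert hM
        intro f hf _
        exact hed f hf
      · intro f hf
        rcases mem_insert.1 hf with rfl | hf
        · exact he2
        · exact hM2 f hf
  exact key t le_rfl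

end Pool.Agent.Lib.H3MT
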