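import Pool.Agent.Lib.H3MT.X10
import Pool.Agent.Lib.H3MT.X11

namespace Pool.Agent.Lib.H3MT

open Finset

variable {V : Type*} [Fintype V] [DecidableEq V]

/-- the number of vertices of `X` covered by a matching is the sum over its edges -/
theorem X19_card {M : Finset (Finset V)} (hM : IsMatching M) (X : Finset V) {c : ℕ}
    (h : ∀ e ∈ M, (e ∩ X).card = c) : (X ∩ M.biUnion id).card = c * M.card := by
  have h1 : X ∩ M.biUnion id = M.biUnion (fun e => e ∩ X) := by
    ext x
    simp only [mem_inter, mem_biUnion, id]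
    constructor
    · rintro ⟨hx, e, he, hxe⟩
      exact ⟨e, he, hxe, hx⟩
    · rintro ⟨e, he, hxe, hx⟩
      exact ⟨hx, e, he, hxe⟩
  rw [h1, card_biUnion, sum_congr rfl h, sum_const, smul_eq_mul, Nat.mul_comm]
  intro e he f hf hne
  exact Disjoint.mono inter_subset_left inter_subset_left (hM he hf hne)

/-- **X19.** Balancing the partition `(S, Sᶜ)` by a small matching. -/
theorem X19_balance {k b r p : ℕ} (hk : 3 ≤ k) (hb : 1 ≤ b) (hN : Fintype.card V = k * b)
    {H : Finset (Finset V)} (hH : Uniform k H)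
    (hdeg : ∀ v : V, (((univ : Finset V).powersetCard k).filter (fun e => v ∈ e ∧ e ∉ H)).card + 1 ≤
      ((k - 1) * b).choose (k - 1))
    {S : Finset V} (hp1 : S.card ≤ b + p) (hp2 : b ≤ S.card + p) {D D' : ℝ}
    (hDW : ∀ v ∈ Sᶜ, (lk H v Sᶜ : ℝ) ≤ D) (hsmall : (k : ℝ) ^ 2 * D ≤ (b : ℝ) ^ (k - 1))
    (hD' : ∀ v ∈ Sᶜ, ((((univ : Finset V).powersetCard k).filter
      (fun e => v ∈ e ∧ e ∉ H ∧ ¬ e ⊆ Sᶜ)).card : ℝ) ≤ D')
    (hsmall' : D' < (r : ℝ) ^ (k - 1)) (hr1 : 2 * r + p ≤ b)
    (hr2 : k * r + (k + 1) * p ≤ (k - 1) * b) :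
    ∃ M ⊆ H, IsMatching M ∧ M.card ≤ p ∧
      (Sᶜ \ M.biUnion id).card = (k - 1) * (S \ M.biUnion id).card := by
  classical
  have hcard : S.card + Sᶜ.card = k * b := by rw [← hN]; exact card_add_card_compl S
  obtain ⟨n, rfl⟩ : ∃ n, k = n + 1 := ⟨k - 1, by omega⟩
  simp only [Nat.add_sub_cancel] at *
  have hkb : (n + 1) * b = n * b + b := by ring
  by_cases hcase : S.card ≤ b
  · obtain ⟨s, hs⟩ : ∃ s, b = S.card + s := ⟨b - S.card, by omega⟩
    obtain ⟨M, hMH, hM, hMc, hMW⟩ := X10_matchW (s := s) (by omega) hb hN hH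
      (by simpa only [Nat.add_sub_cancel] using hdeg) (W := Sᶜ)
      (by rw [Nat.add_sub_cancel]; omega) hDW (by rw [Nat.add_sub_cancel]; exact hsmall)
    refine ⟨M, hMH, hM, by omega, ?_⟩
    have h1 : ∀ e ∈ M, (e ∩ Sᶜ).card = n + 1 := by
      intro e he
      rw [inter_eq_left.2 (hMW e he)]
      exact hH e (hMH he)
    have h2 : ∀ e ∈ M, (e ∩ S).card = 0 := by
      intro e he
      rw [card_eq_zero, ← disjoint_iff_inter_eq_empty]
      exact Disjoint.mono_left (hMW e he) disjoint_compl_left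
    have h3 := X19_card hM Sᶜ h1
    have h4 := X19_card hM S h2
    have h5 := card_sdiff_add_card_inter Sᶜ (M.biUnion id)
    have h6 := card_sdiff_add_card_inter S (M.biUnion id)
    rw [hMc] at h3
    have h7 : (S \ M.biUnion id).card = S.card := by omega
    rw [h7]
    have h8 : n * b = n * S.card + n * s := by rw [hs]; ring
    have h9 : (n + 1) * s = n * s + s := by ring
    omega
  · obtain ⟨t, ht⟩ : ∃ t, S.card = b + t := ⟨S.card - b, by omega⟩
    have htp : t ≤ p := by omega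
    have hSc : Sᶜ.card + t = n * b := by omega
    have hmul : (n + 1) * t ≤ (n + 1) * p := Nat.mul_le_mul_left _ htp
    have hmul2 : (n + 1 + 1) * p = (n + 1) * p + p := by ring
    obtain ⟨M, hMH, hM, hMc, hMW⟩ := X11_matchT (t := t) (r := r) (by omega) hH (S := S)
      (by omega) (by omega) hD' (by rw [Nat.add_sub_cancel]; exact hsmall')
    refine ⟨M, hMH, hM, by omega, ?_⟩
    have h1 : ∀ e ∈ M, (e ∩ Sᶜ).card = n - 1 := by
      intro e he
      have h2 : (e ∩ S).card + (e ∩ Sᶜ).card = e.card := by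
        rw [← sdiff_eq_inter_compl, add_comm]
        exact card_sdiff_add_card_inter e S
      rw [hMW e he, hH e (hMH he)] at h2
      omega
    have h3 := X19_card hM Sᶜ h1
    have h4 := X19_card hM S hMW
    have h5 := card_sdiff_add_card_inter Sᶜ (M.biUnion id)
    have h6 := card_sdiff_add_card_inter S (M.biUnion id)
    rw [hMc] at h3 h4
    have h7 : (S \ M.biUnion id).card + t = b := by omega
    have h8 : n * b = n * (S \ M.biUnion id).card + n * t := by rw [← h7]; ring
    have h9 : (n - 1) * t + t = n * t := by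
      obtain ⟨n', rfl⟩ : ∃ n', n = n' + 1 := ⟨n - 1, by omega⟩
      rw [Nat.add_sub_cancel]; ring
    omega

end Pool.Agent.Lib.H3MT
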