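import Pool.Agent.Lib.H3MT.X2

namespace Pool.Agent.Lib.H3MT

open Finset

variable {V : Type*} [Fintype V] [DecidableEq V]

/-- **X3.** The degree condition in terms of the non-edges at `v`.
Proof: the edges and the non-edges at `v` together are the `C(N-1, k-1)` `k`-sets containing `v`
(`filter_card_add_filter_neg_card_eq_card`; `H ⊆ univ.powersetCard k`), `N - N/k = (k-1) b` and
`C((k-1) b, k-1) ≤ C(N-1, k-1)`. -/
theorem X3_nonedges {k b : ℕ} (hk : 1 ≤ k) (hb : 1 ≤ b) (hN : Fintype.card V = k * b)
    {H : Finset (Finset V)} (hH : Uniform k H) {v : V}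
    (hv : d0 k (Fintype.card V) + 1 ≤ deg H v) :
    (((univ : Finset V).powersetCard k).filter (fun e => v ∈ e ∧ e ∉ H)).card + 1 ≤
      ((k - 1) * b).choose (k - 1) := by
  have h1 : (((univ : Finset V).powersetCard k).filter (fun e => v ∈ e)).card =
      (Fintype.card V - 1).choose (k - 1) := by
    rw [X2_one hk univ (mem_univ v), card_univ]
  have h2 : deg H v + (((univ : Finset V).powersetCard k).filter (fun e => v ∈ e ∧ e ∉ H)).card =
      (Fintype.card V - 1).choose (k - 1) := by
    rw [← h1, ← card_filter_add_card_filter_not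
      (s := ((univ : Finset V).powersetCard k).filter (fun e => v ∈ e)) (fun e => e ∈ H)]
    congr 1
    · unfold deg
      congr 1
      ext e
      simp only [mem_filter, mem_powersetCard]
      constructor
      · rintro ⟨h1, h2⟩
        exact ⟨⟨⟨subset_univ _, hH e h1⟩, h2⟩, h1⟩
      · rintro ⟨⟨⟨-, -⟩, h2⟩, h1⟩
        exact ⟨h1, h2⟩
    · congr 1
      ext e
      simp only [mem_filter]
      constructor
      · rintro ⟨h1, h2, h3⟩
        exact ⟨⟨h1, h2⟩, h3⟩
      · rintro ⟨⟨h1, h2⟩, h3⟩
        exact ⟨h1, h2, h3⟩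
  have h3 : Fintype.card V - Fintype.card V / k = (k - 1) * b := by
    rw [hN, Nat.mul_div_cancel_left _ (by omega), Nat.sub_mul, one_mul]
  unfold d0 at hv
  rw [h3] at hv
  have h4 : ((k - 1) * b).choose (k - 1) ≤ (Fintype.card V - 1).choose (k - 1) := by
    apply Nat.choose_le_choose
    rw [hN, Nat.sub_mul, one_mul]
    omega
  omega

end Pool.Agent.Lib.H3MT
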