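import Pool.Agent.Lib.H3MT.X4Aux

namespace Pool.Agent.Lib.H3MT

open Finset

variable {V : Type*} [Fintype V] [DecidableEq V]

/-- **X4.** Few sets of type `(1, k-1)` are missing.  (`W0 = S0ᶜ`, `|W0| = (k-1) b`.)
Proof: sum the hypothesis `hdeg` over `v ∈ W0` and count the pairs (v, non-edge e at v): a
non-edge inside `W0` is counted `k` times, a non-edge of type `(1, k-1)` is counted `k - 1 ≥ 1`
times. The number `x` of non-edges inside `W0` is `C(|W0|, k) - #(edges inside W0)` and
`k C(|W0|, k) = |W0| C(|W0|-1, k-1)`.  So the number `y` of missing type `(1, k-1)` sets satisfies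
`y ≤ |W0| C(|W0|, k-1) - k x ≤ |W0| (C(|W0|, k-1) - C(|W0|-1, k-1)) + k ε N^k
  = |W0| C(|W0|-1, k-2) + k ε N^k ≤ N^(k-1) + k ε N^k ≤ (k+1) ε N^k`. -/
theorem X4_missing {k b : ℕ} (hk : 2 ≤ k) (hN : Fintype.card V = k * b)
    {H : Finset (Finset V)} (hH : Uniform k H)
    (hdeg : ∀ v : V, (((univ : Finset V).powersetCard k).filter (fun e => v ∈ e ∧ e ∉ H)).card + 1 ≤
      ((k - 1) * b).choose (k - 1))
    {S0 : Finset V} (hS0 : S0.card = b) {ε : ℝ} (hε : 1 ≤ ε * (Fintype.card V : ℝ))
    (hin : ((H.filter (fun e => Disjoint e S0)).card : ℝ) ≤ ε * (Fintype.card V : ℝ) ^ k) :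
    (((tp k S0 S0ᶜ).filter (fun e => e ∉ H)).card : ℝ) ≤
      (k + 1) * ε * (Fintype.card V : ℝ) ^ k := by
  have hcompl : S0ᶜ.card = (k - 1) * b := by
    rw [card_compl, hS0, hN, Nat.sub_mul, one_mul]
  set m := (k - 1) * b with hm
  set A := ((univ : Finset V).powersetCard k).filter (fun e => e ∉ H) with hA
  set Y := (tp k S0 S0ᶜ).filter (fun e => e ∉ H) with hY
  set X := (S0ᶜ.powersetCard k).filter (fun e => e ∉ H) with hX
  have hb : 1 ≤ b := by
    by_contra h
    have : b = 0 := by omega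
    rw [this, mul_zero] at hN
    rw [hN] at hε
    norm_num at hε
  have hm1 : 1 ≤ m := by
    rw [hm]
    exact Nat.mul_pos (by omega) hb
  -- double counting
  have h1 : ∑ v ∈ S0ᶜ, (A.filter (fun e => v ∈ e)).card ≤ m * m.choose (k - 1) := by
    rw [← hcompl, ← smul_eq_mul, ← sum_const]
    apply sum_le_sum
    intro v _
    have h2 := hdeg v
    have h3 : A.filter (fun e => v ∈ e) =
        ((univ : Finset V).powersetCard k).filter (fun e => v ∈ e ∧ e ∉ H) := by
      rw [hA, filter_filter]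
      congr 1
      ext e
      exact and_comm
    rw [h3, hcompl]
    omega
  have hXY : Disjoint X Y := by
    rw [disjoint_left]
    intro e he hf
    rw [hX, mem_filter, mem_powersetCard] at he
    rw [hY, mem_filter, mem_tp] at hf
    have : e ∩ S0 = ∅ := by
      rw [← disjoint_iff_inter_eq_empty, disjoint_left]
      intro x hx
      exact mem_compl.1 (he.1.1 hx)
    have h3 := hf.1.2.2
    rw [this, card_empty] at h3
    omega
  have h2 : k * X.card + Y.card ≤ ∑ e ∈ A, (e ∩ S0ᶜ).card := by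
    have hsub : X ∪ Y ⊆ A := by
      intro e he
      rw [mem_union] at he
      rw [hA, mem_filter, mem_powersetCard]
      rcases he with he | he
      · rw [hX, mem_filter, mem_powersetCard] at he
        exact ⟨⟨subset_univ _, he.1.2⟩, he.2⟩
      · rw [hY, mem_filter, mem_tp] at he
        exact ⟨⟨subset_univ _, he.1.2.1⟩, he.2⟩
    calc k * X.card + Y.card = ∑ _e ∈ X, k + ∑ _e ∈ Y, 1 := by
          rw [sum_const, smul_eq_mul, mul_comm, sum_const, smul_eq_mul, mul_one]
      _ ≤ ∑ e ∈ X, (e ∩ S0ᶜ).card + ∑ e ∈ Y, (e ∩ S0ᶜ).card := by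
          apply Nat.add_le_add
          · apply sum_le_sum
            intro e he
            rw [hX, mem_filter, mem_powersetCard] at he
            rw [inter_eq_left.2 he.1.1, he.1.2]
          · apply sum_le_sum
            intro e he
            rw [hY, mem_filter] at he
            rw [tp_card_inter disjoint_compl_right he.1]
            omega
      _ = ∑ e ∈ X ∪ Y, (e ∩ S0ᶜ).card := (sum_union hXY).symm
      _ ≤ ∑ e ∈ A, (e ∩ S0ᶜ).card := sum_le_sum_of_subset hsub
  rw [← X4a_double] at h2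
  have h3 := h2.trans h1
  -- the number of non-edges inside the complement
  have h4 : m.choose k ≤ X.card + (H.filter (fun e => Disjoint e S0)).card := by
    rw [← hcompl, ← card_powersetCard, ← card_filter_add_card_filter_not
      (s := S0ᶜ.powersetCard k) (fun e => e ∉ H)]
    apply Nat.add_le_add_left
    apply card_le_card
    intro e he
    rw [mem_filter, mem_powersetCard, not_not] at he
    rw [mem_filter]
    refine ⟨he.2, ?_⟩
    rw [disjoint_left]
    intro x hx
    exact mem_compl.1 (he.1.1 hx)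
  have h5 : m * (m - 1).choose (k - 1) = k * m.choose k := by
    obtain ⟨m', hm'⟩ : ∃ m', m = m' + 1 := ⟨m - 1, by omega⟩
    obtain ⟨k', hk'⟩ : ∃ k', k = k' + 1 := ⟨k - 1, by omega⟩
    rw [hm', hk', Nat.add_sub_cancel, Nat.add_sub_cancel, Nat.add_one_mul_choose_eq, mul_comm]
  have h6 : m.choose (k - 1) = (m - 1).choose (k - 2) + (m - 1).choose (k - 1) := by
    obtain ⟨m', hm'⟩ : ∃ m', m = m' + 1 := ⟨m - 1, by omega⟩
    obtain ⟨k', hk'⟩ : ∃ k', k = k' + 2 := ⟨k - 2, by omega⟩
    rw [hm', hk']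
    have e1 : k' + 2 - 1 = k' + 1 := by omega
    have e2 : k' + 2 - 2 = k' := by omega
    rw [e1, e2, Nat.add_sub_cancel, Nat.choose_succ_succ]
  have h7 : m * (m - 1).choose (k - 2) ≤ Fintype.card V ^ (k - 1) := by
    have hmN : m ≤ Fintype.card V := by
      rw [hN, hm]
      exact Nat.mul_le_mul_right _ (by omega)
    calc m * (m - 1).choose (k - 2) ≤ Fintype.card V * Fintype.card V ^ (k - 2) := by
          apply Nat.mul_le_mul hmN
          refine (Nat.choose_le_pow _ _).trans ?_
          exact Nat.pow_le_pow_left (by omega) _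
      _ = Fintype.card V ^ (k - 1) := by
          rw [← pow_succ']
          congr 1
          omega
  rw [h6, mul_add, h5] at h3
  -- into the reals
  set I := (H.filter (fun e => Disjoint e S0)).card with hI
  set N := Fintype.card V with hNN
  have h8 : k * X.card + Y.card ≤ N ^ (k - 1) + k * (X.card + I) := by
    refine h3.trans (Nat.add_le_add h7 (Nat.mul_le_mul_left _ h4))
  have h9 : Y.card ≤ N ^ (k - 1) + k * I := by
    rw [mul_add] at h8
    omega
  have h10 : (Y.card : ℝ) ≤ (N : ℝ) ^ (k - 1) + k * (I : ℝ) := by exact_mod_cast h9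
  have hpow : (N : ℝ) ^ k = (N : ℝ) * (N : ℝ) ^ (k - 1) := by
    rw [← pow_succ']
    congr 1
    omega
  have h11 : (N : ℝ) ^ (k - 1) ≤ ε * (N : ℝ) ^ k := by
    rw [hpow, ← mul_assoc]
    have : (0 : ℝ) ≤ (N : ℝ) ^ (k - 1) := by positivity
    nlinarith
  have h12 : (k : ℝ) * (I : ℝ) ≤ k * (ε * (N : ℝ) ^ k) := by gcongr
  calc (Y.card : ℝ) ≤ (N : ℝ) ^ (k - 1) + k * (I : ℝ) := h10
    _ ≤ ε * (N : ℝ) ^ k + k * (ε * (N : ℝ) ^ k) := add_le_add h11 h12
    _ = (k + 1) * ε * (N : ℝ) ^ k := by ring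

end Pool.Agent.Lib.H3MT
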