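import Pool.Agent.Lib.H3MT.X4Aux

namespace Pool.Agent.Lib.H3MT

open Finset

variable {V : Type*} [Fintype V] [DecidableEq V]

/-- **X5.** Few vertices outside `S0` have many edges inside `S0ᶜ`.
Proof: for `v ∈ S0ᶜ` the edges counted by `lk H v S0ᶜ` are the edges containing `v` and disjoint
from `S0`; summing over the vertices of the set `Z` on the left, each such edge is counted at most
`k` times: `|Z| γ N^(k-1) ≤ k #(edges disjoint from S0) ≤ k ε N^k`; divide by `N^(k-1) > 0`. -/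
theorem X5_large {k : ℕ} (hk : 1 ≤ k) (hN : 0 < Fintype.card V)
    {H : Finset (Finset V)} (hH : Uniform k H) {S0 : Finset V} {ε γ : ℝ}
    (hin : ((H.filter (fun e => Disjoint e S0)).card : ℝ) ≤ ε * (Fintype.card V : ℝ) ^ k) :
    γ * ((S0ᶜ.filter (fun v => γ * (Fintype.card V : ℝ) ^ (k - 1) ≤ (lk H v S0ᶜ : ℝ))).card : ℝ) ≤
      k * ε * (Fintype.card V : ℝ) := by
  set Z := S0ᶜ.filter (fun v => γ * (Fintype.card V : ℝ) ^ (k - 1) ≤ (lk H v S0ᶜ : ℝ)) with hZ
  set E := H.filter (fun e => Disjoint e S0) with hE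
  have h1 : ∀ v ∈ Z, lk H v S0ᶜ ≤ (E.filter (fun e => v ∈ e)).card := by
    intro v hv
    have hvS : v ∉ S0 := by
      rw [hZ, mem_filter, mem_compl] at hv
      exact hv.1
    unfold lk
    apply card_le_card
    intro e he
    rw [mem_filter] at he
    rw [mem_filter, hE, mem_filter]
    refine ⟨⟨he.1, ?_⟩, he.2.1⟩
    rw [disjoint_left]
    intro x hx hxS
    by_cases hxv : x = v
    · rw [hxv] at hxS
      exact hvS hxS
    · exact (mem_compl.1 (he.2.2 (mem_erase.2 ⟨hxv, hx⟩))) hxS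
  have h2 : ∑ v ∈ Z, lk H v S0ᶜ ≤ k * E.card := by
    refine (sum_le_sum h1).trans ?_
    rw [X4a_double]
    calc ∑ e ∈ E, (e ∩ Z).card ≤ ∑ _e ∈ E, k := by
          apply sum_le_sum
          intro e he
          rw [hE, mem_filter] at he
          rw [← hH e he.1]
          exact card_le_card inter_subset_left
      _ = k * E.card := by rw [sum_const, smul_eq_mul, mul_comm]
  have h3 : (Z.card : ℝ) * (γ * (Fintype.card V : ℝ) ^ (k - 1)) ≤ ∑ v ∈ Z, (lk H v S0ᶜ : ℝ) := by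
    rw [← nsmul_eq_mul, ← sum_const]
    apply sum_le_sum
    intro v hv
    rw [hZ, mem_filter] at hv
    exact hv.2
  have h4 : (∑ v ∈ Z, (lk H v S0ᶜ : ℝ)) ≤ k * (E.card : ℝ) := by
    have := h2
    have h5 : ((∑ v ∈ Z, lk H v S0ᶜ : ℕ) : ℝ) ≤ ((k * E.card : ℕ) : ℝ) := by exact_mod_cast this
    push_cast at h5
    exact h5
  have hNp : (0 : ℝ) < (Fintype.card V : ℝ) ^ (k - 1) := by
    have : (0 : ℝ) < Fintype.card V := by exact_mod_cast hN
    positivity
  have hpow : (Fintype.card V : ℝ) ^ k = (Fintype.card V : ℝ) * (Fintype.card V : ℝ) ^ (k - 1) := by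
    rw [← pow_succ']
    congr 1
    omega
  have h6 : (γ * (Z.card : ℝ)) * (Fintype.card V : ℝ) ^ (k - 1) ≤
      (k * ε * (Fintype.card V : ℝ)) * (Fintype.card V : ℝ) ^ (k - 1) := by
    calc (γ * (Z.card : ℝ)) * (Fintype.card V : ℝ) ^ (k - 1) =
        (Z.card : ℝ) * (γ * (Fintype.card V : ℝ) ^ (k - 1)) := by ring
      _ ≤ k * (E.card : ℝ) := h3.trans h4
      _ ≤ k * (ε * (Fintype.card V : ℝ) ^ k) := by gcongr
      _ = (k * ε * (Fintype.card V : ℝ)) * (Fintype.card V : ℝ) ^ (k - 1) := by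
        rw [hpow]; ring
  exact le_of_mul_le_mul_right h6 hNp

end Pool.Agent.Lib.H3MT
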