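import Pool.Agent.Lib.H3MT.X4Aux

namespace Pool.Agent.Lib.H3MT

open Finset

variable {V : Type*} [Fintype V] [DecidableEq V]

theorem X6_card {k : ℕ} (hk : 1 ≤ k) {S0 : Finset V} {v : V} (hv : v ∈ S0) :
    S0ᶜ.card.choose (k - 1) ≤ ((tp k S0 S0ᶜ).filter (fun e => v ∈ e)).card := by
  rw [← card_powersetCard]
  apply card_le_card_of_injOn (fun T => insert v T)
  · intro T hT
    rw [mem_coe, mem_powersetCard] at hT
    rw [mem_coe, mem_filter, mem_tp]
    have hvT : v ∉ T := fun h => (mem_compl.1 (hT.1 h)) hv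
    refine ⟨⟨?_, ?_, ?_⟩, mem_insert_self _ _⟩
    · rw [union_compl]
      exact subset_univ _
    · rw [card_insert_of_notMem hvT, hT.2]
      omega
    · have : insert v T ∩ S0 = {v} := by
        ext x
        rw [mem_inter, mem_insert, mem_singleton]
        constructor
        · rintro ⟨h | h, hx⟩
          · exact h
          · exact absurd hx (mem_compl.1 (hT.1 h))
        · rintro rfl
          exact ⟨Or.inl rfl, hv⟩
      rw [this, card_singleton]
  · intro T hT T' hT' h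
    rw [mem_coe, mem_powersetCard] at hT hT'
    have hvT : v ∉ T := fun h => (mem_compl.1 (hT.1 h)) hv
    have hvT' : v ∉ T' := fun h => (mem_compl.1 (hT'.1 h)) hv
    have := congrArg (fun s => s.erase v) h
    simp only at this
    rwa [erase_insert hvT, erase_insert hvT'] at this

theorem X6_split {k : ℕ} (H : Finset (Finset V)) {S0 : Finset V} {v : V} (hv : v ∈ S0) :
    ((tp k S0 S0ᶜ).filter (fun e => v ∈ e)).card ≤
      lk H v S0ᶜ + (((tp k S0 S0ᶜ).filter (fun e => e ∉ H)).filter (fun e => v ∈ e)).card := by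
  unfold lk
  rw [← card_filter_add_card_filter_not (s := (tp k S0 S0ᶜ).filter (fun e => v ∈ e)) (fun e => e ∈ H)]
  apply Nat.add_le_add
  · apply card_le_card
    intro e he
    rw [mem_filter, mem_filter, mem_tp] at he
    rw [mem_filter]
    obtain ⟨⟨⟨h1, h2, h3⟩, h4⟩, h5⟩ := he
    refine ⟨h5, h4, ?_⟩
    intro x hx
    rw [mem_erase] at hx
    rw [mem_compl]
    intro hxS
    rw [card_eq_one] at h3
    obtain ⟨y, hy⟩ := h3
    have hxy : x ∈ ({y} : Finset V) := hy ▸ mem_inter.2 ⟨hx.2, hxS⟩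
    have hvy : v ∈ ({y} : Finset V) := hy ▸ mem_inter.2 ⟨h4, hv⟩
    rw [mem_singleton] at hxy hvy
    exact hx.1 (hxy.trans hvy.symm)
  · apply card_le_card
    intro e he
    rw [mem_filter, mem_filter] at he
    rw [mem_filter, mem_filter]
    exact ⟨⟨he.1.1, he.2⟩, he.1.2⟩

/-- **X6.** Few vertices of `S0` have a small link in `S0ᶜ`.
Proof: for `v ∈ S0` the sets of type `(1, k-1)` containing `v` are the `C((k-1) b, k-1)` sets
`insert v T`, `T ⊆ S0ᶜ`, `|T| = k-1`; those which are edges are counted by `lk H v S0ᶜ`.  So each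
vertex of the set `Z` on the left is in at least `C((k-1) b, k-1) - γ N^(k-1) ≥ γ N^(k-1)` missing
sets of type `(1, k-1)`, and each such set contains exactly one vertex of `S0`. -/
theorem X6_small {k b : ℕ} (hk : 2 ≤ k) (hN : Fintype.card V = k * b) (hb : 1 ≤ b)
    {H : Finset (Finset V)} (hH : Uniform k H) {S0 : Finset V} (hS0 : S0.card = b) {δ γ : ℝ}
    (hγ : 2 * γ * (Fintype.card V : ℝ) ^ (k - 1) ≤ (((k - 1) * b).choose (k - 1) : ℕ))
    (hmis : (((tp k S0 S0ᶜ).filter (fun e => e ∉ H)).card : ℝ) ≤ δ * (Fintype.card V : ℝ) ^ k) :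
    γ * ((S0.filter (fun v => (lk H v S0ᶜ : ℝ) < γ * (Fintype.card V : ℝ) ^ (k - 1))).card : ℝ) ≤
      δ * (Fintype.card V : ℝ) := by
  set Z := S0.filter (fun v => (lk H v S0ᶜ : ℝ) < γ * (Fintype.card V : ℝ) ^ (k - 1)) with hZ
  set E := (tp k S0 S0ᶜ).filter (fun e => e ∉ H) with hE
  have hcompl : S0ᶜ.card = (k - 1) * b := by
    rw [card_compl, hS0, hN, Nat.sub_mul, one_mul]
  have h1 : ∀ v ∈ Z, γ * (Fintype.card V : ℝ) ^ (k - 1) ≤ ((E.filter (fun e => v ∈ e)).card : ℝ) := by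
    intro v hv
    rw [hZ, mem_filter] at hv
    have h2 := (X6_card (k := k) (by omega) hv.1).trans (X6_split (k := k) H hv.1)
    rw [hcompl] at h2
    have h3 : ((((k - 1) * b).choose (k - 1) : ℕ) : ℝ) ≤ (lk H v S0ᶜ : ℝ) +
        ((E.filter (fun e => v ∈ e)).card : ℝ) := by exact_mod_cast h2
    linarith [hv.2]
  have h2 : ∑ v ∈ Z, (E.filter (fun e => v ∈ e)).card ≤ E.card := by
    rw [X4a_double, card_eq_sum_ones]
    apply sum_le_sum
    intro e he
    rw [hE, mem_filter, mem_tp] at he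
    rw [← he.1.2.2]
    exact card_le_card (inter_subset_inter_left (filter_subset _ _))
  have h3 : (Z.card : ℝ) * (γ * (Fintype.card V : ℝ) ^ (k - 1)) ≤
      ∑ v ∈ Z, ((E.filter (fun e => v ∈ e)).card : ℝ) := by
    rw [← nsmul_eq_mul, ← sum_const]
    exact sum_le_sum h1
  have h4 : (∑ v ∈ Z, ((E.filter (fun e => v ∈ e)).card : ℝ)) ≤ (E.card : ℝ) := by
    exact_mod_cast h2
  have hNp : (0 : ℝ) < (Fintype.card V : ℝ) ^ (k - 1) := by
    have : 0 < Fintype.card V := by
      rw [hN]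
      exact Nat.mul_pos (by omega) hb
    have : (0 : ℝ) < Fintype.card V := by exact_mod_cast this
    positivity
  have hpow : (Fintype.card V : ℝ) ^ k = (Fintype.card V : ℝ) * (Fintype.card V : ℝ) ^ (k - 1) := by
    rw [← pow_succ']
    congr 1
    omega
  have h6 : (γ * (Z.card : ℝ)) * (Fintype.card V : ℝ) ^ (k - 1) ≤
      (δ * (Fintype.card V : ℝ)) * (Fintype.card V : ℝ) ^ (k - 1) := by
    calc (γ * (Z.card : ℝ)) * (Fintype.card V : ℝ) ^ (k - 1) =
        (Z.card : ℝ) * (γ * (Fintype.card V : ℝ) ^ (k - 1)) := by ring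
      _ ≤ (E.card : ℝ) := h3.trans h4
      _ ≤ δ * (Fintype.card V : ℝ) ^ k := hmis
      _ = (δ * (Fintype.card V : ℝ)) * (Fintype.card V : ℝ) ^ (k - 1) := by
        rw [hpow]; ring
  exact le_of_mul_le_mul_right h6 hNp

end Pool.Agent.Lib.H3MT
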