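import Pool.Agent.Lib.H3MT.X4Aux

namespace Pool.Agent.Lib.H3MT

open Finset

variable {V : Type*} [Fintype V] [DecidableEq V]

/-- **X7.** Changing the ground set of a link.
Proof: an edge counted by `lk H v B'` and not by `lk H v B` contains `v` and some other vertex
`u ∈ B' \ B`; for each `u ≠ v` at most `N^(k-2)` `k`-sets contain both
(`e ↦ (e.erase u).erase v` is injective into the `(k-2)`-sets). -/
theorem X7_link {k : ℕ} (hk : 2 ≤ k) {H : Finset (Finset V)} (hH : Uniform k H) (v : V)
    (B B' : Finset V) :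
    lk H v B' ≤ lk H v B + (B' \ B).card * Fintype.card V ^ (k - 2) := by
  have hsub : H.filter (fun e => v ∈ e ∧ e.erase v ⊆ B') ⊆
      H.filter (fun e => v ∈ e ∧ e.erase v ⊆ B) ∪
        ((B' \ B).erase v).biUnion (fun u => H.filter (fun e => u ∈ e ∧ v ∈ e)) := by
    intro e he
    rw [mem_filter] at he
    rw [mem_union, mem_filter, mem_biUnion]
    by_cases h : e.erase v ⊆ B
    · exact Or.inl ⟨he.1, he.2.1, h⟩
    · right
      rw [not_subset] at h
      obtain ⟨u, hu, huB⟩ := h
      refine ⟨u, ?_, ?_⟩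
      · rw [mem_erase, mem_sdiff]
        exact ⟨(mem_erase.1 hu).1, he.2.2 hu, huB⟩
      · rw [mem_filter]
        exact ⟨he.1, (mem_erase.1 hu).2, he.2.1⟩
  unfold lk
  refine (card_le_card hsub).trans ((card_union_le _ _).trans ?_)
  refine Nat.add_le_add_left ?_ _
  refine card_biUnion_le.trans ?_
  calc ∑ u ∈ (B' \ B).erase v, (H.filter (fun e => u ∈ e ∧ v ∈ e)).card
      ≤ ∑ _u ∈ (B' \ B).erase v, Fintype.card V ^ (k - 2) := by
        apply sum_le_sum
        intro u hu
        exact X4a_two hH (mem_erase.1 hu).1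
    _ = ((B' \ B).erase v).card * Fintype.card V ^ (k - 2) := by
        rw [sum_const, smul_eq_mul]
    _ ≤ (B' \ B).card * Fintype.card V ^ (k - 2) :=
        Nat.mul_le_mul_right _ (card_le_card (erase_subset _ _))

end Pool.Agent.Lib.H3MT
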