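import Pool.Agent.Lib.H3MT.X4Aux

namespace Pool.Agent.Lib.H3MT

open Finset

variable {V : Type*} [Fintype V] [DecidableEq V]

/-- **X8.** The missing sets of type `(1, k-1)` for two partitions.
Proof: a set of type `(1, k-1)` for `(S, Sᶜ)` which is not of this type for `(S0, S0ᶜ)` contains a
vertex of `(S \ S0) ∪ (S0 \ S)`; a given vertex is in at most `N^(k-1)` `k`-sets. -/
theorem X8_missing {k : ℕ} (hk : 1 ≤ k) (H : Finset (Finset V)) (S0 S : Finset V) :
    ((tp k S Sᶜ).filter (fun e => e ∉ H)).card ≤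
      ((tp k S0 S0ᶜ).filter (fun e => e ∉ H)).card +
        ((S \ S0).card + (S0 \ S).card) * Fintype.card V ^ (k - 1) := by
  have hsub : (tp k S Sᶜ).filter (fun e => e ∉ H) ⊆
      (tp k S0 S0ᶜ).filter (fun e => e ∉ H) ∪
        ((S \ S0) ∪ (S0 \ S)).biUnion
          (fun u => ((univ : Finset V).powersetCard k).filter (fun e => u ∈ e)) := by
    intro e he
    rw [mem_filter, mem_tp] at he
    obtain ⟨⟨h1, h2, h3⟩, h4⟩ := he
    rw [mem_union, mem_filter, mem_tp, mem_biUnion]
    by_cases h : ∃ u ∈ (S \ S0) ∪ (S0 \ S), u ∈ e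
    · right
      obtain ⟨u, hu, hue⟩ := h
      refine ⟨u, hu, ?_⟩
      rw [mem_filter, mem_powersetCard]
      exact ⟨⟨subset_univ _, h2⟩, hue⟩
    · left
      refine ⟨⟨?_, h2, ?_⟩, h4⟩
      · rw [union_compl]
        exact subset_univ _
      · rw [← h3]
        congr 1
        ext x
        rw [mem_inter, mem_inter]
        constructor
        · rintro ⟨hx, hxS⟩
          refine ⟨hx, ?_⟩
          by_contra hxn
          exact h ⟨x, mem_union_right _ (mem_sdiff.2 ⟨hxS, hxn⟩), hx⟩
        · rintro ⟨hx, hxS⟩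
          refine ⟨hx, ?_⟩
          by_contra hxn
          exact h ⟨x, mem_union_left _ (mem_sdiff.2 ⟨hxS, hxn⟩), hx⟩
  refine (card_le_card hsub).trans ((card_union_le _ _).trans ?_)
  refine Nat.add_le_add_left ?_ _
  refine card_biUnion_le.trans ?_
  calc ∑ u ∈ (S \ S0) ∪ (S0 \ S), (((univ : Finset V).powersetCard k).filter (fun e => u ∈ e)).card
      ≤ ∑ _u ∈ (S \ S0) ∪ (S0 \ S), Fintype.card V ^ (k - 1) := by
        apply sum_le_sum
        intro u _
        exact X4a_one (fun e he => (mem_powersetCard.1 he).2) u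
    _ = ((S \ S0) ∪ (S0 \ S)).card * Fintype.card V ^ (k - 1) := by
        rw [sum_const, smul_eq_mul]
    _ ≤ ((S \ S0).card + (S0 \ S).card) * Fintype.card V ^ (k - 1) :=
        Nat.mul_le_mul_right _ (card_union_le _ _)

end Pool.Agent.Lib.H3MT
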