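import Pool.Agent.Lib.H3MT.X0

namespace Pool.Agent.Lib.H3MT

open Finset

variable {V : Type*} [Fintype V] [DecidableEq V]

theorem X9_choose (x s : ℕ) : ∀ j, (x + j).choose (s + 1) ≤ x.choose (s + 1) + j * (x + j) ^ s := by
  intro j
  induction j with
  | zero => simp
  | succ j ih =>
    have h1 : (x + (j + 1)).choose (s + 1) = (x + j).choose s + (x + j).choose (s + 1) := by
      rw [← add_assoc, Nat.choose_succ_succ]
    have h2 : (x + j).choose s ≤ (x + j) ^ s := Nat.choose_le_pow _ _
    have h3 : (x + j) ^ s ≤ (x + (j + 1)) ^ s := Nat.pow_le_pow_left (by omega) s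
    have h4 : j * (x + j) ^ s ≤ j * (x + (j + 1)) ^ s := Nat.mul_le_mul_left j h3
    rw [h1, add_mul, one_mul]
    omega

omit [Fintype V] in
theorem X9_count {k : ℕ} (hk : 1 ≤ k) {W : Finset V} {v : V} (hv : v ∈ W) (T : Finset (Finset V))
    (hT : ∀ e : Finset V, e.card = k → e ⊆ W → v ∈ e → e ∈ T) :
    (W.card - 1).choose (k - 1) ≤ T.card := by
  have h1 : ((W.erase v).powersetCard (k - 1)).card = (W.card - 1).choose (k - 1) := by
    rw [card_powersetCard, card_erase_of_mem hv]
  rw [← h1]
  refine card_le_card_of_injOn (insert v) ?_ ?_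
  · intro f hf
    rw [mem_coe, mem_powersetCard] at hf
    have hvf : v ∉ f := fun h => (notMem_erase v W) (hf.1 h)
    refine hT _ ?_ ?_ (mem_insert_self v f)
    · rw [card_insert_of_notMem hvf, hf.2]; omega
    · exact insert_subset hv (hf.1.trans (erase_subset v W))
  · intro f hf g hg h
    rw [mem_coe, mem_powersetCard] at hf hg
    have hvf : v ∉ f := fun h => (notMem_erase v W) (hf.1 h)
    have hvg : v ∉ g := fun h => (notMem_erase v W) (hg.1 h)
    have := congrArg (fun t => t.erase v) h
    simpa [erase_insert hvf, erase_insert hvg] using this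

/-- **X9.** A vertex of `W` with few edges inside `W` has few non-edges meeting the complement.
Proof: at most `C((k-1) b, k-1)` non-edges contain `v` (hypothesis).  The `k`-subsets of `W`
containing `v` number `C(|W|-1, k-1)`, and those which are edges number `≤ lk H v W`, so at least
`C(|W|-1, k-1) - lk H v W` non-edges at `v` are inside `W`.  Finally
`C((k-1) b, k-1) ≤ C(|W|-1, k-1) + (r+1) N^(k-2)` because `(k-1) b ≤ |W| - 1 + (r+1)`
(monotonicity of the binomial coefficient and `C(x+j, s) ≤ C(x, s) + j (x+j)^(s-1)`; reduce `j` so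
that `x + j = (k-1) b ≤ N`). -/
theorem X9_missW {k b : ℕ} (hk : 2 ≤ k) (hN : Fintype.card V = k * b)
    {H : Finset (Finset V)} {v : V}
    (hdeg : (((univ : Finset V).powersetCard k).filter (fun e => v ∈ e ∧ e ∉ H)).card + 1 ≤
      ((k - 1) * b).choose (k - 1))
    {W : Finset V} (hv : v ∈ W) (r : ℕ) (hW : (k - 1) * b ≤ W.card + r) :
    (((univ : Finset V).powersetCard k).filter (fun e => v ∈ e ∧ e ∉ H ∧ ¬ e ⊆ W)).card ≤
      lk H v W + (r + 1) * Fintype.card V ^ (k - 2) := by
  set A := ((univ : Finset V).powersetCard k).filter (fun e => v ∈ e ∧ e ∉ H) with hA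
  set B := ((univ : Finset V).powersetCard k).filter (fun e => v ∈ e ∧ e ∉ H ∧ ¬ e ⊆ W) with hB
  set D := ((univ : Finset V).powersetCard k).filter (fun e => v ∈ e ∧ e ∉ H ∧ e ⊆ W) with hD
  have h1 : B.card + D.card ≤ A.card := by
    rw [← card_union_of_disjoint]
    · refine card_le_card ?_
      intro e he
      rcases mem_union.1 he with h | h
      · rw [hB, mem_filter] at h
        rw [hA, mem_filter]
        exact ⟨h.1, h.2.1, h.2.2.1⟩
      · rw [hD, mem_filter] at h
        rw [hA, mem_filter]
        exact ⟨h.1, h.2.1, h.2.2.1⟩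
    · rw [disjoint_left]
      intro e h h'
      rw [hB, mem_filter] at h
      rw [hD, mem_filter] at h'
      exact h.2.2.2 h'.2.2.2
  have h2 : (W.card - 1).choose (k - 1) ≤ lk H v W + D.card := by
    have h3 := X9_count (k := k) (by omega) hv
      (H.filter (fun e => v ∈ e ∧ e.erase v ⊆ W) ∪ D) (fun e he heW hve => by
        rw [mem_union, mem_filter, hD, mem_filter, mem_powersetCard]
        by_cases hH : e ∈ H
        · exact Or.inl ⟨hH, hve, (erase_subset v e).trans heW⟩
        · exact Or.inr ⟨⟨subset_univ e, he⟩, hve, hH, heW⟩)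
    exact h3.trans (card_union_le _ _)
  have h3 : ((k - 1) * b).choose (k - 1) ≤
      (W.card - 1).choose (k - 1) + (r + 1) * Fintype.card V ^ (k - 2) := by
    have hWpos : 1 ≤ W.card := card_pos.2 ⟨v, hv⟩
    rcases Nat.le_total ((k - 1) * b) (W.card - 1) with h | h
    · exact (Nat.choose_le_choose (k - 1) h).trans (Nat.le_add_right _ _)
    · obtain ⟨j, hj⟩ := Nat.exists_eq_add_of_le h
      have hj1 : j ≤ r + 1 := by omega
      have h4 := X9_choose (W.card - 1) (k - 2) j
      have h5 : k - 2 + 1 = k - 1 := by omega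
      rw [h5, ← hj] at h4
      refine h4.trans (Nat.add_le_add_left (Nat.mul_le_mul hj1 (Nat.pow_le_pow_left ?_ _)) _)
      rw [hN]
      exact Nat.mul_le_mul_right b (by omega)
  omega

end Pool.Agent.Lib.H3MT
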