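import Pool.Agent.Lib.H3MT.X1
import Pool.Agent.Lib.H3MT.X3
import Pool.Agent.Lib.H3MT.X4
import Pool.Agent.Lib.H3MT.X5
import Pool.Agent.Lib.H3MT.X6
import Pool.Agent.Lib.H3MT.X7
import Pool.Agent.Lib.H3MT.X8
import Pool.Agent.Lib.H3MT.X9
import Pool.Agent.Lib.H3MT.X18
import Pool.Agent.Lib.H3MT.X19

namespace Pool.Agent.Lib.H3MT

open Finset

/-- the constant `g = 1 / (2 (16 k)^k)` -/
theorem X20_const (k : ℕ) (hk : 3 ≤ k) : ∃ g : ℝ, 0 < g ∧ 16 * (k : ℝ) * g ≤ 1 ∧
    ∀ b : ℝ, 0 < b →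
      (k : ℝ) * (2 * g * ((k : ℝ) * b) ^ (k - 1)) < (b / 16) ^ (k - 1) ∧
      (k : ℝ) ^ 2 * (2 * g * ((k : ℝ) * b) ^ (k - 1)) ≤ b ^ (k - 1) ∧
      2 * g * ((k : ℝ) * b) ^ (k - 1) ≤ b ^ (k - 1) := by
  obtain ⟨n, rfl⟩ : ∃ n, k = n + 1 := ⟨k - 1, by omega⟩
  set K : ℝ := ((n + 1 : ℕ) : ℝ) with hK
  have hK1 : (1 : ℝ) ≤ K := by rw [hK]; exact_mod_cast Nat.succ_pos n
  have hK0 : 0 < K := by linarith
  have h16 : K < 16 ^ (n + 1) := by
    rw [hK]
    exact_mod_cast Nat.lt_pow_self (by norm_num : 1 < 16)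
  have hKn : 0 < K ^ n := pow_pos hK0 n
  have hpos : (0 : ℝ) < (16 * K) ^ (n + 1) := pow_pos (by linarith) _
  refine ⟨1 / (2 * (16 * K) ^ (n + 1)), by positivity, ?_, ?_⟩
  · have h1 : (16 * K) ^ 1 ≤ (16 * K) ^ (n + 1) :=
      pow_le_pow_right₀ (by linarith) (by omega)
    rw [pow_one] at h1
    rw [mul_one_div, div_le_one (by positivity)]
    linarith
  · intro b hb
    rw [Nat.add_sub_cancel]
    have hbn : 0 < b ^ n := pow_pos hb n
    have e1 : 2 * (1 / (2 * (16 * K) ^ (n + 1))) * (K * b) ^ n = b ^ n / (K * 16 ^ (n + 1)) := by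
      rw [mul_pow, mul_pow, pow_succ K n]
      field_simp
    refine ⟨?_, ?_, ?_⟩
    · rw [e1, div_pow]
      have e2 : K * (b ^ n / (K * 16 ^ (n + 1))) = b ^ n / 16 ^ n * (1 / 16) := by
        rw [pow_succ]
        field_simp
      rw [e2]
      have : 0 < b ^ n / 16 ^ n := by positivity
      linarith
    · rw [e1]
      have e2 : K ^ 2 * (b ^ n / (K * 16 ^ (n + 1))) = b ^ n * (K / 16 ^ (n + 1)) := by
        field_simp
      rw [e2]
      have : K / 16 ^ (n + 1) ≤ 1 := (div_le_one (by positivity)).2 h16.le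
      nlinarith
    · rw [e1, div_le_iff₀ (by positivity)]
      have : (1 : ℝ) ≤ K * 16 ^ (n + 1) := by
        have : (1 : ℝ) ≤ 16 ^ (n + 1) := one_le_pow₀ (by norm_num)
        nlinarith
      nlinarith

variable {V : Type*} [Fintype V] [DecidableEq V]

/-- the vertices in many missing sets are few -/
theorem X20_markov {k : ℕ} {H : Finset (Finset V)} {A B : Finset V} {D : ℝ} (hD : 0 ≤ D) :
    ((A.filter (fun v => D < (mis k H A B v : ℝ))).card : ℝ) * D ≤
      (((tp k A B).filter (fun e => e ∉ H)).card : ℝ) := by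
  classical
  have h1 : ((A.filter (fun v => D < (mis k H A B v : ℝ))).card : ℝ) * D ≤
      ∑ v ∈ A.filter (fun v => D < (mis k H A B v : ℝ)), (mis k H A B v : ℝ) := by
    rw [← nsmul_eq_mul]
    refine card_nsmul_le_sum _ _ _ ?_
    intro v hv
    exact (mem_filter.1 hv).2.le
  have h2 : ∑ v ∈ A.filter (fun v => D < (mis k H A B v : ℝ)), (mis k H A B v : ℝ) ≤
      ∑ v ∈ A, (mis k H A B v : ℝ) :=
    sum_le_sum_of_subset_of_nonneg (filter_subset _ _) (fun _ _ _ => Nat.cast_nonneg _)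
  have h3 : ∑ v ∈ A, mis k H A B v = ((tp k A B).filter (fun e => e ∉ H)).card := by
    unfold mis
    have h4 : ∀ v ∈ A, ((tp k A B).filter (fun e => v ∈ e ∧ e ∉ H)).card =
        (((tp k A B).filter (fun e => e ∉ H)).filter (fun e => v ∈ e)).card := by
      intro v _
      congr 1
      ext e
      simp only [mem_filter]
      tauto
    rw [sum_congr rfl h4]
    have h6 := sum_card_bipartiteAbove_eq_sum_card_bipartiteBelow (s := A)
      (t := (tp k A B).filter (fun e => e ∉ H)) (fun (v : V) (e : Finset V) => v ∈ e)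
    unfold bipartiteAbove bipartiteBelow at h6
    rw [h6, card_eq_sum_ones]
    refine sum_congr rfl ?_
    intro e he
    have h5 := (mem_tp.1 (mem_filter.1 he).1).2.2
    rw [← h5]
    congr 1
    ext x
    simp only [mem_filter, mem_inter]
    tauto
  have h3' : ∑ v ∈ A, (mis k H A B v : ℝ) = (((tp k A B).filter (fun e => e ∉ H)).card : ℝ) := by
    rw [← h3]; push_cast; rfl
  linarith

/-- a set of type `(1, k-1)` is not inside the complement -/
theorem X20_mis_le {k : ℕ} {H : Finset (Finset V)} (S : Finset V) (v : V) :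
    mis k H S Sᶜ v ≤ (((univ : Finset V).powersetCard k).filter
      (fun e => v ∈ e ∧ e ∉ H ∧ ¬ e ⊆ Sᶜ)).card := by
  refine card_le_card ?_
  intro e he
  obtain ⟨h1, h2, h3⟩ := mem_filter.1 he
  obtain ⟨h4, h5, h6⟩ := mem_tp.1 h1
  refine mem_filter.2 ⟨mem_powersetCard.2 ⟨subset_univ _, h5⟩, h2, h3, ?_⟩
  intro h
  have h7 : e ∩ S = ∅ := disjoint_iff_inter_eq_empty.1 (Disjoint.mono_left h disjoint_compl_left)
  rw [h7, card_empty] at h6
  omega

/-- the extremal case with explicit parameters -/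
theorem X20_main {k b : ℕ} (hk : 3 ≤ k) (hN : Fintype.card V = k * b) {g : ℝ} (hg : 0 < g)
    (hg1 : 16 * (k : ℝ) * g ≤ 1)
    (hg2 : ∀ b : ℝ, 0 < b →
      (k : ℝ) * (2 * g * ((k : ℝ) * b) ^ (k - 1)) < (b / 16) ^ (k - 1) ∧
      (k : ℝ) ^ 2 * (2 * g * ((k : ℝ) * b) ^ (k - 1)) ≤ b ^ (k - 1) ∧
      2 * g * ((k : ℝ) * b) ^ (k - 1) ≤ b ^ (k - 1))
    {H : Finset (Finset V)} (hH : Uniform k H)
    (hdeg : ∀ v : V, d0 k (Fintype.card V) + 1 ≤ deg H v)
    {ρ ε : ℝ} (hρ : ρ = g ^ 2 / (8 * k)) (hε : ε = ρ * g / (2 * k + 1))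
    (hbig : 1 ≤ ε * (Fintype.card V : ℝ)) (hext : Extremal k ε H) : HasPM H := by
  classical
  -- numbers
  have hk3 : (3 : ℝ) ≤ (k : ℝ) := by exact_mod_cast hk
  have hk0 : (0 : ℝ) < (k : ℝ) := by linarith
  have hρ0 : 0 < ρ := by rw [hρ]; positivity
  have hε0 : 0 < ε := by rw [hε]; positivity
  have hgs : g ≤ 1 / 48 := by
    have : 3 * g ≤ (k : ℝ) * g := mul_le_mul_of_nonneg_right hk3 hg.le
    linarith
  have hkρ : 8 * (k : ℝ) * ρ = g ^ 2 := by rw [hρ]; field_simp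
  have hρg : ρ ≤ g / 24 := by
    have h1 : 3 * ρ ≤ (k : ℝ) * ρ := mul_le_mul_of_nonneg_right hk3 hρ0.le
    have h2 : g * g ≤ 1 / 48 * g := mul_le_mul_of_nonneg_right hgs hg.le
    have h3 : g ^ 2 = g * g := by ring
    linarith
  have hεg : (2 * (k : ℝ) + 1) * ε = ρ * g := by rw [hε]; field_simp
  have hNpos : 0 < (Fintype.card V : ℝ) := by
    by_contra h
    push Not at h
    have := mul_nonpos_of_nonneg_of_nonpos hε0.le h
    linarith
  have hNb : (Fintype.card V : ℝ) = (k : ℝ) * (b : ℝ) := by rw [hN]; push_cast; ring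
  have hb0 : 0 < (b : ℝ) := by
    by_contra h
    push Not at h
    have := mul_nonpos_of_nonneg_of_nonpos hk0.le h
    linarith
  have hb : 1 ≤ b := by exact_mod_cast hb0
  -- `ε ≤ 1 / (16 k^2 48)` and so on: `b ≥ 16 k`
  have hbk : 16 * (k : ℝ) ≤ b := by
    have h1 : 16 * (k : ℝ) ^ 2 * ε ≤ 1 := by
      have h2 : 2 * (k : ℝ) * ε ≤ ρ * g := by
        have : (2 * (k : ℝ) + 1) * ε = 2 * (k : ℝ) * ε + ε := by ring
        linarith
      have h3 : 8 * (k : ℝ) * (ρ * g) = g ^ 3 := by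
        calc 8 * (k : ℝ) * (ρ * g) = (8 * (k : ℝ) * ρ) * g := by ring
          _ = g ^ 3 := by rw [hkρ]; ring
      have h4 : g ^ 3 ≤ 1 := pow_le_one₀ hg.le (by linarith)
      have h5 : 16 * (k : ℝ) ^ 2 * ε = 8 * (k : ℝ) * (2 * (k : ℝ) * ε) := by ring
      have h6 : 8 * (k : ℝ) * (2 * (k : ℝ) * ε) ≤ 8 * (k : ℝ) * (ρ * g) :=
        mul_le_mul_of_nonneg_left h2 (by positivity)
      linarith
    have h7 : 1 ≤ ε * ((k : ℝ) * b) := by rw [← hNb]; exact hbig
    have h8 : 16 * (k : ℝ) ^ 2 * ε * 1 ≤ ε * ((k : ℝ) * b) := by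
      rw [mul_one]; exact le_trans h1 h7
    have h9 : (ε * (k : ℝ)) * (16 * (k : ℝ)) ≤ (ε * (k : ℝ)) * b := by linarith
    exact le_of_mul_le_mul_left h9 (by positivity)
  set N : ℝ := (Fintype.card V : ℝ) with hNdef
  have hNge : 1 ≤ ε * N := hbig
  obtain ⟨hc1, hc2, hc3⟩ := hg2 b hb0
  rw [← hNb] at hc1 hc2 hc3
  -- powers of `N`
  set P : ℝ := N ^ (k - 2) with hP
  have hP0 : 0 < P := pow_pos hNpos _
  have hN1 : N ^ (k - 1) = P * N := by
    rw [hP, ← pow_succ]; congr 1; omega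
  have hN2 : N ^ k = P * N * N := by
    rw [hP, ← pow_succ, ← pow_succ]; congr 1; omega
  -- the extremal set
  obtain ⟨S0, hS0c, hS0e⟩ := hext
  have hS0 : S0.card = b := by
    rw [hS0c, hN]; exact Nat.mul_div_cancel_left b (by omega)
  have hnon : ∀ v : V,
      (((univ : Finset V).powersetCard k).filter (fun e => v ∈ e ∧ e ∉ H)).card + 1 ≤
      ((k - 1) * b).choose (k - 1) := fun v => X3_nonedges (by omega) hb hN hH (hdeg v)
  have hchoose : (b : ℝ) ^ (k - 1) ≤ (((k - 1) * b).choose (k - 1) : ℕ) := by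
    exact_mod_cast X1_choose_mul (k - 1) b
  have hmiss0 := X4_missing (by omega) hN hH hnon hS0 hNge hS0e
  rw [← hNdef] at hmiss0
  -- the new partition
  set S : Finset V := univ.filter (fun v => g * N ^ (k - 1) ≤ (lk H v S0ᶜ : ℝ)) with hS
  have hSS0 : S \ S0 = S0ᶜ.filter (fun v => g * N ^ (k - 1) ≤ (lk H v S0ᶜ : ℝ)) := by
    ext v
    simp only [hS, mem_sdiff, mem_filter, mem_univ, true_and, mem_compl]
    tauto
  have hS0S : S0 \ S = S0.filter (fun v => (lk H v S0ᶜ : ℝ) < g * N ^ (k - 1)) := by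
    ext v
    simp only [hS, mem_sdiff, mem_filter, mem_univ, true_and, not_le]
  have hlarge := X5_large (γ := g) (by omega) (Nat.cast_pos.1 hNpos) hH hS0e
  have hsmall := X6_small (γ := g) (δ := (k + 1) * ε) (by omega) hN hb hH hS0
    (le_trans (by rw [← hNdef]; exact hc3) hchoose) hmiss0
  rw [← hNdef, ← hSS0] at hlarge
  rw [← hNdef, ← hS0S] at hsmall
  set p : ℕ := (S \ S0).card + (S0 \ S).card with hp
  have hpρ : (p : ℝ) ≤ ρ * N := by
    have h1 : g * (p : ℝ) ≤ g * (ρ * N) := by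
      rw [hp]; push_cast
      have : (k : ℝ) * ε * N + (k + 1) * ε * N = (2 * (k : ℝ) + 1) * ε * N := by ring
      rw [hεg] at this
      have h2 : g * (((S \ S0).card : ℝ) + ((S0 \ S).card : ℝ)) =
        g * ((S \ S0).card : ℝ) + g * ((S0 \ S).card : ℝ) := by ring
      have h3 : g * (ρ * N) = ρ * g * N := by ring
      linarith
    exact le_of_mul_le_mul_left h1 hg
  have hp0 : (0 : ℝ) ≤ (p : ℝ) := Nat.cast_nonneg _
  have hSb : S.card ≤ b + p := by
    have h1 := card_sdiff_add_card_inter S S0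
    have h2 : (S ∩ S0).card ≤ S0.card := card_le_card inter_subset_right
    omega
  have hbS : b ≤ S.card + p := by
    have h1 := card_sdiff_add_card_inter S0 S
    have h2 : (S0 ∩ S).card ≤ S.card := card_le_card inter_subset_right
    omega
  -- links at the vertices outside `S`
  have hWlt : ∀ v ∈ Sᶜ, (lk H v S0ᶜ : ℝ) < g * N ^ (k - 1) := by
    intro v hv
    by_contra h
    push Not at h
    exact (mem_compl.1 hv) (mem_filter.2 ⟨mem_univ _, h⟩)
  have hcompl : Sᶜ \ S0ᶜ = S0 \ S := by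
    ext v
    simp only [mem_sdiff, mem_compl]
    tauto
  have hlkW : ∀ v ∈ Sᶜ, (lk H v Sᶜ : ℝ) ≤ (g + ρ) * (P * N) := by
    intro v hv
    have h1 := X7_link (k := k) (by omega) hH v S0ᶜ Sᶜ
    rw [hcompl] at h1
    have h2 : (lk H v Sᶜ : ℝ) ≤ (lk H v S0ᶜ : ℝ) + ((S0 \ S).card : ℝ) * P := by
      rw [hP, hNdef]; exact_mod_cast h1
    have h3 := hWlt v hv
    rw [hN1] at h3
    have h4 : ((S0 \ S).card : ℝ) ≤ (p : ℝ) := by rw [hp]; push_cast; linarith [Nat.cast_nonneg (α := ℝ) (S \ S0).card]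
    have h5 : ((S0 \ S).card : ℝ) * P ≤ ρ * N * P :=
      mul_le_mul_of_nonneg_right (le_trans h4 hpρ) hP0.le
    have h6 : (g + ρ) * (P * N) = g * (P * N) + ρ * N * P := by ring
    linarith
  -- the bound `D = 2 g N^(k-1)`
  have hPN : 0 < P * N := mul_pos hP0 hNpos
  have hNg : P ≤ (g / 2) * (P * N) := by
    have h1 : 1 ≤ g / 2 * N := by
      have h2 : ε ≤ g / 2 := by
        have h3 : (2 * (k : ℝ) + 1) * ε = 2 * ((k : ℝ) * ε) + ε := by ring
        have h3' : 0 < (k : ℝ) * ε := by positivity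
        have h4 : ρ * g ≤ 1 / 2 * g := mul_le_mul_of_nonneg_right (by linarith) hg.le
        linarith
      have h5 : ε * N ≤ g / 2 * N := mul_le_mul_of_nonneg_right h2 hNpos.le
      linarith
    have h6 : 1 * P ≤ g / 2 * N * P := mul_le_mul_of_nonneg_right h1 hP0.le
    have h7 : g / 2 * N * P = (g / 2) * (P * N) := by ring
    linarith
  have hnonW : ∀ v ∈ Sᶜ, ((((univ : Finset V).powersetCard k).filter
      (fun e => v ∈ e ∧ e ∉ H ∧ ¬ e ⊆ Sᶜ)).card : ℝ) ≤ 2 * g * N ^ (k - 1) := by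
    intro v hv
    have h1 := X9_missW (by omega) hN (hnon v) hv p (by
      have h2 : S.card + Sᶜ.card = k * b := by rw [← hN]; exact card_add_card_compl S
      obtain ⟨n, rfl⟩ : ∃ n, k = n + 1 := ⟨k - 1, by omega⟩
      rw [Nat.add_sub_cancel]
      have h3 : (n + 1) * b = n * b + b := by ring
      omega)
    have h2 : ((((univ : Finset V).powersetCard k).filter
      (fun e => v ∈ e ∧ e ∉ H ∧ ¬ e ⊆ Sᶜ)).card : ℝ) ≤ (lk H v Sᶜ : ℝ) + ((p : ℝ) + 1) * P := by
      rw [hP, hNdef]; exact_mod_cast h1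
    have h3 := hlkW v hv
    have h4 : (p : ℝ) * P ≤ ρ * N * P := mul_le_mul_of_nonneg_right hpρ hP0.le
    rw [hN1]
    have h5 : ρ * (P * N) ≤ g / 24 * (P * N) := mul_le_mul_of_nonneg_right hρg hPN.le
    have h6 : (g + ρ) * (P * N) = g * (P * N) + ρ * (P * N) := by ring
    have h7 : ((p : ℝ) + 1) * P = p * P + P := by ring
    have h8 : ρ * N * P = ρ * (P * N) := by ring
    have h9 : 0 < g * (P * N) := mul_pos hg hPN
    have h10 : g / 24 * (P * N) = g * (P * N) / 24 := by ring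
    have h11 : g / 2 * (P * N) = g * (P * N) / 2 := by ring
    have h12 : 2 * g * (P * N) = 2 * (g * (P * N)) := by ring
    linarith
  have hlkW' : ∀ v ∈ Sᶜ, (lk H v Sᶜ : ℝ) ≤ 2 * g * N ^ (k - 1) := by
    intro v hv
    have h3 := hlkW v hv
    rw [hN1]
    have h5 : ρ * (P * N) ≤ g / 24 * (P * N) := mul_le_mul_of_nonneg_right hρg hPN.le
    have h6 : (g + ρ) * (P * N) = g * (P * N) + ρ * (P * N) := by ring
    have h9 : 0 < g * (P * N) := mul_pos hg hPN
    have h10 : g / 24 * (P * N) = g * (P * N) / 24 := by ring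
    have h12 : 2 * g * (P * N) = 2 * (g * (P * N)) := by ring
    linarith
  -- the parameter `r`
  set r : ℕ := b / 8 with hr
  have hr8 : 8 * r ≤ b := by rw [hr]; omega
  have hbk' : 16 * k ≤ b := by exact_mod_cast hbk
  have hr16 : b ≤ 16 * r := by rw [hr]; omega
  have hrpow : ((b : ℝ) / 16) ^ (k - 1) ≤ (r : ℝ) ^ (k - 1) := by
    refine pow_le_pow_left₀ (by positivity) ?_ _
    have : (b : ℝ) ≤ 16 * (r : ℝ) := by exact_mod_cast hr16
    linarith
  have hD0 : 0 ≤ 2 * g * N ^ (k - 1) := by rw [hN1]; positivity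
  have hDr : (k : ℝ) * (2 * g * N ^ (k - 1)) < (r : ℝ) ^ (k - 1) := lt_of_lt_of_le hc1 hrpow
  have hDr1 : 2 * g * N ^ (k - 1) < (r : ℝ) ^ (k - 1) := by
    refine lt_of_le_of_lt ?_ hDr
    have : 1 * (2 * g * N ^ (k - 1)) ≤ (k : ℝ) * (2 * g * N ^ (k - 1)) :=
      mul_le_mul_of_nonneg_right (by linarith) hD0
    linarith
  -- `(k+1) p ≤ b / 8`
  have hpb : 8 * ((k + 1) * p) ≤ b := by
    have h1 : (8 : ℝ) * ((k + 1) * p) ≤ b := by
      have h2 : ((k : ℝ) + 1) * p ≤ (2 * (k : ℝ)) * (ρ * N) :=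
        mul_le_mul (by linarith) hpρ hp0 (by linarith)
      have h3 : (2 * (k : ℝ)) * (ρ * N) = g ^ 2 / 4 * N := by
        have : (2 * (k : ℝ)) * (ρ * N) = (8 * (k : ℝ) * ρ) / 4 * N := by ring
        rw [this, hkρ]
      have h4 : g ^ 2 / 4 * N ≤ b / 8 := by
        rw [hNb]
        have h5 : g ^ 2 / 4 * ((k : ℝ) * b) = (16 * (k : ℝ) * g) * g * b / 64 := by ring
        rw [h5]
        have h6 : (16 * (k : ℝ) * g) * g ≤ 1 * g := mul_le_mul_of_nonneg_right hg1 hg.le
        have h7 : (16 * (k : ℝ) * g) * g * b ≤ 1 * g * b := mul_le_mul_of_nonneg_right h6 hb0.le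
        have h8 : g * b ≤ 1 * b := mul_le_mul_of_nonneg_right (by linarith) hb0.le
        linarith
      linarith
    exact_mod_cast h1
  have hpb' : 8 * (k * p) + 8 * p ≤ b := by
    have : 8 * ((k + 1) * p) = 8 * (k * p) + 8 * p := by ring
    omega
  obtain ⟨M₁, hM₁H, hM₁, hM₁c, hbal⟩ := X19_balance (r := r) (p := p) hk hb hN hH hnon hSb hbS
    hlkW' hc2 hnonW hDr1 (by omega) (by
      have h1 : k * r * 8 ≤ k * b := by
        calc k * r * 8 = k * (8 * r) := by ring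
          _ ≤ k * b := Nat.mul_le_mul_left k hr8
      obtain ⟨n, rfl⟩ : ∃ n, k = n + 1 := ⟨k - 1, by omega⟩
      rw [Nat.add_sub_cancel]
      have h3 : (n + 1) * b = n * b + b := by ring
      have h4 : b * 2 ≤ n * b := by
        rw [Nat.mul_comm]; exact Nat.mul_le_mul_right b (by omega)
      have h5 : (n + 1 + 1) * p = (n + 1) * p + p := by ring
      omega)
  set S₁ : Finset V := S \ M₁.biUnion id with hS₁
  set W₁ : Finset V := Sᶜ \ M₁.biUnion id with hW₁
  have hd1 : Disjoint S₁ W₁ := Disjoint.mono sdiff_subset sdiff_subset disjoint_compl_right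
  have hM₁U : (M₁.biUnion id).card ≤ k * p := by
    calc (M₁.biUnion id).card ≤ ∑ e ∈ M₁, (id e).card := card_biUnion_le
      _ = ∑ e ∈ M₁, k := sum_congr rfl (fun e he => hH e (hM₁H he))
      _ = k * M₁.card := by rw [sum_const, smul_eq_mul, Nat.mul_comm]
      _ ≤ k * p := Nat.mul_le_mul_left k hM₁c
  have hmisle : ∀ v, mis k H S₁ W₁ v ≤ mis k H S Sᶜ v := fun v =>
    mis_mono sdiff_subset sdiff_subset disjoint_compl_right v
  set q : ℕ := (S₁.filter (fun v => 2 * g * N ^ (k - 1) < (mis k H S₁ W₁ v : ℝ))).card with hq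
  -- few atypical vertices
  have hq1 : (q : ℝ) * (2 * g * N ^ (k - 1)) ≤ 2 * ρ * N * (P * N) := by
    have h1 := X20_markov (k := k) (H := H) (A := S₁) (B := W₁) hD0
    have h2 : (((tp k S₁ W₁).filter (fun e => e ∉ H)).card : ℝ) ≤
        (((tp k S Sᶜ).filter (fun e => e ∉ H)).card : ℝ) := by
      exact_mod_cast card_le_card (filter_subset_filter _
        (tp_mono sdiff_subset sdiff_subset disjoint_compl_right))
    have h3 := X8_missing (k := k) (by omega) H S0 S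
    have h4 : (((tp k S Sᶜ).filter (fun e => e ∉ H)).card : ℝ) ≤
        (((tp k S0 S0ᶜ).filter (fun e => e ∉ H)).card : ℝ) + (p : ℝ) * (P * N) := by
      rw [← hN1, hNdef]; exact_mod_cast h3
    have h5 : (p : ℝ) * (P * N) ≤ ρ * N * (P * N) := mul_le_mul_of_nonneg_right hpρ hPN.le
    have h6 : ((k : ℝ) + 1) * ε * N ^ k ≤ ρ * N * (P * N) := by
      rw [hN2]
      have h7 : ((k : ℝ) + 1) * ε ≤ ρ := by
        have h8 : ρ * g ≤ ρ * 1 := mul_le_mul_of_nonneg_left (by linarith) hρ0.le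
        have h9 : 0 < (k : ℝ) * ε := by positivity
        have h10 : ((k : ℝ) + 1) * ε = k * ε + ε := by ring
        have h11 : (2 * (k : ℝ) + 1) * ε = 2 * (k * ε) + ε := by ring
        linarith
      have h8 : 0 ≤ P * N * N := by positivity
      have h9 : ((k : ℝ) + 1) * ε * (P * N * N) ≤ ρ * (P * N * N) :=
        mul_le_mul_of_nonneg_right h7 h8
      have h10 : ρ * N * (P * N) = ρ * (P * N * N) := by ring
      linarith
    linarith
  have hqN : (q : ℝ) * (8 * k) ≤ g * N := by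
    have h1 : (q : ℝ) * (2 * g * N ^ (k - 1)) = (q * g) * (2 * (P * N)) := by rw [hN1]; ring
    rw [h1] at hq1
    have h2 : ((q : ℝ) * g) * (2 * (P * N)) ≤ (ρ * N) * (2 * (P * N)) := by linarith
    have h3 : (q : ℝ) * g ≤ ρ * N := le_of_mul_le_mul_right h2 (by positivity)
    have h4 : g * ((q : ℝ) * (8 * k)) ≤ g * (g * N) := by
      calc g * ((q : ℝ) * (8 * k)) = (q * g) * (8 * k) := by ring
        _ ≤ (ρ * N) * (8 * k) := mul_le_mul_of_nonneg_right h3 (by positivity)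
        _ = (8 * k * ρ) * N := by ring
        _ = g * (g * N) := by rw [hkρ]; ring
    exact le_of_mul_le_mul_left h4 hg
  have hqb : 8 * q ≤ b := by
    have h1 : (8 : ℝ) * q ≤ b := by
      have h2 : (k : ℝ) * (8 * q) ≤ k * (g * b) := by
        calc (k : ℝ) * (8 * q) = q * (8 * k) := by ring
          _ ≤ g * N := hqN
          _ = k * (g * b) := by rw [hNb]; ring
      have h3 : (8 : ℝ) * q ≤ g * b := le_of_mul_le_mul_left h2 hk0
      have h4 : g * b ≤ 1 * b := mul_le_mul_of_nonneg_right (by linarith) hb0.le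
      linarith
    exact_mod_cast h1
  obtain ⟨M₂, hM₂H, hM₂, hM₂U⟩ := X18_finish (r := r) (q := q) (D := 2 * g * N ^ (k - 1))
    (by omega) hH hd1 hbal (by
      intro v hv
      have hv' : v ∈ Sᶜ := (mem_sdiff.1 hv).1
      refine le_trans ?_ (hnonW v hv')
      exact_mod_cast (hmisle v).trans (X20_mis_le S v)) le_rfl (by
      intro v hv
      have hvS : v ∈ S := (mem_sdiff.1 hv).1
      have h1 : g * N ^ (k - 1) ≤ (lk H v S0ᶜ : ℝ) := (mem_filter.1 hvS).2
      have h2 := X7_link (k := k) (by omega) hH v W₁ S0ᶜ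
      have h3 : (S0ᶜ \ W₁).card ≤ p + k * p := by
        have h4 : S0ᶜ \ W₁ ⊆ (S \ S0) ∪ M₁.biUnion id := by
          intro x hx
          obtain ⟨hx1, hx2⟩ := mem_sdiff.1 hx
          by_cases hxM : x ∈ M₁.biUnion id
          · exact mem_union_right _ hxM
          · by_cases hxS : x ∈ S
            · exact mem_union_left _ (mem_sdiff.2 ⟨hxS, mem_compl.1 hx1⟩)
            · exact absurd (mem_sdiff.2 ⟨mem_compl.2 hxS, hxM⟩) hx2
        calc (S0ᶜ \ W₁).card ≤ ((S \ S0) ∪ M₁.biUnion id).card := card_le_card h4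
          _ ≤ (S \ S0).card + (M₁.biUnion id).card := card_union_le _ _
          _ ≤ p + k * p := by omega
      have h5 : (lk H v S0ᶜ : ℝ) ≤ (lk H v W₁ : ℝ) + ((S0ᶜ \ W₁).card : ℝ) * P := by
        rw [hP, hNdef]; exact_mod_cast h2
      have h6 : ((S0ᶜ \ W₁).card : ℝ) ≤ (2 * k) * (ρ * N) := by
        have h7 : ((S0ᶜ \ W₁).card : ℝ) ≤ (p : ℝ) + k * p := by exact_mod_cast h3
        have h8 : ((k : ℝ) + 1) * p ≤ (2 * (k : ℝ)) * (ρ * N) :=
          mul_le_mul (by linarith) hpρ hp0 (by linarith)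
        have h9 : ((k : ℝ) + 1) * p = p + k * p := by ring
        linarith
      have h8 : (2 * (k : ℝ)) * (ρ * N) = g ^ 2 / 4 * N := by
        have : (2 * (k : ℝ)) * (ρ * N) = (8 * (k : ℝ) * ρ) / 4 * N := by ring
        rw [this, hkρ]
      have h9 : ((S0ᶜ \ W₁).card : ℝ) * P ≤ g ^ 2 / 4 * N * P := by
        rw [← h8]; exact mul_le_mul_of_nonneg_right h6 hP0.le
      have h10 : (((k - 1) * q * Fintype.card V ^ (k - 2) : ℕ) : ℝ) ≤ g / 8 * (P * N) := by
        have h11 : (((k - 1) * q * Fintype.card V ^ (k - 2) : ℕ) : ℝ) =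
            ((k - 1 : ℕ) : ℝ) * q * P := by
          rw [hP, hNdef]; push_cast; ring
        rw [h11]
        have h12 : ((k - 1 : ℕ) : ℝ) ≤ (k : ℝ) := by exact_mod_cast Nat.sub_le k 1
        have h13 : ((k - 1 : ℕ) : ℝ) * q ≤ g / 8 * N := by
          have h14 : ((k - 1 : ℕ) : ℝ) * q ≤ k * q :=
            mul_le_mul_of_nonneg_right h12 (Nat.cast_nonneg _)
          linarith
        have h15 : ((k - 1 : ℕ) : ℝ) * q * P ≤ g / 8 * N * P :=
          mul_le_mul_of_nonneg_right h13 hP0.le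
        have h16 : g / 8 * N * P = g / 8 * (P * N) := by ring
        linarith
      have h15 : (((k - 1) * q * Fintype.card V ^ (k - 2) : ℕ) : ℝ) < (lk H v W₁ : ℝ) := by
        rw [hN1] at h1
        have h16 : g ^ 2 / 4 * N * P ≤ g / 4 * (P * N) := by
          have h17 : g * g ≤ 1 * g := mul_le_mul_of_nonneg_right (by linarith) hg.le
          have h18 : g * g * (P * N) ≤ 1 * g * (P * N) := mul_le_mul_of_nonneg_right h17 hPN.le
          have h19 : g ^ 2 / 4 * N * P = g * g * (P * N) / 4 := by ring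
          linarith
        have h20 : 0 < g * (P * N) := mul_pos hg hPN
        have h21 : g / 4 * (P * N) = g * (P * N) / 4 := by ring
        have h22 : g / 8 * (P * N) = g * (P * N) / 8 := by ring
        linarith
      exact_mod_cast h15) (by
      have h1 : S.card ≤ S₁.card + (M₁.biUnion id).card := by
        have h2 := card_sdiff_add_card_inter S (M₁.biUnion id)
        have h3 : (S ∩ M₁.biUnion id).card ≤ (M₁.biUnion id).card :=
          card_le_card inter_subset_right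
        rw [← hS₁] at h2
        omega
      omega) hDr
  refine ⟨M₁ ∪ M₂, union_subset hM₁H hM₂H, X18_union hM₁ hM₂ ?_, ?_⟩
  · rw [hM₂U, disjoint_union_right]
    exact ⟨disjoint_sdiff, disjoint_sdiff⟩
  · rw [union_biUnion, hM₂U]
    ext x
    simp only [mem_union, mem_univ, iff_true]
    by_cases hxM : x ∈ M₁.biUnion id
    · exact Or.inl hxM
    · by_cases hxS : x ∈ S
      · exact Or.inr (Or.inl (mem_sdiff.2 ⟨hxS, hxM⟩))
      · exact Or.inr (Or.inr (mem_sdiff.2 ⟨mem_compl.2 hxS, hxM⟩))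

/-- **StatementB5.** -/
theorem X20_final : StatementB5 := by
  intro k hk
  obtain ⟨g, hg, hg1, hg2⟩ := X20_const k hk
  have hk0 : (0 : ℝ) < (k : ℝ) := by exact_mod_cast (by omega : 0 < k)
  set ρ : ℝ := g ^ 2 / (8 * k) with hρ
  set ε : ℝ := ρ * g / (2 * k + 1) with hε
  have hρ0 : 0 < ρ := by rw [hρ]; positivity
  have hε0 : 0 < ε := by rw [hε]; positivity
  refine ⟨ε, hε0, ⌈1 / ε⌉₊, ?_⟩
  intro V _ _ H hN₀ hdvd hH hdeg hext
  obtain ⟨b, hb⟩ := hdvd
  refine X20_main hk hb hg hg1 hg2 hH hdeg hρ hε ?_ hext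
  have h1 : 1 / ε ≤ (Fintype.card V : ℝ) := (Nat.le_ceil _).trans (by exact_mod_cast hN₀)
  rw [div_le_iff₀ hε0] at h1
  linarith

end Pool.Agent.Lib.H3MT
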