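import Pool.Agent.Lib.H3MT.Z6
import Pool.Agent.Lib.H3MT.P3
import Pool.Agent.Lib.H3MT.RFin2
import Pool.Agent.Lib.H3MT.D7
import Pool.Agent.Lib.H3MT.X20

/-! # H3MT: the exact vertex-degree threshold for perfect matchings -/

namespace Pool.Agent.Lib.H3MT

theorem final (k : ℕ) (hk : 3 ≤ k) : ∃ N₀ : ℕ, ∀ n : ℕ, N₀ ≤ n → k ∣ n →
    IsLeast {d : ℕ | ∀ H : Finset (Finset (Fin n)), (∀ e ∈ H, e.card = k) →
      (∀ v, d ≤ (H.filter (fun e => v ∈ e)).card) →
      ∃ M ⊆ H, (M : Set (Finset (Fin n))).PairwiseDisjoint id ∧ M.biUnion id = Finset.univ}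
      ((n - 1).choose (k - 1) - (n - n / k).choose (k - 1) + 1) :=
  final_of FC.statementB2 R.statementB3 AB.statementB4 X20_final k hk

end Pool.Agent.Lib.H3MT
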