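import Pool.Agent.Lib.H3MT.Defs

/-!
# H3MT, part B5 (extremal case): definitions and elementary facts

`lk H v B`: the number of edges of `H` containing `v` whose other vertices lie in `B`.
`tp k A B`: the `k`-sets with one vertex in `A` and the other `k - 1` in `B` (for disjoint `A`, `B`).
-/

namespace Pool.Agent.Lib.H3MT

open Finset

variable {V : Type*} [DecidableEq V]

/-- the number of edges of `H` containing `v` whose other vertices lie in `B` -/
def lk (H : Finset (Finset V)) (v : V) (B : Finset V) : ℕ :=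
  (H.filter (fun e => v ∈ e ∧ e.erase v ⊆ B)).card

/-- the `k`-sets with exactly one vertex in `A` and all the others in `B` -/
def tp (k : ℕ) (A B : Finset V) : Finset (Finset V) :=
  ((A ∪ B).powersetCard k).filter (fun e => (e ∩ A).card = 1)

/-- the sets of type `(1, k-1)` containing `v` which are not edges of `H` -/
def mis (k : ℕ) (H : Finset (Finset V)) (A B : Finset V) (v : V) : ℕ :=
  ((tp k A B).filter (fun e => v ∈ e ∧ e ∉ H)).card

theorem mem_tp {k : ℕ} {A B e : Finset V} :
    e ∈ tp k A B ↔ e ⊆ A ∪ B ∧ e.card = k ∧ (e ∩ A).card = 1 := by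
  unfold tp
  rw [mem_filter, mem_powersetCard, and_assoc]

theorem tp_card_inter {k : ℕ} {A B e : Finset V} (hd : Disjoint A B) (he : e ∈ tp k A B) :
    (e ∩ B).card = k - 1 := by
  obtain ⟨h1, h2, h3⟩ := mem_tp.1 he
  have h4 : e = (e ∩ A) ∪ (e ∩ B) := by
    rw [← inter_union_distrib_left]; exact (inter_eq_left.2 h1).symm
  have h5 : Disjoint (e ∩ A) (e ∩ B) :=
    Disjoint.mono inter_subset_right inter_subset_right hd
  have h6 := card_union_of_disjoint h5
  rw [← h4] at h6
  omega

theorem tp_mono {k : ℕ} {A B A' B' : Finset V} (hA : A' ⊆ A) (hB : B' ⊆ B) (hd : Disjoint A B) :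
    tp k A' B' ⊆ tp k A B := by
  intro e he
  obtain ⟨h1, h2, h3⟩ := mem_tp.1 he
  refine mem_tp.2 ⟨h1.trans (union_subset_union hA hB), h2, ?_⟩
  have h4 : e ∩ A = e ∩ A' := by
    ext x
    simp only [mem_inter]
    constructor
    · rintro ⟨hx, hxA⟩
      refine ⟨hx, ?_⟩
      rcases mem_union.1 (h1 hx) with h | h
      · exact h
      · exact absurd (hB h) (fun h' => (disjoint_left.1 hd) hxA h')
    · rintro ⟨hx, hxA⟩
      exact ⟨hx, hA hxA⟩
  rw [h4, h3]

theorem mis_mono {k : ℕ} {H : Finset (Finset V)} {A B A' B' : Finset V} (hA : A' ⊆ A)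
    (hB : B' ⊆ B) (hd : Disjoint A B) (v : V) : mis k H A' B' v ≤ mis k H A B v :=
  card_le_card (filter_subset_filter _ (tp_mono hA hB hd))

theorem lk_mono {H : Finset (Finset V)} {v : V} {B B' : Finset V} (h : B' ⊆ B) :
    lk H v B' ≤ lk H v B := by
  refine card_le_card ?_
  intro e he
  rw [mem_filter] at he ⊢
  exact ⟨he.1, he.2.1, he.2.2.trans h⟩

end Pool.Agent.Lib.H3MT
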