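import Pool.Agent.Lib.H3MT.X0

namespace Pool.Agent.Lib.H3MT

open Finset

variable {V : Type*} [Fintype V] [DecidableEq V]

theorem X10_choose (x r : ℕ) : ∀ j, x.choose (r + 1) + j * x.choose r ≤ (x + j).choose (r + 1) := by
  intro j
  induction j with
  | zero => simp
  | succ j ih =>
    have h1 : (x + (j + 1)).choose (r + 1) = (x + j).choose r + (x + j).choose (r + 1) := by
      rw [← add_assoc, Nat.choose_succ_succ]
    have h2 : x.choose r ≤ (x + j).choose r := Nat.choose_le_choose r (Nat.le_add_right x j)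
    rw [h1, add_mul, one_mul]
    omega

theorem X10_pow (b : ℕ) : ∀ m, b ^ m ≤ (m * b).choose m := by
  intro m
  induction m with
  | zero => simp
  | succ m ih =>
    have h := X10_choose (m * b) m b
    have h1 : (m + 1) * b = m * b + b := by ring
    rw [h1, pow_succ, mul_comm (b ^ m) b]
    have h2 : b * b ^ m ≤ b * (m * b).choose m := Nat.mul_le_mul_left b ih
    omega

omit [Fintype V] in
theorem X10_count {k : ℕ} (hk : 1 ≤ k) {W : Finset V} {v : V} (hv : v ∈ W) (T : Finset (Finset V))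
    (hT : ∀ e : Finset V, e.card = k → e ⊆ W → v ∈ e → e ∈ T) :
    (W.card - 1).choose (k - 1) ≤ T.card := by
  have h1 : ((W.erase v).powersetCard (k - 1)).card = (W.card - 1).choose (k - 1) := by
    rw [card_powersetCard, card_erase_of_mem hv]
  rw [← h1]
  refine card_le_card_of_injOn (insert v) ?_ ?_
  · intro f hf
    rw [mem_coe, mem_powersetCard] at hf
    have hvf : v ∉ f := fun h => (notMem_erase v W) (hf.1 h)
    refine hT _ ?_ ?_ (mem_insert_self v f)
    · rw [card_insert_of_notMem hvf, hf.2]; omega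
    · exact insert_subset hv (hf.1.trans (erase_subset v W))
  · intro f hf g hg h
    rw [mem_coe, mem_powersetCard] at hf hg
    have hvf : v ∉ f := fun h => (notMem_erase v W) (hf.1 h)
    have hvg : v ∉ g := fun h => (notMem_erase v W) (hg.1 h)
    have := congrArg (fun t => t.erase v) h
    simpa [erase_insert hvf, erase_insert hvg] using this

/-- **X10.** If `|W| = (k-1) b + s` and the links inside `W` are small, then `W` contains `s`
disjoint edges.
Proof: `s = 0` is trivial.  Let `s ≥ 1`.  For `v ∈ W` the `k`-subsets of `W` containing `v` number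
`C(|W|-1, k-1)` with `|W| - 1 = (k-1) b + (s-1)`, at most `C((k-1) b, k-1) - 1` of them are
non-edges, so at least `(s-1) C((k-1) b, k-2) + 1 ≥ (s-1) b^(k-2) + 1` edges inside `W` contain `v`
(`C(x+j, r) ≥ C(x, r) + j C(x, r-1)`; `C((k-1) b, k-2) ≥ C((k-2) b, k-2) ≥ b^(k-2)`).
Sum over `v ∈ W` (`|W| ≥ b`): `k e(W) ≥ b ((s-1) b^(k-2) + 1)`, `e(W)` = number of edges inside `W`.
Take a matching of edges inside `W` of maximal cardinality `q`; if `q < s`, every edge inside `W`
meets one of its `k q` vertices `v`, and at most `lk H v W ≤ D` edges inside `W` contain `v`: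
`e(W) ≤ k q D ≤ k (s-1) D`.  So `b ((s-1) b^(k-2) + 1) ≤ k^2 (s-1) D ≤ (s-1) b^(k-1)`, a
contradiction.  (If `q ≥ s` take `s` of the edges.) -/
theorem X10_matchW {k b s : ℕ} (hk : 2 ≤ k) (hb : 1 ≤ b) (hN : Fintype.card V = k * b)
    {H : Finset (Finset V)} (hH : Uniform k H)
    (hdeg : ∀ v : V, (((univ : Finset V).powersetCard k).filter (fun e => v ∈ e ∧ e ∉ H)).card + 1 ≤
      ((k - 1) * b).choose (k - 1))
    {W : Finset V} (hW : W.card = (k - 1) * b + s) {D : ℝ}
    (hD : ∀ v ∈ W, (lk H v W : ℝ) ≤ D) (hsmall : (k : ℝ) ^ 2 * D ≤ (b : ℝ) ^ (k - 1)) :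
    ∃ M ⊆ H, IsMatching M ∧ M.card = s ∧ ∀ e ∈ M, e ⊆ W := by
  classical
  set E := H.filter (fun e => e ⊆ W) with hE
  -- a matching of edges in `W` of maximal cardinality
  obtain ⟨M, hM, hmax⟩ := exists_max_image
    (E.powerset.filter (fun M : Finset (Finset V) => IsMatching M)) card
    ⟨∅, by rw [mem_filter]; exact ⟨empty_mem_powerset _, by simp [IsMatching]⟩⟩
  rw [mem_filter, mem_powerset] at hM
  by_cases hq : s ≤ M.card
  · obtain ⟨M', hM', hc⟩ := exists_subset_card_eq hq
    refine ⟨M', ?_, ?_, hc, ?_⟩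
    · exact fun e he => (mem_filter.1 (hM.1 (hM' he))).1
    · exact hM.2.subset (by exact_mod_cast hM')
    · exact fun e he => (mem_filter.1 (hM.1 (hM' he))).2
  exfalso
  push Not at hq
  have hs : 1 ≤ s := by omega
  have hbW : b ≤ W.card := by
    have : 1 * b ≤ (k - 1) * b := Nat.mul_le_mul_right b (by omega)
    omega
  -- degrees inside `W`
  have hdegW : ∀ v ∈ W, (s - 1) * b ^ (k - 2) + 1 ≤ (E.filter (fun e => v ∈ e)).card := by
    intro v hv
    have h1 := X10_count (k := k) (by omega) hv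
      (E.filter (fun e => v ∈ e) ∪
        ((univ : Finset V).powersetCard k).filter (fun e => v ∈ e ∧ e ∉ H)) (fun e he heW hve => by
        rw [mem_union, mem_filter, hE, mem_filter, mem_filter, mem_powersetCard]
        by_cases hH : e ∈ H
        · exact Or.inl ⟨⟨hH, heW⟩, hve⟩
        · exact Or.inr ⟨⟨subset_univ e, he⟩, hve, hH⟩)
    have h2 := h1.trans (card_union_le _ _)
    have h3 := hdeg v
    have h4 := X10_choose ((k - 1) * b) (k - 2) (s - 1)
    have h5 : k - 2 + 1 = k - 1 := by omega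
    have h6 : (k - 1) * b + (s - 1) = W.card - 1 := by omega
    rw [h5, h6] at h4
    have h7 : b ^ (k - 2) ≤ ((k - 1) * b).choose (k - 2) :=
      (X10_pow b (k - 2)).trans (Nat.choose_le_choose _ (Nat.mul_le_mul_right b (by omega)))
    have h8 : (s - 1) * b ^ (k - 2) ≤ (s - 1) * ((k - 1) * b).choose (k - 2) :=
      Nat.mul_le_mul_left _ h7
    omega
  -- double counting
  have hdc : ∑ v ∈ W, (E.filter (fun e => v ∈ e)).card = k * E.card := by
    have h1 : ∀ v, (E.filter (fun e => v ∈ e)).card = ∑ e ∈ E, if v ∈ e then 1 else 0 := by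
      intro v
      rw [card_filter]
    simp only [h1]
    rw [sum_comm, mul_comm, card_eq_sum_ones, sum_mul]
    refine sum_congr rfl fun e he => ?_
    rw [← sum_filter, ← card_eq_sum_ones, one_mul]
    have h2 : W.filter (fun v => v ∈ e) = e := by
      ext v
      rw [mem_filter]
      exact ⟨fun h => h.2, fun h => ⟨(mem_filter.1 he).2 h, h⟩⟩
    rw [h2]
    exact hH e (mem_filter.1 he).1
  have hlow : b * ((s - 1) * b ^ (k - 2) + 1) ≤ k * E.card := by
    rw [← hdc]
    calc b * ((s - 1) * b ^ (k - 2) + 1) ≤ W.card * ((s - 1) * b ^ (k - 2) + 1) :=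
          Nat.mul_le_mul_right _ hbW
      _ = ∑ _v ∈ W, ((s - 1) * b ^ (k - 2) + 1) := by rw [sum_const, smul_eq_mul]
      _ ≤ _ := sum_le_sum hdegW
  -- every edge in `W` meets the matching
  set U := M.biUnion id with hU
  have hmeet : ∀ e ∈ E, ∃ v ∈ U, v ∈ e := by
    intro e he
    by_contra hcon
    push Not at hcon
    have hne : e.Nonempty := by
      rw [← card_pos, hH e (mem_filter.1 he).1]
      omega
    have heM : e ∉ M := by
      intro h
      obtain ⟨v, hv⟩ := hne
      exact hcon v (mem_biUnion.2 ⟨e, h, hv⟩) hv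
    have h1 : insert e M ∈ E.powerset.filter (fun M : Finset (Finset V) => IsMatching M) := by
      rw [mem_filter, mem_powerset]
      refine ⟨insert_subset he hM.1, ?_⟩
      unfold IsMatching
      rw [coe_insert]
      refine hM.2.insert ?_
      intro f hf _
      rw [id, id, disjoint_left]
      intro v hv hv'
      exact hcon v (mem_biUnion.2 ⟨f, hf, hv'⟩) hv
    have h2 := hmax _ h1
    rw [card_insert_of_notMem heM] at h2
    omega
  have hUc : U.card ≤ k * (s - 1) := by
    calc U.card ≤ ∑ e ∈ M, (id e).card := card_biUnion_le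
      _ = ∑ _e ∈ M, k := sum_congr rfl fun e he => hH e (mem_filter.1 (hM.1 he)).1
      _ = M.card * k := by rw [sum_const, smul_eq_mul]
      _ ≤ (s - 1) * k := Nat.mul_le_mul_right k (by omega)
      _ = k * (s - 1) := mul_comm _ _
  have hUW : U ⊆ W := by
    intro v hv
    obtain ⟨e, he, hve⟩ := mem_biUnion.1 hv
    exact (mem_filter.1 (hM.1 he)).2 hve
  obtain ⟨v0, hv0⟩ : W.Nonempty := card_pos.1 (by omega)
  have hD0 : 0 ≤ D := (Nat.cast_nonneg _).trans (hD v0 hv0)
  have hup : (E.card : ℝ) ≤ (k : ℝ) * ((s : ℝ) - 1) * D := by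
    have h1 : E ⊆ U.biUnion (fun v => E.filter (fun e => v ∈ e)) := by
      intro e he
      obtain ⟨v, hv, hve⟩ := hmeet e he
      exact mem_biUnion.2 ⟨v, hv, mem_filter.2 ⟨he, hve⟩⟩
    have h2 : E.card ≤ ∑ v ∈ U, (E.filter (fun e => v ∈ e)).card :=
      (card_le_card h1).trans card_biUnion_le
    have h3 : ∀ v ∈ U, ((E.filter (fun e => v ∈ e)).card : ℝ) ≤ D := by
      intro v hv
      refine le_trans ?_ (hD v (hUW hv))
      have : (E.filter (fun e => v ∈ e)).card ≤ lk H v W := by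
        refine card_le_card ?_
        intro e he
        rw [mem_filter] at he
        rw [mem_filter]
        exact ⟨(mem_filter.1 he.1).1, he.2, (erase_subset v e).trans (mem_filter.1 he.1).2⟩
      exact_mod_cast this
    calc (E.card : ℝ) ≤ ((∑ v ∈ U, (E.filter (fun e => v ∈ e)).card : ℕ) : ℝ) := by
          exact_mod_cast h2
      _ = ∑ v ∈ U, ((E.filter (fun e => v ∈ e)).card : ℝ) := by push_cast; rfl
      _ ≤ ∑ _v ∈ U, D := sum_le_sum h3
      _ = (U.card : ℝ) * D := by rw [sum_const, nsmul_eq_mul]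
      _ ≤ ((k : ℝ) * ((s : ℝ) - 1)) * D := by
          refine mul_le_mul_of_nonneg_right ?_ hD0
          have h4 : (U.card : ℝ) ≤ ((k * (s - 1) : ℕ) : ℝ) := by exact_mod_cast hUc
          rw [Nat.cast_mul, Nat.cast_sub hs, Nat.cast_one] at h4
          exact h4
  have hlow' : (b : ℝ) * (((s : ℝ) - 1) * (b : ℝ) ^ (k - 2) + 1) ≤ (k : ℝ) * (E.card : ℝ) := by
    have h1 : ((b * ((s - 1) * b ^ (k - 2) + 1) : ℕ) : ℝ) ≤ ((k * E.card : ℕ) : ℝ) := by
      exact_mod_cast hlow
    rw [Nat.cast_mul, Nat.cast_add, Nat.cast_mul, Nat.cast_sub hs, Nat.cast_pow, Nat.cast_mul,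
      Nat.cast_one] at h1
    exact h1
  have hs0 : (0 : ℝ) ≤ (s : ℝ) - 1 := by
    have : (1 : ℝ) ≤ (s : ℝ) := by exact_mod_cast hs
    linarith
  have hbp : (b : ℝ) ^ (k - 1) = b * (b : ℝ) ^ (k - 2) := by
    have h5 : k - 1 = k - 2 + 1 := by omega
    rw [h5, pow_succ]
    ring
  have hb0 : (1 : ℝ) ≤ (b : ℝ) := by exact_mod_cast hb
  have hk0 : (0 : ℝ) ≤ (k : ℝ) := Nat.cast_nonneg k
  have h6 : (k : ℝ) * (E.card : ℝ) ≤ ((s : ℝ) - 1) * ((k : ℝ) ^ 2 * D) := by
    calc (k : ℝ) * (E.card : ℝ) ≤ (k : ℝ) * ((k : ℝ) * ((s : ℝ) - 1) * D) :=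
          mul_le_mul_of_nonneg_left hup hk0
      _ = ((s : ℝ) - 1) * ((k : ℝ) ^ 2 * D) := by ring
  have h7 : ((s : ℝ) - 1) * ((k : ℝ) ^ 2 * D) ≤ ((s : ℝ) - 1) * (b : ℝ) ^ (k - 1) :=
    mul_le_mul_of_nonneg_left hsmall hs0
  rw [hbp] at h7
  nlinarith [h6, h7, hlow', hb0]

end Pool.Agent.Lib.H3MT
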