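import Pool.Agent.Lib.H3MT.X7

namespace Pool.Agent.Lib.H3MT

open Finset

variable {V : Type*} [Fintype V] [DecidableEq V]

/-- **X12.** Covering the vertices of `A0` by disjoint edges with the other vertices in `W`.
Proof: induction on `A0` with the bound `|A0| ≤ q` kept fixed.  For `insert v A'`: let `M'` be the
matching for `A'`; it uses at most `(k-1) |A'| ≤ (k-1) q` vertices of `W`.  By `X7_link`
(`lk H v W ≤ lk H v (W \ V(M')) + |W ∩ V(M')| N^(k-2)`; import X7, you may use its statement) the
number `lk H v (W \ V(M'))` is positive, so there is an edge `e ∋ v` with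
`e.erase v ⊆ W \ V(M')`; `v ∉ V(M')` because `V(M') ⊆ A' ∪ W`, `v ∉ A'`, `v ∉ W`. -/
theorem X12_cover {k q : ℕ} (hk : 2 ≤ k) {H : Finset (Finset V)} (hH : Uniform k H)
    {A0 W : Finset V} (hd : Disjoint A0 W) (hq : A0.card ≤ q)
    (hlk : ∀ v ∈ A0, (k - 1) * q * Fintype.card V ^ (k - 2) < lk H v W) :
    ∃ M ⊆ H, IsMatching M ∧ M.card = A0.card ∧ A0 ⊆ M.biUnion id ∧
      ∀ e ∈ M, (e ∩ A0).card = 1 ∧ e ⊆ A0 ∪ W := by
  induction A0 using Finset.induction_on with
  | empty =>
    exact ⟨∅, empty_subset _, by simp [IsMatching], rfl, by simp, by simp⟩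
  | insert v A' hv IH =>
    have hvW : v ∉ W := fun h => (disjoint_left.1 hd) (mem_insert_self _ _) h
    have hdA : Disjoint A' W := hd.mono_left (subset_insert _ _)
    have hcA : (insert v A').card = A'.card + 1 := card_insert_of_notMem hv
    obtain ⟨M', hM'H, hM', hM'c, hA'M, hM'e⟩ := IH hdA (by omega)
      (fun u hu => hlk u (mem_insert_of_mem hu))
    set U : Finset V := M'.biUnion id with hU
    have hUs : U ⊆ A' ∪ W := by
      intro x hx
      rw [hU, mem_biUnion] at hx
      obtain ⟨e, he, hxe⟩ := hx
      exact (hM'e e he).2 hxe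
    have hvU : v ∉ U := fun h => by
      rcases mem_union.1 (hUs h) with h' | h'
      · exact hv h'
      · exact hvW h'
    have hWU : (W ∩ U).card ≤ (k - 1) * q := by
      have h1 : W ∩ U ⊆ M'.biUnion (fun e => e ∩ W) := by
        intro x hx
        rw [mem_inter, hU, mem_biUnion] at hx
        obtain ⟨hxW, e, he, hxe⟩ := hx
        exact mem_biUnion.2 ⟨e, he, mem_inter.2 ⟨hxe, hxW⟩⟩
      have h2 : ∀ e ∈ M', (e ∩ W).card = k - 1 := by
        intro e he
        obtain ⟨a1, a2⟩ := hM'e e he
        have a3 : e.card = k := hH e (hM'H he)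
        have a4 : e = (e ∩ A') ∪ (e ∩ W) := by
          rw [← inter_union_distrib_left]; exact (inter_eq_left.2 a2).symm
        have a5 : Disjoint (e ∩ A') (e ∩ W) :=
          Disjoint.mono inter_subset_right inter_subset_right hdA
        have a6 := card_union_of_disjoint a5
        rw [← a4] at a6
        omega
      calc (W ∩ U).card ≤ (M'.biUnion (fun e => e ∩ W)).card := card_le_card h1
        _ ≤ ∑ e ∈ M', (e ∩ W).card := card_biUnion_le
        _ = ∑ e ∈ M', (k - 1) := sum_congr rfl h2
        _ = M'.card * (k - 1) := by rw [sum_const, smul_eq_mul]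
        _ ≤ q * (k - 1) := Nat.mul_le_mul_right _ (by omega)
        _ = (k - 1) * q := Nat.mul_comm _ _
    have hpos : 0 < lk H v (W \ U) := by
      have h1 := X7_link hk hH v (W \ U) W
      have h2 : W \ (W \ U) = W ∩ U := by rw [sdiff_sdiff_right_self]; rfl
      rw [h2] at h1
      have h3 := Nat.mul_le_mul_right (Fintype.card V ^ (k - 2)) hWU
      have h4 := hlk v (mem_insert_self _ _)
      omega
    obtain ⟨e, he⟩ := card_pos.1 hpos
    rw [mem_filter] at he
    obtain ⟨heH, hve, heW⟩ := he
    have hedis : ∀ f ∈ M', Disjoint e f := by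
      intro f hf
      rw [disjoint_left]
      intro x hxe hxf
      have hxU : x ∈ U := mem_biUnion.2 ⟨f, hf, hxf⟩
      by_cases hxv : x = v
      · subst hxv; exact hvU hxU
      · exact (mem_sdiff.1 (heW (mem_erase.2 ⟨hxv, hxe⟩))).2 hxU
    have heM' : e ∉ M' := fun h => hvU (mem_biUnion.2 ⟨e, h, hve⟩)
    refine ⟨insert e M', insert_subset heH hM'H, ?_, ?_, ?_, ?_⟩
    · unfold IsMatching
      rw [coe_insert]
      refine hM'.insert ?_
      intro f hf _
      exact hedis f hf
    · rw [card_insert_of_notMem heM', hM'c, hcA]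
    · intro x hx
      rw [biUnion_insert, mem_union]
      rcases mem_insert.1 hx with h | h
      · left; subst h; exact hve
      · right; exact hA'M h
    · intro f hf
      rcases mem_insert.1 hf with h | h
      · subst h
        constructor
        · rw [card_eq_one]
          refine ⟨v, ?_⟩
          ext x
          rw [mem_inter, mem_insert, mem_singleton]
          constructor
          · rintro ⟨hxf, hx⟩
            rcases hx with hx | hx
            · exact hx
            · by_contra hne
              exact (disjoint_left.1 hdA) hx (mem_sdiff.1 (heW (mem_erase.2 ⟨hne, hxf⟩))).1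
          · rintro rfl
            exact ⟨hve, Or.inl rfl⟩
        · intro x hx
          by_cases hxv : x = v
          · subst hxv; exact mem_union_left _ (mem_insert_self _ _)
          · exact mem_union_right _ (mem_sdiff.1 (heW (mem_erase.2 ⟨hxv, hx⟩))).1
      · obtain ⟨a1, a2⟩ := hM'e f h
        have hvf : v ∉ f := fun h' => hvU (mem_biUnion.2 ⟨f, h, h'⟩)
        constructor
        · rw [inter_insert_of_notMem hvf, a1]
        · exact a2.trans (union_subset_union (subset_insert _ _) (Subset.refl _))

end Pool.Agent.Lib.H3MT
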