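import Pool.Agent.Lib.H3MT.X0

namespace Pool.Agent.Lib.H3MT

open Finset

variable {V : Type*} [DecidableEq V]

/-- **X13.** Replacing a part `M₁` of a matching by `M₂`.
Proof: pairwise disjointness case by case; a nonempty set is not disjoint from itself, so
`M₂` and `M \ M₁` are disjoint families and the cardinalities add up. -/
theorem X13_replace {M M₁ M₂ : Finset (Finset V)} (hM : IsMatching M) (h1 : M₁ ⊆ M)
    (h2 : IsMatching M₂) (hne : ∀ e ∈ M₂, e.Nonempty)
    (hdis : ∀ e ∈ M₂, ∀ f ∈ M \ M₁, Disjoint e f) :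
    IsMatching ((M \ M₁) ∪ M₂) ∧ ((M \ M₁) ∪ M₂).card + M₁.card = M.card + M₂.card := by
  have hdis' : Disjoint (M \ M₁) M₂ := by
    rw [disjoint_left]
    intro e he he2
    have := hdis e he2 e he
    rw [disjoint_self_iff_empty] at this
    exact (hne e he2).ne_empty this
  constructor
  · intro e he f hf hef
    simp only [coe_union, Set.mem_union, mem_coe] at he hf
    rcases he with he | he <;> rcases hf with hf | hf
    · exact hM (mem_coe.2 (mem_sdiff.1 he).1) (mem_coe.2 (mem_sdiff.1 hf).1) hef
    · exact (hdis f hf e he).symm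
    · exact hdis e he f hf
    · exact h2 (mem_coe.2 he) (mem_coe.2 hf) hef
  · rw [card_union_of_disjoint hdis']
    have := card_sdiff_add_card_eq_card h1
    omega

/-- **X13.** A matching of type `(1, k-1)` covers `|M|` vertices of `A` and `(k-1) |M|` of `B`.
Proof: `card_biUnion` for `e ∩ A`, `e ∩ B`, `e ∈ M` (`tp_card_inter`). -/
theorem X13_cover_card {k : ℕ} {A B : Finset V} (hd : Disjoint A B) {M : Finset (Finset V)}
    (hM : IsMatching M) (hMt : M ⊆ tp k A B) :
    (A ∩ M.biUnion id).card = M.card ∧ (B ∩ M.biUnion id).card = (k - 1) * M.card := by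
  have key : ∀ (C : Finset V) (m : ℕ), (∀ e ∈ M, (e ∩ C).card = m) →
      (C ∩ M.biUnion id).card = m * M.card := by
    intro C m hC
    have h1 : C ∩ M.biUnion id = M.biUnion (fun e => e ∩ C) := by
      ext x
      simp only [mem_inter, mem_biUnion, id]
      constructor
      · rintro ⟨h, e, he, hx⟩; exact ⟨e, he, hx, h⟩
      · rintro ⟨e, he, hx, h⟩; exact ⟨h, e, he, hx⟩
    rw [h1, card_biUnion]
    · rw [sum_congr rfl hC, sum_const, smul_eq_mul, Nat.mul_comm]
    · intro e he f hf hef
      exact Disjoint.mono inter_subset_left inter_subset_left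
        (hM (mem_coe.2 he) (mem_coe.2 hf) hef)
  constructor
  · have := key A 1 (fun e he => (mem_tp.1 (hMt he)).2.2)
    rw [this, one_mul]
  · exact key B (k - 1) (fun e he => tp_card_inter hd (hMt he))

end Pool.Agent.Lib.H3MT
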