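import Pool.Agent.Lib.H3MT.X0

namespace Pool.Agent.Lib.H3MT

open Finset

variable {V : Type*} [DecidableEq V]

/-- **X2.** The number of `k`-subsets of `X` containing `v ∈ X` is `C(|X| - 1, k - 1)`.
Proof: `e ↦ e.erase v` is a bijection onto `(X.erase v).powersetCard (k - 1)`. -/
theorem X2_one {k : ℕ} (hk : 1 ≤ k) (X : Finset V) {v : V} (hv : v ∈ X) :
    ((X.powersetCard k).filter (fun e => v ∈ e)).card = (X.card - 1).choose (k - 1) := by
  rw [← card_erase_of_mem hv, ← card_powersetCard]
  refine card_bij (fun e _ => e.erase v) ?_ ?_ ?_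
  · intro e he
    rw [mem_filter, mem_powersetCard] at he
    rw [mem_powersetCard]
    exact ⟨erase_subset_erase v he.1.1, by rw [card_erase_of_mem he.2, he.1.2]⟩
  · intro e he e' he' h
    rw [mem_filter] at he he'
    rw [← insert_erase he.2, ← insert_erase he'.2, h]
  · intro e he
    rw [mem_powersetCard] at he
    have hve : v ∉ e := fun h => notMem_erase v X (he.1 h)
    refine ⟨insert v e, ?_, erase_insert hve⟩
    rw [mem_filter, mem_powersetCard]
    refine ⟨⟨?_, ?_⟩, mem_insert_self v e⟩
    · exact insert_subset hv (he.1.trans (erase_subset v X))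
    · rw [card_insert_of_notMem hve, he.2]
      omega

/-- **X2.** At most `|X|^(k-1)` of the `k`-subsets of `X` contain a given vertex. -/
theorem X2_one_le {k : ℕ} (hk : 1 ≤ k) (X : Finset V) (v : V) :
    ((X.powersetCard k).filter (fun e => v ∈ e)).card ≤ X.card ^ (k - 1) := by
  by_cases hv : v ∈ X
  · rw [X2_one hk X hv]
    exact (Nat.choose_le_pow _ _).trans (Nat.pow_le_pow_left (Nat.sub_le _ _) _)
  · have h : (X.powersetCard k).filter (fun e => v ∈ e) = ∅ := by
      rw [filter_eq_empty_iff]
      intro e he hve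
      exact hv ((mem_powersetCard.1 he).1 hve)
    rw [h, card_empty]
    exact Nat.zero_le _

/-- **X2.** At most `|X|^(k-2)` of the `k`-subsets of `X` contain two given distinct vertices.
Proof: `e ↦ (e.erase u).erase v` is injective into the `(k-2)`-subsets of `X`. -/
theorem X2_two_le {k : ℕ} (hk : 2 ≤ k) (X : Finset V) {u v : V} (huv : u ≠ v) :
    ((X.powersetCard k).filter (fun e => u ∈ e ∧ v ∈ e)).card ≤ X.card ^ (k - 2) := by
  have h1 : ((X.powersetCard k).filter (fun e => u ∈ e ∧ v ∈ e)).card ≤
      (X.powersetCard (k - 2)).card := by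
    refine card_le_card_of_injOn (fun e => (e.erase u).erase v) ?_ ?_
    · intro e he
      rw [mem_coe, mem_filter, mem_powersetCard] at he
      rw [mem_coe, mem_powersetCard]
      refine ⟨(erase_subset _ _).trans ((erase_subset _ _).trans he.1.1), ?_⟩
      rw [card_erase_of_mem (mem_erase.2 ⟨huv.symm, he.2.2⟩), card_erase_of_mem he.2.1, he.1.2]
      omega
    · intro e he e' he' h
      rw [mem_coe, mem_filter] at he he'
      have h2 := congrArg (fun s => insert u (insert v s)) h
      simp only at h2
      rw [insert_erase (mem_erase.2 ⟨huv.symm, he.2.2⟩), insert_erase he.2.1,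
        insert_erase (mem_erase.2 ⟨huv.symm, he'.2.2⟩), insert_erase he'.2.1] at h2
      exact h2
  refine h1.trans ?_
  rw [card_powersetCard]
  exact Nat.choose_le_pow _ _

end Pool.Agent.Lib.H3MT
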