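import Pool.Agent.Lib.H3MT.X0

namespace Pool.Agent.Lib.H3MT

open Finset

variable {V : Type*} [DecidableEq V]

/-- Auxiliary lemmas for X4-X8. -/
theorem X4a_double (Z : Finset V) (E : Finset (Finset V)) :
    ∑ v ∈ Z, (E.filter (fun e => v ∈ e)).card = ∑ e ∈ E, (e ∩ Z).card := by
  have h1 : ∀ v ∈ Z, (E.filter (fun e => v ∈ e)).card = ∑ e ∈ E, if v ∈ e then 1 else 0 := by
    intro v _
    rw [card_filter]
  have h2 : ∀ e ∈ E, (e ∩ Z).card = ∑ v ∈ Z, if v ∈ e then 1 else 0 := by
    intro e _
    rw [← card_filter]
    congr 1
    ext v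
    rw [mem_inter, mem_filter, and_comm]
  rw [sum_congr rfl h1, sum_congr rfl h2, sum_comm]

theorem X4a_one [Fintype V] {k : ℕ} {A : Finset (Finset V)} (hA : ∀ e ∈ A, e.card = k)
    (v : V) : (A.filter (fun e => v ∈ e)).card ≤ Fintype.card V ^ (k - 1) := by
  calc (A.filter (fun e => v ∈ e)).card
      ≤ ((univ : Finset V).powersetCard (k - 1)).card := by
        apply card_le_card_of_injOn (fun e => e.erase v)
        · intro e he
          rw [mem_coe, mem_filter] at he
          rw [mem_coe, mem_powersetCard]
          refine ⟨subset_univ _, ?_⟩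
          rw [card_erase_of_mem he.2, hA e he.1]
        · intro e he f hf hef
          rw [mem_coe, mem_filter] at he hf
          have := congrArg (fun s => insert v s) hef
          simp only at this
          rwa [insert_erase he.2, insert_erase hf.2] at this
    _ = (Fintype.card V).choose (k - 1) := by rw [card_powersetCard, card_univ]
    _ ≤ Fintype.card V ^ (k - 1) := Nat.choose_le_pow _ _

theorem X4a_two [Fintype V] {k : ℕ} {A : Finset (Finset V)} (hA : ∀ e ∈ A, e.card = k)
    {u v : V} (huv : u ≠ v) :
    (A.filter (fun e => u ∈ e ∧ v ∈ e)).card ≤ Fintype.card V ^ (k - 2) := by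
  calc (A.filter (fun e => u ∈ e ∧ v ∈ e)).card
      ≤ ((univ : Finset V).powersetCard (k - 2)).card := by
        apply card_le_card_of_injOn (fun e => (e.erase u).erase v)
        · intro e he
          rw [mem_coe, mem_filter] at he
          rw [mem_coe, mem_powersetCard]
          refine ⟨subset_univ _, ?_⟩
          rw [card_erase_of_mem (mem_erase.2 ⟨huv.symm, he.2.2⟩), card_erase_of_mem he.2.1,
            hA e he.1]
          omega
        · intro e he f hf hef
          rw [mem_coe, mem_filter] at he hf
          have := congrArg (fun s => insert u (insert v s)) hef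
          simp only at this
          rwa [insert_erase (mem_erase.2 ⟨huv.symm, he.2.2⟩),
            insert_erase (mem_erase.2 ⟨huv.symm, hf.2.2⟩), insert_erase he.2.1,
            insert_erase hf.2.1] at this
    _ = (Fintype.card V).choose (k - 2) := by rw [card_powersetCard, card_univ]
    _ ≤ Fintype.card V ^ (k - 2) := Nat.choose_le_pow _ _

end Pool.Agent.Lib.H3MT
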