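import Pool.Agent.Lib.H3MT.Defs

/-! # H3MT, chunk Z1: numerical facts on `ck` and `d0` -/

open Filter

namespace Pool.Agent.Lib.H3MT

theorem Z1_pow (n : ℕ) (hn : 2 ≤ n) : (9 / 4 : ℝ) ≤ (1 + 1 / (n : ℝ)) ^ n := by
  have hn0 : (0 : ℝ) < n := by
    have : 0 < n := by omega
    exact_mod_cast this
  rw [add_comm, add_pow]
  have hsub : Finset.range 3 ⊆ Finset.range (n + 1) := by
    intro i hi
    rw [Finset.mem_range] at *
    omega
  have h1 : ∑ i ∈ Finset.range 3, (1 / (n : ℝ)) ^ i * 1 ^ (n - i) * (n.choose i : ℝ) ≤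
      ∑ i ∈ Finset.range (n + 1), (1 / (n : ℝ)) ^ i * 1 ^ (n - i) * (n.choose i : ℝ) :=
    Finset.sum_le_sum_of_subset_of_nonneg hsub fun i _ _ => by positivity
  refine le_trans ?_ h1
  rw [Finset.sum_range_succ, Finset.sum_range_succ, Finset.sum_range_succ, Finset.sum_range_zero]
  have hch : (n.choose 2 : ℝ) = n * (n - 1) / 2 := Nat.cast_choose_two ℝ n
  simp only [pow_zero, one_pow, mul_one, Nat.choose_zero_right, Nat.cast_one, pow_one,
    Nat.choose_one_right, zero_add, hch]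
  have hn2 : (2 : ℝ) ≤ n := by exact_mod_cast hn
  have e1 : 1 / (n : ℝ) * n = 1 := by field_simp
  have e2 : (1 / (n : ℝ)) ^ 2 * (n * (n - 1) / 2) = (1 - 1 / n) / 2 := by
    field_simp
  rw [e1, e2]
  have e3 : 1 / (n : ℝ) ≤ 1 / 2 := one_div_le_one_div_of_le (by norm_num) hn2
  linarith

/-- `(1 - 1/k)^(k-1) ≤ 4/9` for `k ≥ 3`: with `n = k - 1 ≥ 2`, `(1 + 1/n)^n ≥ 2 + C(n,2)/n^2 = 2 + (n-1)/(2n) ≥ 9/4`
(three terms of the binomial theorem), and `1 - 1/k = n/(n+1) = 1/(1+1/n)`. -/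
theorem ck_ge {k : ℕ} (hk : 3 ≤ k) : 5 / 9 ≤ ck k := by
  obtain ⟨n, rfl⟩ : ∃ n, k = n + 1 := ⟨k - 1, by omega⟩
  have hn : 2 ≤ n := by omega
  unfold ck
  have hn0 : (0 : ℝ) < n := by
    have : 0 < n := by omega
    exact_mod_cast this
  have h1 := Z1_pow n hn
  have e1 : (1 : ℝ) - 1 / ((n + 1 : ℕ) : ℝ) = (1 + 1 / (n : ℝ))⁻¹ := by
    push_cast
    field_simp
    ring
  rw [e1, Nat.add_sub_cancel, inv_pow]
  have h2 : ((1 + 1 / (n : ℝ)) ^ n)⁻¹ ≤ (9 / 4 : ℝ)⁻¹ := inv_anti₀ (by norm_num) h1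
  norm_num at h2
  have h3 : ((1 + (n : ℝ)⁻¹) ^ n)⁻¹ = ((1 + 1 / (n : ℝ)) ^ n)⁻¹ := by rw [one_div]
  linarith [h3 ▸ h2]

theorem ck_le_one {k : ℕ} (hk : 1 ≤ k) : ck k ≤ 1 := by
  unfold ck
  have hk1 : (1 : ℝ) ≤ k := by exact_mod_cast hk
  have h1 : 1 / (k : ℝ) ≤ 1 := by
    rw [div_le_one (by linarith)]; exact hk1
  have h2 : 0 ≤ (1 - 1 / (k : ℝ)) ^ (k - 1) := pow_nonneg (by linarith) _
  linarith

/-- `C(N - N/k, k-1) / C(N-1, k-1) = ∏_{i<k-1} (N - N/k - i)/(N - 1 - i)`, each factor is at most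
`(1 - 1/k) + 1/(N - k)` (`k ∣ N`), which tends to `1 - 1/k`. -/
theorem d0_ge {k : ℕ} (hk : 3 ≤ k) {η : ℝ} (hη : 0 < η) : ∃ N₀ : ℕ, ∀ N : ℕ, N₀ ≤ N → k ∣ N →
    (ck k - η) * ((N - 1).choose (k - 1) : ℝ) ≤ d0 k N := by
  obtain ⟨M₀, hM₀⟩ := exists_nat_ge (((k : ℝ) - 1) * (1 + η) / η)
  refine ⟨k * (M₀ + 2), ?_⟩
  rintro N hN ⟨M, rfl⟩
  have hk0 : 0 < k := by omega
  have hM : M₀ + 2 ≤ M := Nat.le_of_mul_le_mul_left hN hk0
  have hM1 : 2 ≤ M := by omega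
  have hdiv : k * M / k = M := Nat.mul_div_cancel_left M hk0
  have hle : (k * M - M).choose (k - 1) ≤ (k * M - 1).choose (k - 1) :=
    Nat.choose_le_choose _ (by omega)
  have hd0 : (d0 k (k * M) : ℝ) =
      ((k * M - 1).choose (k - 1) : ℝ) - ((k * M - M).choose (k - 1) : ℝ) := by
    unfold d0
    rw [hdiv, Nat.cast_sub hle]
  rw [hd0]
  -- upper bound for the second binomial
  have hkr : (3 : ℝ) ≤ k := by exact_mod_cast hk
  have hMr : (2 : ℝ) ≤ M := by exact_mod_cast hM1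
  have hfac : (0 : ℝ) < ((k - 1).factorial : ℝ) := by exact_mod_cast Nat.factorial_pos _
  have e1 : ((k * M - M).choose (k - 1) : ℝ) * ((k - 1).factorial : ℝ) ≤
      (((k : ℝ) - 1) * M) ^ (k - 1) := by
    have h1 : (k * M - M).choose (k - 1) * (k - 1).factorial = (k * M - M).descFactorial (k - 1) := by
      rw [Nat.descFactorial_eq_factorial_mul_choose, mul_comm]
    have h2 : (k * M - M).descFactorial (k - 1) ≤ (k * M - M) ^ (k - 1) :=
      Nat.descFactorial_le_pow _ _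
    have h3 : ((k * M - M : ℕ) : ℝ) = ((k : ℝ) - 1) * M := by
      rw [Nat.cast_sub (Nat.le_mul_of_pos_left M hk0)]; push_cast; ring
    calc ((k * M - M).choose (k - 1) : ℝ) * ((k - 1).factorial : ℝ)
        = (((k * M - M).choose (k - 1) * (k - 1).factorial : ℕ) : ℝ) := by push_cast; ring
      _ ≤ (((k * M - M) ^ (k - 1) : ℕ) : ℝ) := by rw [h1]; exact_mod_cast h2
      _ = (((k : ℝ) - 1) * M) ^ (k - 1) := by rw [Nat.cast_pow, h3]
  have e2 : ((k : ℝ) * (M - 1)) ^ (k - 1) ≤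
      ((k * M - 1).choose (k - 1) : ℝ) * ((k - 1).factorial : ℝ) := by
    have h1 : (k * M - 1).choose (k - 1) * (k - 1).factorial = (k * M - 1).descFactorial (k - 1) := by
      rw [Nat.descFactorial_eq_factorial_mul_choose, mul_comm]
    have h2 : (k * M - 1 + 1 - (k - 1)) ^ (k - 1) ≤ (k * M - 1).descFactorial (k - 1) :=
      Nat.pow_sub_le_descFactorial _ _
    have h4 : k * (M - 1) ≤ k * M - 1 + 1 - (k - 1) := by
      have : k * (M - 1) = k * M - k := by rw [Nat.mul_sub, mul_one]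
      have hkM : k ≤ k * M := Nat.le_mul_of_pos_right k (by omega)
      omega
    have h5 : ((k * (M - 1) : ℕ) : ℝ) = (k : ℝ) * (M - 1) := by
      rw [Nat.cast_mul, Nat.cast_sub (by omega)]; push_cast; ring
    calc ((k : ℝ) * (M - 1)) ^ (k - 1) = (((k * (M - 1)) ^ (k - 1) : ℕ) : ℝ) := by
          rw [Nat.cast_pow, h5]
      _ ≤ (((k * M - 1 + 1 - (k - 1)) ^ (k - 1) : ℕ) : ℝ) := by
          exact_mod_cast Nat.pow_le_pow_left h4 _
      _ ≤ (((k * M - 1).descFactorial (k - 1) : ℕ) : ℝ) := by exact_mod_cast h2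
      _ = ((k * M - 1).choose (k - 1) : ℝ) * ((k - 1).factorial : ℝ) := by
          rw [← h1]; push_cast; ring
  -- Bernoulli
  have e3 : (M : ℝ) ^ (k - 1) ≤ (1 + η) * ((M : ℝ) - 1) ^ (k - 1) := by
    have hM0 : (0 : ℝ) < M := by linarith
    have hb : 1 + ((k - 1 : ℕ) : ℝ) * (-(1 / (M : ℝ))) ≤ (1 + -(1 / (M : ℝ))) ^ (k - 1) :=
      one_add_mul_le_pow (by
        have : 1 / (M : ℝ) ≤ 1 := by rw [div_le_one hM0]; linarith
        linarith) _
    have hk1 : ((k - 1 : ℕ) : ℝ) = (k : ℝ) - 1 := by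
      rw [Nat.cast_sub (by omega)]; norm_num
    rw [hk1] at hb
    have hMM : ((k : ℝ) - 1) * (1 + η) / η ≤ M := by
      have : (M₀ : ℝ) ≤ M := by
        have : M₀ ≤ M := by omega
        exact_mod_cast this
      linarith
    rw [div_le_iff₀ hη] at hMM
    have h6 : 1 ≤ (1 + η) * (1 + -(1 / (M : ℝ))) ^ (k - 1) := by
      have h7 : 1 ≤ (1 + η) * (1 + ((k : ℝ) - 1) * (-(1 / (M : ℝ)))) := by
        have h8 : (1 + η) * (1 + ((k : ℝ) - 1) * (-(1 / (M : ℝ)))) - 1 =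
            (η * M - (1 + η) * ((k : ℝ) - 1)) / M := by
          field_simp
          ring
        have h9 : 0 ≤ (η * M - (1 + η) * ((k : ℝ) - 1)) / M :=
          div_nonneg (by nlinarith) hM0.le
        linarith
      exact h7.trans (mul_le_mul_of_nonneg_left hb (by linarith))
    have h10 : (M : ℝ) - 1 = M * (1 + -(1 / (M : ℝ))) := by field_simp; ring
    rw [h10, mul_pow]
    have h11 : 0 < (M : ℝ) ^ (k - 1) := pow_pos hM0 _
    nlinarith
  -- conclusion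
  have hck : ((k : ℝ) - 1) ^ (k - 1) = (1 - ck k) * (k : ℝ) ^ (k - 1) := by
    unfold ck
    have : (1 : ℝ) - 1 / (k : ℝ) = ((k : ℝ) - 1) / k := by field_simp
    rw [sub_sub_cancel, this, div_pow, div_mul_cancel₀]
    positivity
  have hle1 : 1 - ck k ≤ 1 := by
    have := ck_ge hk
    linarith
  have hge0 : 0 ≤ 1 - ck k := by
    have := ck_le_one (k := k) (by omega)
    linarith
  have e4 : (((k : ℝ) - 1) * M) ^ (k - 1) ≤ (1 - ck k + η) * ((k : ℝ) * (M - 1)) ^ (k - 1) := by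
    rw [mul_pow, mul_pow, hck]
    have hkp : (0 : ℝ) < (k : ℝ) ^ (k - 1) := by positivity
    have hMp : (0 : ℝ) ≤ ((M : ℝ) - 1) ^ (k - 1) := pow_nonneg (by linarith) _
    calc (1 - ck k) * (k : ℝ) ^ (k - 1) * (M : ℝ) ^ (k - 1)
        ≤ (1 - ck k) * (k : ℝ) ^ (k - 1) * ((1 + η) * ((M : ℝ) - 1) ^ (k - 1)) :=
          mul_le_mul_of_nonneg_left e3 (by positivity)
      _ = ((1 - ck k) + (1 - ck k) * η) * ((k : ℝ) ^ (k - 1) * ((M : ℝ) - 1) ^ (k - 1)) := by ring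
      _ ≤ (1 - ck k + η) * ((k : ℝ) ^ (k - 1) * ((M : ℝ) - 1) ^ (k - 1)) := by
          apply mul_le_mul_of_nonneg_right _ (by positivity)
          nlinarith
  have e5 : ((k * M - M).choose (k - 1) : ℝ) * ((k - 1).factorial : ℝ) ≤
      (1 - ck k + η) * ((k * M - 1).choose (k - 1) : ℝ) * ((k - 1).factorial : ℝ) := by
    calc ((k * M - M).choose (k - 1) : ℝ) * ((k - 1).factorial : ℝ)
        ≤ (1 - ck k + η) * ((k : ℝ) * (M - 1)) ^ (k - 1) := e1.trans e4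
      _ ≤ (1 - ck k + η) * (((k * M - 1).choose (k - 1) : ℝ) * ((k - 1).factorial : ℝ)) :=
          mul_le_mul_of_nonneg_left e2 (by linarith)
      _ = _ := by ring
  have e6 := le_of_mul_le_mul_right e5 hfac
  linarith

end Pool.Agent.Lib.H3MT
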