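import Pool.Agent.Lib.H3MT.Defs

/-! # H3MT, chunk Z2: the restriction of a hypergraph to the complement of a vertex set -/

namespace Pool.Agent.Lib.H3MT

variable {V : Type} [Fintype V] [DecidableEq V]

/-- the edges of `H` disjoint from `A`, as a hypergraph on `{v // v ∉ A}` -/
def restr (H : Finset (Finset V)) (A : Finset V) : Finset (Finset {v // v ∉ A}) :=
  Finset.univ.filter (fun e => e.map (Function.Embedding.subtype (fun v => v ∉ A)) ∈ H)

theorem Z2_mem {H : Finset (Finset V)} {A : Finset V} {e : Finset {v // v ∉ A}} :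
    e ∈ restr H A ↔ e.map (Function.Embedding.subtype (fun v => v ∉ A)) ∈ H := by
  unfold restr
  rw [Finset.mem_filter]
  exact ⟨fun h => h.2, fun h => ⟨Finset.mem_univ _, h⟩⟩

theorem restr_uniform {k : ℕ} {H : Finset (Finset V)} (hH : Uniform k H) (A : Finset V) :
    Uniform k (restr H A) := by
  intro e he
  rw [Z2_mem] at he
  have h := hH _ he
  rwa [Finset.card_map] at h

theorem card_compl (A : Finset V) : Fintype.card {v // v ∉ A} = Fintype.card V - A.card := by
  rw [Fintype.card_of_subtype Aᶜ (fun x => Finset.mem_compl), Finset.card_compl]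

/-- edges containing a given set -/
theorem Z2_super {k : ℕ} {H : Finset (Finset V)} (hH : Uniform k H) (B : Finset V) :
    (H.filter (fun e => B ⊆ e)).card ≤ (Fintype.card V - B.card).choose (k - B.card) := by
  have h1 : (Bᶜ.powersetCard (k - B.card)).card =
      (Fintype.card V - B.card).choose (k - B.card) := by
    rw [Finset.card_powersetCard, Finset.card_compl]
  rw [← h1]
  apply Finset.card_le_card_of_injOn (fun e => e \ B)
  · intro e he
    rw [Finset.mem_coe, Finset.mem_filter] at he
    rw [Finset.mem_coe, Finset.mem_powersetCard]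
    constructor
    · intro x hx
      rw [Finset.mem_compl]
      exact (Finset.mem_sdiff.1 hx).2
    · rw [Finset.card_sdiff_of_subset he.2, hH e he.1]
  · intro e he e' he' h
    rw [Finset.mem_coe, Finset.mem_filter] at he he'
    have h2 : e \ B = e' \ B := h
    rw [← Finset.sdiff_union_of_subset he.2, ← Finset.sdiff_union_of_subset he'.2, h2]

/-- the edges disjoint from `A` come from the restriction -/
theorem Z2_disj {H : Finset (Finset V)} {A : Finset V} {e : Finset V} (he : e ∈ H)
    (hd : Disjoint e A) : ∃ e' ∈ restr H A,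
      e'.map (Function.Embedding.subtype (fun v => v ∉ A)) = e := by
  have h1 : (e.subtype (fun v => v ∉ A)).map (Function.Embedding.subtype (fun v => v ∉ A)) = e :=
    Finset.subtype_map_of_mem fun x hx => Finset.disjoint_left.1 hd hx
  exact ⟨e.subtype (fun v => v ∉ A), by rw [Z2_mem, h1]; exact he, h1⟩

/-- The edges of `H` containing `v` and disjoint from `A` correspond to the edges of `restr H A` containing `v`; those
containing `v` and meeting `A` are at most `∑ a ∈ A, #{e ∈ H : v, a ∈ e} ≤ |A| C(N-2, k-2)`
(`a ≠ v`; the `k`-sets containing two given vertices; `N = |V|`). -/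
theorem restr_deg {k : ℕ} (hk : 2 ≤ k) {H : Finset (Finset V)} (hH : Uniform k H) (A : Finset V)
    (v : {v // v ∉ A}) :
    deg H v.1 ≤ deg (restr H A) v + A.card * (Fintype.card V - 2).choose (k - 2) := by
  have hsub : H.filter (fun e => v.1 ∈ e) ⊆
      ((restr H A).filter (fun e => v ∈ e)).image
        (fun e => e.map (Function.Embedding.subtype (fun v => v ∉ A))) ∪
      A.biUnion (fun a => H.filter (fun e => ({v.1, a} : Finset V) ⊆ e)) := by
    intro e he
    rw [Finset.mem_filter] at he
    rw [Finset.mem_union]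
    by_cases hd : Disjoint e A
    · left
      obtain ⟨e', he', h1⟩ := Z2_disj he.1 hd
      refine Finset.mem_image.2 ⟨e', Finset.mem_filter.2 ⟨he', ?_⟩, h1⟩
      have h2 := he.2
      rw [← h1, Finset.mem_map] at h2
      obtain ⟨u, hu, hu'⟩ := h2
      have : u = v := Subtype.ext hu'
      rw [← this]
      exact hu
    · right
      rw [Finset.not_disjoint_iff] at hd
      obtain ⟨a, hae, haA⟩ := hd
      refine Finset.mem_biUnion.2 ⟨a, haA, Finset.mem_filter.2 ⟨he.1, ?_⟩⟩
      intro x hx
      rw [Finset.mem_insert, Finset.mem_singleton] at hx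
      rcases hx with rfl | rfl
      · exact he.2
      · exact hae
  have h1 : ∀ a ∈ A, (H.filter (fun e => ({v.1, a} : Finset V) ⊆ e)).card ≤
      (Fintype.card V - 2).choose (k - 2) := by
    intro a ha
    have hne : v.1 ≠ a := by
      intro h
      exact v.2 (h ▸ ha)
    have h2 := Z2_super hH ({v.1, a} : Finset V)
    rwa [Finset.card_pair hne] at h2
  calc deg H v.1 = (H.filter (fun e => v.1 ∈ e)).card := rfl
    _ ≤ _ := Finset.card_le_card hsub
    _ ≤ _ := Finset.card_union_le _ _
    _ ≤ deg (restr H A) v + A.card * (Fintype.card V - 2).choose (k - 2) := by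
      apply Nat.add_le_add
      · exact Finset.card_image_le
      · refine Finset.card_biUnion_le.trans ((Finset.sum_le_sum h1).trans ?_)
        rw [Finset.sum_const, smul_eq_mul]

/-- lifting a matching: `M1.map`/`image` of `e ↦ e.map (Embedding.subtype _)`; it is a matching of edges of `H`, of the same
cardinality, covering exactly the image of the covered set. -/
theorem restr_lift {H : Finset (Finset V)} (A : Finset V) {M1 : Finset (Finset {v // v ∉ A})}
    (h1 : M1 ⊆ restr H A) (h2 : IsMatching M1) :
    ∃ M : Finset (Finset V), M ⊆ H ∧ IsMatching M ∧ M.card = M1.card ∧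
      M.biUnion id = (M1.biUnion id).map (Function.Embedding.subtype (fun v => v ∉ A)) := by
  refine ⟨M1.image (fun e => e.map (Function.Embedding.subtype (fun v => v ∉ A))), ?_, ?_, ?_, ?_⟩
  · intro e he
    obtain ⟨e', he', rfl⟩ := Finset.mem_image.1 he
    exact Z2_mem.1 (h1 he')
  · intro e he e' he' hne
    rw [Finset.mem_coe, Finset.mem_image] at he he'
    obtain ⟨f, hf, rfl⟩ := he
    obtain ⟨f', hf', rfl⟩ := he'
    have hff : f ≠ f' := fun h => hne (by rw [h])
    have h3 : Disjoint f f' := h2 (Finset.mem_coe.2 hf) (Finset.mem_coe.2 hf') hff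
    exact (Finset.disjoint_map _).2 h3
  · apply Finset.card_image_of_injective
    exact Finset.map_injective _
  · ext x
    simp only [Finset.mem_biUnion, Finset.mem_image, Finset.mem_map, id]
    constructor
    · rintro ⟨_, ⟨f, hf, rfl⟩, hx⟩
      obtain ⟨u, hu, hux⟩ := Finset.mem_map.1 hx
      exact ⟨u, ⟨f, hf, hu⟩, hux⟩
    · rintro ⟨u, ⟨f, hf, hu⟩, hux⟩
      exact ⟨_, ⟨f, hf, rfl⟩, Finset.mem_map.2 ⟨u, hu, hux⟩⟩

omit [Fintype V] in
/-- a matching of `k`-sets covers `k |M|` vertices -/
theorem matching_card {k : ℕ} {M : Finset (Finset V)} (hM : Uniform k M) (h : IsMatching M) :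
    (M.biUnion id).card = k * M.card := by
  rw [Finset.card_biUnion (fun e he e' he' hne => h (Finset.mem_coe.2 he) (Finset.mem_coe.2 he') hne)]
  have h1 : ∀ e ∈ M, (id e).card = k := fun e he => hM e he
  rw [Finset.sum_congr rfl h1, Finset.sum_const, smul_eq_mul, mul_comm]

/-- `S = S' ∪ T` with `T ⊆ A`, `|T| = |A|/k`: `k ∣ |V|`, `k ∣ |A|`, so `|S| = (|V| - |A|)/k + |A|/k = |V|/k`. The edges of `H`
disjoint from `S` are: images of the edges of `restr H A` disjoint from `S'`, and edges meeting `A`, at most
`|A| C(N-1,k-1) ≤ μ N * N^(k-1)`. -/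
theorem restr_extremal {k : ℕ} (hk : 2 ≤ k) {H : Finset (Finset V)} (hH : Uniform k H)
    {A : Finset V} {μ ε₀ : ℝ} (hV : k ∣ Fintype.card V) (hAk : k ∣ A.card) (hε : 0 ≤ ε₀)
    (hA : (A.card : ℝ) ≤ μ * Fintype.card V) (h : Extremal k ε₀ (restr H A)) :
    Extremal k (ε₀ + μ) H := by
  obtain ⟨S', hS', hc⟩ := h
  have hk0 : 0 < k := by omega
  obtain ⟨T, hTA, hT⟩ := Finset.exists_subset_card_eq (Nat.div_le_self A.card k)
  have hAV : A.card ≤ Fintype.card V := Finset.card_le_univ A
  have hdST : Disjoint (S'.map (Function.Embedding.subtype (fun v => v ∉ A))) T := by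
    rw [Finset.disjoint_left]
    intro x hx hxT
    obtain ⟨u, -, rfl⟩ := Finset.mem_map.1 hx
    exact u.2 (hTA hxT)
  refine ⟨S'.map (Function.Embedding.subtype (fun v => v ∉ A)) ∪ T, ?_, ?_⟩
  · rw [Finset.card_union_of_disjoint hdST, Finset.card_map, hS', hT, card_compl]
    obtain ⟨a, ha⟩ := hV
    obtain ⟨b, hb⟩ := hAk
    rw [ha, hb] at hAV ⊢
    have hba : b ≤ a := Nat.le_of_mul_le_mul_left hAV hk0
    rw [← Nat.mul_sub, Nat.mul_div_cancel_left _ hk0, Nat.mul_div_cancel_left _ hk0,
      Nat.mul_div_cancel_left _ hk0]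
    omega
  · -- the count
    have hsub : H.filter (fun e => Disjoint e
        (S'.map (Function.Embedding.subtype (fun v => v ∉ A)) ∪ T)) ⊆
        ((restr H A).filter (fun e => Disjoint e S')).image
          (fun e => e.map (Function.Embedding.subtype (fun v => v ∉ A))) ∪
        A.biUnion (fun a => H.filter (fun e => ({a} : Finset V) ⊆ e)) := by
      intro e he
      rw [Finset.mem_filter] at he
      rw [Finset.mem_union]
      by_cases hd : Disjoint e A
      · left
        obtain ⟨e', he', h1⟩ := Z2_disj he.1 hd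
        refine Finset.mem_image.2 ⟨e', Finset.mem_filter.2 ⟨he', ?_⟩, h1⟩
        have h2 := (Finset.disjoint_union_right.1 he.2).1
        rw [← h1] at h2
        exact (Finset.disjoint_map _).1 h2
      · right
        rw [Finset.not_disjoint_iff] at hd
        obtain ⟨a, hae, haA⟩ := hd
        exact Finset.mem_biUnion.2 ⟨a, haA, Finset.mem_filter.2 ⟨he.1,
          Finset.singleton_subset_iff.2 hae⟩⟩
    have h1 : ∀ a ∈ A, (H.filter (fun e => ({a} : Finset V) ⊆ e)).card ≤
        Fintype.card V ^ (k - 1) := by
      intro a _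
      have h2 := Z2_super hH ({a} : Finset V)
      rw [Finset.card_singleton] at h2
      refine h2.trans ((Nat.choose_le_pow _ _).trans ?_)
      exact Nat.pow_le_pow_left (Nat.sub_le _ _) _
    have h3 : (H.filter (fun e => Disjoint e
        (S'.map (Function.Embedding.subtype (fun v => v ∉ A)) ∪ T))).card ≤
        ((restr H A).filter (fun e => Disjoint e S')).card + A.card * Fintype.card V ^ (k - 1) := by
      refine (Finset.card_le_card hsub).trans ((Finset.card_union_le _ _).trans ?_)
      apply Nat.add_le_add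
      · exact Finset.card_image_le
      · refine Finset.card_biUnion_le.trans ((Finset.sum_le_sum h1).trans ?_)
        rw [Finset.sum_const, smul_eq_mul]
    have h4 : ((H.filter (fun e => Disjoint e
        (S'.map (Function.Embedding.subtype (fun v => v ∉ A)) ∪ T))).card : ℝ) ≤
        ((restr H A).filter (fun e => Disjoint e S')).card +
          (A.card : ℝ) * (Fintype.card V : ℝ) ^ (k - 1) := by exact_mod_cast h3
    refine h4.trans ?_
    have h5 : (Fintype.card {v // v ∉ A} : ℝ) ≤ Fintype.card V := by
      rw [card_compl]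
      exact_mod_cast Nat.sub_le _ _
    have h6 : ε₀ * (Fintype.card {v // v ∉ A} : ℝ) ^ k ≤ ε₀ * (Fintype.card V : ℝ) ^ k :=
      mul_le_mul_of_nonneg_left (pow_le_pow_left₀ (by positivity) h5 k) hε
    have h7 : (A.card : ℝ) * (Fintype.card V : ℝ) ^ (k - 1) ≤
        μ * (Fintype.card V : ℝ) ^ k := by
      have h8 : (Fintype.card V : ℝ) ^ k = Fintype.card V * (Fintype.card V : ℝ) ^ (k - 1) := by
        rw [← pow_succ', Nat.sub_add_cancel hk0]
      rw [h8, ← mul_assoc]
      exact mul_le_mul_of_nonneg_right hA (by positivity)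
    have h9 := hc.trans h6
    rw [add_mul]
    linarith

end Pool.Agent.Lib.H3MT
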