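import Pool.Agent.Lib.H3MT.Z1
import Pool.Agent.Lib.H3MT.Z2

/-! # H3MT, chunk Z3: assembly of the non-extremal case -/

namespace Pool.Agent.Lib.H3MT

theorem Z3_extremal_mono {V : Type} [Fintype V] [DecidableEq V] {k : ℕ} {ε ε' : ℝ}
    {H : Finset (Finset V)} (h : ε ≤ ε') (hE : Extremal k ε H) : Extremal k ε' H := by
  obtain ⟨S, hS, hle⟩ := hE
  refine ⟨S, hS, hle.trans ?_⟩
  exact mul_le_mul_of_nonneg_right h (by positivity)

/-- `N C(N-2,k-2) ≤ 2 (k-1) C(N-1,k-1)` -/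
theorem Z3_choose {N k : ℕ} (hN : 2 ≤ N) (hk : 2 ≤ k) :
    (N : ℝ) * ((N - 2).choose (k - 2) : ℝ) ≤ 2 * ((k : ℝ) - 1) * ((N - 1).choose (k - 1) : ℝ) := by
  obtain ⟨a, rfl⟩ : ∃ a, N = a + 2 := ⟨N - 2, by omega⟩
  obtain ⟨b, rfl⟩ : ∃ b, k = b + 2 := ⟨k - 2, by omega⟩
  have h1 : (a + 2 - 1) * ((a + 2 - 2).choose (b + 2 - 2)) =
      ((a + 2 - 1).choose (b + 2 - 1)) * (b + 2 - 1) := by
    have := Nat.add_one_mul_choose_eq a b
    simpa [Nat.succ_eq_add_one] using this
  have e1 : a + 2 - 1 = a + 1 := by omega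
  have e2 : a + 2 - 2 = a := by omega
  have e3 : b + 2 - 2 = b := by omega
  have e4 : b + 2 - 1 = b + 1 := by omega
  rw [e1, e2, e3, e4] at h1
  rw [e1, e2, e3, e4]
  have h2 : ((a : ℝ) + 1) * (a.choose b : ℝ) = ((a + 1).choose (b + 1) : ℝ) * ((b : ℝ) + 1) := by
    exact_mod_cast h1
  push_cast
  have h3 : (0 : ℝ) ≤ (a.choose b : ℝ) := by positivity
  have h4 : (0 : ℝ) ≤ (a : ℝ) := by positivity
  nlinarith

/-- Non-extremal case. Given `k ≥ 3`, `ε₁ > 0`. `η` := constant of B2 for `ε₀ = ε₁/2`. `μ := min (ε₁/2) (min (1/2) (η/(4k)))`.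
B4 with `γ = 1/30` (`ck - 1/45 ≥ 5/9 - 1/45 = 8/15 = 1/2 + 1/30`, so `d0_ge` with `1/45` gives the degree hypothesis) and `μ`: `μ'`, and for `H`
the absorbing matching `M`, `A := M.biUnion id`, `|A| = k |M|` (`matching_card`), `|A| ≤ μ N`.
B2 with `ε = μ'/2`: `C`; B3 with this `C` and `ε = μ'/(2k)`.
`H' = restr H A`, `N' = N - |A| ≥ N/2`, `k ∣ N'`. Degrees: `deg H' v ≥ d0 - |A| C(N-2,k-2)
≥ (ck - η/2) C(N-1,k-1) - μ N C(N-2,k-2) ≥ (ck - η) C(N-1,k-1)` (`d0_ge` with `η/2`,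
`N C(N-2,k-2) ≤ 2 (N-1) C(N-2,k-2) = 2 (k-1) C(N-1,k-1)`), which is `≥ (ck - η) C(N'-1,k-1)` (if `ck - η ≥ 0` by monotonicity of
binomials, otherwise the right side is `≤ 0`). `H'` is not `ε₁/2`-extremal by `restr_extremal`.
So there is a matching `M1` of `H'` with `|M1| ≥ (1 - μ'/2) N'/k - (μ'/(2k)) N'`, i.e. `N' - k |M1| ≤ μ' N' ≤ μ' N`.
Lift it (`restr_lift`). `W` := the uncovered vertices outside `A`, `|W| = N' - k |M1|` is divisible by `k`. Absorb `W`; the union of the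
absorbing matching `M'` and the lifted `M1` is a perfect matching. -/
theorem nonextremal (h2 : StatementB2) (h3 : StatementB3) (h4 : StatementB4) {k : ℕ} (hk : 3 ≤ k)
    {ε₁ : ℝ} (hε : 0 < ε₁) : ∃ N₀ : ℕ, ∀ (V : Type) [Fintype V] [DecidableEq V]
    (H : Finset (Finset V)), N₀ ≤ Fintype.card V → k ∣ Fintype.card V → Uniform k H →
    (∀ v, d0 k (Fintype.card V) + 1 ≤ deg H v) → ¬ Extremal k ε₁ H → HasPM H := by
  have hkr : (3 : ℝ) ≤ k := by exact_mod_cast hk
  obtain ⟨η, hη, h2'⟩ := h2 k (ε₁ / 2) hk (by linarith)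
  set μ : ℝ := min (ε₁ / 2) (min (1 / 2) (η / (4 * k))) with hμdef
  have hμ : 0 < μ := by
    refine lt_min (by linarith) (lt_min (by norm_num) (by positivity))
  have hμ1 : μ ≤ ε₁ / 2 := min_le_left _ _
  have hμ2 : μ ≤ 1 / 2 := (min_le_right _ _).trans (min_le_left _ _)
  have hμ3 : μ ≤ η / (4 * k) := (min_le_right _ _).trans (min_le_right _ _)
  obtain ⟨μ', hμ', N4, h4'⟩ := h4 k (1 / 30) μ (by omega) (by norm_num) hμ
  obtain ⟨C, N2, h2''⟩ := h2' (μ' / 2) (by linarith)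
  obtain ⟨N3, h3'⟩ := h3 k C (μ' / (2 * k)) (by omega) (by positivity)
  obtain ⟨Na, hNa⟩ := d0_ge hk (η := 1 / 45) (by norm_num)
  obtain ⟨Nb, hNb⟩ := d0_ge hk (η := η / 2) (by linarith)
  refine ⟨2 * (N2 + N3) + N4 + Na + Nb + 2, ?_⟩
  intro V _ _ H hN hkN hH hdeg hnex
  set N := Fintype.card V with hNdef
  have hNa' := hNa N (by omega) hkN
  have hNb' := hNb N (by omega) hkN
  have hck := ck_ge hk
  -- absorbing matching
  obtain ⟨M, hMH, hMm, hMcard, hMabs⟩ := h4' V H (by omega) hH (by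
    intro v
    have h1 : ((d0 k N + 1 : ℕ) : ℝ) ≤ deg H v := by exact_mod_cast hdeg v
    push_cast at h1
    have h2 : (0 : ℝ) ≤ ((N - 1).choose (k - 1) : ℝ) := by positivity
    nlinarith)
  set A := M.biUnion id with hA
  have hMu : Uniform k M := fun e he => hH e (hMH he)
  have hAcard : A.card = k * M.card := matching_card hMu hMm
  have hkA : k ∣ A.card := ⟨_, hAcard⟩
  have hAle : A.card ≤ N := Finset.card_le_univ A
  have hN' : Fintype.card {v // v ∉ A} = N - A.card := card_compl A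
  set N' := Fintype.card {v // v ∉ A} with hN'def
  have hN'r : (N' : ℝ) = N - A.card := by rw [hN', Nat.cast_sub hAle]
  have hNpos : (2 : ℝ) ≤ N := by
    have : 2 ≤ N := by omega
    exact_mod_cast this
  have hhalf : (N : ℝ) ≤ 2 * N' := by
    rw [hN'r]; nlinarith
  have hhalf' : N ≤ 2 * N' := by exact_mod_cast hhalf
  have hkN' : k ∣ N' := by rw [hN']; exact Nat.dvd_sub hkN hkA
  have hN'le : N' ≤ N := by rw [hN']; omega
  -- the restricted hypergraph
  have hH'u := restr_uniform hH A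
  have hdeg' : ∀ v, (ck k - η) * ((N' - 1).choose (k - 1) : ℝ) ≤ deg (restr H A) v := by
    intro v
    have h1 := restr_deg (by omega : 2 ≤ k) hH A v
    have h1' : (deg H v.1 : ℝ) ≤ deg (restr H A) v + A.card * ((N - 2).choose (k - 2) : ℝ) := by
      exact_mod_cast h1
    have h2 : ((d0 k N + 1 : ℕ) : ℝ) ≤ deg H v.1 := by exact_mod_cast hdeg v.1
    push_cast at h2
    have h3 := Z3_choose (N := N) (k := k) (by omega) (by omega)
    have hc0 : (0 : ℝ) ≤ ((N - 1).choose (k - 1) : ℝ) := by positivity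
    have hc2 : (0 : ℝ) ≤ ((N - 2).choose (k - 2) : ℝ) := by positivity
    have h4 : (A.card : ℝ) * ((N - 2).choose (k - 2) : ℝ) ≤
        μ * (2 * ((k : ℝ) - 1) * ((N - 1).choose (k - 1) : ℝ)) := by
      calc (A.card : ℝ) * ((N - 2).choose (k - 2) : ℝ)
          ≤ (μ * N) * ((N - 2).choose (k - 2) : ℝ) := mul_le_mul_of_nonneg_right hMcard hc2
        _ = μ * (N * ((N - 2).choose (k - 2) : ℝ)) := by ring
        _ ≤ _ := mul_le_mul_of_nonneg_left h3 hμ.le
    have h5 : μ * (2 * ((k : ℝ) - 1)) ≤ η / 2 := by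
      have hk0 : (0 : ℝ) < 4 * k := by linarith
      have : μ * (4 * k) ≤ η := by rwa [le_div_iff₀ hk0] at hμ3
      nlinarith
    have h6 : (ck k - η) * ((N - 1).choose (k - 1) : ℝ) ≤ deg (restr H A) v := by
      have : μ * (2 * ((k : ℝ) - 1) * ((N - 1).choose (k - 1) : ℝ)) ≤
          η / 2 * ((N - 1).choose (k - 1) : ℝ) := by
        rw [← mul_assoc]
        exact mul_le_mul_of_nonneg_right h5 hc0
      nlinarith
    by_cases hpos : 0 ≤ ck k - η
    · refine le_trans (mul_le_mul_of_nonneg_left ?_ hpos) h6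
      exact_mod_cast Nat.choose_le_choose _ (by omega)
    · push Not at hpos
      have : (ck k - η) * ((N' - 1).choose (k - 1) : ℝ) ≤ 0 :=
        mul_nonpos_of_nonpos_of_nonneg hpos.le (by positivity)
      exact this.trans (by positivity)
  have hnex' : ¬ Extremal k (ε₁ / 2) (restr H A) := by
    intro hE
    apply hnex
    have := restr_extremal (by omega : 2 ≤ k) hH (μ := μ) hkN hkA (by linarith) hMcard hE
    exact Z3_extremal_mono (by linarith) this
  obtain ⟨w, hw, hwsum⟩ := h2'' {v // v ∉ A} (restr H A) (by omega) hkN' hH'u hdeg' hnex'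
  obtain ⟨M1, hM1H, hM1m, hM1card⟩ := h3' {v // v ∉ A} (restr H A) w (by omega) hH'u hw
  obtain ⟨M2, hM2H, hM2m, hM2card, hM2cov⟩ := restr_lift A hM1H hM1m
  have hM1u : Uniform k M1 := fun e he => hH'u e (hM1H he)
  have hM1cov : (M1.biUnion id).card = k * M1.card := matching_card hM1u hM1m
  -- the leftover
  set B := M2.biUnion id with hB
  have hBcard : B.card = k * M1.card := by rw [hM2cov, Finset.card_map, hM1cov]
  have hBA : Disjoint B A := by
    rw [hM2cov, Finset.disjoint_left]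
    intro v hv hvA
    rw [Finset.mem_map] at hv
    obtain ⟨v', -, rfl⟩ := hv
    exact v'.2 hvA
  set W : Finset V := Finset.univ \ (A ∪ B) with hW
  have hWA : Disjoint W A := by
    rw [Finset.disjoint_left]
    intro v hv hvA
    rw [hW, Finset.mem_sdiff] at hv
    exact hv.2 (Finset.mem_union_left _ hvA)
  have hABcard : (A ∪ B).card = A.card + B.card := by
    rw [Finset.union_comm, Finset.card_union_of_disjoint hBA]; ring
  have hWcard : W.card + (A.card + B.card) = N := by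
    rw [hW, ← hABcard, Finset.card_sdiff_add_card_eq_card (Finset.subset_univ _), Finset.card_univ]
  have hWN' : W.card + k * M1.card = N' := by rw [hN', ← hBcard]; omega
  have hkW : k ∣ W.card := by
    have h1 : W.card = N' - k * M1.card := by omega
    rw [h1]
    exact Nat.dvd_sub hkN' (Dvd.intro _ rfl)
  have hWle : (W.card : ℝ) ≤ μ' * N := by
    have h1 : (W.card : ℝ) + k * M1.card = N' := by exact_mod_cast hWN'
    have h2 : (1 - μ' / 2) * (N' : ℝ) / k - μ' / (2 * k) * N' ≤ M1.card := by linarith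
    have hk0 : (0 : ℝ) < k := by linarith
    have h3 : (1 - μ' / 2) * (N' : ℝ) - μ' / 2 * N' ≤ k * M1.card := by
      have h4 := mul_le_mul_of_nonneg_left h2 hk0.le
      have h5 : (k : ℝ) * ((1 - μ' / 2) * (N' : ℝ) / k - μ' / (2 * k) * N') =
          (1 - μ' / 2) * (N' : ℝ) - μ' / 2 * N' := by field_simp
      linarith
    have h6 : (W.card : ℝ) ≤ μ' * N' := by linarith
    have h7 : (N' : ℝ) ≤ N := by exact_mod_cast hN'le
    nlinarith
  obtain ⟨M', hM'H, hM'm, hM'cov⟩ := hMabs W hWA hWle hkW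
  refine ⟨M' ∪ M2, Finset.union_subset hM'H hM2H, ?_, ?_⟩
  · unfold IsMatching at *
    rw [Finset.coe_union]
    refine Set.PairwiseDisjoint.union hM'm hM2m ?_
    intro e he f hf hef
    show Disjoint e f
    rw [Finset.disjoint_left]
    intro v hve hvf
    have h1 : v ∈ M'.biUnion id := Finset.mem_biUnion.mpr ⟨e, he, hve⟩
    have h2 : v ∈ B := Finset.mem_biUnion.mpr ⟨f, hf, hvf⟩
    rw [hM'cov, Finset.mem_union] at h1
    rcases h1 with h1 | h1
    · exact (Finset.disjoint_left.mp hBA) h2 h1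
    · rw [hW, Finset.mem_sdiff] at h1
      exact h1.2 (Finset.mem_union_right _ h2)
  · rw [Finset.union_biUnion, hM'cov]
    ext v
    simp only [Finset.mem_union, Finset.mem_univ, iff_true]
    by_cases hv : v ∈ A ∪ B
    · rcases Finset.mem_union.mp hv with h | h
      · exact Or.inl (Or.inl h)
      · exact Or.inr h
    · exact Or.inl (Or.inr (Finset.mem_sdiff.mpr ⟨Finset.mem_univ _, hv⟩))

end Pool.Agent.Lib.H3MT
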