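import Pool.Agent.Lib.H3MT.Defs

/-! # H3MT, chunk Z4: the lower bound construction -/

namespace Pool.Agent.Lib.H3MT

theorem Z4_count {V : Type*} [DecidableEq V] {k : ℕ} (hk : 1 ≤ k) (X : Finset V) (v : V)
    (hv : v ∈ X) :
    ((X.powersetCard k).filter (fun e => v ∈ e)).card = (X.card - 1).choose (k - 1) := by
  rw [← Finset.card_erase_of_mem hv, ← Finset.card_powersetCard]
  refine Finset.card_nbij' (fun e => e.erase v) (fun e => insert v e) ?_ ?_ ?_ ?_
  · intro e he
    rw [Finset.mem_coe, Finset.mem_filter, Finset.mem_powersetCard] at he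
    rw [Finset.mem_coe, Finset.mem_powersetCard, Finset.card_erase_of_mem he.2, he.1.2]
    exact ⟨Finset.erase_subset_erase _ he.1.1, rfl⟩
  · intro e he
    rw [Finset.mem_coe, Finset.mem_powersetCard] at he
    have hve : v ∉ e := fun h => (Finset.mem_erase.1 (he.1 h)).1 rfl
    rw [Finset.mem_coe, Finset.mem_filter, Finset.mem_powersetCard,
      Finset.card_insert_of_notMem hve, he.2]
    refine ⟨⟨?_, by omega⟩, Finset.mem_insert_self _ _⟩
    exact Finset.insert_subset hv (he.1.trans (Finset.erase_subset _ _))
  · intro e he
    rw [Finset.mem_coe, Finset.mem_filter] at he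
    exact Finset.insert_erase he.2
  · intro e he
    rw [Finset.mem_coe, Finset.mem_powersetCard] at he
    have hve : v ∉ e := fun h => (Finset.mem_erase.1 (he.1 h)).1 rfl
    exact Finset.erase_insert hve

/-- `S` = a set of `n/k - 1` vertices, `H` = all `k`-subsets of `Fin n` meeting `S` (`powersetCard k univ`, filter). A vertex `v ∉ S` has degree
`C(n-1,k-1) - C(n-1-(n/k-1), k-1) = d0 k n`; a vertex of `S` has degree `C(n-1,k-1) ≥ d0 k n`. A perfect matching has `n/k` edges, each
containing a vertex of `S`, different edges different vertices: `n/k ≤ |S| = n/k - 1`, a contradiction. -/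
theorem lower {k n : ℕ} (hk : 2 ≤ k) (hn : 1 ≤ n / k) (hkn : k ∣ n) :
    ∃ H : Finset (Finset (Fin n)), Uniform k H ∧ (∀ v, d0 k n ≤ deg H v) ∧ ¬ HasPM H := by
  classical
  have hle : n / k - 1 ≤ (Finset.univ : Finset (Fin n)).card := by
    rw [Finset.card_univ, Fintype.card_fin]
    exact (Nat.sub_le _ _).trans (Nat.div_le_self _ _)
  obtain ⟨S, -, hS⟩ := Finset.exists_subset_card_eq hle
  refine ⟨((Finset.univ : Finset (Fin n)).powersetCard k).filter (fun e => ¬ Disjoint e S),
    ?_, ?_, ?_⟩
  · intro e he
    rw [Finset.mem_filter, Finset.mem_powersetCard] at he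
    exact he.1.2
  · intro v
    have h1 := Z4_count (k := k) (by omega) (Finset.univ : Finset (Fin n)) v (Finset.mem_univ v)
    rw [Finset.card_univ, Fintype.card_fin] at h1
    -- the sets containing v and disjoint from S
    have h2 : ((((Finset.univ : Finset (Fin n)).powersetCard k).filter (fun e => v ∈ e)).filter
        (fun e => Disjoint e S)).card ≤ (n - n / k).choose (k - 1) := by
      by_cases hv : v ∈ S
      · have h3 : ((((Finset.univ : Finset (Fin n)).powersetCard k).filter
            (fun e => v ∈ e)).filter (fun e => Disjoint e S)) = ∅ := by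
          apply Finset.filter_eq_empty_iff.2
          intro e he hd
          rw [Finset.mem_filter] at he
          exact Finset.disjoint_left.1 hd he.2 hv
        rw [h3, Finset.card_empty]
        exact Nat.zero_le _
      · have h3 : ((((Finset.univ : Finset (Fin n)).powersetCard k).filter
            (fun e => v ∈ e)).filter (fun e => Disjoint e S)) ⊆
            (Sᶜ.powersetCard k).filter (fun e => v ∈ e) := by
          intro e he
          rw [Finset.mem_filter, Finset.mem_filter, Finset.mem_powersetCard] at he
          rw [Finset.mem_filter, Finset.mem_powersetCard]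
          refine ⟨⟨?_, he.1.1.2⟩, he.1.2⟩
          intro x hx
          rw [Finset.mem_compl]
          exact Finset.disjoint_left.1 he.2 hx
        refine (Finset.card_le_card h3).trans ?_
        rw [Z4_count (by omega) Sᶜ v (Finset.mem_compl.2 hv), Finset.card_compl, hS,
          Fintype.card_fin]
        have h4 : n - (n / k - 1) - 1 = n - n / k := by omega
        rw [h4]
    have h3 := Finset.card_filter_add_card_filter_not (s := ((Finset.univ :
      Finset (Fin n)).powersetCard k).filter (fun e => v ∈ e)) (fun e => Disjoint e S)
    rw [h1] at h3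
    have h4 : deg (((Finset.univ : Finset (Fin n)).powersetCard k).filter
        (fun e => ¬ Disjoint e S)) v = ((((Finset.univ : Finset (Fin n)).powersetCard k).filter
        (fun e => v ∈ e)).filter (fun e => ¬ Disjoint e S)).card := by
      unfold deg
      rw [Finset.filter_filter, Finset.filter_filter]
      congr 1
      ext e
      simp only [Finset.mem_filter]
      tauto
    rw [h4, d0]
    omega
  · rintro ⟨M, hMH, hM, hMu⟩
    have h1 : ∀ e ∈ M, e.card = k := by
      intro e he
      have := hMH he
      rw [Finset.mem_filter, Finset.mem_powersetCard] at this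
      exact this.1.2
    have h2 : M.card * k = n := by
      have h3 := Finset.card_biUnion (s := M) (t := id) hM
      have h3' : ∑ u ∈ M, (id u).card = ∑ u ∈ M, k := Finset.sum_congr rfl h1
      rw [hMu, Finset.card_univ, Fintype.card_fin, h3', Finset.sum_const, smul_eq_mul] at h3
      exact h3.symm
    have h4 : M.card = n / k := (Nat.div_eq_of_eq_mul_left (by omega) h2.symm).symm
    have h5 : M.card ≤ S.card := by
      have h6 : (M.biUnion fun e => e ∩ S) ⊆ S := by
        intro x hx
        rw [Finset.mem_biUnion] at hx
        obtain ⟨e, -, hx⟩ := hx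
        exact (Finset.mem_inter.1 hx).2
      have h7 : ∀ e ∈ M, ∀ f ∈ M, e ≠ f → Disjoint (e ∩ S) (f ∩ S) := by
        intro e he f hf hef
        exact (hM he hf hef).mono Finset.inter_subset_left Finset.inter_subset_left
      calc M.card = ∑ e ∈ M, 1 := by simp
        _ ≤ ∑ e ∈ M, (e ∩ S).card := by
            apply Finset.sum_le_sum
            intro e he
            have h8 := hMH he
            rw [Finset.mem_filter] at h8
            rw [Nat.one_le_iff_ne_zero, Ne, Finset.card_eq_zero]
            intro h9
            exact h8.2 (Finset.disjoint_iff_inter_eq_empty.2 h9)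
        _ = (M.biUnion fun e => e ∩ S).card := (Finset.card_biUnion h7).symm
        _ ≤ S.card := Finset.card_le_card h6
    omega

end Pool.Agent.Lib.H3MT
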