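import Pool.Agent.Lib.H3MT.Z3
import Pool.Agent.Lib.H3MT.Z4

/-! # H3MT: the final assembly -/

namespace Pool.Agent.Lib.H3MT

theorem upper (h2 : StatementB2) (h3 : StatementB3) (h4 : StatementB4) (h5 : StatementB5)
    {k : ℕ} (hk : 3 ≤ k) : ∃ N₀ : ℕ, ∀ (V : Type) [Fintype V] [DecidableEq V]
    (H : Finset (Finset V)), N₀ ≤ Fintype.card V → k ∣ Fintype.card V → Uniform k H →
    (∀ v, d0 k (Fintype.card V) + 1 ≤ deg H v) → HasPM H := by
  obtain ⟨ε, hε, N5, h5'⟩ := h5 k hk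
  obtain ⟨N6, h6⟩ := nonextremal h2 h3 h4 hk hε
  refine ⟨max N5 N6, fun V _ _ H hN hkN hH hd => ?_⟩
  by_cases hex : Extremal k ε H
  · exact h5' V H (le_trans (le_max_left _ _) hN) hkN hH hd hex
  · exact h6 V H (le_trans (le_max_right _ _) hN) hkN hH hd hex

theorem main_of (h2 : StatementB2) (h3 : StatementB3) (h4 : StatementB4) (h5 : StatementB5) :
    StatementMain := by
  intro k hk
  obtain ⟨N₀, h⟩ := upper h2 h3 h4 h5 hk
  refine ⟨max N₀ k, fun n hn hkn => ?_⟩
  have hnN : N₀ ≤ n := le_trans (le_max_left _ _) hn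
  have hnk : k ≤ n := le_trans (le_max_right _ _) hn
  have hk0 : 0 < k := by omega
  have hdiv : 1 ≤ n / k := (Nat.one_le_div_iff hk0).mpr hnk
  set D : Set ℕ := {d : ℕ | ∀ H : Finset (Finset (Fin n)), Uniform k H → (∀ v, d ≤ deg H v) →
    HasPM H} with hD
  have hmem : d0 k n + 1 ∈ D := by
    intro H hH hd
    have hcard : Fintype.card (Fin n) = n := Fintype.card_fin n
    exact h (Fin n) H (by rw [hcard]; exact hnN) (by rw [hcard]; exact hkn) hH
      (by rw [hcard]; exact hd)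
  have hle : sInf D ≤ d0 k n + 1 := Nat.sInf_le hmem
  have hge : d0 k n + 1 ≤ sInf D := by
    by_contra hcon
    push Not at hcon
    have hin : sInf D ∈ D := Nat.sInf_mem ⟨_, hmem⟩
    obtain ⟨H, hH, hdeg, hno⟩ := lower (by omega : 2 ≤ k) hdiv hkn
    exact hno (hin H hH (fun v => le_trans (by omega) (hdeg v)))
  have : m1 k n = sInf D := rfl
  omega

end Pool.Agent.Lib.H3MT
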