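import Pool.Agent.Lib.H3MT.Z5

/-! # H3MT: the final statement in Mathlib terms -/

namespace Pool.Agent.Lib.H3MT

theorem final_of (h2 : StatementB2) (h3 : StatementB3) (h4 : StatementB4) (h5 : StatementB5)
    (k : ℕ) (hk : 3 ≤ k) : ∃ N₀ : ℕ, ∀ n : ℕ, N₀ ≤ n → k ∣ n →
    IsLeast {d : ℕ | ∀ H : Finset (Finset (Fin n)), (∀ e ∈ H, e.card = k) →
      (∀ v, d ≤ (H.filter (fun e => v ∈ e)).card) →
      ∃ M ⊆ H, (M : Set (Finset (Fin n))).PairwiseDisjoint id ∧ M.biUnion id = Finset.univ}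
      ((n - 1).choose (k - 1) - (n - n / k).choose (k - 1) + 1) := by
  obtain ⟨N₀, h⟩ := upper h2 h3 h4 h5 hk
  refine ⟨max N₀ k, fun n hn hkn => ?_⟩
  have hnN : N₀ ≤ n := le_trans (le_max_left _ _) hn
  have hnk : k ≤ n := le_trans (le_max_right _ _) hn
  have hk0 : 0 < k := by omega
  have hdiv : 1 ≤ n / k := (Nat.one_le_div_iff hk0).mpr hnk
  have hcard : Fintype.card (Fin n) = n := Fintype.card_fin n
  refine ⟨?_, ?_⟩
  · intro H hH hd
    have h1 : HasPM H := h (Fin n) H (by rw [hcard]; exact hnN) (by rw [hcard]; exact hkn) hH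
      (by rw [hcard]; exact hd)
    exact h1
  · intro d hd
    by_contra hcon
    push Not at hcon
    obtain ⟨H, hH, hdeg, hno⟩ := lower (by omega : 2 ≤ k) hdiv hkn
    refine hno (hd H hH (fun v => ?_))
    have h1 : d ≤ d0 k n := by unfold d0; omega
    exact h1.trans (hdeg v)

end Pool.Agent.Lib.H3MT
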